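import Pool.Agent.H94.SP.Defs

/-!
# VfA: the vector fields of the certificates

`Vf A B D e x = A(s) M_e x + (B(s) c + D(s)) x` for `‖x‖ < 1` (`s = ‖x‖^2`, `c = ce e x = 2 (x·e)^2 - s`,
`M_e x = 2 (x·e) e - x`), `0` otherwise; `‖e‖ = 1`; `A, B, D` are `C^1` near every `s ≤ 1` and vanish at `1`.
Same proofs as for `Xf` in `ER/PrG.lean`:
* Lipschitz: `Y x = A(‖x‖^2) • Me e x + (...) • x` is `C^1` near the closed unit ball and vanishes on the unit sphere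
  (`A 1 = B 1 = D 1 = 0`); copy `Xf_lipschitz`.
* divergence for `‖x‖ < 1`: `∑ i, (M_e)_{ii} = 0` (dimension 2, `‖e‖ = 1`), `x · M_e x = c`, `x · ∇c = 2 c`
  (`pd i (ce e) x = 4 (x·e) e_i - 2 x_i`), `pd_radial`, `pd_mul`: `div = (2 A' + 4 B + 2 s B') c + 2 D + 2 s D'`.
* `Vf_inner`: `x · V = c (A + s B) + s D`. `Vf_normSq`: `|M_e x|^2 = s`, `x · M_e x = c`:
  `|V|^2 = s A^2 + 2 A c (B c + D) + s (B c + D)^2`.
* `Vf_bound`: on `[0,1]`, `|A s| ≤ K (1 - s)` (`A` is `C^1` near `[0,1]`, `A 1 = 0`, mean value), same for `B, D`;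
  `‖Me e x‖ = ‖x‖ ≤ 1`, `|c| ≤ s ≤ 1`.
-/

set_option autoImplicit false

open MeasureTheory Pool.Agent.H94.ER

namespace Pool.Agent.H94.SP

theorem ce_le (e x : E 2) (he : ‖e‖ = 1) : |ce e x| ≤ ‖x‖ ^ 2 := by
  unfold ce
  have h1 := abs_real_inner_le_norm x e
  rw [he, mul_one] at h1
  have h2 : inner ℝ x e ^ 2 ≤ ‖x‖ ^ 2 := by
    rw [← sq_abs (inner ℝ x e)]
    exact pow_le_pow_left₀ (abs_nonneg _) h1 2
  rw [abs_le]
  constructor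
  · nlinarith [sq_nonneg (inner ℝ x e)]
  · linarith

theorem Vf_in (A B D : ℝ → ℝ) (e x : E 2) (hx : ‖x‖ < 1) :
    Vf A B D e x = A (‖x‖ ^ 2) • Me e x + (B (‖x‖ ^ 2) * ce e x + D (‖x‖ ^ 2)) • x := by
  unfold Vf
  rw [if_pos hx]

theorem Vf_out (A B D : ℝ → ℝ) (e x : E 2) (hx : 1 ≤ ‖x‖) : Vf A B D e x = 0 := by
  unfold Vf
  rw [if_neg (not_lt.2 hx)]

theorem VfA_contDiffAt (A B D : ℝ → ℝ) (hA : ∀ s, s ≤ 1 → ContDiffAt ℝ 1 A s)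
    (hB : ∀ s, s ≤ 1 → ContDiffAt ℝ 1 B s) (hD : ∀ s, s ≤ 1 → ContDiffAt ℝ 1 D s) (e x : E 2)
    (hx : ‖x‖ ≤ 1) : ContDiffAt ℝ 1 (fun y : E 2 => A (‖y‖ ^ 2) • Me e y +
      (B (‖y‖ ^ 2) * ce e y + D (‖y‖ ^ 2)) • y) x := by
  have h1 : ‖x‖ ^ 2 ≤ 1 := pow_le_one₀ (norm_nonneg _) hx
  have h2 : ContDiffAt ℝ 1 (fun y : E 2 => ‖y‖ ^ 2) x := (contDiff_norm_sq ℝ).contDiffAt
  have hA' : ContDiffAt ℝ 1 (fun y : E 2 => A (‖y‖ ^ 2)) x := ContDiffAt.comp x (hA _ h1) h2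
  have hB' : ContDiffAt ℝ 1 (fun y : E 2 => B (‖y‖ ^ 2)) x := ContDiffAt.comp x (hB _ h1) h2
  have hD' : ContDiffAt ℝ 1 (fun y : E 2 => D (‖y‖ ^ 2)) x := ContDiffAt.comp x (hD _ h1) h2
  have hi : ContDiffAt ℝ 1 (fun y : E 2 => inner ℝ y e) x := contDiffAt_id.inner ℝ contDiffAt_const
  have hM : ContDiffAt ℝ 1 (fun y : E 2 => Me e y) x := by
    unfold Me
    exact ((contDiffAt_const.mul hi).smul contDiffAt_const).sub contDiffAt_id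
  have hc : ContDiffAt ℝ 1 (fun y : E 2 => ce e y) x := by
    unfold ce
    exact (contDiffAt_const.mul (hi.pow 2)).sub h2
  exact (hA'.smul hM).add (((hB'.mul hc).add hD').smul contDiffAt_id)

theorem VfA_in (A B D : ℝ → ℝ) (hA1 : A 1 = 0) (hB1 : B 1 = 0) (hD1 : D 1 = 0) (e x : E 2)
    (hx : ‖x‖ ≤ 1) :
    Vf A B D e x = A (‖x‖ ^ 2) • Me e x + (B (‖x‖ ^ 2) * ce e x + D (‖x‖ ^ 2)) • x := by
  rcases hx.lt_or_eq with h | h
  · exact Vf_in A B D e x h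
  · rw [Vf_out A B D e x h.ge, h, one_pow, hA1, hB1, hD1]
    simp

theorem Vf_lipschitz (A B D : ℝ → ℝ) (hA : ∀ s, s ≤ 1 → ContDiffAt ℝ 1 A s)
    (hB : ∀ s, s ≤ 1 → ContDiffAt ℝ 1 B s) (hD : ∀ s, s ≤ 1 → ContDiffAt ℝ 1 D s) (hA1 : A 1 = 0)
    (hB1 : B 1 = 0) (hD1 : D 1 = 0) (e : E 2) : ∃ K : NNReal, LipschitzWith K (Vf A B D e) := by
  set Y : E 2 → E 2 := fun y => A (‖y‖ ^ 2) • Me e y +
      (B (‖y‖ ^ 2) * ce e y + D (‖y‖ ^ 2)) • y with hY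
  have hYc : ∀ x : E 2, ‖x‖ ≤ 1 → ContDiffAt ℝ 1 Y x := fun x hx =>
    VfA_contDiffAt A B D hA hB hD e x hx
  have hcont : ContinuousOn (fun x => fderiv ℝ Y x) (Metric.closedBall (0 : E 2) 1) := by
    intro x hx
    rw [mem_closedBall_zero_iff] at hx
    have h2 : ContDiffAt ℝ 0 (fderiv ℝ Y) x := (hYc x hx).fderiv_right (by norm_num)
    exact h2.continuousAt.continuousWithinAt
  obtain ⟨K, hK⟩ := (isCompact_closedBall (0 : E 2) 1).exists_bound_of_continuousOn hcont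
  have hK0 : 0 ≤ K := (norm_nonneg _).trans (hK 0 (Metric.mem_closedBall_self zero_le_one))
  have hlip : ∀ x y : E 2, ‖x‖ ≤ 1 → ‖y‖ ≤ 1 → ‖Y x - Y y‖ ≤ K * ‖x - y‖ := by
    intro x y hx hy
    exact (convex_closedBall (0 : E 2) 1).norm_image_sub_le_of_norm_fderiv_le (𝕜 := ℝ)
      (fun z hz => (hYc z (mem_closedBall_zero_iff.1 hz)).differentiableAt one_ne_zero) hK
      (mem_closedBall_zero_iff.2 hy) (mem_closedBall_zero_iff.2 hx)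
  have hin : ∀ x : E 2, ‖x‖ ≤ 1 → Vf A B D e x = Y x := fun x hx =>
    VfA_in A B D hA1 hB1 hD1 e x hx
  have hmix : ∀ x y : E 2, ‖x‖ ≤ 1 → 1 ≤ ‖y‖ → ‖Vf A B D e x - Vf A B D e y‖ ≤ K * ‖x - y‖ := by
    intro x y hx hy
    have hc : ContinuousOn (fun t : ℝ => ‖x + t • (y - x)‖) (Set.Icc 0 1) := by
      have : Continuous (fun t : ℝ => ‖x + t • (y - x)‖) := by fun_prop
      exact this.continuousOn
    have h2 := intermediate_value_Icc (zero_le_one' ℝ) hc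
    have h3 : (1 : ℝ) ∈ Set.Icc ‖x + (0 : ℝ) • (y - x)‖ ‖x + (1 : ℝ) • (y - x)‖ := by
      rw [zero_smul, add_zero, one_smul, add_sub_cancel]
      exact ⟨hx, hy⟩
    obtain ⟨t, ht, ht2⟩ := h2 h3
    replace ht2 : ‖x + t • (y - x)‖ = 1 := ht2
    have h4 := hlip x (x + t • (y - x)) hx ht2.le
    have h5 : Y (x + t • (y - x)) = 0 := by
      rw [← hin _ ht2.le, Vf_out A B D e _ ht2.ge]
    rw [hin x hx, Vf_out A B D e y hy, ← h5]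
    refine h4.trans (mul_le_mul_of_nonneg_left ?_ hK0)
    have h6 : x - (x + t • (y - x)) = t • (x - y) := by
      rw [← neg_sub x y, smul_neg]
      abel
    rw [h6, norm_smul, Real.norm_eq_abs, abs_of_nonneg ht.1]
    calc t * ‖x - y‖ ≤ 1 * ‖x - y‖ := mul_le_mul_of_nonneg_right ht.2 (norm_nonneg _)
      _ = ‖x - y‖ := one_mul _
  refine ⟨K.toNNReal, LipschitzWith.of_dist_le_mul fun x y => ?_⟩
  rw [dist_eq_norm, dist_eq_norm, Real.coe_toNNReal K hK0]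
  rcases le_total ‖x‖ 1 with hx | hx <;> rcases le_total ‖y‖ 1 with hy | hy
  · rw [hin x hx, hin y hy]
    exact hlip x y hx hy
  · exact hmix x y hx hy
  · rw [norm_sub_rev, norm_sub_rev x y]
    exact hmix y x hy hx
  · rw [Vf_out A B D e x hx, Vf_out A B D e y hy, sub_zero, norm_zero]
    positivity

theorem VfA_pd_inner (e x : E 2) :
    HasFDerivAt (fun y : E 2 => inner ℝ y e) (innerSL ℝ e : E 2 →L[ℝ] ℝ) x := by
  have h : (fun y : E 2 => inner ℝ y e) = fun y : E 2 => (innerSL ℝ e : E 2 →L[ℝ] ℝ) y := by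
    funext y
    rw [innerSL_apply_apply, real_inner_comm]
  rw [h]
  exact (innerSL ℝ e : E 2 →L[ℝ] ℝ).hasFDerivAt

theorem Vf_div (A B D : ℝ → ℝ) (hA : ∀ s, s ≤ 1 → ContDiffAt ℝ 1 A s)
    (hB : ∀ s, s ≤ 1 → ContDiffAt ℝ 1 B s) (hD : ∀ s, s ≤ 1 → ContDiffAt ℝ 1 D s) (e : E 2)
    (he : ‖e‖ = 1) (x : E 2) (hx : ‖x‖ < 1) :
    ∑ i, pd i (fun y => Vf A B D e y i) x
      = (2 * deriv A (‖x‖ ^ 2) + 4 * B (‖x‖ ^ 2) + 2 * ‖x‖ ^ 2 * deriv B (‖x‖ ^ 2)) * ce e x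
        + 2 * D (‖x‖ ^ 2) + 2 * ‖x‖ ^ 2 * deriv D (‖x‖ ^ 2) := by
  have h0 : ‖x‖ ^ 2 ≤ 1 := pow_le_one₀ (norm_nonneg _) hx.le
  have dns : DifferentiableAt ℝ (fun y : E 2 => ‖y‖ ^ 2) x :=
    ((contDiff_norm_sq ℝ (n := 1)).differentiable one_ne_zero) x
  have dA : DifferentiableAt ℝ A (‖x‖ ^ 2) := (hA _ h0).differentiableAt one_ne_zero
  have dB : DifferentiableAt ℝ B (‖x‖ ^ 2) := (hB _ h0).differentiableAt one_ne_zero
  have dD : DifferentiableAt ℝ D (‖x‖ ^ 2) := (hD _ h0).differentiableAt one_ne_zero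
  have dA2 : DifferentiableAt ℝ (fun y : E 2 => A (‖y‖ ^ 2)) x := DifferentiableAt.comp x dA dns
  have dB2 : DifferentiableAt ℝ (fun y : E 2 => B (‖y‖ ^ 2)) x := DifferentiableAt.comp x dB dns
  have dD2 : DifferentiableAt ℝ (fun y : E 2 => D (‖y‖ ^ 2)) x := DifferentiableAt.comp x dD dns
  have hin : ∀ y : E 2, inner ℝ y e = y 0 * e 0 + y 1 * e 1 := by
    intro y
    rw [PiLp.inner_apply, Fin.sum_univ_two]
    simp only [RCLike.inner_apply, conj_trivial]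
    ring
  have hns : ∀ y : E 2, ‖y‖ ^ 2 = y 0 ^ 2 + y 1 ^ 2 := by
    intro y
    rw [EuclideanSpace.norm_sq_eq, Fin.sum_univ_two]
    simp
  have hee : e 0 ^ 2 + e 1 ^ 2 = 1 := by
    rw [← hns, he, one_pow]
  have dco : ∀ j : Fin 2, DifferentiableAt ℝ (fun y : E 2 => y j) x := fun j => by fun_prop
  have din : DifferentiableAt ℝ (fun y : E 2 => inner ℝ y e) x := (VfA_pd_inner e x).differentiableAt
  have pin : ∀ i : Fin 2, pd i (fun y : E 2 => inner ℝ y e) x = e i := by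
    intro i
    unfold pd
    rw [(VfA_pd_inner e x).fderiv, innerSL_apply_apply, EuclideanSpace.inner_single_right]
    simp
  have pns : ∀ i : Fin 2, pd i (fun y : E 2 => ‖y‖ ^ 2) x = 2 * x i := by
    intro i
    have h := pd_radial i (fun s : ℝ => s) x differentiableAt_id
    rw [h]
    simp
  have P1 : ∀ i : Fin 2, pd i (fun y : E 2 => 2 * e i * inner ℝ y e + (-1) * y i) x =
      2 * e i * e i + (-1) * 1 := by
    intro i
    rw [pd_add i (fun y : E 2 => 2 * e i * inner ℝ y e) (fun y : E 2 => (-1) * y i) x (din.const_mul _)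
      ((dco i).const_mul _), pd_const_mul, pd_const_mul, pin, pd_coord, if_pos rfl]
  have dsq : DifferentiableAt ℝ (fun y : E 2 => inner ℝ y e * inner ℝ y e) x := din.mul din
  have dce : DifferentiableAt ℝ (fun y : E 2 => 2 * (inner ℝ y e * inner ℝ y e) + (-1) * ‖y‖ ^ 2) x :=
    (dsq.const_mul _).add (dns.const_mul _)
  have P2 : ∀ i : Fin 2, pd i (fun y : E 2 => 2 * (inner ℝ y e * inner ℝ y e) + (-1) * ‖y‖ ^ 2) x =
      2 * (inner ℝ x e * e i + e i * inner ℝ x e) + (-1) * (2 * x i) := by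
    intro i
    rw [pd_add i (fun y : E 2 => 2 * (inner ℝ y e * inner ℝ y e)) (fun y : E 2 => (-1) * ‖y‖ ^ 2) x
      (dsq.const_mul _) (dns.const_mul _), pd_const_mul, pd_const_mul,
      pd_mul i (fun y : E 2 => inner ℝ y e) (fun y : E 2 => inner ℝ y e) x din din, pin, pns]
  have P3 : ∀ i : Fin 2, pd i (fun y => Vf A B D e y i) x =
      (A (‖x‖ ^ 2) * (2 * e i * e i + (-1) * 1) + 2 * deriv A (‖x‖ ^ 2) * x i *
        (2 * e i * inner ℝ x e + (-1) * x i)) +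
      ((B (‖x‖ ^ 2) * (2 * (inner ℝ x e * inner ℝ x e) + (-1) * ‖x‖ ^ 2) + D (‖x‖ ^ 2)) * 1 +
        ((B (‖x‖ ^ 2) * (2 * (inner ℝ x e * e i + e i * inner ℝ x e) + (-1) * (2 * x i)) +
          2 * deriv B (‖x‖ ^ 2) * x i * (2 * (inner ℝ x e * inner ℝ x e) + (-1) * ‖x‖ ^ 2)) +
          2 * deriv D (‖x‖ ^ 2) * x i) * x i) := by
    intro i
    have h3 : (fun y : E 2 => Vf A B D e y i) =ᶠ[nhds x] fun y =>
        A (‖y‖ ^ 2) * (2 * e i * inner ℝ y e + (-1) * y i) +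
        (B (‖y‖ ^ 2) * (2 * (inner ℝ y e * inner ℝ y e) + (-1) * ‖y‖ ^ 2) + D (‖y‖ ^ 2)) * y i := by
      have h4 : Metric.ball (0 : E 2) 1 ∈ nhds x :=
        Metric.isOpen_ball.mem_nhds (mem_ball_zero_iff.2 hx)
      filter_upwards [h4] with y hy
      rw [mem_ball_zero_iff] at hy
      rw [Vf_in A B D e y hy]
      unfold Me ce
      simp only [PiLp.add_apply, PiLp.smul_apply, PiLp.sub_apply, smul_eq_mul]
      ring
    have h4 : pd i (fun y => Vf A B D e y i) x = pd i (fun y =>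
        A (‖y‖ ^ 2) * (2 * e i * inner ℝ y e + (-1) * y i) +
        (B (‖y‖ ^ 2) * (2 * (inner ℝ y e * inner ℝ y e) + (-1) * ‖y‖ ^ 2) + D (‖y‖ ^ 2)) * y i) x := by
      unfold pd
      rw [h3.fderiv_eq]
    have d1 : DifferentiableAt ℝ (fun y : E 2 => 2 * e i * inner ℝ y e + (-1) * y i) x :=
      (din.const_mul _).add ((dco i).const_mul _)
    have d2 : DifferentiableAt ℝ (fun y : E 2 => B (‖y‖ ^ 2) * (2 * (inner ℝ y e * inner ℝ y e) + (-1) * ‖y‖ ^ 2)) x :=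
      dB2.mul dce
    rw [h4, pd_add i (fun y : E 2 => A (‖y‖ ^ 2) * (2 * e i * inner ℝ y e + (-1) * y i))
      (fun y : E 2 => (B (‖y‖ ^ 2) * (2 * (inner ℝ y e * inner ℝ y e) + (-1) * ‖y‖ ^ 2) + D (‖y‖ ^ 2)) * y i) x
      (dA2.mul d1) ((d2.add dD2).mul (dco i)),
      pd_mul i (fun y : E 2 => A (‖y‖ ^ 2)) (fun y : E 2 => 2 * e i * inner ℝ y e + (-1) * y i) x dA2 d1,
      P1, pd_radial i A x dA,
      pd_mul i (fun y : E 2 => B (‖y‖ ^ 2) * (2 * (inner ℝ y e * inner ℝ y e) + (-1) * ‖y‖ ^ 2) + D (‖y‖ ^ 2))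
        (fun y : E 2 => y i) x (d2.add dD2) (dco i), pd_coord, if_pos rfl,
      pd_add i (fun y : E 2 => B (‖y‖ ^ 2) * (2 * (inner ℝ y e * inner ℝ y e) + (-1) * ‖y‖ ^ 2))
        (fun y : E 2 => D (‖y‖ ^ 2)) x d2 dD2,
      pd_mul i (fun y : E 2 => B (‖y‖ ^ 2)) (fun y : E 2 => 2 * (inner ℝ y e * inner ℝ y e) + (-1) * ‖y‖ ^ 2)
        x dB2 dce, P2, pd_radial i B x dB, pd_radial i D x dD]
  rw [Fin.sum_univ_two, P3, P3]
  unfold ce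
  generalize A (‖x‖ ^ 2) = a
  generalize B (‖x‖ ^ 2) = b
  generalize D (‖x‖ ^ 2) = d
  generalize deriv A (‖x‖ ^ 2) = a'
  generalize deriv B (‖x‖ ^ 2) = b'
  generalize deriv D (‖x‖ ^ 2) = d'
  rw [hin x, hns x]
  linear_combination (2 * a) * hee

theorem VfA_inner_Me (e x : E 2) : inner ℝ x (Me e x) = ce e x := by
  unfold Me ce
  rw [inner_sub_right, inner_smul_right, real_inner_self_eq_norm_sq]
  ring

theorem VfA_norm_Me (e x : E 2) (he : ‖e‖ = 1) : ‖Me e x‖ ^ 2 = ‖x‖ ^ 2 := by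
  unfold Me
  rw [norm_sub_sq_real, norm_smul, inner_smul_left, he, mul_one, Real.norm_eq_abs, sq_abs,
    real_inner_comm]
  simp
  ring

theorem Vf_inner (A B D : ℝ → ℝ) (e x : E 2) (hx : ‖x‖ < 1) :
    inner ℝ x (Vf A B D e x)
      = ce e x * (A (‖x‖ ^ 2) + ‖x‖ ^ 2 * B (‖x‖ ^ 2)) + ‖x‖ ^ 2 * D (‖x‖ ^ 2) := by
  rw [Vf_in A B D e x hx, inner_add_right, inner_smul_right, inner_smul_right, VfA_inner_Me,
    real_inner_self_eq_norm_sq]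
  ring

theorem Vf_normSq (A B D : ℝ → ℝ) (e : E 2) (he : ‖e‖ = 1) (x : E 2) (hx : ‖x‖ < 1) :
    ‖Vf A B D e x‖ ^ 2
      = ‖x‖ ^ 2 * A (‖x‖ ^ 2) ^ 2
        + 2 * A (‖x‖ ^ 2) * ce e x * (B (‖x‖ ^ 2) * ce e x + D (‖x‖ ^ 2))
        + ‖x‖ ^ 2 * (B (‖x‖ ^ 2) * ce e x + D (‖x‖ ^ 2)) ^ 2 := by
  rw [Vf_in A B D e x hx, norm_add_sq_real, inner_smul_left, inner_smul_right, norm_smul, norm_smul,
    real_inner_comm, VfA_inner_Me, mul_pow, mul_pow, VfA_norm_Me e x he, Real.norm_eq_abs,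
    Real.norm_eq_abs, sq_abs, sq_abs]
  simp only [conj_trivial]
  ring

theorem VfA_lin (A : ℝ → ℝ) (hA : ∀ s, s ≤ 1 → ContDiffAt ℝ 1 A s) (hA1 : A 1 = 0) :
    ∃ K : ℝ, 0 ≤ K ∧ ∀ s, 0 ≤ s → s ≤ 1 → |A s| ≤ K * (1 - s) := by
  have hcont : ContinuousOn (fun s => deriv A s) (Set.Icc (0 : ℝ) 1) := by
    intro s hs
    have h2 : ContDiffAt ℝ 0 (fderiv ℝ A) s := (hA s hs.2).fderiv_right (by norm_num)
    have h3 : ContinuousAt (fun t => fderiv ℝ A t 1) s := h2.continuousAt.clm_apply continuousAt_const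
    have h4 : (fun s => deriv A s) = fun t => fderiv ℝ A t 1 := by
      funext t
      rw [fderiv_apply_one_eq_deriv]
    rw [h4]
    exact h3.continuousWithinAt
  obtain ⟨K, hK⟩ := isCompact_Icc.exists_bound_of_continuousOn hcont
  have hK0 : 0 ≤ K := (norm_nonneg _).trans (hK 0 ⟨le_rfl, zero_le_one⟩)
  refine ⟨K, hK0, fun s hs hs1 => ?_⟩
  have h5 := (convex_Icc (0 : ℝ) 1).norm_image_sub_le_of_norm_deriv_le
    (fun t ht => (hA t ht.2).differentiableAt one_ne_zero) hK (x := 1) (y := s) ⟨zero_le_one, le_rfl⟩ ⟨hs, hs1⟩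
  rw [hA1, sub_zero, Real.norm_eq_abs, Real.norm_eq_abs, abs_sub_comm, abs_of_nonneg (by linarith : (0 : ℝ) ≤ 1 - s)] at h5
  exact h5

theorem Vf_bound (A B D : ℝ → ℝ) (hA : ∀ s, s ≤ 1 → ContDiffAt ℝ 1 A s)
    (hB : ∀ s, s ≤ 1 → ContDiffAt ℝ 1 B s) (hD : ∀ s, s ≤ 1 → ContDiffAt ℝ 1 D s) (hA1 : A 1 = 0)
    (hB1 : B 1 = 0) (hD1 : D 1 = 0) (e : E 2) (he : ‖e‖ = 1) :
    ∃ M : ℝ, ∀ x : E 2, ‖x‖ < 1 → ‖Vf A B D e x‖ ≤ M * (1 - ‖x‖ ^ 2) := by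
  obtain ⟨K1, k1, hK1⟩ := VfA_lin A hA hA1
  obtain ⟨K2, k2, hK2⟩ := VfA_lin B hB hB1
  obtain ⟨K3, k3, hK3⟩ := VfA_lin D hD hD1
  refine ⟨K1 + K2 + K3, fun x hx => ?_⟩
  have h0 : ‖x‖ ^ 2 ≤ 1 := pow_le_one₀ (norm_nonneg _) hx.le
  have a1 := hK1 (‖x‖ ^ 2) (by positivity) h0
  have a2 := hK2 (‖x‖ ^ 2) (by positivity) h0
  have a3 := hK3 (‖x‖ ^ 2) (by positivity) h0
  have hMe : ‖Me e x‖ ≤ 1 := by
    have := VfA_norm_Me e x he
    nlinarith [norm_nonneg (Me e x)]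
  have hce := (ce_le e x he).trans h0
  rw [Vf_in A B D e x hx]
  have b1 : ‖A (‖x‖ ^ 2) • Me e x‖ ≤ K1 * (1 - ‖x‖ ^ 2) := by
    rw [norm_smul, Real.norm_eq_abs]
    calc |A (‖x‖ ^ 2)| * ‖Me e x‖ ≤ |A (‖x‖ ^ 2)| * 1 := mul_le_mul_of_nonneg_left hMe (abs_nonneg _)
      _ ≤ _ := by rw [mul_one]; exact a1
  have b2 : ‖(B (‖x‖ ^ 2) * ce e x + D (‖x‖ ^ 2)) • x‖ ≤ (K2 + K3) * (1 - ‖x‖ ^ 2) := by
    rw [norm_smul, Real.norm_eq_abs]
    have c1 : |B (‖x‖ ^ 2) * ce e x + D (‖x‖ ^ 2)| ≤ (K2 + K3) * (1 - ‖x‖ ^ 2) := by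
      refine (abs_add_le _ _).trans ?_
      rw [abs_mul]
      have : |B (‖x‖ ^ 2)| * |ce e x| ≤ |B (‖x‖ ^ 2)| * 1 := mul_le_mul_of_nonneg_left hce (abs_nonneg _)
      linarith
    calc |B (‖x‖ ^ 2) * ce e x + D (‖x‖ ^ 2)| * ‖x‖ ≤ |B (‖x‖ ^ 2) * ce e x + D (‖x‖ ^ 2)| * 1 :=
          mul_le_mul_of_nonneg_left hx.le (abs_nonneg _)
      _ ≤ _ := by rw [mul_one]; exact c1
  refine (norm_add_le _ _).trans ?_
  linarith

end Pool.Agent.H94.SP
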