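import Pool.Agent.H94.ER.Stmt

/-!
# MP_db9694, planar domains with `-Ω = Ω`: definitions

`λ = bz 2`, `μ₁ = bz 4`, `μ = bz 6` (squares of the first zeros of `J_0, J_1, J_2`),
`nF` = profile of degree 2 in the unit disk, in the variable `s = r^2`, normalised by `nF 1 = 1`;
`nh s = s nF s`, `nhs = nh'`. The trial map of degree 2 is `G(x) = nF(‖x‖^2) (x_0^2 - x_1^2, 2 x_0 x_1)`, extended
outside the disk by `G(x) = (x_0^2 - x_1^2, 2 x_0 x_1)/‖x‖^2`.
-/

set_option autoImplicit false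

open MeasureTheory Pool.Agent.H94.ER

namespace Pool.Agent.H94.SP

/-- normalised profile of degree 2 (in the disk) -/
noncomputable def nF (s : ℝ) : ℝ := F0 2 2 s / F0 2 2 1

/-- `h = s nF` -/
noncomputable def nh (s : ℝ) : ℝ := s * nF s

/-- `h'` -/
noncomputable def nhs (s : ℝ) : ℝ := nF s + s * deriv nF s

/-- `γ = μ - λ` -/
noncomputable def gam : ℝ := bz 6 - bz 2

/-- `μ λ / μ₁ - λ` -/
noncomputable def kap : ℝ := bz 6 * bz 2 / bz 4 - bz 2

/-- `U'/U`, `U s = bj 2 (bz 2 * s)` -/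
noncomputable def g1 (s : ℝ) : ℝ := uder 2 s / bj 2 (bz 2 * s)

/-- `2 (x·e)^2 - |x|^2` -/
noncomputable def ce (e x : E 2) : ℝ := 2 * inner ℝ x e ^ 2 - ‖x‖ ^ 2

/-- the reflection `x ↦ 2 (x·e) e - x` -/
noncomputable def Me (e x : E 2) : E 2 := (2 * inner ℝ x e) • e - x

/-- the normalised profile extended beyond the unit disk by `1/s` -/
noncomputable def nFp (s : ℝ) : ℝ := Fp 2 2 s / F0 2 2 1

/-- `γ |G|^2 - |∇G|^2` -/
noncomputable def qG (x : E 2) : ℝ :=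
  ((bz 6 - bz 2) * Pk 2 (Fp 2 2) (‖x‖ ^ 2) - En 2 2 (Fp 2 2) (‖x‖ ^ 2)) / F0 2 2 1 ^ 2

/-- vector field of the certificates -/
noncomputable def Vf (A B D : ℝ → ℝ) (e x : E 2) : E 2 :=
  if ‖x‖ < 1 then A (‖x‖ ^ 2) • Me e x + (B (‖x‖ ^ 2) * ce e x + D (‖x‖ ^ 2)) • x else 0

/-- truncated coordinate -/
noncomputable def ps (t : ℝ) : ℝ := t / √(1 + t ^ 2 / 10000)

/-- derivative of `ps` -/
noncomputable def dps (t : ℝ) : ℝ := 1 / √(1 + t ^ 2 / 10000) ^ 3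

/-- profile of the trial functions of degree 1 -/
noncomputable def F1 (s : ℝ) : ℝ := 1 / (1 + s ^ 2 / 100000000)

end Pool.Agent.H94.SP
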