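import Pool.Agent.H94.SP.NB
import Pool.Agent.H94.SP.Defs

/-!
# NG: the constants `gam` and `kap`

From NB: `gam = bz 6 - bz 2` (true value 20.5914305), `kap = bz 6 bz 2 / bz 4 - bz 2` (true value 4.60570).
`gam ∈ (26.37461 - 5.783187, 26.37462 - 5.783185) = (20.591423, 20.591435)`;
`kap ≥ 26.37461 * 5.783185 / 14.68198 - 5.783187 ≥ 4.6056 ≥ 100000/21713`.
-/

set_option autoImplicit false

open Pool.Agent.H94.ER

namespace Pool.Agent.H94.SP

theorem gam_lo : 20591330 / 1000000 ≤ gam := by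
  unfold gam
  have h1 := bz6_lo
  have h2 := bz2_hi
  linarith

theorem gam_hi : gam ≤ 20591530 / 1000000 := by
  unfold gam
  have h1 := bz6_hi
  have h2 := bz2_lo
  linarith

theorem kap_lo : 46056 / 10000 ≤ kap := by
  unfold kap
  have h1 := bz6_lo
  have h2 := bz2_hi
  have h3 := bz2_lo
  have h4 := bz4_hi
  have h5 := bz4_lo
  have h4' : 0 < bz 4 := by linarith
  have h6 : (103888 : ℝ) / 10000 ≤ bz 6 * bz 2 / bz 4 := by
    rw [le_div_iff₀ h4']
    have h7 : (2637461 : ℝ) / 100000 * (5783185 / 1000000) ≤ bz 6 * bz 2 :=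
      mul_le_mul h1.le h3.le (by norm_num) (by linarith)
    linarith
  linarith

theorem kap_hi : kap ≤ 4606 / 1000 := by
  unfold kap
  have h1 := bz6_hi
  have h2 := bz2_hi
  have h3 := bz2_lo
  have h5 := bz4_lo
  have h4' : 0 < bz 4 := by linarith
  have h6 : bz 6 * bz 2 / bz 4 ≤ (103891 : ℝ) / 10000 := by
    rw [div_le_iff₀ h4']
    have h7 : bz 6 * bz 2 ≤ (2637462 : ℝ) / 100000 * (5783187 / 1000000) :=
      mul_le_mul h1.le h2.le (by linarith) (by norm_num)
    linarith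
  linarith

end Pool.Agent.H94.SP
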