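import Pool.Agent.H94.SP.Psi
import Pool.Agent.H94.SP.NG
import Pool.Agent.H94.ER.TrA
import Pool.Agent.H94.ER.TrC

/-!
# CutB: the first eigenvalue of a half of `Ω`

`halfS e Ω = {x ∈ Ω | 0 < x·e}`. Let `u` be an even test function on `Ω`, `mass u = 1`, almost minimising (`hEL`), and suppose
`∫ u^2 dps(x·e)^2 ≤ kap ∫ u^2 ps(x·e)^2`. Then `dirEig (halfS e Ω) 1 ≤ bz 2 + kap + 2·10^6 ε`.
Proof. For `0 < δ ≤ 1` let `φ x = chi δ (ps (x·e))` and `v = φ u`, a test function on `halfS e Ω` (`φ = 0` where `ps(x·e) ≤ δ`, so the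
support of `v` is a compact subset of `Ω ∩ {ps(x·e) ≥ δ}`). `TrA_energy`: `energy v = ∫ u^2 |∇φ|^2 + ∫ ∇u·∇(φ^2 u)`.
* `|∇φ|^2 = chi'^2 dps(x·e)^2 ≤ dps(x·e)^2` and `= 0` for `x·e ≤ 0` (`fderiv` of `x ↦ x·e` has norm `‖e‖ = 1`), so the first term is
  `≤ ∫_{x·e>0} u^2 dps^2 ≤ ½ ∫ u^2 dps^2` (symmetry `x → -x`: `u^2 dps(x·e)^2` is even, so the integrals over `x·e > 0` and `x·e < 0` agree).
* `hEL` for `φ^2 u`: second term `≤ L1 ∫ φ^2 u^2 + ε √(energy (φ^2 u)) ≤ bz 2 * mass v + 50000 ε`; `energy_mul_le` with `A = 10^4` (`0 ≤ φ ≤ 100`,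
  `|pd i (φ^2)| ≤ 2 * 100`): `energy (φ^2 u) ≤ 2·10^8 (bz 2 + 1 + 2) ≤ 2.5·10^9` (`bz2_hi`).
* `mass v = ∫_{x·e>0} u^2 φ^2 ≥ ∫_{x·e>0} u^2 (ps^2 - 400 δ) ≥ ½ ∫ u^2 ps^2 - 400 δ` (`chi ≥ ps - 2δ`, `0 ≤ ps ≤ 100` for `x·e > 0`:
  `chi^2 ≥ ps^2 - 4δ ps`).
* `ps_dps` with `K = kap` (`kap_lo`): `1 ≤ kap ∫ u^2 ps^2 + ∫ u^2 dps^2 ≤ 2 kap ∫ u^2 ps^2`, so `∫ u^2 ps^2 ≥ 1/(2 kap)`.
* So with `Λ = dirEig (halfS e Ω) 1` (`eig_one_le`): `Λ mass v ≤ energy v ≤ ½ kap ∫ u^2 ps^2 + bz 2 mass v + 50000 ε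
  ≤ (kap + bz 2) mass v + 400 δ kap + 50000 ε`, and `mass v ≥ 1/(4 kap) - 400 δ ≥ 1/(8 kap)` for small `δ`:
  `Λ ≤ kap + bz 2 + (400 δ kap + 50000 ε) 8 kap`; let `δ → 0` (`8 kap * 50000 ≤ 1.9·10^6`, `kap_hi`).
-/

set_option autoImplicit false

open MeasureTheory Pool.Agent.H94.ER

namespace Pool.Agent.H94.SP

/-- half of `Ω` in direction `e` -/
def halfS (e : E 2) (Ω : Set (E 2)) : Set (E 2) := {x | x ∈ Ω ∧ 0 < inner ℝ x e}

theorem half_open (e : E 2) (Ω : Set (E 2)) (hΩ : IsOpen Ω) : IsOpen (halfS e Ω) := by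
  have h : halfS e Ω = Ω ∩ {x | 0 < inner ℝ x e} := rfl
  rw [h]
  exact hΩ.inter (isOpen_lt continuous_const (by fun_prop))

theorem CutB_int (u g : E 2 → ℝ) (hu : Continuous u) (hc : HasCompactSupport u) (hg : Continuous g) :
    Integrable (fun x => u x ^ 2 * g x) := by
  have h1 : (fun x => u x ^ 2 * g x) = u * fun x => u x * g x := by
    funext x
    simp only [Pi.mul_apply]
    ring
  rw [h1]
  have h2 : Continuous (u * fun x => u x * g x) := hu.mul (hu.mul hg)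
  exact h2.integrable_of_hasCompactSupport hc.mul_right

theorem CutB_ps_zero : ps 0 = 0 := by
  have := ps_neg 0
  rw [neg_zero] at this
  linarith

theorem CutB_ps_nonpos {t : ℝ} (h : t ≤ 0) : ps t ≤ 0 := by
  rcases h.lt_or_eq with h1 | h1
  · have h2 := ps_pos (-t) (by linarith)
    rw [ps_neg] at h2
    linarith
  · rw [h1, CutB_ps_zero]

/-- the cut-off function -/
noncomputable def CutB_phi (δ : ℝ) (e x : E 2) : ℝ := chi δ (ps (inner ℝ x e))

theorem CutB_phi_contDiff (δ : ℝ) (hδ : 0 < δ) (e : E 2) : ContDiff ℝ 1 (CutB_phi δ e) :=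
  (chi_contDiff δ hδ).comp (contDiff_ps.comp (contDiff_id.inner ℝ contDiff_const))

theorem CutB_pd (δ : ℝ) (hδ : 0 < δ) (e x : E 2) (i : Fin 2) :
    pd i (CutB_phi δ e) x = deriv (chi δ) (ps (inner ℝ x e)) * dps (inner ℝ x e) * e i := by
  have h1 : HasFDerivAt (fun x : E 2 => inner ℝ x e) (innerSL ℝ e) x := by
    have h := (innerSL ℝ e).hasFDerivAt (x := x)
    refine h.congr_of_eventuallyEq (Filter.Eventually.of_forall fun y => ?_)
    rw [innerSL_apply_apply, real_inner_comm]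
  have h2 : HasDerivAt ps (dps (inner ℝ x e)) (inner ℝ x e) := ps_hasDerivAt _
  have h3 : HasDerivAt (chi δ) (deriv (chi δ) (ps (inner ℝ x e))) (ps (inner ℝ x e)) :=
    ((chi_contDiff δ hδ).differentiable one_ne_zero _).hasDerivAt
  have h4 := (h3.comp (inner ℝ x e) h2).comp_hasFDerivAt x h1
  unfold pd
  have h5 : CutB_phi δ e = (chi δ ∘ ps) ∘ (fun x => inner ℝ x e) := rfl
  rw [h5, h4.fderiv]
  simp [EuclideanSpace.inner_single_right]

theorem CutB_dot (δ : ℝ) (hδ : 0 < δ) (e x : E 2) (he : ‖e‖ = 1) :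
    dot (CutB_phi δ e) (CutB_phi δ e) x = (deriv (chi δ) (ps (inner ℝ x e)) * dps (inner ℝ x e)) ^ 2 := by
  unfold dot
  have h : ∀ i, pd i (CutB_phi δ e) x * pd i (CutB_phi δ e) x =
      (deriv (chi δ) (ps (inner ℝ x e)) * dps (inner ℝ x e)) ^ 2 * e i ^ 2 := by
    intro i
    rw [CutB_pd δ hδ e x i]
    ring
  simp_rw [h]
  rw [← Finset.mul_sum, sum_coord_sq, he]
  ring

theorem CutB_chi_deriv_zero (δ τ : ℝ) (hτ : τ < δ) : deriv (chi δ) τ = 0 := by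
  have h : chi δ =ᶠ[nhds τ] fun _ => 0 := by
    filter_upwards [Iio_mem_nhds hτ] with t ht
    exact chi_zero δ t (le_of_lt ht)
  rw [h.deriv_eq]
  simp

theorem CutB_dot_le (δ : ℝ) (hδ : 0 < δ) (e x : E 2) (he : ‖e‖ = 1) :
    dot (CutB_phi δ e) (CutB_phi δ e) x + dot (CutB_phi δ e) (CutB_phi δ e) (-x) ≤ dps (inner ℝ x e) ^ 2 := by
  rw [CutB_dot δ hδ e x he, CutB_dot δ hδ e (-x) he, inner_neg_left, dps_neg, ps_neg]
  set t : ℝ := inner ℝ x e
  have key : ∀ τ : ℝ, (deriv (chi δ) τ * dps t) ^ 2 ≤ dps t ^ 2 := by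
    intro τ
    obtain ⟨h1, h2⟩ := chi_deriv δ τ hδ
    rw [mul_pow]
    have h3 : deriv (chi δ) τ ^ 2 ≤ 1 := by nlinarith
    nlinarith [sq_nonneg (dps t)]
  rcases le_or_gt (ps t) 0 with h | h
  · rw [CutB_chi_deriv_zero δ (ps t) (by linarith)]
    have := key (-ps t)
    linarith [this, show (0 * dps t) ^ 2 = 0 by ring]
  · rw [CutB_chi_deriv_zero δ (-ps t) (by linarith)]
    have := key (ps t)
    linarith [this, show (0 * dps t) ^ 2 = 0 by ring]

theorem CutB_phi_nonneg (δ : ℝ) (hδ : 0 < δ) (e x : E 2) : 0 ≤ CutB_phi δ e x := chi_nonneg δ _ hδ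

theorem CutB_phi_le (δ : ℝ) (hδ : 0 < δ) (e x : E 2) : CutB_phi δ e x ≤ 100 := by
  refine (chi_le δ _ hδ).trans (max_le (by norm_num) ?_)
  exact (le_abs_self _).trans (ps_abs_le _)

theorem CutB_pd_le (δ : ℝ) (hδ : 0 < δ) (e x : E 2) (he : ‖e‖ = 1) (i : Fin 2) : |pd i (CutB_phi δ e) x| ≤ 1 := by
  rw [CutB_pd δ hδ e x i, abs_mul, abs_mul]
  obtain ⟨h1, h2⟩ := chi_deriv δ (ps (inner ℝ x e)) hδ
  rw [abs_of_nonneg h1, abs_of_pos (dps_pos _)]
  have h3 : |e i| ≤ 1 := by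
    have := PiLp.norm_apply_le e i
    rw [he] at this
    simpa using this
  have h4 := dps_le (inner ℝ x e)
  have h5 := (dps_pos (inner ℝ x e)).le
  have h6 : deriv (chi δ) (ps (inner ℝ x e)) * dps (inner ℝ x e) ≤ 1 := by nlinarith
  have h7 : 0 ≤ deriv (chi δ) (ps (inner ℝ x e)) * dps (inner ℝ x e) := mul_nonneg h1 h5
  nlinarith [abs_nonneg (e i)]

theorem CutB_sq_half (δ p : ℝ) (hδ : 0 < δ) (hp : 0 ≤ p) (hp1 : p ≤ 100) : p ^ 2 - 400 * δ ≤ chi δ p ^ 2 := by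
  have h1 := chi_ge δ p hδ
  have h2 := chi_nonneg δ p hδ
  rcases le_or_gt p (2 * δ) with h | h
  · nlinarith
  · have h3 : 0 ≤ p - 2 * δ := by linarith
    have h4 : (p - 2 * δ) ^ 2 ≤ chi δ p ^ 2 := pow_le_pow_left₀ h3 h1 2
    nlinarith

theorem CutB_sq_ge (δ : ℝ) (hδ : 0 < δ) (e x : E 2) :
    ps (inner ℝ x e) ^ 2 - 400 * δ ≤ CutB_phi δ e x ^ 2 + CutB_phi δ e (-x) ^ 2 := by
  have e1 : CutB_phi δ e x = chi δ (ps (inner ℝ x e)) := rfl
  have e2 : CutB_phi δ e (-x) = chi δ (-ps (inner ℝ x e)) := by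
    unfold CutB_phi
    rw [inner_neg_left, ps_neg]
  rw [e1, e2]
  set p : ℝ := ps (inner ℝ x e)
  have hp : |p| ≤ 100 := ps_abs_le _
  obtain ⟨hp1, hp2⟩ := abs_le.1 hp
  rcases le_total 0 p with h | h
  · have := CutB_sq_half δ p hδ h hp2
    nlinarith [sq_nonneg (chi δ (-p))]
  · have := CutB_sq_half δ (-p) hδ (by linarith) (by linarith)
    nlinarith [sq_nonneg (chi δ p)]

theorem CutB_test (δ : ℝ) (hδ : 0 < δ) (e : E 2) (Ω : Set (E 2)) (u : E 2 → ℝ) (hu : IsTest Ω u) :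
    IsTest (halfS e Ω) (fun x => CutB_phi δ e x * u x) := by
  have h := hu.mul_left (CutB_phi δ e) (CutB_phi_contDiff δ hδ e)
  refine ⟨h.1, h.2.1, fun x hx => ⟨h.2.2 hx, ?_⟩⟩
  have hcl : IsClosed {x : E 2 | δ ≤ ps (inner ℝ x e)} :=
    isClosed_le continuous_const (contDiff_ps.continuous.comp (by fun_prop))
  have hsub : tsupport (fun x => CutB_phi δ e x * u x) ⊆ {x : E 2 | δ ≤ ps (inner ℝ x e)} := by
    refine closure_minimal (fun y hy => ?_) hcl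
    by_contra hlt
    have hlt' : ps (inner ℝ y e) < δ := not_le.1 hlt
    apply hy
    show CutB_phi δ e y * u y = 0
    unfold CutB_phi
    rw [chi_zero δ _ hlt'.le, zero_mul]
  have h1 : δ ≤ ps (inner ℝ x e) := hsub hx
  by_contra hle
  have := CutB_ps_nonpos (not_lt.1 hle)
  linarith

/-- the estimate with a fixed `δ` -/
theorem CutB_step (Ω : Set (E 2)) (u : E 2 → ℝ) (hu : IsTest Ω u) (hmass : mass u = 1)
    (heven : ∀ x, u (-x) = u x) (L1 ε : ℝ) (hL1 : L1 ≤ bz 2) (hen : energy u ≤ bz 2 + 1)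
    (hε : 0 ≤ ε) (hEL : ∀ v, IsTest Ω v → |(∫ x, dot u v x) - L1 * ∫ x, u x * v x| ≤ ε * √(energy v))
    (e : E 2) (he : ‖e‖ = 1)
    (hcase : ∫ x, u x ^ 2 * dps (inner ℝ x e) ^ 2 ≤ kap * ∫ x, u x ^ 2 * ps (inner ℝ x e) ^ 2)
    (δ : ℝ) (hδ : 0 < δ) (hδ1 : δ ≤ 1 / 50000) :
    1 / 20 ≤ mass (fun x => CutB_phi δ e x * u x) ∧
    energy (fun x => CutB_phi δ e x * u x) ≤ (bz 2 + kap) * mass (fun x => CutB_phi δ e x * u x) +
      1000 * δ + 50000 * ε := by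
  set φ : E 2 → ℝ := CutB_phi δ e with hφdef
  have hφ : ContDiff ℝ 1 φ := CutB_phi_contDiff δ hδ e
  have huc : Continuous u := hu.1.continuous
  have hin : Continuous (fun x : E 2 => inner ℝ x e) := by fun_prop
  have hpsc : Continuous (fun x : E 2 => ps (inner ℝ x e)) := contDiff_ps.continuous.comp hin
  have hdpsc : Continuous (fun x : E 2 => dps (inner ℝ x e)) := by
    have h1 : Continuous (deriv ps) := contDiff_ps.continuous_deriv le_rfl
    have h2 : deriv ps = dps := funext fun t => (ps_hasDerivAt t).deriv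
    rw [h2] at h1
    exact h1.comp hin
  set P : ℝ := ∫ x, u x ^ 2 * ps (inner ℝ x e) ^ 2 with hP
  set D : ℝ := ∫ x, u x ^ 2 * dps (inner ℝ x e) ^ 2 with hD
  set M : ℝ := mass (fun x => φ x * u x) with hM
  have iP : Integrable (fun x => u x ^ 2 * ps (inner ℝ x e) ^ 2) := CutB_int u _ huc hu.2.1 (hpsc.pow 2)
  have iD : Integrable (fun x => u x ^ 2 * dps (inner ℝ x e) ^ 2) := CutB_int u _ huc hu.2.1 (hdpsc.pow 2)
  have iU : Integrable (fun x => u x ^ 2) := by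
    have := CutB_int u (fun _ => 1) huc hu.2.1 continuous_const
    simpa using this
  have hU : ∫ x, u x ^ 2 = 1 := hmass
  have hkl := kap_lo
  have hkh := kap_hi
  -- `1 ≤ 2 kap P`
  have h1 : 1 ≤ kap * P + D := by
    rw [← hU, hP, hD, ← integral_const_mul, ← integral_add (iP.const_mul _) iD]
    refine integral_mono iU ((iP.const_mul _).add iD) (fun x => ?_)
    simp only
    have := ps_dps kap (inner ℝ x e) (by linarith)
    nlinarith [sq_nonneg (u x)]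
  have h2 : 1 ≤ 2 * kap * P := by linarith
  have hPlo : 108 / 1000 ≤ P := by
    have hP0 : 0 ≤ P := integral_nonneg fun x => by positivity
    nlinarith
  -- the mass
  have iM : Integrable (fun x => u x ^ 2 * φ x ^ 2) := CutB_int u _ huc hu.2.1 (hφ.continuous.pow 2)
  have hM1 : M = ∫ x, u x ^ 2 * φ x ^ 2 := by
    rw [hM]
    unfold mass
    refine integral_congr_ae (Filter.Eventually.of_forall fun x => ?_)
    show (φ x * u x) ^ 2 = u x ^ 2 * φ x ^ 2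
    ring
  have hM2 : M = ∫ x, u x ^ 2 * φ (-x) ^ 2 := by
    rw [hM1, ← integral_neg_eq_self]
    refine integral_congr_ae (Filter.Eventually.of_forall fun x => ?_)
    show u (-x) ^ 2 * φ (-x) ^ 2 = u x ^ 2 * φ (-x) ^ 2
    rw [heven]
  have iM2 : Integrable (fun x => u x ^ 2 * φ (-x) ^ 2) :=
    CutB_int u _ huc hu.2.1 ((hφ.continuous.comp continuous_neg).pow 2)
  have hM3 : P - 400 * δ ≤ 2 * M := by
    have e1 : 2 * M = ∫ x, (u x ^ 2 * φ x ^ 2 + u x ^ 2 * φ (-x) ^ 2) := by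
      rw [integral_add iM iM2, ← hM1, ← hM2]
      ring
    have e2 : P - 400 * δ = ∫ x, (u x ^ 2 * ps (inner ℝ x e) ^ 2 - 400 * δ * u x ^ 2) := by
      rw [integral_sub iP (iU.const_mul _), integral_const_mul, hU, mul_one]
    rw [e1, e2]
    refine integral_mono (iP.sub (iU.const_mul _)) (iM.add iM2) (fun x => ?_)
    simp only
    have := CutB_sq_ge δ hδ e x
    nlinarith [sq_nonneg (u x)]
  have hMlo : 1 / 20 ≤ M := by linarith
  refine ⟨hMlo, ?_⟩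
  -- the energy
  have hE := TrA_energy u φ hu.1 hu.2.1 hφ
  have iQ : Integrable (fun x => u x ^ 2 * dot φ φ x) := TrA_int_left u φ hu.1 hu.2.1 hφ
  have iQ2 : Integrable (fun x => u x ^ 2 * dot φ φ (-x)) :=
    CutB_int u _ huc hu.2.1 ((continuous_dot φ φ hφ hφ).comp continuous_neg)
  have hQ2 : ∫ x, u x ^ 2 * dot φ φ x = ∫ x, u x ^ 2 * dot φ φ (-x) := by
    rw [← integral_neg_eq_self (fun x => u x ^ 2 * dot φ φ x)]
    refine integral_congr_ae (Filter.Eventually.of_forall fun x => ?_)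
    show u (-x) ^ 2 * dot φ φ (-x) = u x ^ 2 * dot φ φ (-x)
    rw [heven]
  have hQ3 : 2 * ∫ x, u x ^ 2 * dot φ φ x ≤ D := by
    have e1 : 2 * ∫ x, u x ^ 2 * dot φ φ x = ∫ x, (u x ^ 2 * dot φ φ x + u x ^ 2 * dot φ φ (-x)) := by
      rw [integral_add iQ iQ2, ← hQ2]
      ring
    rw [e1]
    refine integral_mono (iQ.add iQ2) iD (fun x => ?_)
    simp only
    have := CutB_dot_le δ hδ e x he
    nlinarith [sq_nonneg (u x)]
  -- the second term
  have hφφ : ContDiff ℝ 1 (fun y => φ y * φ y) := hφ.mul hφ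
  have hv : IsTest Ω (fun y => (φ y * φ y) * u y) := hu.mul_left _ hφφ
  have hbd : ∀ x, |φ x * φ x| ≤ 10000 ∧ ∀ i, |pd i (fun y => φ y * φ y) x| ≤ 10000 := by
    intro x
    have b0 := CutB_phi_nonneg δ hδ e x
    have b1 := CutB_phi_le δ hδ e x
    rw [← hφdef] at b0 b1
    refine ⟨?_, fun i => ?_⟩
    · rw [abs_of_nonneg (mul_self_nonneg _)]
      nlinarith
    · have hφd := (hφ.differentiable one_ne_zero) x
      rw [pd_mul i φ φ x hφd hφd]
      have b2 := abs_le.1 (CutB_pd_le δ hδ e x he i)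
      rw [← hφdef] at b2
      rw [abs_le]
      constructor
      · nlinarith [b2.1, b2.2]
      · nlinarith [b2.1, b2.2]
  have hen1 := energy_mul_le u (fun y => φ y * φ y) hu.1 hu.2.1 hφφ 10000 hbd
  rw [hmass, mul_one] at hen1
  have hbz := bz2_hi
  have hen2 : energy (fun y => (φ y * φ y) * u y) ≤ 50000 ^ 2 := by
    refine hen1.trans ?_
    push_cast
    nlinarith
  have hsq : √(energy (fun y => (φ y * φ y) * u y)) ≤ 50000 := by
    rw [← Real.sqrt_sq (show (0:ℝ) ≤ 50000 by norm_num)]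
    exact Real.sqrt_le_sqrt hen2
  have hEL' := (abs_le.1 (hEL _ hv)).2
  have hM4 : ∫ x, u x * ((φ x * φ x) * u x) = M := by
    rw [hM1]
    refine integral_congr_ae (Filter.Eventually.of_forall fun x => ?_)
    show u x * ((φ x * φ x) * u x) = u x ^ 2 * φ x ^ 2
    ring
  rw [hM4] at hEL'
  have h5 : ε * √(energy (fun y => (φ y * φ y) * u y)) ≤ ε * 50000 := mul_le_mul_of_nonneg_left hsq hε
  have h6 : L1 * M ≤ bz 2 * M := mul_le_mul_of_nonneg_right hL1 (by linarith)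
  rw [hE]
  have h7 : ∫ x, u x ^ 2 * dot φ φ x ≤ kap * P / 2 := by linarith
  have h8 : kap * P / 2 ≤ kap * M + 1000 * δ := by nlinarith
  have h9 : (bz 2 + kap) * M = bz 2 * M + kap * M := by ring
  rw [h9]
  linarith

theorem half_eig (Ω : Set (E 2)) (hΩ : IsOpen Ω) (u : E 2 → ℝ) (hu : IsTest Ω u) (hmass : mass u = 1)
    (heven : ∀ x, u (-x) = u x) (L1 ε : ℝ) (hL0 : 0 ≤ L1) (hL1 : L1 ≤ bz 2) (hen : energy u ≤ bz 2 + 1)
    (hε : 0 ≤ ε) (hEL : ∀ v, IsTest Ω v → |(∫ x, dot u v x) - L1 * ∫ x, u x * v x| ≤ ε * √(energy v))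
    (e : E 2) (he : ‖e‖ = 1)
    (hcase : ∫ x, u x ^ 2 * dps (inner ℝ x e) ^ 2 ≤ kap * ∫ x, u x ^ 2 * ps (inner ℝ x e) ^ 2) :
    (halfS e Ω).Nonempty ∧ dirEig (halfS e Ω) 1 ≤ bz 2 + kap + 2000000 * ε := by
  constructor
  · obtain ⟨h1, -⟩ := CutB_step Ω u hu hmass heven L1 ε hL1 hen hε hEL e he hcase (1 / 50000) (by norm_num) le_rfl
    have ht := CutB_test (1 / 50000) (by norm_num) e Ω u hu
    by_contra hne
    have h2 : ∀ x, CutB_phi (1 / 50000) e x * u x = 0 := by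
      intro x
      by_contra hx
      exact hne ⟨x, ht.2.2 (subset_tsupport _ hx)⟩
    have h3 : mass (fun x => CutB_phi (1 / 50000) e x * u x) = 0 := by
      unfold mass
      simp_rw [h2]
      simp
    rw [h3] at h1
    norm_num at h1
  · refine le_of_forall_pos_le_add (fun η hη => ?_)
    set δ : ℝ := min (1 / 50000) (η / 20000) with hδdef
    have hδ : 0 < δ := lt_min (by norm_num) (by positivity)
    have hδ1 : δ ≤ 1 / 50000 := min_le_left _ _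
    have hδ2 : δ ≤ η / 20000 := min_le_right _ _
    obtain ⟨h1, h2⟩ := CutB_step Ω u hu hmass heven L1 ε hL1 hen hε hEL e he hcase δ hδ hδ1
    have h3 := eig_one_le (halfS e Ω) _ (CutB_test δ hδ e Ω u hu)
    set M : ℝ := mass (fun x => CutB_phi δ e x * u x)
    set Λ : ℝ := dirEig (halfS e Ω) 1
    by_contra hlt
    push Not at hlt
    have h4 : (bz 2 + kap + 2000000 * ε + η) * M ≤ Λ * M := mul_le_mul_of_nonneg_right hlt.le (by linarith)
    have h5 : (2000000 * ε + η) * (1 / 20) ≤ (2000000 * ε + η) * M :=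
      mul_le_mul_of_nonneg_left h1 (by positivity)
    nlinarith

end Pool.Agent.H94.SP
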