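import Pool.Agent.H94.ER.TrD

/-!
# PpB: the centre

`F : ℝ → ℝ` continuous and positive with `G s = ∫ t in 0..s, F t → ∞` as `s → ∞`; `u ∈ C_c`, `∫ u^2 = 1`. There is `a` with
`∫ u(x+a)^2 F(‖x‖^2) x_j dx = 0` for all `j`.
Proof: `Ψ a = ∫ u(x)^2 G(‖x - a‖^2) dx` is continuous (`u` has compact support, `G` continuous) and `Ψ a → ∞` as `‖a‖ → ∞`
(`G` is increasing and, if `u = 0` outside the ball of radius `r`, `‖x - a‖ ≥ ‖a‖ - r` there, so `Ψ a ≥ G((‖a‖ - r)^2)` for
`‖a‖ ≥ r`). Let `a` minimise `Ψ` (e.g. `Continuous.exists_forall_le` with `Tendsto Ψ (cocompact _) atTop`). For `j` the function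
`t ↦ Ψ (a + t e_j)` has derivative `-2 ∫ u^2 F(‖x-a‖^2) (x-a)_j` at `t = 0` (differentiation under the integral sign: `G` is
`C^1` with derivative `F`, everything restricted to a compact set, e.g. `hasDerivAt_integral_of_dominated_loc_of_deriv_le`), which is
therefore `0` (`IsLocalMin.hasDerivAt_eq_zero`). Substitute `x → x + a` (`integral_add_right_eq_self`).
`coer_pow`: if `F s = F 1 * s^(-1/2)` for `s ≥ 1` then `G s = G 1 + 2 F 1 (√s - 1) → ∞`.
-/

set_option autoImplicit false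

open MeasureTheory Filter

namespace Pool.Agent.H94.SP

open Pool.Agent.H94.ER

variable {N : ℕ}

/-- the primitive has derivative `F` -/
theorem PpB_hasDerivAt (F : ℝ → ℝ) (hF : Continuous F) (s : ℝ) :
    HasDerivAt (fun s => ∫ t in (0 : ℝ)..s, F t) (F s) s :=
  (hF.integral_hasStrictDerivAt 0 s).hasDerivAt

theorem PpB_continuous (F : ℝ → ℝ) (hF : Continuous F) :
    Continuous (fun s => ∫ t in (0 : ℝ)..s, F t) :=
  continuous_iff_continuousAt.2 fun s => (PpB_hasDerivAt F hF s).continuousAt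

theorem PpB_mono (F : ℝ → ℝ) (hF : Continuous F) (hpos : ∀ s, 0 < F s) :
    Monotone (fun s => ∫ t in (0 : ℝ)..s, F t) := by
  refine monotone_of_deriv_nonneg (fun s => (PpB_hasDerivAt F hF s).differentiableAt) (fun s => ?_)
  rw [(PpB_hasDerivAt F hF s).deriv]
  exact (hpos s).le

theorem PpB_continuous_psi (G : ℝ → ℝ) (hG : Continuous G) (u : E N → ℝ) (hu : Continuous u)
    (hc : HasCompactSupport u) :
    Continuous (fun a : E N => ∫ x, u x ^ 2 * G (‖x - a‖ ^ 2)) := by
  have h1 : (fun a : E N => ∫ x, u x ^ 2 * G (‖x - a‖ ^ 2)) =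
      fun a : E N => ∫ x in tsupport u, u x ^ 2 * G (‖x - a‖ ^ 2) := by
    funext a
    rw [setIntegral_eq_integral_of_forall_compl_eq_zero]
    intro x hx
    rw [image_eq_zero_of_notMem_tsupport hx]
    simp
  rw [h1]
  refine continuous_parametric_integral_of_continuous (f := fun (a : E N) (x : E N) =>
    u x ^ 2 * G (‖x - a‖ ^ 2)) ?_ hc
  have h2 : Continuous (fun p : E N × E N => u p.2 ^ 2 * G (‖p.2 - p.1‖ ^ 2)) := by
    fun_prop
  exact h2

theorem PpB_integrable (u : E N → ℝ) (hu : Continuous u) (hc : HasCompactSupport u)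
    (g : E N → ℝ) (hg : Continuous g) : Integrable (fun x => u x ^ 2 * g x) := by
  refine Continuous.integrable_of_hasCompactSupport ((hu.pow 2).mul hg) ?_
  refine HasCompactSupport.mul_right ?_
  have h : (fun x => u x ^ 2) = fun x => u x * u x := by
    funext x; ring
  rw [h]
  exact hc.mul_right

theorem PpB_coercive (G : ℝ → ℝ) (hG : Continuous G) (hmon : Monotone G)
    (hcoer : Tendsto G atTop atTop) (u : E N → ℝ) (hu : Continuous u)
    (hc : HasCompactSupport u) (hm : mass u = 1) :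
    Tendsto (fun a : E N => ∫ x, u x ^ 2 * G (‖x - a‖ ^ 2)) (cocompact (E N)) atTop := by
  obtain ⟨r, hr⟩ := (show IsCompact (tsupport u) from hc).isBounded.subset_closedBall (0 : E N)
  have h0 : Tendsto (fun a : E N => ‖a‖) (cocompact (E N)) atTop := tendsto_norm_cocompact_atTop
  have h1 : Tendsto (fun a : E N => G ((‖a‖ - r) ^ 2)) (cocompact (E N)) atTop := by
    refine hcoer.comp ?_
    refine (tendsto_pow_atTop (two_ne_zero)).comp ?_
    exact tendsto_atTop_add_const_right _ (-r) h0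
  refine tendsto_atTop_mono' _ ?_ h1
  filter_upwards [h0.eventually (eventually_ge_atTop r)] with a ha
  have hg1 : Integrable (fun x : E N => u x ^ 2 * G ((‖a‖ - r) ^ 2)) :=
    PpB_integrable u hu hc (fun _ => G ((‖a‖ - r) ^ 2)) continuous_const
  have hg2 : Integrable (fun x : E N => u x ^ 2 * G (‖x - a‖ ^ 2)) :=
    PpB_integrable u hu hc (fun x => G (‖x - a‖ ^ 2)) (by fun_prop)
  have h2 : G ((‖a‖ - r) ^ 2) = ∫ x : E N, u x ^ 2 * G ((‖a‖ - r) ^ 2) := by
    rw [integral_mul_const]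
    unfold mass at hm
    rw [hm, one_mul]
  rw [h2]
  refine integral_mono hg1 hg2 (fun x => ?_)
  by_cases hx : x ∈ tsupport u
  · have hx1 : ‖x‖ ≤ r := by
      have := hr hx
      rwa [Metric.mem_closedBall, dist_zero_right] at this
    have h3 : ‖a‖ - r ≤ ‖x - a‖ := by
      have h4 : ‖a‖ ≤ ‖x‖ + ‖x - a‖ := by
        have h5 : a = x - (x - a) := by abel
        calc ‖a‖ = ‖x - (x - a)‖ := by rw [← h5]
          _ ≤ ‖x‖ + ‖x - a‖ := norm_sub_le _ _
      linarith
    have h6 : (‖a‖ - r) ^ 2 ≤ ‖x - a‖ ^ 2 := pow_le_pow_left₀ (by linarith) h3 2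
    exact mul_le_mul_of_nonneg_left (hmon h6) (sq_nonneg _)
  · have : u x = 0 := image_eq_zero_of_notMem_tsupport hx
    simp [this]

/-- derivative in the direction `j` -/
theorem PpB_deriv_inner (F : ℝ → ℝ) (hF : Continuous F) (a x : E N) (j : Fin N) (t : ℝ) :
    HasDerivAt (fun t : ℝ => ∫ y in (0 : ℝ)..‖x - (a + t • EuclideanSpace.single j (1 : ℝ))‖ ^ 2, F y)
      (-2 * tf F j (x - (a + t • EuclideanSpace.single j (1 : ℝ)))) t := by
  have h1 : HasDerivAt (fun t : ℝ => x - (a + t • EuclideanSpace.single j (1 : ℝ)))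
      (-(EuclideanSpace.single j (1 : ℝ))) t := by
    have h2 : HasDerivAt (fun t : ℝ => t • EuclideanSpace.single j (1 : ℝ))
        ((1 : ℝ) • EuclideanSpace.single j (1 : ℝ)) t :=
      (hasDerivAt_id t).smul_const _
    rw [one_smul] at h2
    exact (h2.const_add a).const_sub x
  have h3 := h1.norm_sq
  have h4 := (PpB_hasDerivAt F hF
    (‖x - (a + t • EuclideanSpace.single j (1 : ℝ))‖ ^ 2)).comp t h3
  refine h4.congr_deriv ?_
  rw [inner_neg_right, EuclideanSpace.inner_single_right]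
  unfold tf
  simp only [conj_trivial, one_mul]
  ring

theorem PpB_hasDerivAt_psi (F : ℝ → ℝ) (hF : Continuous F) (u : E N → ℝ) (hu : Continuous u)
    (hc : HasCompactSupport u) (a : E N) (j : Fin N) :
    HasDerivAt (fun t : ℝ => ∫ x, u x ^ 2 *
        ∫ y in (0 : ℝ)..‖x - (a + t • EuclideanSpace.single j (1 : ℝ))‖ ^ 2, F y)
      (∫ x, u x ^ 2 * (-2 * tf F j (x - a))) 0 := by
  have hGc := PpB_continuous F hF
  have htf : Continuous (fun p : ℝ × E N =>
      -2 * tf F j (p.2 - (a + p.1 • EuclideanSpace.single j (1 : ℝ)))) := by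
    unfold tf
    fun_prop
  obtain ⟨M, hM⟩ := ((isCompact_Icc (a := (-1 : ℝ)) (b := 1)).prod
    (show IsCompact (tsupport u) from hc)).exists_bound_of_continuousOn htf.continuousOn
  have hmain := hasDerivAt_integral_of_dominated_loc_of_deriv_le (μ := (volume : Measure (E N)))
    (F := fun (t : ℝ) (x : E N) => u x ^ 2 *
        ∫ y in (0 : ℝ)..‖x - (a + t • EuclideanSpace.single j (1 : ℝ))‖ ^ 2, F y)
    (F' := fun (t : ℝ) (x : E N) => u x ^ 2 *
        (-2 * tf F j (x - (a + t • EuclideanSpace.single j (1 : ℝ)))))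
    (x₀ := (0 : ℝ)) (bound := fun x => u x ^ 2 * M) (s := Set.Icc (-1 : ℝ) 1)
    (Icc_mem_nhds (by norm_num) (by norm_num)) ?_ ?_ ?_ ?_ ?_ ?_
  · have h := hmain.2
    simpa using h
  · refine Eventually.of_forall (fun t => ?_)
    refine ((hu.pow 2).mul (hGc.comp ?_)).aestronglyMeasurable
    fun_prop
  · refine PpB_integrable u hu hc _ (hGc.comp ?_)
    fun_prop
  · refine ((hu.pow 2).mul ?_).aestronglyMeasurable
    unfold tf
    fun_prop
  · refine Eventually.of_forall (fun x t ht => ?_)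
    by_cases hx : x ∈ tsupport u
    · have h1 := hM (t, x) ⟨ht, hx⟩
      rw [norm_mul]
      have h2 : ‖u x ^ 2‖ = u x ^ 2 := by
        rw [Real.norm_eq_abs, abs_of_nonneg (sq_nonneg _)]
      rw [h2]
      exact mul_le_mul_of_nonneg_left h1 (sq_nonneg _)
    · have : u x = 0 := image_eq_zero_of_notMem_tsupport hx
      simp [this]
  · exact PpB_integrable u hu hc (fun _ => M) continuous_const
  · refine Eventually.of_forall (fun x t _ => ?_)
    exact (PpB_deriv_inner F hF a x j t).const_mul _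

theorem exists_centre (F : ℝ → ℝ) (hF : Continuous F) (hpos : ∀ s, 0 < F s)
    (hcoer : Tendsto (fun s => ∫ t in (0 : ℝ)..s, F t) atTop atTop) (u : E N → ℝ) (hu : Continuous u)
    (hc : HasCompactSupport u) (hm : mass u = 1) :
    ∃ a : E N, ∀ j, ∫ x, u (x + a) ^ 2 * tf F j x = 0 := by
  have hGc := PpB_continuous F hF
  obtain ⟨a, ha⟩ := (PpB_continuous_psi (N := N) _ hGc u hu hc).exists_forall_le
    (PpB_coercive _ hGc (PpB_mono F hF hpos) hcoer u hu hc hm)
  refine ⟨a, fun j => ?_⟩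
  have h1 := PpB_hasDerivAt_psi F hF u hu hc a j
  have h2 : IsLocalMin (fun t : ℝ => ∫ x, u x ^ 2 *
        ∫ y in (0 : ℝ)..‖x - (a + t • EuclideanSpace.single j (1 : ℝ))‖ ^ 2, F y) 0 := by
    refine Eventually.of_forall (fun t => ?_)
    have h3 := ha (a + t • EuclideanSpace.single j (1 : ℝ))
    simpa using h3
  have h4 := h2.hasDerivAt_eq_zero h1
  have h5 : ∫ x, u x ^ 2 * (-2 * tf F j (x - a)) = -2 * ∫ x, u x ^ 2 * tf F j (x - a) := by
    rw [← integral_const_mul]
    refine integral_congr_ae (Eventually.of_forall (fun x => ?_))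
    ring
  rw [h5] at h4
  have h6 : ∫ x, u x ^ 2 * tf F j (x - a) = 0 := by linarith
  rw [← integral_add_right_eq_self (fun x => u x ^ 2 * tf F j (x - a)) a] at h6
  simpa using h6

theorem coer_pow (F : ℝ → ℝ) (hF : Continuous F) (hpos : ∀ s, 0 < F s)
    (hout : ∀ s, 1 ≤ s → F s = F 1 * s ^ (-(1 : ℝ) / 2)) :
    Tendsto (fun s => ∫ t in (0 : ℝ)..s, F t) atTop atTop := by
  have h1 : ∀ s : ℝ, 1 ≤ s → ∫ t in (0 : ℝ)..s, F t =
      (∫ t in (0 : ℝ)..1, F t) + F 1 * ((s ^ ((1 : ℝ) / 2) - 1) / (1 / 2)) := by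
    intro s hs
    rw [← intervalIntegral.integral_add_adjacent_intervals (hF.intervalIntegrable 0 1)
      (hF.intervalIntegrable 1 s)]
    congr 1
    have h2 : ∫ t in (1 : ℝ)..s, F t = ∫ t in (1 : ℝ)..s, F 1 * t ^ (-(1 : ℝ) / 2) := by
      refine intervalIntegral.integral_congr (fun t ht => ?_)
      rw [Set.uIcc_of_le hs] at ht
      exact hout t ht.1
    rw [h2, intervalIntegral.integral_const_mul, integral_rpow (Or.inl (by norm_num))]
    rw [Real.one_rpow]
    norm_num
  have h3 : Tendsto (fun s : ℝ => (∫ t in (0 : ℝ)..1, F t) +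
      F 1 * ((s ^ ((1 : ℝ) / 2) - 1) / (1 / 2))) atTop atTop := by
    refine tendsto_atTop_add_const_left _ _ ?_
    refine Tendsto.const_mul_atTop (hpos 1) ?_
    refine Tendsto.atTop_div_const (by norm_num) ?_
    exact tendsto_atTop_add_const_right _ (-1) (tendsto_rpow_atTop (by norm_num))
  refine h3.congr' ?_
  filter_upwards [eventually_ge_atTop (1 : ℝ)] with s hs
  exact (h1 s hs).symm

end Pool.Agent.H94.SP
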