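import Pool.Agent.H94.ER.UpA

/-!
# Tau: the error term, and even near minimisers

* `tau_bound`: `hEL` with `v = H̃ u`, `H̃ x = Hk N k (‖x‖^2)` (`IsTest.mul_left`): `∫ dot u v ≤ L1 ∫ H̃ u^2 + ε √(energy v)`,
  `L1 ≤ bz N`, `H̃ ≥ 0`, and `energy v ≤ 2 B^2 (energy u + N mass u) ≤ 2 B^2 (bz N + 1 + N)` (`energy_mul_le`): see the proof of
  `upA_tau` in `ER/UpA.lean`, which contains exactly this.
* `near_min_even`: `near_min_inv` with `G = Subgroup.zpowers (LinearIsometryEquiv.neg ℝ)` (finite, of order `≤ 2`).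
-/

set_option autoImplicit false

open MeasureTheory

namespace Pool.Agent.H94.SP

open Pool.Agent.H94.ER

variable {N : ℕ}

theorem tau_bound (hN : 2 ≤ N) (k : ℕ) (hk : 1 ≤ k) (Ω : Set (E N)) (u : E N → ℝ) (hu : IsTest Ω u)
    (hmass : mass u = 1) (L1 ε B : ℝ) (hL1 : L1 ≤ bz N) (hen : energy u ≤ bz N + 1) (hε : 0 ≤ ε)
    (hB0 : 0 ≤ B)
    (hB : ∀ x : E N, |Hk N k (‖x‖ ^ 2)| ≤ B ∧ ∀ i, |pd i (fun y : E N => Hk N k (‖y‖ ^ 2)) x| ≤ B)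
    (hEL : ∀ v, IsTest Ω v → |(∫ x, dot u v x) - L1 * ∫ x, u x * v x| ≤ ε * √(energy v)) :
    (∫ x, dot u (fun y => Hk N k (‖y‖ ^ 2) * u y) x) - bz N * (∫ x, Hk N k (‖x‖ ^ 2) * u x ^ 2)
      ≤ ε * (B * √(2 * (bz N + 1 + N))) := by
  have hφ := contDiff_Ht (N := N) k hN hk
  have hv : IsTest Ω (fun y => Hk N k (‖y‖ ^ 2) * u y) := hu.mul_left _ hφ
  have h1 := energy_mul_le u (fun y : E N => Hk N k (‖y‖ ^ 2)) hu.1 hu.2.1 hφ B hB
  rw [hmass, mul_one] at h1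
  have h2 : energy (fun y => Hk N k (‖y‖ ^ 2) * u y) ≤ B ^ 2 * (2 * (bz N + 1 + N)) := by
    refine h1.trans ?_
    have h3 : energy u + N ≤ bz N + 1 + N := by linarith
    calc 2 * B ^ 2 * (energy u + N) ≤ 2 * B ^ 2 * (bz N + 1 + N) :=
          mul_le_mul_of_nonneg_left h3 (by positivity)
      _ = _ := by ring
  have h3 : √(energy (fun y => Hk N k (‖y‖ ^ 2) * u y)) ≤ B * √(2 * (bz N + 1 + N)) := by
    refine (Real.sqrt_le_sqrt h2).trans (le_of_eq ?_)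
    rw [Real.sqrt_mul (by positivity), Real.sqrt_sq hB0]
  have h4 := (abs_le.1 (hEL _ hv)).2
  have h5 := mul_le_mul_of_nonneg_left h3 hε
  have h7 : ∫ x, u x * (Hk N k (‖x‖ ^ 2) * u x) = ∫ x, Hk N k (‖x‖ ^ 2) * u x ^ 2 := by
    refine integral_congr_ae (Filter.Eventually.of_forall fun x => ?_)
    show u x * (Hk N k (‖x‖ ^ 2) * u x) = Hk N k (‖x‖ ^ 2) * u x ^ 2
    ring
  have h8 : 0 ≤ ∫ x, Hk N k (‖x‖ ^ 2) * u x ^ 2 :=
    integral_nonneg fun x => mul_nonneg (Ht_nonneg k hN hk x) (sq_nonneg _)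
  rw [h7] at h4
  have h9 := mul_le_mul_of_nonneg_right hL1 h8
  linarith

theorem Tau_neg_mem (g : E N ≃ₗᵢ[ℝ] E N)
    (hg : g ∈ Subgroup.zpowers (LinearIsometryEquiv.neg ℝ : E N ≃ₗᵢ[ℝ] E N)) :
    g = 1 ∨ g = LinearIsometryEquiv.neg ℝ := by
  have hsq : (LinearIsometryEquiv.neg ℝ : E N ≃ₗᵢ[ℝ] E N) ^ 2 = 1 := by
    ext x
    simp [pow_two]
  obtain ⟨m, rfl⟩ := Subgroup.mem_zpowers_iff.1 hg
  rcases Int.even_or_odd' m with ⟨j, rfl | rfl⟩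
  · left
    rw [zpow_mul]
    have : (LinearIsometryEquiv.neg ℝ : E N ≃ₗᵢ[ℝ] E N) ^ (2 : ℤ) = 1 := by
      exact_mod_cast hsq
    rw [this, one_zpow]
  · right
    rw [zpow_add, zpow_mul, zpow_one]
    have : (LinearIsometryEquiv.neg ℝ : E N ≃ₗᵢ[ℝ] E N) ^ (2 : ℤ) = 1 := by
      exact_mod_cast hsq
    rw [this, one_zpow, one_mul]

theorem near_min_even (hN : 1 ≤ N) (Ω : Set (E N)) (hΩ : IsOpen Ω) (hne : Ω.Nonempty)
    (hsym : ∀ x ∈ Ω, -x ∈ Ω) (ε : ℝ) (hε : 0 < ε) :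
    ∃ u : E N → ℝ, IsTest Ω u ∧ mass u = 1 ∧ energy u ≤ dirEig Ω 1 + ε ∧ ∀ x, u (-x) = u x := by
  classical
  have hfin : Finite (Subgroup.zpowers (LinearIsometryEquiv.neg ℝ : E N ≃ₗᵢ[ℝ] E N)) := by
    have hs : ((Subgroup.zpowers (LinearIsometryEquiv.neg ℝ : E N ≃ₗᵢ[ℝ] E N)) : Set (E N ≃ₗᵢ[ℝ] E N)) ⊆
        {1, LinearIsometryEquiv.neg ℝ} := by
      intro g hg
      rcases Tau_neg_mem g hg with h | h
      · rw [h]; exact Set.mem_insert _ _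
      · rw [h]; exact Set.mem_insert_of_mem _ rfl
    exact (Set.Finite.subset (by simp) hs).to_subtype
  have hG : ∀ g ∈ Subgroup.zpowers (LinearIsometryEquiv.neg ℝ : E N ≃ₗᵢ[ℝ] E N), g '' Ω = Ω := by
    intro g hg
    rcases Tau_neg_mem g hg with rfl | rfl
    · simp
    · ext x
      constructor
      · rintro ⟨y, hy, rfl⟩
        exact hsym y hy
      · intro hx
        exact ⟨-x, hsym x hx, by simp⟩
  obtain ⟨u, hu, hmass, hen, hinv⟩ := near_min_inv hN Ω hΩ hne _ hG ε hε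
  refine ⟨u, hu, hmass, hen, fun x => ?_⟩
  have h := hinv (LinearIsometryEquiv.neg ℝ) (Subgroup.mem_zpowers _)
  have := h x
  simpa using this

end Pool.Agent.H94.SP
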