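import Pool.Agent.H94.SP.PpA
import Pool.Agent.H94.SP.PpB
import Pool.Agent.H94.SP.Tau
import Pool.Agent.H94.ER.UpB

/-!
# PpC: `λ_2(Ω)/λ_1(Ω) ≤ λ_2(B)/λ_1(B)` for every nonempty open `Ω ⊂ R^N` (Ashbaugh-Benguria)

`ppw_scaled`: `dirEig Ω 1 ≤ bz N` implies `dirEig Ω 2 ≤ bz (N+2)`. It suffices: `dirEig Ω 2 ≤ bz (N+2) + δ` for every `0 < δ ≤ 1`.
`γ = bz (N+2) - bz N`, `F = Fp N 1` (`contDiff_Fp`, `Fp_pos`, `Fp_out`), `f_j = tf F j`. Constants (independent of `u`):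
`c` (`upA_lower` with `k = 1`, `C = bz N + 1`), `A ≥ 1` bounding `f_j`, `pd i f_j` (`tf_bound`) and the constant `1`, `B` (`Ht_bound`, `k = 1`),
`η = min (γ + δ) (δ c / (2 N))`. Take `ε ∈ (0,1]` so small that `√ε (B √(2(bz N+1+N))) ≤ δ c / 2` and
`√ε (4 * 2 * A^2 * √(2 * (bz N + 1 + N))) ≤ η`. `near_min` gives `w` on `Ω` with `mass w = 1`, `energy w ≤ dirEig Ω 1 + ε`;
`exists_centre` (`coer_pow`) gives `a`; `u x = w (x + a)` is a test function on `Ω' = trS a Ω` (`isTest_tr`, `mass_tr`, `energy_tr`,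
`dirEig_tr`), `∫ u^2 f_j = 0`. `form_cs` for `Ω'` (`L = dirEig Ω' 1`, `eig_one_le`) is the hypothesis `hEL` with `√ε` of
`trial_bound` and `upA_tau` (`k = 1`): `-τ ≤ ∫ u^2 (γ Pk 1 F - En N 1 F)`, `τ ≤ δ c/2`. `sum_tf_sq`, `sum_dot_tf`:
`∑ j, [(γ+δ) ∫ u^2 f_j^2 - ∫ u^2 |∇f_j|^2] ≥ δ c - τ ≥ δ c/2`, so for some `j` the bracket is `≥ δ c/(2N)`.
`trial_bound` with `ι = Option Unit`, `ψ none = 1`, `ψ (some _) = f_j`, `κ = γ + δ`: the form is
`κ c_0^2 + c_1^2 [...]`, cross terms vanish. Result `dirEig Ω' 2 ≤ bz N + γ + δ`.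
`ppw`: scaling, as `upb_step`, `upper` in `ER/UpB.lean` (`dirEig_smul`).
-/

set_option autoImplicit false

open MeasureTheory

namespace Pool.Agent.H94.SP

open Pool.Agent.H94.ER

variable {N : ℕ}

/-- the quadratic form for the two trial functions `1`, `f` -/
private theorem PpC_form (u f : E N → ℝ) (hu : ContDiff ℝ 1 u) (hc : HasCompactSupport u)
    (hm : mass u = 1) (hf : ContDiff ℝ 1 f) (h0 : ∫ x, u x ^ 2 * f x = 0) (κ η : ℝ) (hη : η ≤ κ)
    (h1 : η ≤ κ * (∫ x, u x ^ 2 * f x ^ 2) - ∫ x, u x ^ 2 * dot f f x)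
    (ψ : Bool → E N → ℝ) (hψ0 : ψ false = fun _ => 1) (hψ1 : ψ true = f) (c : Bool → ℝ) :
    ∫ x, u x ^ 2 * dot (fun y => ∑ i, c i * ψ i y) (fun y => ∑ i, c i * ψ i y) x
      ≤ κ * (∫ x, u x ^ 2 * (∑ i, c i * ψ i x) ^ 2) - η * ∑ i, c i ^ 2 := by
  have hψ : ∀ i, ContDiff ℝ 1 (ψ i) := by
    rintro (_ | _)
    · rw [hψ0]; exact contDiff_const
    · rw [hψ1]; exact hf
  have hd : ∀ x, dot (fun y => ∑ i, c i * ψ i y) (fun y => ∑ i, c i * ψ i y) x =
      c true ^ 2 * dot f f x := by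
    intro x
    unfold dot
    rw [Finset.mul_sum]
    refine Finset.sum_congr rfl fun k _ => ?_
    rw [TrA_pd ψ hψ c k x, Fintype.sum_bool, hψ0, hψ1, pd_const]
    ring
  have hs : ∀ x, (∑ i, c i * ψ i x) ^ 2 =
      c true ^ 2 * f x ^ 2 + 2 * c true * c false * f x + c false ^ 2 := by
    intro x
    rw [Fintype.sum_bool, hψ0, hψ1]
    ring
  have hi1 : Integrable (fun x => u x ^ 2 * f x ^ 2) :=
    upA_integrable u (fun x => f x ^ 2) hu.continuous hc (hf.continuous.pow 2)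
  have hi2 : Integrable (fun x => u x ^ 2 * f x) :=
    upA_integrable u f hu.continuous hc hf.continuous
  have hi3 : Integrable (fun x => u x ^ 2) := by
    have := upA_integrable u (fun _ => 1) hu.continuous hc continuous_const
    simpa using this
  have e1 : ∫ x, u x ^ 2 * dot (fun y => ∑ i, c i * ψ i y) (fun y => ∑ i, c i * ψ i y) x =
      c true ^ 2 * ∫ x, u x ^ 2 * dot f f x := by
    rw [← integral_const_mul]
    refine integral_congr_ae (Filter.Eventually.of_forall fun x => ?_)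
    show u x ^ 2 * dot (fun y => ∑ i, c i * ψ i y) (fun y => ∑ i, c i * ψ i y) x =
      c true ^ 2 * (u x ^ 2 * dot f f x)
    rw [hd x]
    ring
  have e2 : ∫ x, u x ^ 2 * (∑ i, c i * ψ i x) ^ 2 =
      c true ^ 2 * (∫ x, u x ^ 2 * f x ^ 2) + c false ^ 2 := by
    have e3 : ∫ x, u x ^ 2 * (∑ i, c i * ψ i x) ^ 2 =
        ∫ x, (c true ^ 2 * (u x ^ 2 * f x ^ 2) + 2 * c true * c false * (u x ^ 2 * f x)
          + c false ^ 2 * u x ^ 2) := by
      refine integral_congr_ae (Filter.Eventually.of_forall fun x => ?_)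
      show u x ^ 2 * (∑ i, c i * ψ i x) ^ 2 = _
      rw [hs x]
      ring
    have hi12 : Integrable (fun x => c true ^ 2 * (u x ^ 2 * f x ^ 2) +
        2 * c true * c false * (u x ^ 2 * f x)) := (hi1.const_mul _).add (hi2.const_mul _)
    rw [e3, integral_add hi12 (hi3.const_mul _),
      integral_add (hi1.const_mul _) (hi2.const_mul _), integral_const_mul, integral_const_mul,
      integral_const_mul, h0]
    have h4 : ∫ x, u x ^ 2 = 1 := hm
    rw [h4]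
    ring
  rw [e1, e2, Fintype.sum_bool]
  have h5 := mul_le_mul_of_nonneg_left h1 (sq_nonneg (c true))
  have h6 := mul_le_mul_of_nonneg_right hη (sq_nonneg (c false))
  linarith

/-- one of the trial functions is good -/
private theorem PpC_exists (hN : 2 ≤ N) (u : E N → ℝ) (hu : ContDiff ℝ 1 u)
    (hc : HasCompactSupport u) (F : ℝ → ℝ) (hF : ContDiff ℝ 1 F) (γ δ τ c : ℝ) (hδ : 0 < δ)
    (h1 : -τ ≤ ∫ x, u x ^ 2 * (γ * Pk 1 F (‖x‖ ^ 2) - En N 1 F (‖x‖ ^ 2)))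
    (h2 : c ≤ ∫ x, u x ^ 2 * Pk 1 F (‖x‖ ^ 2)) (h3 : τ ≤ δ * c / 2) :
    ∃ j : Fin N, δ * c / (2 * N) ≤
      (γ + δ) * (∫ x, u x ^ 2 * tf F j x ^ 2) - ∫ x, u x ^ 2 * dot (tf F j) (tf F j) x := by
  have hN0 : (0 : ℝ) < N := by
    have : 0 < N := by omega
    exact_mod_cast this
  have hi1 : ∀ j ∈ (Finset.univ : Finset (Fin N)), Integrable (fun x => u x ^ 2 * tf F j x ^ 2) :=
    fun j _ => upA_integrable u (fun x => tf F j x ^ 2) hu.continuous hc
      ((contDiff_tf F hF j).continuous.pow 2)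
  have hi2 : ∀ j ∈ (Finset.univ : Finset (Fin N)),
      Integrable (fun x => u x ^ 2 * dot (tf F j) (tf F j) x) :=
    fun j _ => upA_integrable u _ hu.continuous hc
      (continuous_dot _ _ (contDiff_tf F hF j) (contDiff_tf F hF j))
  have e1 : ∑ j : Fin N, ∫ x, u x ^ 2 * tf F j x ^ 2 = ∫ x, u x ^ 2 * Pk 1 F (‖x‖ ^ 2) := by
    rw [← integral_finsetSum _ hi1]
    refine integral_congr_ae (Filter.Eventually.of_forall fun x => ?_)
    show ∑ j : Fin N, u x ^ 2 * tf F j x ^ 2 = _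
    rw [← Finset.mul_sum, sum_tf_sq]
  have e2 : ∑ j : Fin N, ∫ x, u x ^ 2 * dot (tf F j) (tf F j) x =
      ∫ x, u x ^ 2 * En N 1 F (‖x‖ ^ 2) := by
    rw [← integral_finsetSum _ hi2]
    refine integral_congr_ae (Filter.Eventually.of_forall fun x => ?_)
    show ∑ j : Fin N, u x ^ 2 * dot (tf F j) (tf F j) x = _
    rw [← Finset.mul_sum, sum_dot_tf F hF]
  have hj1 : Integrable (fun x => u x ^ 2 * Pk 1 F (‖x‖ ^ 2)) := by
    have h4 := integrable_finsetSum _ hi1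
    refine h4.congr (Filter.Eventually.of_forall fun x => ?_)
    show ∑ j : Fin N, u x ^ 2 * tf F j x ^ 2 = _
    rw [← Finset.mul_sum, sum_tf_sq]
  have hj2 : Integrable (fun x => u x ^ 2 * En N 1 F (‖x‖ ^ 2)) := by
    have h4 := integrable_finsetSum _ hi2
    refine h4.congr (Filter.Eventually.of_forall fun x => ?_)
    show ∑ j : Fin N, u x ^ 2 * dot (tf F j) (tf F j) x = _
    rw [← Finset.mul_sum, sum_dot_tf F hF]
  have e3 : ∫ x, u x ^ 2 * (γ * Pk 1 F (‖x‖ ^ 2) - En N 1 F (‖x‖ ^ 2)) =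
      γ * (∫ x, u x ^ 2 * Pk 1 F (‖x‖ ^ 2)) - ∫ x, u x ^ 2 * En N 1 F (‖x‖ ^ 2) := by
    rw [← integral_const_mul, ← integral_sub (hj1.const_mul γ) hj2]
    refine integral_congr_ae (Filter.Eventually.of_forall fun x => ?_)
    show u x ^ 2 * (γ * Pk 1 F (‖x‖ ^ 2) - En N 1 F (‖x‖ ^ 2)) = _
    ring
  have h5 : ∑ _j : Fin N, δ * c / (2 * N) ≤ ∑ j : Fin N,
      ((γ + δ) * (∫ x, u x ^ 2 * tf F j x ^ 2) - ∫ x, u x ^ 2 * dot (tf F j) (tf F j) x) := by
    rw [Finset.sum_sub_distrib, ← Finset.mul_sum, e1, e2, Finset.sum_const, Finset.card_univ,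
      Fintype.card_fin, nsmul_eq_mul]
    rw [e3] at h1
    have h6 : (N : ℝ) * (δ * c / (2 * N)) = δ * c / 2 := by
      field_simp
    rw [h6]
    have h7 := mul_le_mul_of_nonneg_left h2 hδ.le
    linarith
  have hne : (Finset.univ : Finset (Fin N)).Nonempty :=
    Finset.univ_nonempty_iff.2 ⟨⟨0, by omega⟩⟩
  obtain ⟨j, _, hj⟩ := Finset.exists_le_of_sum_le hne h5
  exact ⟨j, hj⟩

theorem ppw_scaled (hN : 2 ≤ N) (Ω : Set (E N)) (hΩ : IsOpen Ω) (hne : Ω.Nonempty)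
    (h1 : dirEig Ω 1 ≤ bz N) : dirEig Ω 2 ≤ bz (N + 2) := by
  refine le_of_forall_pos_le_add fun δ hδ => ?_
  have hN1 : 1 ≤ N := by omega
  have hNr : (2 : ℝ) ≤ (N : ℝ) := by exact_mod_cast hN
  have hN0 : (0 : ℝ) < (N : ℝ) := by linarith
  have hlam : 0 < bz N := bz_pos N hNr
  set γ : ℝ := bz (N + 2 * ((1 : ℕ) : ℝ)) - bz N with hγ
  have hg : 0 < γ := by
    have h2 := gamma_gt N 1 hN le_rfl
    have h3 : (0 : ℝ) ≤ ((1 : ℕ) : ℝ) * (N + ((1 : ℕ) : ℝ) - 2) := by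
      push_cast
      linarith
    linarith
  have hg2 : bz ((N : ℝ) + 2) = bz N + γ := by
    have e2 : (N : ℝ) + 2 * ((1 : ℕ) : ℝ) = (N : ℝ) + 2 := by push_cast; ring
    rw [hγ, e2]
    ring
  have hF := contDiff_Fp N 1 hN
  have hout : ∀ s, 1 ≤ s → Fp N 1 s = Fp N 1 1 * s ^ (-(1 : ℝ) / 2) := by
    intro s hs
    have h2 := Fp_out N 1 s hs
    rw [Nat.cast_one] at h2
    exact h2
  obtain ⟨A1, hA10, hA1⟩ := tf_bound (N := N) (Fp N 1) hF hout
  obtain ⟨B, hB0, hB⟩ := Ht_bound (N := N) 1 hN le_rfl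
  obtain ⟨c, hcpos, hC⟩ := upA_lower hN 1 le_rfl (bz N + 1) (by linarith)
  set A : ℝ := 1 + A1 with hA
  have hA0 : 0 ≤ A := by positivity
  set R : ℝ := √(2 * (bz N + 1 + N)) with hR
  have hR0 : 0 ≤ R := Real.sqrt_nonneg _
  set η : ℝ := min (γ + δ) (δ * c / (2 * N)) with hη
  have hηpos : 0 < η := lt_min (by linarith) (by positivity)
  set θ : ℝ := min η (δ * c / 2) with hθ
  have hθpos : 0 < θ := lt_min hηpos (by positivity)
  set M : ℝ := 4 * 2 * A ^ 2 * R + B * R + 1 with hM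
  have hM1 : 0 ≤ 4 * 2 * A ^ 2 * R := by positivity
  have hM2 : 0 ≤ B * R := by positivity
  have hMpos : 0 < M := by linarith
  set ε : ℝ := min 1 (θ / M) with hε
  have hεpos : 0 < ε := lt_min one_pos (div_pos hθpos hMpos)
  have hε1 : ε ≤ 1 := min_le_left _ _
  have hεM : ε * M ≤ θ := by
    have h2 : ε ≤ θ / M := min_le_right _ _
    calc ε * M ≤ θ / M * M := mul_le_mul_of_nonneg_right h2 hMpos.le
      _ = θ := div_mul_cancel₀ _ hMpos.ne'
  obtain ⟨w, hw, hwm, hwe⟩ := near_min hN1 Ω hΩ hne (ε ^ 2) (by positivity)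
  have hε2 : ε ^ 2 ≤ 1 := pow_le_one₀ hεpos.le hε1
  obtain ⟨a, ha⟩ := exists_centre (N := N) (Fp N 1) hF.continuous (fun s => Fp_pos N 1 hN s)
    (coer_pow _ hF.continuous (fun s => Fp_pos N 1 hN s) hout) w hw.1.continuous hw.2.1 hwm
  have hu : IsTest (trS a Ω) (fun x => w (x + a)) := isTest_tr a Ω w hw
  have hmass : mass (fun x => w (x + a)) = 1 := (mass_tr a w).trans hwm
  have hen : energy (fun x => w (x + a)) ≤ dirEig (trS a Ω) 1 + ε ^ 2 := by
    rw [energy_tr, dirEig_tr]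
    exact hwe
  set u : E N → ℝ := fun x => w (x + a) with hudef
  set Ω' : Set (E N) := trS a Ω with hΩ'
  have h1' : dirEig Ω' 1 ≤ bz N := by
    rw [hΩ', dirEig_tr]
    exact h1
  have hL0 : 0 ≤ dirEig Ω' 1 := dirEig_nonneg Ω' 1
  have hen' : energy u ≤ bz N + 1 := by linarith
  have hEL : ∀ v, IsTest Ω' v →
      |(∫ x, dot u v x) - dirEig Ω' 1 * ∫ x, u x * v x| ≤ ε * √(energy v) := by
    intro v hv
    have h2 := form_cs Ω' (dirEig Ω' 1) (ε ^ 2) hL0 (eig_one_le Ω') u hu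
      (by rw [hmass, mul_one]; exact hen) v hv
    rwa [Real.sqrt_sq hεpos.le] at h2
  have hτθ : ε * (B * R) ≤ θ := by
    have h2 : ε * (B * R) ≤ ε * M := mul_le_mul_of_nonneg_left (by linarith) hεpos.le
    linarith
  have hτ : ε * (B * R) ≤ δ * c / 2 := hτθ.trans (min_le_right _ _)
  have hJ := upA_tau hN 1 le_rfl Ω' u hu hmass (dirEig Ω' 1) ε B h1' hen' hεpos.le hB0 hB hEL
  obtain ⟨j, hj⟩ := PpC_exists hN u hu.1 hu.2.1 (Fp N 1) hF γ δ (ε * (B * R)) c hδ hJ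
    (hC u hu.1 hu.2.1 hmass hen') hτ
  have hsmall : ε * (4 * (Fintype.card Bool : ℝ) * A ^ 2 * √(2 * (bz N + 1 + N))) ≤ η := by
    rw [Fintype.card_bool]
    push_cast
    have h2 : ε * (4 * 2 * A ^ 2 * R) ≤ ε * M :=
      mul_le_mul_of_nonneg_left (by linarith) hεpos.le
    have h3 : θ ≤ η := min_le_left _ _
    linarith
  have hfin := trial_bound (ι := Bool) (by rw [Fintype.card_bool]; norm_num) Ω' u hu hmass
    (dirEig Ω' 1) (bz N) (γ + δ) η A ε hL0 h1' hen'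
    (fun b => if b = true then tf (Fp N 1) j else fun _ => 1)
    (by
      rintro (_ | _)
      · rw [if_neg (by decide)]
        exact contDiff_const
      · rw [if_pos rfl]
        exact contDiff_tf _ hF j)
    hA0
    (by
      rintro (_ | _) x
      · rw [if_neg (by decide)]
        refine ⟨?_, fun j => ?_⟩
        · show |(1 : ℝ)| ≤ A
          rw [abs_one]
          linarith
        · rw [pd_const, abs_zero]
          exact hA0
      · rw [if_pos rfl]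
        exact ⟨(hA1 j x).1.trans (by linarith),
          fun i => ((hA1 j x).2 i).trans (by linarith)⟩)
    hεpos.le hEL hηpos hsmall
    (fun c => PpC_form u (tf (Fp N 1) j) hu.1 hu.2.1 hmass (contDiff_tf _ hF j) (ha j) (γ + δ) η
      (min_le_left _ _) ((min_le_right _ _).trans hj) _ (by rw [if_neg (by decide)])
      (by rw [if_pos rfl]) c)
  rw [Fintype.card_bool, hΩ', dirEig_tr] at hfin
  rw [hg2]
  linarith

open Pointwise in
private theorem PpC_step (hN : 2 ≤ N) (Ω : Set (E N)) (hΩ : IsOpen Ω) (hne : Ω.Nonempty)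
    (c : ℝ) (hc : dirEig Ω 1 < c) :
    dirEig Ω 2 * bz N ≤ bz (N + 2) * c := by
  have hb : 0 < bz (N : ℝ) := bz_pos _ (by exact_mod_cast hN)
  have hc0 : 0 < c := (dirEig_nonneg Ω 1).trans_lt hc
  have hcb : 0 < c / bz N := div_pos hc0 hb
  have ha : 0 < √(c / bz N) := Real.sqrt_pos.2 hcb
  have ha2 : √(c / bz N) ^ 2 = c / bz N := Real.sq_sqrt hcb.le
  have h1 : dirEig (√(c / bz N) • Ω) 1 ≤ bz N := by
    rw [dirEig_smul (by omega) Ω 1 _ ha, ha2, div_le_iff₀ hcb, mul_div_assoc', mul_comm,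
      mul_div_assoc, div_self hb.ne', mul_one]
    exact hc.le
  have h2 := ppw_scaled hN (√(c / bz N) • Ω) (hΩ.smul₀ ha.ne') (hne.smul_set) h1
  rw [dirEig_smul (by omega) Ω 2 _ ha, ha2, div_le_iff₀ hcb, mul_div_assoc',
    le_div_iff₀ hb] at h2
  exact h2

theorem ppw (hN : 2 ≤ N) (Ω : Set (E N)) (hΩ : IsOpen Ω) (hne : Ω.Nonempty) :
    dirEig Ω 2 * bz N ≤ bz (N + 2) * dirEig Ω 1 := by
  have hb : 0 < bz ((N : ℝ) + 2) := bz_pos _ (by
    have : (2 : ℝ) ≤ N := by exact_mod_cast hN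
    linarith)
  have h1 : ∀ c, dirEig Ω 1 < c → dirEig Ω 2 * bz N / bz (N + 2) ≤ c := fun c hc => by
    rw [div_le_iff₀ hb, mul_comm c]
    exact PpC_step hN Ω hΩ hne c hc
  have h2 := le_of_forall_gt_imp_ge_of_dense h1
  rw [div_le_iff₀ hb] at h2
  linarith

end Pool.Agent.H94.SP
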