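import Pool.Agent.H94.SP.CutA
import Pool.Agent.H94.SP.CutB
import Pool.Agent.H94.SP.PpC

/-!
# CutC: Case 1

Under the hypotheses of `half_eig`: `dirEig Ω 4 ≤ bz 6 + 10^7 ε`.
The hypothesis `hcase` also holds for `-e` (`ps_neg`, `dps_neg`), so `half_eig` applies to `Ω⁺ = halfS e Ω` and `Ω⁻ = halfS (-e) Ω`, which are
disjoint nonempty open subsets of `Ω`. `ppw` (N = 2; casts `bz (2+2) = bz 4`): `dirEig Ω^± 2 * bz 2 ≤ bz 4 * (bz 2 + kap + 2·10^6 ε)`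
`= bz 6 * bz 2 + bz 4 * 2·10^6 ε` (`kap = bz 6 * bz 2 / bz 4 - bz 2`), so `dirEig Ω^± 2 ≤ bz 6 + (bz 4 / bz 2) 2·10^6 ε ≤ bz 6 + 10^7 ε`
(`bz4_hi`, `bz2_lo`). `dirEig_union` with `j = k = 2`.
-/

set_option autoImplicit false

open MeasureTheory Pool.Agent.H94.ER

namespace Pool.Agent.H94.SP

theorem CutC_piece (Ω : Set (E 2)) (hΩ : IsOpen Ω) (hne : Ω.Nonempty) (ε : ℝ) (hε : 0 ≤ ε)
    (h : dirEig Ω 1 ≤ bz 2 + kap + 2000000 * ε) : dirEig Ω 2 ≤ bz 6 + 10000000 * ε := by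
  have h1 := ppw (N := 2) le_rfl Ω hΩ hne
  have e1 : ((2 : ℕ) : ℝ) = 2 := by norm_num
  have e2 : ((2 : ℕ) : ℝ) + 2 = 4 := by norm_num
  rw [e2, e1] at h1
  have hb2 := bz2_lo
  have hb4 := bz4_hi
  have hb4' := bz4_lo
  have p2 : 0 < bz 2 := by linarith
  have p4 : 0 < bz 4 := by linarith
  have h2 : bz 4 * dirEig Ω 1 ≤ bz 4 * (bz 2 + kap + 2000000 * ε) :=
    mul_le_mul_of_nonneg_left h p4.le
  have h3 : bz 4 * (bz 2 + kap) = bz 6 * bz 2 := by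
    unfold kap
    field_simp
    ring
  have h4 : bz 4 * (bz 2 + kap + 2000000 * ε) = bz 6 * bz 2 + 2000000 * (bz 4 * ε) := by
    rw [← h3]; ring
  have h5 : bz 4 * ε ≤ 5 * (bz 2 * ε) := by
    have : bz 4 ≤ 5 * bz 2 := by linarith
    nlinarith
  have h6 : dirEig Ω 2 * bz 2 ≤ (bz 6 + 10000000 * ε) * bz 2 := by
    calc dirEig Ω 2 * bz 2 ≤ bz 6 * bz 2 + 2000000 * (bz 4 * ε) := by linarith
      _ ≤ bz 6 * bz 2 + 2000000 * (5 * (bz 2 * ε)) := by linarith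
      _ = (bz 6 + 10000000 * ε) * bz 2 := by ring
  exact le_of_mul_le_mul_right h6 p2

theorem case_one (Ω : Set (E 2)) (hΩ : IsOpen Ω) (u : E 2 → ℝ) (hu : IsTest Ω u) (hmass : mass u = 1)
    (heven : ∀ x, u (-x) = u x) (L1 ε : ℝ) (hL0 : 0 ≤ L1) (hL1 : L1 ≤ bz 2) (hen : energy u ≤ bz 2 + 1)
    (hε : 0 ≤ ε) (hEL : ∀ v, IsTest Ω v → |(∫ x, dot u v x) - L1 * ∫ x, u x * v x| ≤ ε * √(energy v))
    (e : E 2) (he : ‖e‖ = 1)
    (hcase : ∫ x, u x ^ 2 * dps (inner ℝ x e) ^ 2 ≤ kap * ∫ x, u x ^ 2 * ps (inner ℝ x e) ^ 2) :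
    dirEig Ω 4 ≤ bz 6 + 10000000 * ε := by
  have hneg : ∀ x : E 2, inner ℝ x (-e) = -(inner ℝ x e : ℝ) := fun x => inner_neg_right x e
  have he' : ‖-e‖ = 1 := by rw [norm_neg]; exact he
  have hcase' : ∫ x, u x ^ 2 * dps (inner ℝ x (-e)) ^ 2
      ≤ kap * ∫ x, u x ^ 2 * ps (inner ℝ x (-e)) ^ 2 := by
    simp only [hneg, ps_neg, dps_neg, neg_sq]
    exact hcase
  obtain ⟨hn1, hd1⟩ := half_eig Ω hΩ u hu hmass heven L1 ε hL0 hL1 hen hε hEL e he hcase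
  obtain ⟨hn2, hd2⟩ := half_eig Ω hΩ u hu hmass heven L1 ε hL0 hL1 hen hε hEL (-e) he' hcase'
  have ho1 := half_open e Ω hΩ
  have ho2 := half_open (-e) Ω hΩ
  have hd : Disjoint (halfS e Ω) (halfS (-e) Ω) := by
    rw [Set.disjoint_left]
    intro x hx hx'
    have h1 : (0:ℝ) < inner ℝ x e := hx.2
    have h2 : (0:ℝ) < inner ℝ x (-e) := hx'.2
    rw [hneg] at h2
    linarith
  have h := dirEig_union (N := 2) (by norm_num) Ω (halfS e Ω) (halfS (-e) Ω) (fun x hx => hx.1)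
    (fun x hx => hx.1) hd ho1 ho2 hn1 hn2 2 2 (by norm_num) (by norm_num)
  refine h.trans (max_le ?_ ?_)
  · exact CutC_piece _ ho1 hn1 ε hε hd1
  · exact CutC_piece _ ho2 hn2 ε hε hd2

end Pool.Agent.H94.SP
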