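import Pool.Agent.H94.SP.EvA
import Pool.Agent.H94.ER.UpA

/-!
# EvB: the even sector

* `qG_eq`: `Pk 2 nFp = Pk 2 (Fp 2 2)/ρ^2`, `En 2 2 nFp = En 2 2 (Fp 2 2)/ρ^2` (`nFp = Fp 2 2 / ρ`, `deriv nFp = deriv (Fp 2 2)/ρ`).
* `even_choice`: with `B_{ab} = (γ+δ)(∫ u^2 g_{ab}^2 - (∫ u^2 g_{ab})^2) - ∫ u^2 |∇g_{ab}|^2`, `g_{ab} = tg nFp a b`, `γ = gam`:
  `TrE_sum_tg` with `κ = γ + δ`, `N = 2` (`TrE_Q u κ φ φ = ∫ u^2 |∇φ|^2 - κ ∫ u^2 φ^2`) and `sum_t` give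
  `∑ B_{ab} = ½ (∫ u^2 qG + δ ∫ u^2 Pk 2 nFp - (γ+δ) t^2) ≥ ½ ((γ + 1/10) t^2 - τ + δ c - (γ+δ) t^2) ≥ ½ (δ c - τ) ≥ δ c/4`,
  so one of the four is `≥ δ c/16`.
* `even_lower`: for `c : ℝ`: `∃ c > 0` with `c ≤ ∫ u^2 Pk 2 nFp` for all `u` with `energy u ≤ C`: `upA_lower` (k = 2) divided by `ρ^2`.
-/

set_option autoImplicit false

open MeasureTheory Pool.Agent.H94.ER

namespace Pool.Agent.H94.SP

theorem EvB_deriv (s : ℝ) : deriv nFp s = deriv (Fp 2 2) s / F0 2 2 1 := by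
  have h1 : nFp = fun s => Fp 2 2 s / F0 2 2 1 := rfl
  rw [h1, deriv_div_const]

theorem EvB_Pk (s : ℝ) : Pk 2 nFp s = Pk 2 (Fp 2 2) s / F0 2 2 1 ^ 2 := by
  unfold Pk nFp
  ring

theorem EvB_cont : ContDiff ℝ 1 nFp := by
  have h1 : nFp = fun s => Fp 2 2 s / F0 2 2 1 := rfl
  rw [h1]
  exact (contDiff_Fp 2 2 le_rfl).div_const _

theorem EvB_cPk : Continuous (fun x : E 2 => Pk 2 nFp (‖x‖ ^ 2)) := by
  have h1 : Continuous nFp := EvB_cont.continuous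
  have h2 : Continuous (fun x : E 2 => ‖x‖ ^ 2) := continuous_norm.pow 2
  unfold Pk
  exact (h2.pow 2).mul ((h1.comp h2).pow 2)

theorem EvB_cEn : Continuous (fun x : E 2 => En 2 2 nFp (‖x‖ ^ 2)) := by
  have h1 : Continuous nFp := EvB_cont.continuous
  have h2 : Continuous (deriv nFp) := EvB_cont.continuous_deriv le_rfl
  have h3 : Continuous (fun x : E 2 => ‖x‖ ^ 2) := continuous_norm.pow 2
  have h4 : Continuous (En 2 2 nFp) := by unfold En; fun_prop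
  exact h4.comp h3

theorem qG_eq (x : E 2) : qG x = gam * Pk 2 nFp (‖x‖ ^ 2) - En 2 2 nFp (‖x‖ ^ 2) := by
  unfold qG gam En
  rw [EvB_deriv, EvB_Pk]
  unfold nFp
  ring

theorem even_lower (C : ℝ) (hC : 0 ≤ C) : ∃ c : ℝ, 0 < c ∧ ∀ u : E 2 → ℝ, ContDiff ℝ 1 u →
    HasCompactSupport u → mass u = 1 → energy u ≤ C → c ≤ ∫ x, u x ^ 2 * Pk 2 nFp (‖x‖ ^ 2) := by
  obtain ⟨c, hc, h⟩ := upA_lower (N := 2) le_rfl 2 (by norm_num) C hC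
  have hρ := F0_pos 2 2 le_rfl 1 le_rfl
  refine ⟨c / F0 2 2 1 ^ 2, by positivity, fun u hu hcs hm he => ?_⟩
  have h1 := h u hu hcs hm he
  have h2 : ∀ x : E 2, u x ^ 2 * Pk 2 nFp (‖x‖ ^ 2) =
      u x ^ 2 * Pk 2 (Fp 2 2) (‖x‖ ^ 2) / F0 2 2 1 ^ 2 := by
    intro x; rw [EvB_Pk]; ring
  simp only [h2]
  rw [integral_div]
  exact div_le_div_of_nonneg_right h1 (by positivity)

theorem even_choice (u : E 2 → ℝ) (hu : ContDiff ℝ 1 u) (hc : HasCompactSupport u) (hm : mass u = 1)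
    (τ c δ : ℝ) (hδ : 0 < δ) (hδ1 : δ ≤ 1 / 10) (hτ : τ ≤ δ * c / 2)
    (h1 : (gam + 1 / 10) * ((∫ x : E 2, u x ^ 2 * (nFp (‖x‖ ^ 2) * (x 0 ^ 2 - x 1 ^ 2))) ^ 2
        + (∫ x : E 2, u x ^ 2 * (nFp (‖x‖ ^ 2) * (2 * x 0 * x 1))) ^ 2) - τ ≤ ∫ x, u x ^ 2 * qG x)
    (h2 : c ≤ ∫ x, u x ^ 2 * Pk 2 nFp (‖x‖ ^ 2)) :
    ∃ a b : Fin 2, δ * c / 16 ≤ (gam + δ) * (∫ x, u x ^ 2 * tg nFp a b x ^ 2)
      - (∫ x, u x ^ 2 * dot (tg nFp a b) (tg nFp a b) x)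
      - (gam + δ) * (∫ x, u x ^ 2 * tg nFp a b x) ^ 2 := by
  by_contra hcon
  push Not at hcon
  have hs := sum_t u
  set T := ((∫ x : E 2, u x ^ 2 * (nFp (‖x‖ ^ 2) * (x 0 ^ 2 - x 1 ^ 2))) ^ 2
        + (∫ x : E 2, u x ^ 2 * (nFp (‖x‖ ^ 2) * (2 * x 0 * x 1))) ^ 2) with hT
  have hT0 : 0 ≤ T := by positivity
  have h3 := TrE_sum_tg (N := 2) (by norm_num) u hu hc (gam + δ) nFp EvB_cont
  have hQ : ∀ a b : Fin 2, TrE_Q u (gam + δ) (tg nFp a b) (tg nFp a b) =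
      (∫ x, u x ^ 2 * dot (tg nFp a b) (tg nFp a b) x) -
      (gam + δ) * (∫ x, u x ^ 2 * tg nFp a b x ^ 2) := by
    intro a b
    have hcd := contDiff_tg nFp EvB_cont a b
    rw [TrE_Q, ← integral_const_mul, ← integral_sub]
    · refine integral_congr_ae (Filter.Eventually.of_forall fun x => ?_)
      simp only
      ring
    · exact TrE_integrable u hu hc _ (continuous_dot _ _ hcd hcd)
    · exact (TrE_integrable u hu hc _ (hcd.continuous.pow 2)).const_mul _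
  have hR : ∫ x : E 2, u x ^ 2 * (En 2 2 nFp (‖x‖ ^ 2) - (gam + δ) * Pk 2 nFp (‖x‖ ^ 2)) =
      -(∫ x, u x ^ 2 * qG x) - δ * ∫ x, u x ^ 2 * Pk 2 nFp (‖x‖ ^ 2) := by
    have hq : ∀ x : E 2, u x ^ 2 * qG x =
        u x ^ 2 * (gam * Pk 2 nFp (‖x‖ ^ 2) - En 2 2 nFp (‖x‖ ^ 2)) := fun x => by rw [qG_eq]
    simp only [hq]
    have hi1 : Integrable (fun x : E 2 => u x ^ 2 * (gam * Pk 2 nFp (‖x‖ ^ 2) - En 2 2 nFp (‖x‖ ^ 2))) :=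
      TrE_integrable u hu hc _ ((continuous_const.mul EvB_cPk).sub EvB_cEn)
    have hi2 : Integrable (fun x : E 2 => u x ^ 2 * Pk 2 nFp (‖x‖ ^ 2)) :=
      TrE_integrable u hu hc _ EvB_cPk
    have hi3 : Integrable (fun x : E 2 =>
        -(u x ^ 2 * (gam * Pk 2 nFp (‖x‖ ^ 2) - En 2 2 nFp (‖x‖ ^ 2)))) := hi1.neg
    rw [← integral_neg, ← integral_const_mul, ← integral_sub hi3 (hi2.const_mul _)]
    refine integral_congr_ae (Filter.Eventually.of_forall fun x => ?_)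
    simp only
    ring
  rw [hR] at h3
  simp only [hQ] at h3
  simp only [Fin.sum_univ_two] at h3 hs
  have c00 := hcon 0 0
  have c01 := hcon 0 1
  have c10 := hcon 1 0
  have c11 := hcon 1 1
  have h4 : δ * c ≤ δ * ∫ x, u x ^ 2 * Pk 2 nFp (‖x‖ ^ 2) := mul_le_mul_of_nonneg_left h2 hδ.le
  have h5 : 0 ≤ (1 / 10 - δ) * T := mul_nonneg (by linarith) hT0
  have h6 : (gam + δ) * ((∫ x, u x ^ 2 * tg nFp 0 0 x) ^ 2 + (∫ x, u x ^ 2 * tg nFp 0 1 x) ^ 2 +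
      ((∫ x, u x ^ 2 * tg nFp 1 0 x) ^ 2 + (∫ x, u x ^ 2 * tg nFp 1 1 x) ^ 2)) =
      (gam + δ) * (1 / 2 * T) := by rw [hs]
  norm_num at h3
  nlinarith

end Pool.Agent.H94.SP
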