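import Pool.Agent.H94.SP.Defs

/-!
# Psi: the truncated coordinate `ps t = t / √(1 + t^2/10000)` and the cut-off `chi`

* `ps t ^ 2 = t^2 / (1 + t^2/10000)`, `dps t ^ 2 = 1 / (1 + t^2/10000)^3`, `0 < dps t ≤ 1`, `|ps t| ≤ 100`.
* `ps_sq_ge`: `ps` squared is increasing in `|t|`: if `w ≤ t^2`, `0 ≤ w ≤ 1` then `w - 1/10000 ≤ ps t ^ 2`
  (`w/(1 + w/10^4) ≥ w (1 - w/10^4)`).
* `dps_ge`: with `z = 1/(1+t^2/10^4) ∈ (0,1]`: `dps t = z √z ≥ 1 - (3/2)(1 - z)` (tangent of the convex function `z^(3/2)` at `1`;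
  put `y = √z`: `y^3 - 1 + 3/2 (1 - y^2) = (1-y)^2 (y + 1/2) ≥ 0`), and `1 - z = ps t ^ 2/10^4`.
* `ps_dps`: for `K ≥ 1`: `1 ≤ K ps t ^ 2 + dps t ^ 2` (`K * 10^4 ≥ 3`; `3 (1-z) + z^3 ≥ 1`: `z^3 - 3z + 2 = (z-1)^2(z+2)`).
* `sum_ps`: `s/(1 + s/10^4) ≤ ps (x 0)^2 + ps (x 1)^2` for `s = x_0^2 + x_1^2` (each denominator is `≤ 1 + s/10^4`).
* `chi δ τ = y^2/(y+δ)` with `y = max 0 (τ - δ)`, `δ > 0`: `C^1` on `ℝ`, zero for `τ ≤ δ`, `τ - 2δ ≤ chi δ τ ≤ max 0 τ`, derivative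
  `0 ≤ chi' = (y^2 + 2 y δ)/(y+δ)^2 ≤ 1`.
-/

set_option autoImplicit false

open MeasureTheory Pool.Agent.H94.ER

namespace Pool.Agent.H94.SP

theorem Psi_q (t : ℝ) : 1 ≤ 1 + t ^ 2 / 10000 := by
  have := sq_nonneg t
  linarith [div_nonneg this (show (0 : ℝ) ≤ 10000 by norm_num)]

theorem Psi_r (t : ℝ) : 1 ≤ √(1 + t ^ 2 / 10000) := by
  rw [Real.one_le_sqrt]
  exact Psi_q t

theorem Psi_rr (t : ℝ) : √(1 + t ^ 2 / 10000) ^ 2 = 1 + t ^ 2 / 10000 :=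
  Real.sq_sqrt (by linarith [Psi_q t])

theorem ps_sq (t : ℝ) : ps t ^ 2 = t ^ 2 / (1 + t ^ 2 / 10000) := by
  rw [ps, div_pow, Psi_rr]

theorem dps_sq (t : ℝ) : dps t ^ 2 = 1 / (1 + t ^ 2 / 10000) ^ 3 := by
  rw [dps, div_pow, one_pow, ← pow_mul, mul_comm 3 2, pow_mul, Psi_rr]

theorem ps_hasDerivAt (t : ℝ) : HasDerivAt ps (dps t) t := by
  have hq := Psi_q t
  have hr := Psi_r t
  have hrr := Psi_rr t
  have h1 : HasDerivAt (fun t : ℝ => 1 + t ^ 2 / 10000) (2 * t / 10000) t := by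
    have h := ((hasDerivAt_pow 2 t).div_const 10000).const_add 1
    simpa using h
  have h2 := h1.sqrt (by linarith)
  have h3 := (hasDerivAt_id t).div h2 (by linarith)
  refine h3.congr_deriv ?_
  unfold dps
  obtain ⟨r, hrdef⟩ : ∃ r, r = √(1 + t ^ 2 / 10000) := ⟨_, rfl⟩
  rw [← hrdef] at hr hrr ⊢
  have hr0 : r ≠ 0 := by linarith
  simp only [id]
  field_simp
  rw [hrr]
  ring

theorem contDiff_ps : ContDiff ℝ 1 ps := by
  have h1 : ContDiff ℝ 1 fun t : ℝ => 1 + t ^ 2 / 10000 :=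
    contDiff_const.add ((contDiff_id.pow 2).div_const 10000)
  have h2 : ContDiff ℝ 1 fun t : ℝ => √(1 + t ^ 2 / 10000) :=
    h1.sqrt fun t => by linarith [Psi_q t]
  exact contDiff_id.div h2 fun t => by linarith [Psi_r t]

theorem dps_pos (t : ℝ) : 0 < dps t := by
  have := Psi_r t
  unfold dps
  positivity

theorem dps_le (t : ℝ) : dps t ≤ 1 := by
  have h := Psi_r t
  unfold dps
  rw [div_le_one (by positivity)]
  exact one_le_pow₀ h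

theorem ps_abs_le (t : ℝ) : |ps t| ≤ 100 := by
  have h : ps t ^ 2 ≤ 100 ^ 2 := by
    rw [ps_sq, div_le_iff₀ (by linarith [Psi_q t])]
    nlinarith [sq_nonneg t]
  exact abs_le_of_sq_le_sq h (by norm_num)

theorem ps_neg (t : ℝ) : ps (-t) = -ps t := by
  unfold ps
  rw [neg_sq, neg_div]

theorem dps_neg (t : ℝ) : dps (-t) = dps t := by
  unfold dps
  rw [neg_sq]

theorem ps_pos (t : ℝ) (ht : 0 < t) : 0 < ps t := by
  have := Psi_r t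
  unfold ps
  positivity

theorem ps_sq_ge (w t : ℝ) (h0 : 0 ≤ w) (h1 : w ≤ 1) (hw : w ≤ t ^ 2) : w - 1 / 10000 ≤ ps t ^ 2 := by
  rw [ps_sq, le_div_iff₀ (by linarith [Psi_q t])]
  have h2 : 0 ≤ (t ^ 2 - w) * (1 - w / 10000) := mul_nonneg (by linarith) (by linarith)
  have h3 : w ^ 2 ≤ 1 := pow_le_one₀ h0 h1
  nlinarith [sq_nonneg t]

/-- `y = 1/√q` -/
theorem Psi_y (t : ℝ) : ∃ y : ℝ, 0 < y ∧ y ≤ 1 ∧ dps t = y ^ 3 ∧ ps t ^ 2 = 10000 * (1 - y ^ 2) := by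
  have hr := Psi_r t
  have hrr := Psi_rr t
  refine ⟨1 / √(1 + t ^ 2 / 10000), by positivity, ?_, ?_, ?_⟩
  · rw [div_le_one (by linarith)]
    exact hr
  · unfold dps
    rw [div_pow, one_pow]
  · rw [ps_sq, div_pow, one_pow, hrr]
    have := Psi_q t
    have h0 : (1 + t ^ 2 / 10000) ≠ 0 := by linarith
    field_simp
    ring

theorem dps_ge (t : ℝ) : 1 - 3 / 2 * (ps t ^ 2 / 10000) ≤ dps t := by
  obtain ⟨y, hy0, hy1, h1, h2⟩ := Psi_y t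
  rw [h1, h2]
  nlinarith [mul_nonneg (sq_nonneg (1 - y)) (show 0 ≤ y + 1 / 2 by linarith)]

theorem ps_dps (K t : ℝ) (hK : 1 ≤ K) : 1 ≤ K * ps t ^ 2 + dps t ^ 2 := by
  obtain ⟨y, hy0, hy1, h1, h2⟩ := Psi_y t
  have h3 : ps t ^ 2 ≤ K * ps t ^ 2 := le_mul_of_one_le_left (sq_nonneg _) hK
  have hz1 : y ^ 2 ≤ 1 := pow_le_one₀ hy0.le hy1
  have hz0 : 0 < y ^ 2 := by positivity
  have h4 : dps t ^ 2 = (y ^ 2) ^ 3 := by
    rw [h1]
    ring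
  rw [h4]
  refine le_trans ?_ (add_le_add_left h3 _)
  rw [h2]
  nlinarith [mul_nonneg (sq_nonneg (y ^ 2 - 1)) (show 0 ≤ y ^ 2 + 2 by linarith)]

theorem sum_ps (x : E 2) : ‖x‖ ^ 2 / (1 + ‖x‖ ^ 2 / 10000) ≤ ps (x 0) ^ 2 + ps (x 1) ^ 2 := by
  have h1 : ‖x‖ ^ 2 = x 0 ^ 2 + x 1 ^ 2 := by
    rw [EuclideanSpace.real_norm_sq_eq, Fin.sum_univ_two]
  rw [h1, ps_sq, ps_sq, add_div]
  have h2 := sq_nonneg (x 0)
  have h3 := sq_nonneg (x 1)
  refine add_le_add ?_ ?_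
  · refine div_le_div_of_nonneg_left h2 (by linarith [Psi_q (x 0)]) ?_
    linarith
  · refine div_le_div_of_nonneg_left h3 (by linarith [Psi_q (x 1)]) ?_
    linarith

/-- smooth truncation at level `δ` -/
noncomputable def chi (δ τ : ℝ) : ℝ := max 0 (τ - δ) ^ 2 / (max 0 (τ - δ) + δ)

/-- the derivative of `chi` -/
noncomputable def Psi_dchi (δ τ : ℝ) : ℝ :=
  (max 0 (τ - δ) ^ 2 + 2 * max 0 (τ - δ) * δ) / (max 0 (τ - δ) + δ) ^ 2

theorem Psi_g (δ : ℝ) (hδ : 0 < δ) (τ : ℝ) (hτ : δ ≤ τ) :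
    HasDerivAt (fun s : ℝ => (s - δ) ^ 2 / (s - δ + δ)) (Psi_dchi δ τ) τ := by
  have h1 : HasDerivAt (fun s : ℝ => s - δ) 1 τ := (hasDerivAt_id τ).sub_const δ
  have h2 : HasDerivAt (fun s : ℝ => (s - δ) ^ 2) (2 * (τ - δ)) τ := by
    have h : HasDerivAt (fun s : ℝ => (s - δ) ^ 2) (((2 : ℕ) : ℝ) * (τ - δ) ^ (2 - 1) * 1) τ := h1.pow 2
    refine h.congr_deriv ?_
    norm_num
  have h3 : HasDerivAt (fun s : ℝ => s - δ + δ) 1 τ := h1.add_const δ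
  have h4 := h2.div h3 (by linarith)
  refine h4.congr_deriv ?_
  unfold Psi_dchi
  rw [max_eq_right (by linarith)]
  congr 1
  ring

theorem chi_zero (δ τ : ℝ) (hτ : τ ≤ δ) : chi δ τ = 0 := by
  unfold chi
  rw [max_eq_left (by linarith)]
  simp

theorem Psi_chi (δ : ℝ) (hδ : 0 < δ) (τ : ℝ) : HasDerivAt (chi δ) (Psi_dchi δ τ) τ := by
  have hz : ∀ s, s ≤ δ → Psi_dchi δ s = 0 := by
    intro s hs
    unfold Psi_dchi
    rw [max_eq_left (by linarith)]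
    simp
  have he : ∀ s, δ ≤ s → chi δ s = (s - δ) ^ 2 / (s - δ + δ) := by
    intro s hs
    unfold chi
    rw [max_eq_right (by linarith)]
  rcases lt_trichotomy τ δ with h | h | h
  · rw [hz τ h.le]
    refine (hasDerivAt_const τ (0 : ℝ)).congr_of_eventuallyEq ?_
    filter_upwards [Iio_mem_nhds h] with s hs
    exact chi_zero δ s (le_of_lt hs)
  · subst h
    have h1 : HasDerivWithinAt (chi τ) (Psi_dchi τ τ) (Set.Iic τ) τ := by
      rw [hz τ le_rfl]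
      refine (hasDerivWithinAt_const τ (Set.Iic τ) (0 : ℝ)).congr (fun s hs => ?_) ?_
      · exact chi_zero τ s hs
      · exact chi_zero τ τ le_rfl
    have h2 : HasDerivWithinAt (chi τ) (Psi_dchi τ τ) (Set.Ici τ) τ := by
      refine (Psi_g τ hδ τ le_rfl).hasDerivWithinAt.congr (fun s hs => ?_) ?_
      · exact he s hs
      · exact he τ le_rfl
    have h3 := h1.union h2
    rw [Set.Iic_union_Ici] at h3
    exact h3.hasDerivAt Filter.univ_mem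
  · refine (Psi_g δ hδ τ h.le).congr_of_eventuallyEq ?_
    filter_upwards [Ioi_mem_nhds h] with s hs
    exact he s (le_of_lt hs)

theorem chi_contDiff (δ : ℝ) (hδ : 0 < δ) : ContDiff ℝ 1 (chi δ) := by
  rw [contDiff_one_iff_deriv]
  refine ⟨fun τ => (Psi_chi δ hδ τ).differentiableAt, ?_⟩
  have h1 : deriv (chi δ) = Psi_dchi δ := funext fun τ => (Psi_chi δ hδ τ).deriv
  rw [h1]
  unfold Psi_dchi
  have hm : Continuous fun τ : ℝ => max 0 (τ - δ) := by fun_prop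
  refine Continuous.div (by fun_prop) (by fun_prop) fun τ => ?_
  have : 0 ≤ max 0 (τ - δ) := le_max_left _ _
  positivity

theorem chi_nonneg (δ τ : ℝ) (hδ : 0 < δ) : 0 ≤ chi δ τ := by
  unfold chi
  have : 0 ≤ max 0 (τ - δ) := le_max_left _ _
  positivity

theorem chi_le (δ τ : ℝ) (hδ : 0 < δ) : chi δ τ ≤ max 0 τ := by
  unfold chi
  have h0 : 0 ≤ max 0 (τ - δ) := le_max_left _ _
  have h1 : max 0 (τ - δ) ≤ max 0 τ := max_le_max le_rfl (by linarith)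
  refine le_trans ?_ h1
  rw [div_le_iff₀ (by linarith)]
  nlinarith

theorem chi_ge (δ τ : ℝ) (hδ : 0 < δ) : τ - 2 * δ ≤ chi δ τ := by
  unfold chi
  have h0 : 0 ≤ max 0 (τ - δ) := le_max_left _ _
  have h1 : τ - δ ≤ max 0 (τ - δ) := le_max_right _ _
  rw [le_div_iff₀ (by linarith)]
  nlinarith

theorem chi_deriv (δ τ : ℝ) (hδ : 0 < δ) : 0 ≤ deriv (chi δ) τ ∧ deriv (chi δ) τ ≤ 1 := by
  rw [(Psi_chi δ hδ τ).deriv]
  unfold Psi_dchi
  have h0 : 0 ≤ max 0 (τ - δ) := le_max_left _ _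
  refine ⟨by positivity, ?_⟩
  rw [div_le_one (by positivity)]
  nlinarith

end Pool.Agent.H94.SP
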