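import Pool.Agent.H94.SP.OddA
import Pool.Agent.H94.SP.Psi
import Pool.Agent.H94.SP.NG

/-!
# OddB: the odd sector in Case 2

Hypothesis `hcase` (for every unit vector `e`): `kap ∫ u^2 ps(x·e)^2 < ∫ u^2 dps(x·e)^2`. `κ = kap ≥ 4.6056`, `mass u = 1`,
`energy u ≤ bz 2 + 1/1000`.
1. `⟨ps(x·e)^2⟩ ≤ 1/κ ≤ .2172` for unit `e` (`dps ≤ 1`) (`⟨f⟩ = ∫ u^2 f`).
2. `∫ (∂_e u)^2 ≥ 1.1513` for unit `e`: `uncert` with `w x = ps (x·e)`, `fderiv w x e = dps(x·e)`, `⟨dps⟩ ≥ 1 - (3/2)(.2172)/10^4 ≥ 1 - 4e-5`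
   (`dps_ge`): `(1-4e-5)^2 ≤ 4 (1/κ) ∫ (∂_e u)^2`. With `energy_split` for `rot e`... : `∫ (∂_e u)^2 ≤ energy u - 1.1513 ≤ 4.6329`
   for every unit `e` (apply the lower bound to `rot e`).
3. Let `F1 s = 1/(1 + y)`, `y = s^2/10^8`, `w_e x = F1(s) (x·e)` (`s = ‖x‖^2`). `F1' = -(2s/10^8) F1^2`.
   a. `fderiv w_e x e = F1 + 2 F1' (x·e)^2 ≥ F1 + 2 s F1' = F1^2 (1 - 3y) ≥ 1 - 5 y/(1+y)` (`z = 1/(1+y)`: `4z^2 - 3z ≥ 1 - 5(1-z)`,
      i.e. `4(z-1)^2 ≥ 0`).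
   b. `y/(1+y) = s^2/(10^8 + s^2) ≤ 2 s/(10^4 + s) = 2 (s/(1+s/10^4))/10^4 ≤ 2 (ps(x_0)^2 + ps(x_1)^2)/10^4` (`sum_ps`), so by 1 (for the two unit
      coordinate vectors) `⟨fderiv w_e x e⟩ ≥ 1 - 5 * 2 * 2 * .2172/10^4 ≥ 1 - 1/1000`.
   c. `|∇w_e|^2 ≤ 1`: `= F1^2 + 4 F1' (F1 + s F1') (x·e)^2`, `F1 + s F1' = F1^2 (1 - y)`; if `y ≤ 1` the second term is `≤ 0`; if `y > 1` it is
      `≤ 4 |F1'| s F1^2 (y-1) = 8 y (y-1) F1^4`, and `F1^2 + 8 y(y-1) F1^4 ≤ 1` (`(1+y)^4 - (1+y)^2 - 8y^2 + 8y = y^4 + 4y^3 - 3y^2 + 10 y ≥ 0`).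
   d. `uncert`: `(1 - 1/1000)^2 ≤ 4 ⟨w_e^2⟩ * 4.6329`, so `⟨w_e^2⟩ ≥ .05385` and `gam ⟨w_e^2⟩ - 1 ≥ 20.591 * .05385 - 1 ≥ 1/20`.
4. For `c ≠ 0`, `∑ c_j tf F1 j = |c| w_e` with `e = c/|c|`; homogeneity. `c = 0` trivial.
-/

set_option autoImplicit false

open MeasureTheory Pool.Agent.H94.ER

namespace Pool.Agent.H94.SP

theorem OddB_den (s : ℝ) : 0 < 1 + s ^ 2 / 100000000 := by positivity

theorem OddB_deriv (s : ℝ) : HasDerivAt F1 (-(2 * s / 100000000) / (1 + s ^ 2 / 100000000) ^ 2) s := by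
  have h1 : HasDerivAt (fun s : ℝ => 1 + s ^ 2 / 100000000) (2 * s / 100000000) s := by
    have := ((hasDerivAt_pow 2 s).div_const 100000000).const_add 1
    simpa using this
  have h2 := (hasDerivAt_const s (1 : ℝ)).div h1 (OddB_den s).ne'
  have h3 : HasDerivAt F1 ((0 * (1 + s ^ 2 / 100000000) - 1 * (2 * s / 100000000)) /
      (1 + s ^ 2 / 100000000) ^ 2) s := h2
  convert h3 using 1
  ring

theorem contDiff_F1 : ContDiff ℝ 1 F1 := by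
  have h1 : ContDiff ℝ 1 (fun s : ℝ => 1 + s ^ 2 / 100000000) := by fun_prop
  have h2 : ContDiff ℝ 1 (fun s : ℝ => (1 : ℝ) / (1 + s ^ 2 / 100000000)) :=
    contDiff_const.div h1 fun s => (OddB_den s).ne'
  exact h2

theorem OddB_nsq (x : E 2) : ‖x‖ ^ 2 = x 0 ^ 2 + x 1 ^ 2 := by
  rw [← sum_coord_sq, Fin.sum_univ_two]

theorem OddB_inner (x e : E 2) : inner ℝ x e = x 0 * e 0 + x 1 * e 1 := by
  rw [PiLp.inner_apply, Fin.sum_univ_two]
  simp [mul_comm]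

theorem OddB_alg0 (s p q : ℝ) (hs : 0 ≤ s) (hpq : |p * q| ≤ s) :
    |2 * (-(2 * s / 100000000) / (1 + s ^ 2 / 100000000) ^ 2) * p * q| ≤ 1 := by
  have hD : 0 < 1 + s ^ 2 / 100000000 := OddB_den s
  have e1 : 2 * (-(2 * s / 100000000) / (1 + s ^ 2 / 100000000) ^ 2) * p * q =
      -((4 * s / 100000000) / (1 + s ^ 2 / 100000000) ^ 2) * (p * q) := by ring
  rw [e1, abs_mul, abs_neg, abs_of_nonneg (by positivity)]
  have h1 : (4 * s / 100000000) / (1 + s ^ 2 / 100000000) ^ 2 * |p * q| ≤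
      (4 * s / 100000000) / (1 + s ^ 2 / 100000000) ^ 2 * s :=
    mul_le_mul_of_nonneg_left hpq (by positivity)
  refine h1.trans ?_
  rw [div_mul_eq_mul_div, div_le_one (by positivity)]
  nlinarith [sq_nonneg (s ^ 2 / 100000000 - 1)]

theorem OddB_abs_mul (x : E 2) (i j : Fin 2) : |x i * x j| ≤ ‖x‖ ^ 2 := by
  have h1 : ∀ k : Fin 2, x k ^ 2 ≤ ‖x‖ ^ 2 := by
    intro k
    rw [← sum_coord_sq]
    exact Finset.single_le_sum (f := fun k => x k ^ 2) (fun _ _ => sq_nonneg _) (Finset.mem_univ k)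
  have h2 := h1 i
  have h3 := h1 j
  rw [abs_le]
  constructor
  · nlinarith [sq_nonneg (x i + x j)]
  · nlinarith [sq_nonneg (x i - x j)]

theorem OddB_pd_tf (i j : Fin 2) (x : E 2) : pd i (tf F1 j) x =
    F1 (‖x‖ ^ 2) * (if i = j then 1 else 0) +
      2 * (-(2 * ‖x‖ ^ 2 / 100000000) / (1 + (‖x‖ ^ 2) ^ 2 / 100000000) ^ 2) * x i * x j := by
  have hd := OddB_deriv (‖x‖ ^ 2)
  have h1 : DifferentiableAt ℝ (fun y : E 2 => F1 (‖y‖ ^ 2)) x :=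
    DifferentiableAt.comp (g := F1) (f := fun y : E 2 => ‖y‖ ^ 2) x hd.differentiableAt
      ((contDiff_norm_sq ℝ (n := 1)).differentiable one_ne_zero x)
  have h2 : DifferentiableAt ℝ (fun y : E 2 => y j) x :=
    (EuclideanSpace.proj j : E 2 →L[ℝ] ℝ).differentiableAt
  have h3 := pd_mul i (fun y : E 2 => F1 (‖y‖ ^ 2)) (fun y : E 2 => y j) x h1 h2
  have h4 : pd i (tf F1 j) x = pd i (fun y : E 2 => F1 (‖y‖ ^ 2) * y j) x := rfl
  rw [h4, h3, pd_coord, pd_radial i F1 x hd.differentiableAt, hd.deriv]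

theorem OddB_F1_pos (s : ℝ) : 0 < F1 s := by
  unfold F1
  positivity

theorem OddB_F1_le (s : ℝ) : F1 s ≤ 1 := by
  unfold F1
  rw [div_le_one (OddB_den s)]
  have : 0 ≤ s ^ 2 / 100000000 := by positivity
  linarith

theorem F1_bound : ∀ (j : Fin 2) (x : E 2), |tf F1 j x| ≤ 100 ∧ ∀ i, |pd i (tf F1 j) x| ≤ 100 := by
  intro j x
  constructor
  · have h1 : |x j| ^ 2 ≤ ‖x‖ ^ 2 := by
      have := OddB_abs_mul x j j
      rwa [abs_mul, ← sq] at this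
    unfold tf
    rw [abs_mul, abs_of_pos (OddB_F1_pos _)]
    unfold F1
    rw [div_mul_eq_mul_div, one_mul, div_le_iff₀ (OddB_den _)]
    set t := |x j| with ht
    have ht0 : 0 ≤ t := abs_nonneg _
    have h2 : (t ^ 2) ^ 2 ≤ (‖x‖ ^ 2) ^ 2 := pow_le_pow_left₀ (by positivity) h1 2
    have h3 : t ≤ 100 * (1 + (t ^ 2) ^ 2 / 100000000) := by
      have h4 : 0 ≤ ((t / 100) ^ 2 - 1 / 2) ^ 2 + (t / 100 - 1 / 2) ^ 2 + 1 / 2 := by positivity
      nlinarith [h4]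
    refine h3.trans ?_
    have h5 : (t ^ 2) ^ 2 / 100000000 ≤ (‖x‖ ^ 2) ^ 2 / 100000000 :=
      div_le_div_of_nonneg_right h2 (by norm_num)
    linarith
  · intro i
    rw [OddB_pd_tf]
    have h1 := OddB_alg0 (‖x‖ ^ 2) (x i) (x j) (by positivity) (OddB_abs_mul x i j)
    have h2 : |F1 (‖x‖ ^ 2) * (if i = j then 1 else 0)| ≤ 1 := by
      have h3 := OddB_F1_pos (‖x‖ ^ 2)
      have h4 := OddB_F1_le (‖x‖ ^ 2)
      split_ifs
      · rw [mul_one, abs_of_pos h3]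
        exact h4
      · rw [mul_zero, abs_zero]
        norm_num
    refine (abs_add_le _ _).trans ?_
    linarith

/-- the trial function in the direction `e` -/
noncomputable def OddB_w (e x : E 2) : ℝ := F1 (‖x‖ ^ 2) * inner ℝ x e

theorem OddB_w_eq (e : E 2) : OddB_w e = fun x => ∑ j, e j * tf F1 j x := by
  funext x
  rw [Fin.sum_univ_two]
  unfold OddB_w tf
  rw [OddB_inner]
  ring

theorem OddB_tf_cd (j : Fin 2) : ContDiff ℝ 1 (tf F1 j) := by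
  have h1 : ContDiff ℝ 1 (fun x : E 2 => F1 (‖x‖ ^ 2)) := contDiff_F1.comp (contDiff_norm_sq ℝ)
  have h2 : ContDiff ℝ 1 (fun x : E 2 => x j) := (EuclideanSpace.proj j : E 2 →L[ℝ] ℝ).contDiff
  exact h1.mul h2

theorem OddB_w_cd (e : E 2) : ContDiff ℝ 1 (OddB_w e) := by
  rw [OddB_w_eq]
  exact TrA_contDiff (fun j => tf F1 j) OddB_tf_cd (fun j => e j)

theorem OddB_w_pd (e : E 2) (i : Fin 2) (x : E 2) : pd i (OddB_w e) x =
    F1 (‖x‖ ^ 2) * e i +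
      2 * (-(2 * ‖x‖ ^ 2 / 100000000) / (1 + (‖x‖ ^ 2) ^ 2 / 100000000) ^ 2) * x i * inner ℝ x e := by
  rw [OddB_w_eq, TrA_pd (fun j => tf F1 j) OddB_tf_cd (fun j => e j), Fin.sum_univ_two, OddB_pd_tf,
    OddB_pd_tf, OddB_inner]
  fin_cases i
  · simp
    ring
  · simp
    ring

theorem OddB_alg1 (s t2 : ℝ) (hs : 0 ≤ s) (ht0 : 0 ≤ t2) (ht : t2 ≤ s) :
    1 - 10 * (s / (1 + s / 10000)) / 10000 ≤
      1 / (1 + s ^ 2 / 100000000) +
        2 * (-(2 * s / 100000000) / (1 + s ^ 2 / 100000000) ^ 2) * t2 := by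
  have hD : 0 < 1 + s ^ 2 / 100000000 := OddB_den s
  have h1 : 1 / (1 + s ^ 2 / 100000000) +
        2 * (-(2 * s / 100000000) / (1 + s ^ 2 / 100000000) ^ 2) * s ≤
      1 / (1 + s ^ 2 / 100000000) +
        2 * (-(2 * s / 100000000) / (1 + s ^ 2 / 100000000) ^ 2) * t2 := by
    have h2 : 0 ≤ (4 * s / 100000000) / (1 + s ^ 2 / 100000000) ^ 2 := by positivity
    have h3 := mul_le_mul_of_nonneg_left ht h2
    have e1 : ∀ p : ℝ, 2 * (-(2 * s / 100000000) / (1 + s ^ 2 / 100000000) ^ 2) * p =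
      -((4 * s / 100000000) / (1 + s ^ 2 / 100000000) ^ 2 * p) := by intro p; ring
    rw [e1, e1]
    linarith
  refine le_trans ?_ h1
  set F : ℝ := 1 / (1 + s ^ 2 / 100000000) with hF
  have hFD : F * (1 + s ^ 2 / 100000000) = 1 := by
    rw [hF]
    field_simp
  have e2 : 2 * (-(2 * s / 100000000) / (1 + s ^ 2 / 100000000) ^ 2) * s =
      -4 * (s ^ 2 / 100000000) * F ^ 2 := by
    rw [hF]
    field_simp
    ring
  rw [e2]
  have e3 : (s ^ 2 / 100000000) * F = 1 - F := by linarith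
  have e4 : -4 * (s ^ 2 / 100000000) * F ^ 2 = -4 * F * (1 - F) := by
    rw [← e3]
    ring
  rw [e4]
  have h5 : 1 - F ≤ 2 * (s / (1 + s / 10000)) / 10000 := by
    have hD2 : 0 < 1 + s / 10000 := by positivity
    have e5 : 1 - F = (s ^ 2 / 100000000) / (1 + s ^ 2 / 100000000) := by
      rw [hF]
      field_simp
      ring
    have e6 : 2 * (s / (1 + s / 10000)) / 10000 = (2 * s / 10000) / (1 + s / 10000) := by
      field_simp
    rw [e5, e6, div_le_div_iff₀ hD hD2]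
    nlinarith [mul_nonneg hs (sq_nonneg (s - 5000)), hs]
  nlinarith [sq_nonneg (F - 1)]

theorem OddB_alg2 (s t2 : ℝ) (hs : 0 ≤ s) (ht0 : 0 ≤ t2) (ht : t2 ≤ s) :
    (1 / (1 + s ^ 2 / 100000000)) ^ 2 + 4 * (1 / (1 + s ^ 2 / 100000000)) *
        (-(2 * s / 100000000) / (1 + s ^ 2 / 100000000) ^ 2) * t2 +
        4 * (-(2 * s / 100000000) / (1 + s ^ 2 / 100000000) ^ 2) ^ 2 * s * t2 ≤ 1 := by
  set y : ℝ := s ^ 2 / 100000000 with hy
  set z : ℝ := s * t2 / 100000000 with hz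
  have hy0 : 0 ≤ y := by positivity
  have hz0 : 0 ≤ z := by positivity
  have hzy : z ≤ y := by
    rw [hz, hy]
    refine div_le_div_of_nonneg_right ?_ (by norm_num)
    nlinarith
  have hD : 0 < 1 + y := by positivity
  have e1 : (1 / (1 + y)) ^ 2 + 4 * (1 / (1 + y)) *
        (-(2 * s / 100000000) / (1 + y) ^ 2) * t2 +
        4 * (-(2 * s / 100000000) / (1 + y) ^ 2) ^ 2 * s * t2 =
      ((1 + y) ^ 2 - 8 * z * (1 + y) + 16 * y * z) / (1 + y) ^ 4 := by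
    rw [eq_div_iff (by positivity)]
    have e2 : 8 * z * (1 + y) = 8 * (s * t2 / 100000000) * (1 + y) := by rw [hz]
    have e3 : 16 * y * z = 16 * (s ^ 2 / 100000000) * (s * t2 / 100000000) := by rw [hz, ← hy]
    rw [e2, e3]
    field_simp
    ring
  rw [e1, div_le_one (by positivity)]
  have h1 : (1 + y) ^ 2 + 8 * z * (y - 1) ≤ (1 + y) ^ 4 := by
    have h2 : (1 + y) ^ 2 ≤ (1 + y) ^ 4 := pow_le_pow_right₀ (by linarith) (by norm_num)
    rcases le_total y 1 with h | h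
    · nlinarith [mul_nonneg hz0 (sub_nonneg.2 h)]
    · have h3 : z * (y - 1) ≤ y * (y - 1) := mul_le_mul_of_nonneg_right hzy (by linarith)
      nlinarith [mul_nonneg hy0 (sq_nonneg (y - 1)), mul_nonneg hy0 (sq_nonneg y), h3,
        mul_nonneg (mul_nonneg hy0 hy0) hy0]
  nlinarith [h1]

theorem OddB_cs {e x : E 2} (he : ‖e‖ = 1) : (inner ℝ x e) ^ 2 ≤ ‖x‖ ^ 2 := by
  have h1 : |inner ℝ x e| ≤ ‖x‖ * ‖e‖ := abs_real_inner_le_norm x e
  rw [he, mul_one] at h1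
  calc (inner ℝ x e) ^ 2 = |inner ℝ x e| ^ 2 := (sq_abs _).symm
    _ ≤ ‖x‖ ^ 2 := pow_le_pow_left₀ (abs_nonneg _) h1 2

theorem OddB_w_fd {e : E 2} (he : ‖e‖ = 1) (x : E 2) :
    1 - 10 * (ps (x 0) ^ 2 + ps (x 1) ^ 2) / 10000 ≤ fderiv ℝ (OddB_w e) x e := by
  rw [fderiv_eq_sum, Fin.sum_univ_two, OddB_w_pd, OddB_w_pd]
  have hee : e 0 ^ 2 + e 1 ^ 2 = 1 := by
    rw [← OddB_nsq, he]
    norm_num
  have h1 := OddB_alg1 (‖x‖ ^ 2) ((inner ℝ x e) ^ 2) (by positivity) (by positivity) (OddB_cs he)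
  have h2 := sum_ps x
  have e1 : e 0 * (F1 (‖x‖ ^ 2) * e 0 + 2 * (-(2 * ‖x‖ ^ 2 / 100000000) /
        (1 + (‖x‖ ^ 2) ^ 2 / 100000000) ^ 2) * x 0 * inner ℝ x e) +
      e 1 * (F1 (‖x‖ ^ 2) * e 1 + 2 * (-(2 * ‖x‖ ^ 2 / 100000000) /
        (1 + (‖x‖ ^ 2) ^ 2 / 100000000) ^ 2) * x 1 * inner ℝ x e) =
      F1 (‖x‖ ^ 2) * (e 0 ^ 2 + e 1 ^ 2) + 2 * (-(2 * ‖x‖ ^ 2 / 100000000) /
        (1 + (‖x‖ ^ 2) ^ 2 / 100000000) ^ 2) * ((x 0 * e 0 + x 1 * e 1) * inner ℝ x e) := by ring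
  rw [e1, hee, ← OddB_inner, ← sq, mul_one]
  have e2 : F1 (‖x‖ ^ 2) = 1 / (1 + (‖x‖ ^ 2) ^ 2 / 100000000) := rfl
  rw [e2]
  linarith

theorem OddB_w_dot {e : E 2} (he : ‖e‖ = 1) (x : E 2) : dot (OddB_w e) (OddB_w e) x ≤ 1 := by
  unfold dot
  rw [Fin.sum_univ_two, OddB_w_pd, OddB_w_pd]
  have hee : e 0 ^ 2 + e 1 ^ 2 = 1 := by
    rw [← OddB_nsq, he]
    norm_num
  have h1 := OddB_alg2 (‖x‖ ^ 2) ((inner ℝ x e) ^ 2) (by positivity) (by positivity) (OddB_cs he)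
  refine le_trans (le_of_eq ?_) h1
  have e2 : F1 (‖x‖ ^ 2) = 1 / (1 + (‖x‖ ^ 2) ^ 2 / 100000000) := rfl
  rw [e2]
  generalize 1 / (1 + (‖x‖ ^ 2) ^ 2 / 100000000) = F
  generalize -(2 * ‖x‖ ^ 2 / 100000000) / (1 + (‖x‖ ^ 2) ^ 2 / 100000000) ^ 2 = G
  rw [OddB_nsq, OddB_inner]
  have e3 : (F * e 0 + 2 * G * x 0 * (x 0 * e 0 + x 1 * e 1)) *
      (F * e 0 + 2 * G * x 0 * (x 0 * e 0 + x 1 * e 1)) +
      (F * e 1 + 2 * G * x 1 * (x 0 * e 0 + x 1 * e 1)) *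
      (F * e 1 + 2 * G * x 1 * (x 0 * e 0 + x 1 * e 1)) =
      F ^ 2 * (e 0 ^ 2 + e 1 ^ 2) + 4 * F * G * (x 0 * e 0 + x 1 * e 1) ^ 2 +
        4 * G ^ 2 * (x 0 ^ 2 + x 1 ^ 2) * (x 0 * e 0 + x 1 * e 1) ^ 2 := by ring
  rw [e3, hee, mul_one]

theorem OddB_fd_lin (e x : E 2) : HasFDerivAt (fun y : E 2 => inner ℝ y e) (innerSL ℝ e) x := by
  have h : (fun y : E 2 => inner ℝ y e) = fun y => innerSL ℝ e y := by
    funext y
    rw [innerSL_apply_apply, real_inner_comm]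
  rw [h]
  exact (innerSL ℝ e).hasFDerivAt

theorem OddB_cont_inner (e : E 2) : Continuous fun x : E 2 => inner ℝ x e := by fun_prop

theorem OddB_cont_dps : Continuous dps := by
  have h : deriv ps = dps := funext fun t => (ps_hasDerivAt t).deriv
  rw [← h]
  exact contDiff_ps.continuous_deriv le_rfl

section
variable {u : E 2 → ℝ}

theorem OddB_q (hu : ContDiff ℝ 1 u) (hc : HasCompactSupport u) (hm : mass u = 1)
    (hcase : ∀ e : E 2, ‖e‖ = 1 →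
      kap * (∫ x, u x ^ 2 * ps (inner ℝ x e) ^ 2) < ∫ x, u x ^ 2 * dps (inner ℝ x e) ^ 2)
    (e : E 2) (he : ‖e‖ = 1) : 0 ≤ (∫ x, u x ^ 2 * ps (inner ℝ x e) ^ 2) ∧
      (∫ x, u x ^ 2 * ps (inner ℝ x e) ^ 2) ≤ 2172 / 10000 := by
  have h0 : 0 ≤ ∫ x, u x ^ 2 * ps (inner ℝ x e) ^ 2 := integral_nonneg fun x => by positivity
  refine ⟨h0, ?_⟩
  have h1 := hcase e he
  have h2 : ∫ x, u x ^ 2 * dps (inner ℝ x e) ^ 2 ≤ 1 := by
    rw [← hm]
    unfold mass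
    refine integral_mono (TrB_int hu.continuous hc ((OddB_cont_dps.comp (OddB_cont_inner e)).pow 2))
      (BaD_int_sq u hu.continuous hc) fun x => ?_
    have h3 := dps_pos (inner ℝ x e)
    have h4 := dps_le (inner ℝ x e)
    have h5 : dps (inner ℝ x e) ^ 2 ≤ 1 := pow_le_one₀ h3.le h4
    exact mul_le_of_le_one_right (sq_nonneg _) h5
  have h3 := kap_lo
  nlinarith

theorem OddB_D (hu : ContDiff ℝ 1 u) (hc : HasCompactSupport u) (hm : mass u = 1)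
    (hcase : ∀ e : E 2, ‖e‖ = 1 →
      kap * (∫ x, u x ^ 2 * ps (inner ℝ x e) ^ 2) < ∫ x, u x ^ 2 * dps (inner ℝ x e) ^ 2)
    (e : E 2) (he : ‖e‖ = 1) : 115 / 100 ≤ ∫ x, (fderiv ℝ u x e) ^ 2 := by
  obtain ⟨hq0, hq⟩ := OddB_q hu hc hm hcase e he
  have hw : ContDiff ℝ 1 (fun x : E 2 => ps (inner ℝ x e)) :=
    contDiff_ps.comp (contDiff_id.inner ℝ contDiff_const)
  have hfd : ∀ x : E 2, fderiv ℝ (fun x : E 2 => ps (inner ℝ x e)) x e = dps (inner ℝ x e) := by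
    intro x
    have h1 := (ps_hasDerivAt (inner ℝ x e)).comp_hasFDerivAt x (OddB_fd_lin e x)
    have h2 : fderiv ℝ (fun x : E 2 => ps (inner ℝ x e)) x = dps (inner ℝ x e) • innerSL ℝ e := h1.fderiv
    rw [h2]
    show dps (inner ℝ x e) * (innerSL ℝ e e) = _
    rw [innerSL_apply_apply, real_inner_self_eq_norm_sq, he]
    ring
  have h1 := uncert u (fun x : E 2 => ps (inner ℝ x e)) hu hc hw e
  simp only [hfd] at h1
  have i0 : Integrable (fun x => u x ^ 2) := BaD_int_sq u hu.continuous hc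
  have i1 : Integrable (fun x => u x ^ 2 * ps (inner ℝ x e) ^ 2) :=
    TrB_int hu.continuous hc ((contDiff_ps.continuous.comp (OddB_cont_inner e)).pow 2)
  have h2 : 1 - 3 / 2 * ((∫ x, u x ^ 2 * ps (inner ℝ x e) ^ 2) / 10000) ≤
      ∫ x, u x ^ 2 * dps (inner ℝ x e) := by
    have e1 : 1 - 3 / 2 * ((∫ x, u x ^ 2 * ps (inner ℝ x e) ^ 2) / 10000) =
        ∫ x, (u x ^ 2 - 3 / 20000 * (u x ^ 2 * ps (inner ℝ x e) ^ 2)) := by
      rw [integral_sub i0 (i1.const_mul _), integral_const_mul]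
      have : ∫ x, u x ^ 2 = 1 := hm
      rw [this]
      ring
    rw [e1]
    refine integral_mono (i0.sub (i1.const_mul _))
      (TrB_int hu.continuous hc (OddB_cont_dps.comp (OddB_cont_inner e))) fun x => ?_
    have h3 := mul_le_mul_of_nonneg_left (dps_ge (inner ℝ x e)) (sq_nonneg (u x))
    show u x ^ 2 - 3 / 20000 * (u x ^ 2 * ps (inner ℝ x e) ^ 2) ≤ u x ^ 2 * dps (inner ℝ x e)
    linarith
  have hD0 : 0 ≤ ∫ x, (fderiv ℝ u x e) ^ 2 := integral_nonneg fun x => sq_nonneg _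
  set q := ∫ x, u x ^ 2 * ps (inner ℝ x e) ^ 2 with hqdef
  set I := ∫ x, u x ^ 2 * dps (inner ℝ x e) with hI
  set D := ∫ x, (fderiv ℝ u x e) ^ 2 with hD
  have h4 : (99996 : ℝ) / 100000 ≤ I := by linarith
  have h5 : ((99996 : ℝ) / 100000) ^ 2 ≤ I ^ 2 := pow_le_pow_left₀ (by norm_num) h4 2
  have h6 : 4 * q * D ≤ 4 * (2172 / 10000) * D := by
    refine mul_le_mul_of_nonneg_right ?_ hD0
    linarith
  nlinarith

theorem OddB_K (hu : ContDiff ℝ 1 u) (hc : HasCompactSupport u) (hm : mass u = 1)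
    (hen : energy u ≤ bz 2 + 1 / 1000)
    (hcase : ∀ e : E 2, ‖e‖ = 1 →
      kap * (∫ x, u x ^ 2 * ps (inner ℝ x e) ^ 2) < ∫ x, u x ^ 2 * dps (inner ℝ x e) ^ 2)
    (e : E 2) (he : ‖e‖ = 1) : 53 / 1000 ≤ ∫ x, u x ^ 2 * OddB_w e x ^ 2 := by
  have h1 := OddB_D hu hc hm hcase (rot e) (rot_norm e he)
  have h2 := energy_split u hu hc e he
  have h3 := bz2_hi
  have h4 : ∫ x, (fderiv ℝ u x e) ^ 2 ≤ 464 / 100 := by linarith
  have h5 := uncert u (OddB_w e) hu hc (OddB_w_cd e) e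
  have hs : ∀ i : Fin 2, ‖(EuclideanSpace.single i 1 : E 2)‖ = 1 := by
    intro i
    simp
  have hin : ∀ (i : Fin 2) (x : E 2), inner ℝ x (EuclideanSpace.single i (1 : ℝ) : E 2) = x i := by
    intro i x
    rw [EuclideanSpace.inner_single_right]
    simp
  have hq0 := (OddB_q hu hc hm hcase _ (hs 0)).2
  have hq1 := (OddB_q hu hc hm hcase _ (hs 1)).2
  simp only [hin] at hq0 hq1
  have hpc : ∀ i : Fin 2, Continuous fun x : E 2 => ps (x i) ^ 2 := fun i =>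
    (contDiff_ps.continuous.comp (EuclideanSpace.proj i : E 2 →L[ℝ] ℝ).continuous).pow 2
  have i0 : Integrable (fun x => u x ^ 2) := BaD_int_sq u hu.continuous hc
  have j0 : Integrable (fun x => u x ^ 2 * ps (x 0) ^ 2) := TrB_int hu.continuous hc (hpc 0)
  have j1 : Integrable (fun x => u x ^ 2 * ps (x 1) ^ 2) := TrB_int hu.continuous hc (hpc 1)
  have j01 : Integrable (fun x => u x ^ 2 * ps (x 0) ^ 2 + u x ^ 2 * ps (x 1) ^ 2) := j0.add j1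
  have h6 : 1 - 1 / 1000 ≤ ∫ x, u x ^ 2 * fderiv ℝ (OddB_w e) x e := by
    have e1 : 1 - 1 / 1000 * ((∫ x, u x ^ 2 * ps (x 0) ^ 2) + ∫ x, u x ^ 2 * ps (x 1) ^ 2) =
        ∫ x, (u x ^ 2 - 1 / 1000 * (u x ^ 2 * ps (x 0) ^ 2 + u x ^ 2 * ps (x 1) ^ 2)) := by
      rw [integral_sub i0 (j01.const_mul _), integral_const_mul, integral_add j0 j1]
      have : ∫ x, u x ^ 2 = 1 := hm
      rw [this]
    have h7 : 1 - 1 / 1000 * ((∫ x, u x ^ 2 * ps (x 0) ^ 2) + ∫ x, u x ^ 2 * ps (x 1) ^ 2) ≤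
        ∫ x, u x ^ 2 * fderiv ℝ (OddB_w e) x e := by
      rw [e1]
      have hcf : Continuous fun x => fderiv ℝ (OddB_w e) x e :=
        ((OddB_w_cd e).continuous_fderiv (by norm_num)).clm_apply continuous_const
      refine integral_mono (i0.sub (j01.const_mul _)) (TrB_int hu.continuous hc hcf)
        fun x => ?_
      have h8 := mul_le_mul_of_nonneg_left (OddB_w_fd he x) (sq_nonneg (u x))
      show u x ^ 2 - 1 / 1000 * (u x ^ 2 * ps (x 0) ^ 2 + u x ^ 2 * ps (x 1) ^ 2) ≤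
        u x ^ 2 * fderiv ℝ (OddB_w e) x e
      refine le_trans (le_of_eq ?_) h8
      ring
    linarith
  have hK0 : 0 ≤ ∫ x, u x ^ 2 * OddB_w e x ^ 2 := integral_nonneg fun x => by positivity
  set K := ∫ x, u x ^ 2 * OddB_w e x ^ 2 with hK
  set D := ∫ x, (fderiv ℝ u x e) ^ 2 with hD
  set I := ∫ x, u x ^ 2 * fderiv ℝ (OddB_w e) x e with hI
  have h9 : ((999 : ℝ) / 1000) ^ 2 ≤ I ^ 2 := pow_le_pow_left₀ (by norm_num) (by linarith) 2
  have h10 : 4 * K * D ≤ 4 * K * (464 / 100) := mul_le_mul_of_nonneg_left h4 (by linarith)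
  nlinarith

end

theorem OddB_unit (c : Fin 2 → ℝ) : ∃ (n : ℝ) (e : E 2), ‖e‖ = 1 ∧ n ^ 2 = ∑ j, c j ^ 2 ∧
    ∀ j, c j = n * e j := by
  by_cases h : ∑ j, c j ^ 2 = 0
  · refine ⟨0, EuclideanSpace.single 0 1, by simp, by rw [h]; norm_num, fun j => ?_⟩
    have h1 := (Finset.sum_eq_zero_iff_of_nonneg (fun j _ => sq_nonneg (c j))).1 h j (Finset.mem_univ j)
    rw [zero_mul]
    exact pow_eq_zero_iff (two_ne_zero) |>.1 h1
  · have hpos : 0 < ∑ j, c j ^ 2 := lt_of_le_of_ne (Finset.sum_nonneg fun j _ => sq_nonneg _) (Ne.symm h)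
    set n := √(∑ j, c j ^ 2) with hn
    have hn0 : 0 < n := Real.sqrt_pos.2 hpos
    have hn2 : n ^ 2 = ∑ j, c j ^ 2 := Real.sq_sqrt hpos.le
    refine ⟨n, !₂[c 0 / n, c 1 / n], ?_, hn2, ?_⟩
    · have h1 : ‖(!₂[c 0 / n, c 1 / n] : E 2)‖ ^ 2 = 1 := by
        rw [OddB_nsq]
        simp only [Matrix.cons_val_zero, Matrix.cons_val_one]
        rw [div_pow, div_pow, ← add_div, hn2, Fin.sum_univ_two, div_self]
        rw [Fin.sum_univ_two] at h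
        exact h
      exact (pow_eq_one_iff_of_nonneg (norm_nonneg _) two_ne_zero).1 h1
    · intro j
      fin_cases j
      · simp
        field_simp
      · simp
        field_simp

theorem odd_lower (u : E 2 → ℝ) (hu : ContDiff ℝ 1 u) (hc : HasCompactSupport u) (hm : mass u = 1)
    (hen : energy u ≤ bz 2 + 1 / 1000)
    (hcase : ∀ e : E 2, ‖e‖ = 1 →
      kap * (∫ x, u x ^ 2 * ps (inner ℝ x e) ^ 2) < ∫ x, u x ^ 2 * dps (inner ℝ x e) ^ 2)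
    (c : Fin 2 → ℝ) :
    1 / 20 * ∑ j, c j ^ 2 ≤ gam * (∫ x, u x ^ 2 * (∑ j, c j * tf F1 j x) ^ 2)
      - ∫ x, u x ^ 2 * dot (fun y => ∑ j, c j * tf F1 j y) (fun y => ∑ j, c j * tf F1 j y) x := by
  obtain ⟨n, e, he, hn, hce⟩ := OddB_unit c
  have hφ : (fun y => ∑ j, c j * tf F1 j y) = fun y => n * OddB_w e y := by
    funext y
    rw [OddB_w_eq]
    simp only [hce, Finset.mul_sum, mul_assoc]
  have hφ' : ∀ y, ∑ j, c j * tf F1 j y = n * OddB_w e y := fun y => congrFun hφ y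
  have hdot : ∀ x, dot (fun y => n * OddB_w e y) (fun y => n * OddB_w e y) x =
      n ^ 2 * dot (OddB_w e) (OddB_w e) x := by
    intro x
    unfold dot
    rw [Finset.mul_sum]
    refine Finset.sum_congr rfl fun i _ => ?_
    rw [pd_const_mul]
    ring
  have hK := OddB_K hu hc hm hen hcase e he
  have hG : ∫ x, u x ^ 2 * dot (OddB_w e) (OddB_w e) x ≤ 1 := by
    rw [← hm]
    unfold mass
    refine integral_mono (TrB_int hu.continuous hc (continuous_dot _ _ (OddB_w_cd e) (OddB_w_cd e)))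
      (BaD_int_sq u hu.continuous hc) fun x => ?_
    exact mul_le_of_le_one_right (sq_nonneg _) (OddB_w_dot he x)
  rw [hφ]
  simp only [hφ', hdot]
  have e1 : ∫ x, u x ^ 2 * (n * OddB_w e x) ^ 2 = n ^ 2 * ∫ x, u x ^ 2 * OddB_w e x ^ 2 := by
    rw [← integral_const_mul]
    refine integral_congr_ae (Filter.Eventually.of_forall fun x => ?_)
    simp only []
    ring
  have e2 : ∫ x, u x ^ 2 * (n ^ 2 * dot (OddB_w e) (OddB_w e) x) =
      n ^ 2 * ∫ x, u x ^ 2 * dot (OddB_w e) (OddB_w e) x := by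
    rw [← integral_const_mul]
    refine integral_congr_ae (Filter.Eventually.of_forall fun x => ?_)
    simp only []
    ring
  rw [e1, e2, ← hn]
  have hg := gam_lo
  have h1 : 1 / 20 ≤ gam * (∫ x, u x ^ 2 * OddB_w e x ^ 2) -
      ∫ x, u x ^ 2 * dot (OddB_w e) (OddB_w e) x := by
    nlinarith
  have h2 := mul_le_mul_of_nonneg_left h1 (sq_nonneg n)
  nlinarith [h2]

end Pool.Agent.H94.SP
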