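import Pool.Agent.H94.SP.MainI
import Pool.Agent.H94.SP.Psi

/-!
# TcI: the bound of the moment in Case 2

Certificate: `s = ‖x‖^2`, `c = ce e x = s C`, `F = nF s`, `hs = nhs s`, `γ = gam`, `f = -6/1000`, `η = 2/100`, `α = 1625/1000`, `a0 = 17/1000`;
field `V = Vf A B D e` with `A s = 2 η hs`, `B = 0`, `D s = 2 f hs` (`C^1` near `s ≤ 1`, zero at `1`).
* `Vf_div, Vf_inner, ode`: `div V + 4 g1 x·V = f F (4 - γ s) + η C (F (4 - γ s) - 4 hs)`: the coefficient of `c` is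
  `2 A' + 4 g1 A = η (4 hs' + 8 g1 hs) = η (-4 F' - γ F)`, and `s F' = hs - F`; the rest is `4 f hs + 4 f s hs' + 8 f g1 s hs = f (4 hs - 4 s F' - γ s F)`.
* `Vf_normSq`: `|V|^2 = 4 s hs^2 (f^2 + η^2 + 2 f η C)`.
* `q x = 315/1000 - nFp(s) ce e x + α (ps(x·e)^2 - dps(x·e)^2/kap)`.
* inside the disk: `x·e` satisfies `(x·e)^2 = s (1+C)/2`; `ps(x·e)^2 ≥ s(1+C)/2 - 1/10000` (`ps_sq_ge`), `dps^2/kap ≤ 1/kap ≤ 21713/100000`
  (`kap_lo`), so `tc_point` is `starT` with `k = hs/(1-s)`, `K = (1-nh)/(1-s)^2` (`enc_pack`; `1 - nh^2 = (1-s)^2 K (1 + s F)`).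
* outside (`s > 1`): `nFp s ce = C`, `ps(x·e)^2 ≥ (1+C)/2 - 1/10000` (`ps_sq_ge` with `w = (1+C)/2 ≤ s(1+C)/2`), so
  `q ≥ 315/1000 - C + α ((1+C)/2 - 1/10000 - 21713/100000) ≥ .58`.
* `cert3` with `a = a0/ρ^2`, `τ' = ρ^2 τ` (as in `MainI`): `-a0 τ ≤ ∫ u^2 q = 315/1000 - t + α (∫ u^2 ps^2 - ∫ u^2 dps^2/kap)`, and the last
  bracket is `≤ 0` by `hcase`.
-/

set_option autoImplicit false

open MeasureTheory Pool.Agent.H94.ER

namespace Pool.Agent.H94.SP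

noncomputable def tA (s : ℝ) : ℝ := 2 * (2 / 100) * nhs s

noncomputable def tD (s : ℝ) : ℝ := 2 * (-6 / 1000) * nhs s

noncomputable def qT (e x : E 2) : ℝ :=
  315 / 1000 - nFp (‖x‖ ^ 2) * ce e x
    + 1625 / 1000 * (ps (inner ℝ x e) ^ 2 - dps (inner ℝ x e) ^ 2 / kap)

theorem TcI_tA_smooth (s : ℝ) (hs : s ≤ 1) : ContDiffAt ℝ 1 tA s := by
  have h := nhs_smooth s hs 1
  simp only [Nat.cast_one] at h
  exact contDiffAt_const.mul h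

theorem TcI_tD_smooth (s : ℝ) (hs : s ≤ 1) : ContDiffAt ℝ 1 tD s := by
  have h := nhs_smooth s hs 1
  simp only [Nat.cast_one] at h
  exact contDiffAt_const.mul h

theorem TcI_tA_one : tA 1 = 0 := by
  unfold tA
  rw [nhs_one, mul_zero]

theorem TcI_tD_one : tD 1 = 0 := by
  unfold tD
  rw [nhs_one, mul_zero]

theorem TcI_tA_deriv (s : ℝ) : deriv tA s = 2 * (2 / 100) * deriv nhs s := by
  have h : tA = fun t => 2 * (2 / 100) * nhs t := rfl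
  rw [h, deriv_const_mul_field]

theorem TcI_tD_deriv (s : ℝ) : deriv tD s = 2 * (-6 / 1000) * deriv nhs s := by
  have h : tD = fun t => 2 * (-6 / 1000) * nhs t := rfl
  rw [h, deriv_const_mul_field]

theorem TcI_dps (t : ℝ) : dps t ^ 2 / kap ≤ 21713 / 100000 := by
  have h1 := kap_lo
  have h2 : 0 < kap := by linarith
  rw [div_le_iff₀ h2]
  have h3 := dps_pos t
  have h4 := dps_le t
  have h5 : dps t ^ 2 ≤ 1 := pow_le_one₀ h3.le h4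
  linarith

theorem TcI_inner (e x : E 2) : inner ℝ x e ^ 2 = (‖x‖ ^ 2 + ce e x) / 2 := by
  unfold ce
  ring

theorem TcI_alg {s F k K γ C c h hs h' F' G p d : ℝ} (h1s : 1 - s ≠ 0)
    (hode : 4 * h' + 8 * G * hs = -(4 * F') - γ * F) (hnhs : hs = F + s * F') (hnh : h = s * F)
    (hcC : c = s * C) (hk : hs = (1 - s) * k) (hK : 1 - h = (1 - s) ^ 2 * K)
    (hps : s * (1 + C) / 2 - 1 / 10000 ≤ p) (hdps : d ≤ 21713 / 100000)
    (st : 17 / 1000 * (γ * s ^ 2 * F ^ 2 - 4 * s * F ^ 2 - 4 * s * (1 - s) ^ 2 * k ^ 2)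
      + (-6 / 1000) * F * (4 - γ * s) + 2 / 100 * C * (F * (4 - γ * s) - 4 * (1 - s) * k)
      + 4 * s * k ^ 2 * ((-6 / 1000) ^ 2 + (2 / 100) ^ 2 + 2 * (-6 / 1000) * (2 / 100) * C)
          / (17 / 1000 * ((1 + s * F) * K))
      ≤ 315 / 1000 - C * (s * F)
        + 1625 / 1000 * (s * (1 + C) / 2 - 1 / 10000 - 21713 / 100000)) :
    17 / 1000 * (γ * h ^ 2 - 4 * s * F ^ 2 - 4 * s * hs ^ 2)
      + ((2 * (2 * (2 / 100) * h') + 4 * 0 + 2 * s * 0) * c + 2 * (2 * (-6 / 1000) * hs)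
        + 2 * s * (2 * (-6 / 1000) * h'))
      + 4 * G * (c * (2 * (2 / 100) * hs + s * 0) + s * (2 * (-6 / 1000) * hs))
      + (s * (2 * (2 / 100) * hs) ^ 2
        + 2 * (2 * (2 / 100) * hs) * c * (0 * c + 2 * (-6 / 1000) * hs)
        + s * (0 * c + 2 * (-6 / 1000) * hs) ^ 2) / (17 / 1000 * (1 - h ^ 2))
      ≤ 315 / 1000 - F * c + 1625 / 1000 * (p - d) := by
  have n1 : s * (2 * (2 / 100) * hs) ^ 2
      + 2 * (2 * (2 / 100) * hs) * c * (0 * c + 2 * (-6 / 1000) * hs)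
      + s * (0 * c + 2 * (-6 / 1000) * hs) ^ 2 = (1 - s) ^ 2 *
      (4 * s * k ^ 2 * ((-6 / 1000) ^ 2 + (2 / 100) ^ 2 + 2 * (-6 / 1000) * (2 / 100) * C)) := by
    rw [hcC, hk]
    ring
  have n2 : 17 / 1000 * (1 - h ^ 2) = (1 - s) ^ 2 * (17 / 1000 * ((1 + s * F) * K)) := by
    have n3 : 1 - h ^ 2 = (1 - h) * (1 + h) := by ring
    rw [n3, hK]
    rw [hnh]
    ring
  rw [n1, n2, mul_div_mul_left _ _ (pow_ne_zero 2 h1s)]
  have hpoly : 17 / 1000 * (γ * h ^ 2 - 4 * s * F ^ 2 - 4 * s * hs ^ 2)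
      + ((2 * (2 * (2 / 100) * h') + 4 * 0 + 2 * s * 0) * c + 2 * (2 * (-6 / 1000) * hs)
        + 2 * s * (2 * (-6 / 1000) * h'))
      + 4 * G * (c * (2 * (2 / 100) * hs + s * 0) + s * (2 * (-6 / 1000) * hs))
      = 17 / 1000 * (γ * s ^ 2 * F ^ 2 - 4 * s * F ^ 2 - 4 * s * (1 - s) ^ 2 * k ^ 2)
      + (-6 / 1000) * F * (4 - γ * s) + 2 / 100 * C * (F * (4 - γ * s) - 4 * (1 - s) * k) := by
    have m1 : 4 * s * (1 - s) ^ 2 * k ^ 2 = 4 * s * hs ^ 2 := by rw [hk]; ring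
    have m2 : 4 * (1 - s) * k = 4 * hs := by rw [hk]; ring
    rw [m1, m2, hnh, hcC]
    linear_combination (2 / 100 * s * C + (-6 / 1000) * s) * hode
      + 4 * (2 / 100 * C + (-6 / 1000)) * hnhs
  rw [hpoly]
  refine st.trans ?_
  rw [hcC]
  linarith

theorem tc_point (e x : E 2) (he : ‖e‖ = 1) (hx0 : x ≠ 0) (hx : ‖x‖ < 1) :
    17 / 1000 * qG x + (∑ i, pd i (fun y => Vf tA (fun _ => 0) tD e y i) x)
        + 4 * g1 (‖x‖ ^ 2) * inner ℝ x (Vf tA (fun _ => 0) tD e x)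
        + ‖Vf tA (fun _ => 0) tD e x‖ ^ 2 / (17 / 1000 * (1 - nh (‖x‖ ^ 2) ^ 2)) ≤ qT e x := by
  have hs1 : ‖x‖ ^ 2 < 1 := by nlinarith [norm_nonneg x]
  have hs0 : 0 < ‖x‖ ^ 2 := by
    have := norm_pos_iff.2 hx0
    positivity
  have hdiv := Vf_div tA (fun _ => 0) tD TcI_tA_smooth (fun s _ => contDiffAt_const)
    TcI_tD_smooth e he x hx
  have hinn := Vf_inner tA (fun _ => 0) tD e x hx
  have hnsq := Vf_normSq tA (fun _ => 0) tD e he x hx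
  have hode := ode (‖x‖ ^ 2) hs1
  have hq := qG_in x hx.le
  obtain ⟨e1, e2, e3, e4, e5⟩ := enc_pack (‖x‖ ^ 2) hs0.le hs1
  have hce := ce_le e x he
  have hsq := TcI_inner e x
  have hqT : qT e x = 315 / 1000 - nF (‖x‖ ^ 2) * ce e x
      + 1625 / 1000 * (ps (inner ℝ x e) ^ 2 - dps (inner ℝ x e) ^ 2 / kap) := by
    unfold qT
    rw [nFp_in _ hs1.le]
  have hnhs : nhs (‖x‖ ^ 2) = nF (‖x‖ ^ 2) + ‖x‖ ^ 2 * deriv nF (‖x‖ ^ 2) := rfl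
  have hnh : nh (‖x‖ ^ 2) = ‖x‖ ^ 2 * nF (‖x‖ ^ 2) := rfl
  rw [hdiv, hinn, hnsq, hq, hqT, TcI_tA_deriv, TcI_tD_deriv]
  have htA : tA (‖x‖ ^ 2) = 2 * (2 / 100) * nhs (‖x‖ ^ 2) := rfl
  have htD : tD (‖x‖ ^ 2) = 2 * (-6 / 1000) * nhs (‖x‖ ^ 2) := rfl
  rw [htA, htD]
  simp only [deriv_const]
  have hC1 : |ce e x / ‖x‖ ^ 2| ≤ 1 := by
    rw [abs_div, abs_of_pos hs0, div_le_one hs0]
    exact hce
  have hcC : ce e x = ‖x‖ ^ 2 * (ce e x / ‖x‖ ^ 2) := by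
    rw [mul_div_cancel₀ _ hs0.ne']
  have st := starT (‖x‖ ^ 2) (nF (‖x‖ ^ 2)) (nhs (‖x‖ ^ 2) / (1 - ‖x‖ ^ 2))
    ((1 - nh (‖x‖ ^ 2)) / (1 - ‖x‖ ^ 2) ^ 2) gam (ce e x / ‖x‖ ^ 2) hs0.le hs1.le e1 e2 e3 e4 hC1
  have h1s : 1 - ‖x‖ ^ 2 ≠ 0 := by
    have : 0 < 1 - ‖x‖ ^ 2 := by linarith
    exact this.ne'
  have hk : nhs (‖x‖ ^ 2) = (1 - ‖x‖ ^ 2) * (nhs (‖x‖ ^ 2) / (1 - ‖x‖ ^ 2)) := by
    rw [mul_div_cancel₀ _ h1s]
  have hK : 1 - nh (‖x‖ ^ 2) = (1 - ‖x‖ ^ 2) ^ 2 * ((1 - nh (‖x‖ ^ 2)) / (1 - ‖x‖ ^ 2) ^ 2) := by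
    rw [mul_div_cancel₀ _ (pow_ne_zero 2 h1s)]
  have hps : ‖x‖ ^ 2 * (1 + ce e x / ‖x‖ ^ 2) / 2 - 1 / 10000 ≤ ps (inner ℝ x e) ^ 2 := by
    refine ps_sq_ge _ _ ?_ ?_ ?_
    · have := (abs_le.1 hC1).1
      have h : 0 ≤ 1 + ce e x / ‖x‖ ^ 2 := by linarith
      positivity
    · have := (abs_le.1 hC1).2
      nlinarith
    · rw [hsq]
      conv_rhs => rw [hcC]
      exact le_of_eq (by ring)
  exact TcI_alg h1s hode hnhs hnh hcC hk hK hps (TcI_dps (inner ℝ x e)) st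

theorem qT_out (e x : E 2) (he : ‖e‖ = 1) (hx : 1 < ‖x‖) : 0 ≤ qT e x := by
  have hs1 : 1 < ‖x‖ ^ 2 := by nlinarith
  have hs0 : 0 < ‖x‖ ^ 2 := by linarith
  have hce := ce_le e x he
  have hsq := TcI_inner e x
  have hC1 : |ce e x / ‖x‖ ^ 2| ≤ 1 := by
    rw [abs_div, abs_of_pos hs0, div_le_one hs0]
    exact hce
  have hcC : ce e x = ‖x‖ ^ 2 * (ce e x / ‖x‖ ^ 2) := by
    rw [mul_div_cancel₀ _ hs0.ne']
  unfold qT
  rw [nFp_out _ hs1.le]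
  have h1 : 1 / ‖x‖ ^ 2 * ce e x = ce e x / ‖x‖ ^ 2 := by ring
  rw [h1]
  have hdps := TcI_dps (inner ℝ x e)
  have hb := abs_le.1 hC1
  have hps : (1 + ce e x / ‖x‖ ^ 2) / 2 - 1 / 10000 ≤ ps (inner ℝ x e) ^ 2 := by
    refine ps_sq_ge _ _ ?_ ?_ ?_
    · linarith [hb.1]
    · linarith [hb.2]
    · rw [hsq]
      conv_rhs => rw [hcC]
      generalize ce e x / ‖x‖ ^ 2 = C at *
      generalize ‖x‖ ^ 2 = s at *
      have : 0 ≤ (s - 1) * (1 + C) := mul_nonneg (by linarith) (by linarith [hb.1])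
      linarith
  generalize ce e x / ‖x‖ ^ 2 = C at *
  linarith [hb.1, hb.2]

theorem TcI_cont_dps : Continuous dps := by
  have h : dps = fun t => 1 / √(1 + t ^ 2 / 10000) ^ 3 := rfl
  rw [h]
  refine continuous_const.div (by fun_prop) (fun t => ?_)
  have : 0 < 1 + t ^ 2 / 10000 := by positivity
  have h2 := Real.sqrt_pos.2 this
  positivity

theorem TcI_cont_ce (e : E 2) : Continuous (fun x : E 2 => ce e x) := by
  unfold ce
  fun_prop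

theorem TcI_cont_nFp : Continuous (fun x : E 2 => nFp (‖x‖ ^ 2)) :=
  contDiff_nFp.continuous.comp (by fun_prop)

theorem TcI_cont_ps2 (e : E 2) : Continuous (fun x : E 2 => ps (inner ℝ x e) ^ 2) :=
  (contDiff_ps.continuous.comp (by fun_prop)).pow 2

theorem TcI_cont_dps2 (e : E 2) : Continuous (fun x : E 2 => dps (inner ℝ x e) ^ 2) :=
  (TcI_cont_dps.comp (by fun_prop)).pow 2

theorem TcI_cont_qT (e : E 2) : Continuous (qT e) := by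
  have h : qT e = fun x => 315 / 1000 - nFp (‖x‖ ^ 2) * ce e x
    + 1625 / 1000 * (ps (inner ℝ x e) ^ 2 - dps (inner ℝ x e) ^ 2 / kap) := rfl
  rw [h]
  exact (continuous_const.sub (TcI_cont_nFp.mul (TcI_cont_ce e))).add
    (continuous_const.mul ((TcI_cont_ps2 e).sub ((TcI_cont_dps2 e).div_const _)))

theorem t_bound (e : E 2) (he : ‖e‖ = 1) (τ : ℝ) (hτ0 : 0 ≤ τ) (u : E 2 → ℝ) (hu : ContDiff ℝ 1 u)
    (hc : HasCompactSupport u) (hm : mass u = 1)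
    (hcase : kap * (∫ x, u x ^ 2 * ps (inner ℝ x e) ^ 2) < ∫ x, u x ^ 2 * dps (inner ℝ x e) ^ 2)
    (hτ : (∫ x, dot u (fun y => Hk 2 2 (‖y‖ ^ 2) * u y) x)
      - bz 2 * (∫ x, Hk 2 2 (‖x‖ ^ 2) * u x ^ 2) ≤ τ * F0 2 2 1 ^ 2) :
    ∫ x, u x ^ 2 * (nFp (‖x‖ ^ 2) * ce e x) ≤ 315 / 1000 + 17 / 1000 * τ := by
  have hr := rho_pos
  have hB : ∀ s : ℝ, s ≤ 1 → ContDiffAt ℝ 1 (fun _ : ℝ => (0 : ℝ)) s := fun s _ => contDiffAt_const
  obtain ⟨L, hL⟩ := Vf_lipschitz tA (fun _ => 0) tD TcI_tA_smooth hB TcI_tD_smooth TcI_tA_one rfl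
    TcI_tD_one e
  obtain ⟨M, hM⟩ := Vf_bound tA (fun _ => 0) tD TcI_tA_smooth hB TcI_tD_smooth TcI_tA_one rfl
    TcI_tD_one e he
  have hcert := cert3 (N := 2) 2 le_rfl (by norm_num) (17 / 1000 / F0 2 2 1 ^ 2)
    (τ * F0 2 2 1 ^ 2) (by positivity) (Vf tA (fun _ => 0) tD e) L hL M (F0 2 2 1 ^ 2 / 2)
    (by positivity) hM (fun x hx => Vf_out tA (fun _ => 0) tD e x hx) Hk_lower (qT e)
    (TcI_cont_qT e) (fun x hx0 hx => by
      have h1 := tc_point e x he hx0 hx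
      have hs1 : ‖x‖ ^ 2 ≤ 1 := by nlinarith [norm_nonneg x]
      rw [Hk_in _ hs1, Ode_cast, Ode_cast2]
      have h2 : 17 / 1000 / F0 2 2 1 ^ 2 * ((bz 6 - bz 2) * Pk 2 (Fp 2 2) (‖x‖ ^ 2)
          - En 2 2 (Fp 2 2) (‖x‖ ^ 2)) = 17 / 1000 * qG x := by
        unfold qG
        ring
      have h3 : 17 / 1000 / F0 2 2 1 ^ 2 * (F0 2 2 1 ^ 2 * (1 - nh (‖x‖ ^ 2) ^ 2)) =
          17 / 1000 * (1 - nh (‖x‖ ^ 2) ^ 2) := by
        field_simp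
      rw [h2, h3]
      exact h1) (fun x hx => qT_out e x he hx) u hu hc (by
      rw [Ode_cast2]
      exact hτ)
  have e1 : 17 / 1000 / F0 2 2 1 ^ 2 * (τ * F0 2 2 1 ^ 2) = 17 / 1000 * τ := by
    field_simp
  rw [e1] at hcert
  have hu2 : HasCompactSupport (fun x => u x ^ 2) :=
    hc.comp_left (g := fun t : ℝ => t ^ 2) (by norm_num)
  have hu2c : Continuous (fun x => u x ^ 2) := by
    have := hu.continuous
    fun_prop
  have i0 : Integrable (fun x => u x ^ 2) := hu2c.integrable_of_hasCompactSupport hu2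
  have i1 : Integrable (fun x => u x ^ 2 * (nFp (‖x‖ ^ 2) * ce e x)) :=
    (hu2c.mul (TcI_cont_nFp.mul (TcI_cont_ce e))).integrable_of_hasCompactSupport hu2.mul_right
  have i2 : Integrable (fun x => u x ^ 2 * ps (inner ℝ x e) ^ 2) :=
    (hu2c.mul (TcI_cont_ps2 e)).integrable_of_hasCompactSupport hu2.mul_right
  have i3 : Integrable (fun x => u x ^ 2 * dps (inner ℝ x e) ^ 2) :=
    (hu2c.mul (TcI_cont_dps2 e)).integrable_of_hasCompactSupport hu2.mul_right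
  have hsplit : ∫ x, u x ^ 2 * qT e x = 315 / 1000 * (∫ x, u x ^ 2)
      - (∫ x, u x ^ 2 * (nFp (‖x‖ ^ 2) * ce e x))
      + (1625 / 1000 * (∫ x, u x ^ 2 * ps (inner ℝ x e) ^ 2)
        - 1625 / 1000 * (1 / kap) * (∫ x, u x ^ 2 * dps (inner ℝ x e) ^ 2)) := by
    have j1 : Integrable (fun x => 315 / 1000 * u x ^ 2
        - u x ^ 2 * (nFp (‖x‖ ^ 2) * ce e x)) := (i0.const_mul _).sub i1
    have j2 : Integrable (fun x => 1625 / 1000 * (u x ^ 2 * ps (inner ℝ x e) ^ 2)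
        - 1625 / 1000 * (1 / kap) * (u x ^ 2 * dps (inner ℝ x e) ^ 2)) :=
      (i2.const_mul _).sub (i3.const_mul _)
    have e2 : ∫ x, u x ^ 2 * qT e x = ∫ x, ((315 / 1000 * u x ^ 2
        - u x ^ 2 * (nFp (‖x‖ ^ 2) * ce e x)) +
        (1625 / 1000 * (u x ^ 2 * ps (inner ℝ x e) ^ 2)
        - 1625 / 1000 * (1 / kap) * (u x ^ 2 * dps (inner ℝ x e) ^ 2))) := by
      refine integral_congr_ae (.of_forall fun x => ?_)
      simp only [qT]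
      ring
    rw [e2, integral_add j1 j2, integral_sub (i0.const_mul _) i1,
      integral_sub (i2.const_mul _) (i3.const_mul _), integral_const_mul, integral_const_mul,
      integral_const_mul]
  have hm' : ∫ x, u x ^ 2 = 1 := hm
  rw [hsplit, hm'] at hcert
  have hk1 := kap_lo
  have hk : 0 < kap := by linarith
  have h5 : (∫ x, u x ^ 2 * ps (inner ℝ x e) ^ 2)
      ≤ 1 / kap * ∫ x, u x ^ 2 * dps (inner ℝ x e) ^ 2 := by
    rw [one_div, ← div_eq_inv_mul, le_div_iff₀ hk]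
    linarith
  have h6 : 1625 / 1000 * (1 / kap) * (∫ x, u x ^ 2 * dps (inner ℝ x e) ^ 2) =
      1625 / 1000 * (1 / kap * ∫ x, u x ^ 2 * dps (inner ℝ x e) ^ 2) := by ring
  rw [h6] at hcert
  linarith

end Pool.Agent.H94.SP
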