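import Pool.Agent.H94.SP.Blk
import Pool.Agent.H94.SP.EvB
import Pool.Agent.H94.SP.TcI
import Pool.Agent.H94.SP.OddB
import Pool.Agent.H94.SP.CutC

/-!
# Asm: the upper bound

`upper_sym_scaled`: `dirEig Ω 1 ≤ bz 2` implies `dirEig Ω 4 ≤ bz 6`. Enough: `dirEig Ω 4 ≤ bz 6 + δ` for `0 < δ ≤ 1/10`.
Constants (independent of `u`), `ρ = F0 2 2 1 > 0`: `c > 0` (`even_lower`, `C = bz 2 + 1`), `B` (`Ht_bound`, `k = 2`), `A ≥ 100` bounding `1`, `tg nFp a b`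
and `tf F1 j` with their partial derivatives (`tg_bound` for `nFp`: `nFp s = nFp 1 * s^(-2/2)` for `s ≥ 1` by `nFp_out`; `F1_bound`),
`b0 = δ c/16`, `η = min (1/20) (min (gam/2) (b0/3))`. Choose `ε0 > 0` with `ε0 ≤ 1/1000` and, for `ε = √ε0`,
`ε (B √(2 (bz 2 + 1 + 2))) ≤ ρ^2 min (δ c/2) (1/4)`, `10^7 ε ≤ δ`, `ε (4 * 4 * A^2 * √(2 (bz 2 + 1 + 2))) ≤ η`.
`near_min_even` (`ε0`) gives `u`, even, `mass u = 1`, `energy u ≤ dirEig Ω 1 + ε0`; `form_cs` (`L = dirEig Ω 1`, `eig_one_le`) is `hEL` with `ε`.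
* Case 1: some unit `e` with `∫ u^2 dps(x·e)^2 ≤ kap ∫ u^2 ps(x·e)^2`: `case_one`.
* Case 2: strict reverse inequality for all unit `e`. `tau_bound` (`k = 2`) and `τ = min (δ c/2) (1/4)` give the hypothesis `hτ` of `t_bound`, `main_ineq`
  (`τ * ρ^2`). `T1, T2` as in `EvA`, `exists_dir`, `moment_e`: `t = √(T1^2+T2^2) = ∫ u^2 nFp ce e`; `t_bound`: `t ≤ 315/1000 + 17/4000 ≤ 8/25`;
  `main_ineq`, `even_choice`, `odd_lower`, `block2`, `trial_bound` (`ι = Option (Option (Fin 2))`, card 4, `lam = bz 2`, `κ = gam + δ`):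
  `dirEig Ω 4 ≤ bz 2 + gam + δ = bz 6 + δ`.
`upper_sym`: scaling as `upb_step`, `upper` in `ER/UpB.lean` (`a • Ω` is again symmetric).
-/

set_option autoImplicit false

open MeasureTheory Pool.Agent.H94.ER

open scoped Pointwise

namespace Pool.Agent.H94.SP

theorem Asm_nFp_out (s : ℝ) (hs : 1 ≤ s) : nFp s = nFp 1 * s ^ (-(2 : ℝ) / 2) := by
  rw [nFp_out s hs, nFp_out 1 le_rfl, show (-(2 : ℝ) / 2) = -1 by norm_num, Real.rpow_neg_one]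
  ring

theorem Asm_small (δ : ℝ) (hδ : 0 < δ) (hδ1 : δ ≤ 1 / 10) (Ω : Set (E 2)) (hΩ : IsOpen Ω)
    (hne : Ω.Nonempty) (hsym : ∀ x ∈ Ω, -x ∈ Ω)
    (h1 : dirEig Ω 1 ≤ bz 2) : dirEig Ω 4 ≤ bz 6 + δ := by
  have h2c : ((2 : ℕ) : ℝ) = 2 := by norm_num
  have hlam : 0 < bz 2 := bz_pos 2 le_rfl
  have hL0 : 0 ≤ dirEig Ω 1 := dirEig_nonneg Ω 1
  have hρ : 0 < F0 2 2 1 := F0_pos 2 2 le_rfl 1 le_rfl
  have hgl := gam_lo
  have hg : 0 < gam := by linarith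
  have hg6 : bz 6 = bz 2 + gam := by unfold gam; ring
  -- constants
  obtain ⟨c, hc, hC⟩ := even_lower (bz 2 + 1) (by linarith)
  obtain ⟨B, hB0, hB⟩ := Ht_bound (N := 2) 2 le_rfl (by norm_num)
  obtain ⟨A2, hA20, hA2⟩ := tg_bound (N := 2) nFp contDiff_nFp Asm_nFp_out
  obtain ⟨A, hA⟩ : ∃ A : ℝ, A = 100 + A2 := ⟨_, rfl⟩
  obtain ⟨R, hR⟩ : ∃ R : ℝ, R = √(2 * (bz 2 + 1 + 2)) := ⟨_, rfl⟩
  have hR0 : 0 ≤ R := by rw [hR]; exact Real.sqrt_nonneg _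
  have hA0 : 0 ≤ A := by rw [hA]; positivity
  obtain ⟨τ, hτd⟩ : ∃ τ : ℝ, τ = min (δ * c / 2) (1 / 4) := ⟨_, rfl⟩
  have hτ0 : 0 < τ := by rw [hτd]; exact lt_min (by positivity) (by norm_num)
  have hτ1 : τ ≤ δ * c / 2 := by rw [hτd]; exact min_le_left _ _
  have hτ2 : τ ≤ 1 / 4 := by rw [hτd]; exact min_le_right _ _
  have hb0 : 0 < δ * c / 16 := by positivity
  obtain ⟨η, hη⟩ : ∃ η : ℝ, η = min (1 / 20) (min (gam / 2) (δ * c / 16 / 3)) := ⟨_, rfl⟩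
  have hηpos : 0 < η := by
    rw [hη]
    exact lt_min (by norm_num) (lt_min (by positivity) (by positivity))
  obtain ⟨θ, hθ⟩ : ∃ θ : ℝ, θ = min (τ * F0 2 2 1 ^ 2) (min δ η) := ⟨_, rfl⟩
  have hθpos : 0 < θ := by
    rw [hθ]
    exact lt_min (by positivity) (lt_min hδ hηpos)
  have hθ1 : θ ≤ τ * F0 2 2 1 ^ 2 := by rw [hθ]; exact min_le_left _ _
  have hθ2 : θ ≤ δ := by rw [hθ]; exact (min_le_right _ _).trans (min_le_left _ _)
  have hθ3 : θ ≤ η := by rw [hθ]; exact (min_le_right _ _).trans (min_le_right _ _)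
  obtain ⟨M, hM⟩ : ∃ M : ℝ, M = B * R + 10000000 + 4 * 4 * A ^ 2 * R := ⟨_, rfl⟩
  have hM1 : 0 ≤ B * R := by positivity
  have hM2 : 0 ≤ 4 * 4 * A ^ 2 * R := by positivity
  have hMpos : 0 < M := by linarith
  obtain ⟨ε, hε⟩ : ∃ ε : ℝ, ε = min (1 / 100) (θ / M) := ⟨_, rfl⟩
  have hεpos : 0 < ε := by rw [hε]; exact lt_min (by norm_num) (div_pos hθpos hMpos)
  have hε1 : ε ≤ 1 / 100 := by rw [hε]; exact min_le_left _ _
  have hεM : ε * M ≤ θ := by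
    have h2 : ε ≤ θ / M := by rw [hε]; exact min_le_right _ _
    calc ε * M ≤ θ / M * M := mul_le_mul_of_nonneg_right h2 hMpos.le
      _ = θ := div_mul_cancel₀ _ hMpos.ne'
  have hε2 : ε ^ 2 ≤ 1 / 10000 := by
    calc ε ^ 2 ≤ (1 / 100) ^ 2 := pow_le_pow_left₀ hεpos.le hε1 2
      _ = 1 / 10000 := by norm_num
  -- the near-minimiser
  obtain ⟨u, hu, hmass, hen, heven⟩ := near_min_even (N := 2) (by norm_num) Ω hΩ hne hsym (ε ^ 2)
    (by positivity)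
  have hen' : energy u ≤ bz 2 + 1 := by linarith
  have hen1 : energy u ≤ bz 2 + 1 / 1000 := by linarith
  have hEL : ∀ v, IsTest Ω v →
      |(∫ x, dot u v x) - dirEig Ω 1 * ∫ x, u x * v x| ≤ ε * √(energy v) := by
    intro v hv
    have h2 := form_cs Ω (dirEig Ω 1) (ε ^ 2) hL0 (eig_one_le Ω) u hu
      (by rw [hmass, mul_one]; exact hen) v hv
    rwa [Real.sqrt_sq hεpos.le] at h2
  by_cases hcase : ∃ e : E 2, ‖e‖ = 1 ∧
      ∫ x, u x ^ 2 * dps (inner ℝ x e) ^ 2 ≤ kap * ∫ x, u x ^ 2 * ps (inner ℝ x e) ^ 2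
  · obtain ⟨e, he, hce⟩ := hcase
    have h3 := case_one Ω hΩ u hu hmass heven (dirEig Ω 1) ε hL0 h1 hen' hεpos.le hEL e he hce
    have h4 : ε * 10000000 ≤ ε * M := mul_le_mul_of_nonneg_left (by linarith) hεpos.le
    linarith
  · have hcase2 : ∀ e : E 2, ‖e‖ = 1 →
        kap * (∫ x, u x ^ 2 * ps (inner ℝ x e) ^ 2) < ∫ x, u x ^ 2 * dps (inner ℝ x e) ^ 2 := by
      intro e he
      by_contra hcon
      exact hcase ⟨e, he, not_lt.1 hcon⟩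
    have hτ : (∫ x, dot u (fun y => Hk 2 2 (‖y‖ ^ 2) * u y) x)
        - bz 2 * (∫ x, Hk 2 2 (‖x‖ ^ 2) * u x ^ 2) ≤ τ * F0 2 2 1 ^ 2 := by
      have h3 := tau_bound (N := 2) le_rfl 2 (by norm_num) Ω u hu hmass (dirEig Ω 1) ε B
        (by rw [h2c]; exact h1) (by rw [h2c]; exact hen') hεpos.le hB0 hB hEL
      rw [h2c, ← hR] at h3
      have h4 : ε * (B * R) ≤ ε * M := mul_le_mul_of_nonneg_left (by linarith) hεpos.le
      linarith
    obtain ⟨T1, hT1⟩ : ∃ T1 : ℝ, T1 =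
      ∫ x : E 2, u x ^ 2 * (nFp (‖x‖ ^ 2) * (x 0 ^ 2 - x 1 ^ 2)) := ⟨_, rfl⟩
    obtain ⟨T2, hT2⟩ : ∃ T2 : ℝ, T2 =
      ∫ x : E 2, u x ^ 2 * (nFp (‖x‖ ^ 2) * (2 * x 0 * x 1)) := ⟨_, rfl⟩
    obtain ⟨e, he, hdir⟩ := exists_dir T1 T2
    have hmom := moment_e u hu.1 hu.2.1 e he
    rw [← hT1, ← hT2, hdir] at hmom
    have htb := t_bound e he τ hτ0.le u hu.1 hu.2.1 hmass (hcase2 e he) hτ
    rw [hmom] at htb
    have hti := main_ineq e he (√(T1 ^ 2 + T2 ^ 2)) τ (Real.sqrt_nonneg _) (by linarith) hτ0.le u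
      hu.1 hu.2.1 hmass hmom hτ
    rw [Real.sq_sqrt (by positivity), hT1, hT2] at hti
    obtain ⟨a, b, hev⟩ := even_choice u hu.1 hu.2.1 hmass τ c δ hδ hδ1 hτ1 hti
      (hC u hu.1 hu.2.1 hmass hen')
    have hodd := odd_lower u hu.1 hu.2.1 hmass hen1 hcase2
    have hQ := block2 contDiff_F1 u hu.1 hu.2.1 hmass heven δ (δ * c / 16) hδ hb0 hg a b hev hodd
    rw [← hη] at hQ
    have hcard : Fintype.card (Option (Option (Fin 2))) = 4 := by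
      rw [Fintype.card_option, Fintype.card_option, Fintype.card_fin]
    have hsmall : ε * (4 * (Fintype.card (Option (Option (Fin 2))) : ℝ) * A ^ 2 *
        √(2 * (bz 2 + 1 + ((2 : ℕ) : ℝ)))) ≤ η := by
      rw [hcard, h2c, ← hR]
      push_cast
      have h2 : ε * (4 * 4 * A ^ 2 * R) ≤ ε * M :=
        mul_le_mul_of_nonneg_left (by linarith) hεpos.le
      linarith
    have hfin := trial_bound (ι := Option (Option (Fin 2))) (by rw [hcard]; norm_num) Ω u hu hmass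
      (dirEig Ω 1) (bz 2) (gam + δ) η A ε hL0 h1 hen' (psi F1 nFp a b)
      (TrE_contDiff_psi F1 nFp contDiff_F1 contDiff_nFp a b)
      hA0
      (by
        rintro (_ | _ | j) x
        · refine ⟨?_, fun j => ?_⟩
          · show |(1 : ℝ)| ≤ A
            rw [abs_one]
            linarith
          · show |pd j (fun _ => (1 : ℝ)) x| ≤ A
            rw [pd_const, abs_zero]
            exact hA0
        · exact ⟨(hA2 a b x).1.trans (by linarith),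
            fun i => ((hA2 a b x).2 i).trans (by linarith)⟩
        · exact ⟨(F1_bound j x).1.trans (by linarith),
            fun i => ((F1_bound j x).2 i).trans (by linarith)⟩)
      hεpos.le hEL hηpos hsmall hQ
    rw [hcard] at hfin
    rw [hg6]
    linarith

theorem upper_sym_scaled (Ω : Set (E 2)) (hΩ : IsOpen Ω) (hne : Ω.Nonempty) (hsym : ∀ x ∈ Ω, -x ∈ Ω)
    (h1 : dirEig Ω 1 ≤ bz 2) : dirEig Ω 4 ≤ bz 6 := by
  refine le_of_forall_pos_le_add fun δ hδ => ?_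
  have h2 := Asm_small (min δ (1 / 10)) (lt_min hδ (by norm_num)) (min_le_right _ _) Ω hΩ hne hsym h1
  have h3 := min_le_left δ (1 / 10)
  linarith

theorem Asm_step (Ω : Set (E 2)) (hΩ : IsOpen Ω) (hne : Ω.Nonempty) (hsym : ∀ x ∈ Ω, -x ∈ Ω)
    (c : ℝ) (hc : dirEig Ω 1 < c) : dirEig Ω 4 * bz 2 ≤ bz 6 * c := by
  have hb : 0 < bz 2 := bz_pos 2 le_rfl
  have hc0 : 0 < c := (dirEig_nonneg Ω 1).trans_lt hc
  have hcb : 0 < c / bz 2 := div_pos hc0 hb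
  have ha : 0 < √(c / bz 2) := Real.sqrt_pos.2 hcb
  have ha2 : √(c / bz 2) ^ 2 = c / bz 2 := Real.sq_sqrt hcb.le
  have h1 : dirEig (√(c / bz 2) • Ω) 1 ≤ bz 2 := by
    rw [dirEig_smul (by norm_num) Ω 1 _ ha, ha2, div_le_iff₀ hcb, mul_div_assoc', mul_comm,
      mul_div_assoc, div_self hb.ne', mul_one]
    exact hc.le
  have hs : ∀ x ∈ √(c / bz 2) • Ω, -x ∈ √(c / bz 2) • Ω := by
    intro x hx
    obtain ⟨y, hy, rfl⟩ := Set.mem_smul_set.1 hx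
    exact Set.mem_smul_set.2 ⟨-y, hsym y hy, by rw [smul_neg]⟩
  have h2 := upper_sym_scaled (√(c / bz 2) • Ω) (hΩ.smul₀ ha.ne') (hne.smul_set) hs h1
  rw [dirEig_smul (by norm_num) Ω 4 _ ha, ha2, div_le_iff₀ hcb, mul_div_assoc',
    le_div_iff₀ hb] at h2
  exact h2

theorem upper_sym (Ω : Set (E 2)) (hΩ : IsOpen Ω) (hne : Ω.Nonempty) (hsym : ∀ x ∈ Ω, -x ∈ Ω) :
    dirEig Ω 4 * bz 2 ≤ bz 6 * dirEig Ω 1 := by
  have hb : 0 < bz 6 := bz_pos _ (by norm_num)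
  have h1 : ∀ c, dirEig Ω 1 < c → dirEig Ω 4 * bz 2 / bz 6 ≤ c := fun c hc => by
    rw [div_le_iff₀ hb, mul_comm c]
    exact Asm_step Ω hΩ hne hsym c hc
  have h2 := le_of_forall_gt_imp_ge_of_dense h1
  rw [div_le_iff₀ hb] at h2
  linarith

/-- main theorem: `λ_4(Ω)/λ_1(Ω) ≤ λ_4(D)/λ_1(D)` for planar open sets with `-Ω = Ω` -/
theorem main_sym (Ω : Set (E 2)) (hΩ : IsOpen Ω) (hne : Ω.Nonempty) (hsym : ∀ x ∈ Ω, -x ∈ Ω) :
    0 < dirEig (uball 2) 1 ∧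
      dirEig Ω 4 * dirEig (uball 2) 1 ≤ dirEig (uball 2) 4 * dirEig Ω 1 := by
  have h2c : ((2 : ℕ) : ℝ) = 2 := by norm_num
  have hb : 0 < bz 2 := bz_pos 2 le_rfl
  have h1 : dirEig (uball 2) 1 ≤ bz 2 := by
    have h := ball_eig_one_le (N := 2) le_rfl
    rwa [h2c] at h
  have h2 : bz 2 ≤ dirEig (uball 2) 1 := by
    have h := le_ball_eig_one (N := 2) le_rfl
    rwa [h2c] at h
  have h3 : bz 6 ≤ dirEig (uball 2) 4 := by
    have h := le_ball_eig (N := 2) le_rfl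
    rw [h2c, show (2 : ℝ) + 4 = 6 by norm_num] at h
    exact h
  have h4 := upper_sym Ω hΩ hne hsym
  have h5 := dirEig_nonneg Ω 1
  have h6 := dirEig_nonneg Ω 4
  refine ⟨lt_of_lt_of_le hb h2, ?_⟩
  calc dirEig Ω 4 * dirEig (uball 2) 1
      ≤ dirEig Ω 4 * bz 2 := by gcongr
    _ ≤ bz 6 * dirEig Ω 1 := h4
    _ ≤ dirEig (uball 2) 4 * dirEig Ω 1 := by gcongr

end Pool.Agent.H94.SP
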