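import Pool.Agent.H94.SP.Defs

/-!
# Ode: facts about the normalised profile

`ρ = F0 2 2 1 > 0` (`F0_pos`), `nF = F0 2 2 / ρ`; casts: `((2:ℕ):ℝ) + 2 * ((2:ℕ):ℝ) = 6`, `bz (2 + 2*2) = bz 6`.
* smoothness near every `s ≤ 1`: `F0_smooth`; `nF 1 = 1`; `deriv nF 1 = -1`: `F0_deriv_one`.
* `ode`: `profile_ode 2 2`, divided by `ρ` and `U s = bj 2 (bz 2 * s) > 0` (`PrD_U_pos`), is
  `4 s nF'' + 12 nF' + γ nF + 8 g1 (s nF' + nF) = 0`, and `4 nhs' = 8 nF' + 4 s nF''`.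
* `nFp_in`, `nFp_out`: `Fp`, `Fp_out`; `contDiff_nFp`: `contDiff_Fp`.
* `qG_in`: `Pk 2 F s = s^2 F^2`, `En 2 2 F s = 8 s F^2 + 8 s^2 F F' + 4 s^3 F'^2 = 4 s F^2 + 4 s (F + s F')^2`
  (`deriv_Fp` for `s ≤ 1`). `qG_out`: `Pk_out`, `En_out` (`γ - 4/s`, after division by `ρ^2`; `Fp 2 2 1 = ρ`).
* `g1_bound`: `g1 s = uder 2 s / ((1-s) uh 2 s)` (`uh_mul`), `uder 2` and `1 / uh 2` are continuous on `[0,1]` (`uh_pos`).
-/

set_option autoImplicit false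

open MeasureTheory Pool.Agent.H94.ER

namespace Pool.Agent.H94.SP

theorem Ode_cast : (((2 : ℕ) : ℝ) + 2 * ((2 : ℕ) : ℝ)) = 6 := by norm_num

theorem Ode_cast2 : ((2 : ℕ) : ℝ) = 2 := by norm_num

theorem rho_pos : 0 < F0 2 2 1 := F0_pos 2 2 le_rfl 1 le_rfl

theorem nF_smooth (s : ℝ) (hs : s ≤ 1) (n : ℕ) : ContDiffAt ℝ n nF s :=
  (F0_smooth 2 2 le_rfl s hs n).div_const (F0 2 2 1)

theorem nF_hasDerivAt (s : ℝ) (hs : s ≤ 1) : HasDerivAt nF (deriv nF s) s :=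
  ((nF_smooth s hs 1).differentiableAt (by norm_num)).hasDerivAt

theorem deriv_nF_smooth (s : ℝ) (hs : s ≤ 1) (n : ℕ) : ContDiffAt ℝ n (deriv nF) s := by
  refine PrF_deriv ?_
  have h := nF_smooth s hs (n + 1)
  push_cast at h
  exact h

theorem nhs_smooth (s : ℝ) (hs : s ≤ 1) (n : ℕ) : ContDiffAt ℝ n nhs s :=
  (nF_smooth s hs n).add (contDiffAt_id.mul (deriv_nF_smooth s hs n))

theorem nh_hasDerivAt (s : ℝ) (hs : s ≤ 1) : HasDerivAt nh (nhs s) s := by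
  have h := (hasDerivAt_id s).mul (nF_hasDerivAt s hs)
  refine h.congr_deriv ?_
  unfold nhs
  simp

theorem nF_one : nF 1 = 1 := div_self rho_pos.ne'

theorem Ode_deriv_nF (s : ℝ) : deriv nF s = deriv (F0 2 2) s / F0 2 2 1 :=
  deriv_div_const (F0 2 2 1)

theorem deriv_nF_one : deriv nF 1 = -1 := by
  rw [Ode_deriv_nF, F0_deriv_one 2 2 le_rfl]
  have h := rho_pos.ne'
  rw [Ode_cast2]
  field_simp

theorem nhs_one : nhs 1 = 0 := by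
  unfold nhs
  rw [nF_one, deriv_nF_one]
  norm_num

theorem nF_pos (s : ℝ) (hs : s ≤ 1) : 0 < nF s :=
  div_pos (F0_pos 2 2 le_rfl s hs) rho_pos

theorem Ode_deriv2 (s : ℝ) : deriv (deriv nF) s = deriv (deriv (F0 2 2)) s / F0 2 2 1 := by
  have h : deriv nF = fun t => deriv (F0 2 2) t / F0 2 2 1 := funext Ode_deriv_nF
  rw [h]
  exact deriv_div_const (F0 2 2 1)

theorem Ode_deriv_nhs (s : ℝ) (hs : s ≤ 1) :
    deriv nhs s = 2 * deriv nF s + s * deriv (deriv nF) s := by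
  have h2 : HasDerivAt (deriv nF) (deriv (deriv nF) s) s :=
    ((deriv_nF_smooth s hs 1).differentiableAt (by norm_num)).hasDerivAt
  have h := (nF_hasDerivAt s hs).add ((hasDerivAt_id s).mul h2)
  have h3 : deriv nhs s = _ := h.deriv
  rw [h3]
  simp only [id]
  ring

theorem ode (s : ℝ) (hs : s < 1) :
    4 * deriv nhs s + 8 * g1 s * nhs s = -(4 * deriv nF s) - gam * nF s := by
  have h1 := profile_ode 2 2 le_rfl s hs.le
  have hU := PrD_U_pos 2 le_rfl s hs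
  rw [Ode_cast] at h1
  rw [Ode_cast2] at h1 hU
  have hr := rho_pos.ne'
  rw [Ode_deriv_nhs s hs.le]
  unfold nhs g1 gam
  rw [Ode_deriv_nF, Ode_deriv2]
  unfold nF
  have hU' := hU.ne'
  generalize bj 2 (bz 2 * s) = U at *
  generalize F0 2 2 1 = r at *
  generalize deriv (deriv (F0 2 2)) s = f2 at *
  generalize deriv (F0 2 2) s = f1 at *
  generalize F0 2 2 s = f at *
  generalize uder 2 s = u at *
  field_simp
  linear_combination h1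

theorem nFp_in (s : ℝ) (hs : s ≤ 1) : nFp s = nF s := by
  unfold nFp nF
  rw [PrF_Fp_le 2 2 s hs]

theorem nFp_out (s : ℝ) (hs : 1 ≤ s) : nFp s = 1 / s := by
  unfold nFp
  have h0 : 0 < s := lt_of_lt_of_le one_pos hs
  rw [Fp_out 2 2 s hs, PrF_Fp_le 2 2 1 le_rfl, Ode_cast2, neg_div, div_self two_ne_zero,
    Real.rpow_neg_one, mul_div_assoc, mul_comm, div_mul_cancel₀ _ rho_pos.ne', one_div]

theorem contDiff_nFp : ContDiff ℝ 1 nFp := (contDiff_Fp 2 2 le_rfl).div_const _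

theorem qG_in (x : E 2) (hx : ‖x‖ ≤ 1) :
    qG x = gam * nh (‖x‖ ^ 2) ^ 2 - 4 * ‖x‖ ^ 2 * nF (‖x‖ ^ 2) ^ 2
      - 4 * ‖x‖ ^ 2 * nhs (‖x‖ ^ 2) ^ 2 := by
  have hs : ‖x‖ ^ 2 ≤ 1 := by nlinarith [norm_nonneg x]
  set s := ‖x‖ ^ 2 with hsd
  have hr := rho_pos.ne'
  unfold qG Pk En nh nhs gam
  rw [← hsd, deriv_Fp 2 2 le_rfl s hs, PrF_Fp_le 2 2 s hs, Ode_deriv_nF]
  unfold nF
  rw [Ode_cast2]
  field_simp
  ring

theorem qG_out (x : E 2) (hx : 1 < ‖x‖) : qG x = gam - 4 / ‖x‖ ^ 2 := by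
  have hs : 1 < ‖x‖ ^ 2 := by nlinarith [norm_nonneg x]
  unfold qG gam
  rw [Pk_out 2 2 le_rfl _ hs.le, En_out 2 2 le_rfl (by norm_num) _ hs, PrF_Fp_le 2 2 1 le_rfl]
  have hr := rho_pos.ne'
  have h0 : ‖x‖ ^ 2 ≠ 0 := by positivity
  rw [Ode_cast2]
  field_simp
  ring

theorem continuous_qG : Continuous qG := by
  have h := PrH_cont (N := 2) 2 le_rfl (bz 6 - bz 2) 0
  simp only [zero_mul, sub_zero] at h
  exact h.div_const _

theorem Hk_in (s : ℝ) (hs : s ≤ 1) : Hk 2 2 s = F0 2 2 1 ^ 2 * (1 - nh s ^ 2) := by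
  have hr := rho_pos.ne'
  unfold Hk Pk nh nF
  rw [PrF_Fp_le 2 2 s hs, PrF_Fp_le 2 2 1 le_rfl]
  field_simp

theorem g1_bound : ∃ M : ℝ, 0 ≤ M ∧ ∀ s : ℝ, 0 ≤ s → s < 1 → |g1 s| * (1 - s) ≤ M := by
  have hc : ContinuousOn (fun s => uder 2 s / uh ((2 : ℕ) : ℝ) s) (Set.Icc (0 : ℝ) 1) := by
    intro s hs
    have h1 : ContinuousAt (uder 2) s := (PrF_uder_smooth 2 le_rfl s).continuousAt
    have h2 : ContinuousAt (uh ((2 : ℕ) : ℝ)) s :=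
      (contDiff_uh _ (PrF_hN 2 le_rfl) 0).continuous.continuousAt
    exact (h1.div h2 (uh_pos _ (PrF_hN 2 le_rfl) s hs.2).ne').continuousWithinAt
  obtain ⟨C, hC⟩ := isCompact_Icc.exists_bound_of_continuousOn hc
  refine ⟨|C|, abs_nonneg _, fun s h0 h1 => ?_⟩
  have h2 := hC s ⟨h0, h1.le⟩
  have h3 := uh_mul ((2 : ℕ) : ℝ) (PrF_hN 2 le_rfl) s
  have hu := uh_pos ((2 : ℕ) : ℝ) (PrF_hN 2 le_rfl) s h1.le
  have h4 : |g1 s| * (1 - s) = ‖uder 2 s / uh ((2 : ℕ) : ℝ) s‖ := by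
    unfold g1
    rw [Ode_cast2] at h3
    rw [h3, Real.norm_eq_abs, ← abs_of_pos (show 0 < 1 - s by linarith), ← abs_mul,
      abs_of_pos (show 0 < 1 - s by linarith)]
    congr 1
    have h5 : 1 - s ≠ 0 := by linarith
    have h6 := hu.ne'
    rw [Ode_cast2] at h6 ⊢
    field_simp
  rw [h4]
  exact h2.trans (le_abs_self C)

end Pool.Agent.H94.SP
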