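import Pool.Agent.H94.SP.Ode

/-!
# EvA: moments of degree 2

`T1 = ∫ u^2 nFp(s) (x_0^2 - x_1^2)`, `T2 = ∫ u^2 nFp(s) (2 x_0 x_1)`, `s = ‖x‖^2 = x_0^2 + x_1^2`.
* `exists_dir`: half-angle: with `t = √(T1^2+T2^2)`: if `t = 0` any unit `e`; otherwise `a = √((1 + T1/t)/2)`, `b = ± √((1 - T1/t)/2)` with
  the sign of `T2`: `a^2 - b^2 = T1/t`, `2ab = T2/t`.
* `moment_e`: `ce e x = (e_0^2 - e_1^2)(x_0^2 - x_1^2) + 2 e_0 e_1 (2 x_0 x_1)` when `e_0^2 + e_1^2 = 1`; linearity of the integral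
  (`TrE_integrable`).
* `tg nFp 0 0 x = nFp(s) (x_0^2 - x_1^2)/2`, `tg nFp 1 1 = - tg nFp 0 0`, `tg nFp 0 1 x = tg nFp 1 0 x = nFp(s) x_0 x_1`: `sum_t`.
* `tg_abs`: `|tg nFp a b x| ≤ 1`: `nFp(s) s = nh s ≤ 1` for `s ≤ 1` (`Pk_le`: `Pk 2 (Fp 2 2) s = s^2 Fp^2 ≤ ρ^2`), `= 1` for `s ≥ 1`.
-/

set_option autoImplicit false

open MeasureTheory Pool.Agent.H94.ER

namespace Pool.Agent.H94.SP

theorem exists_dir (T1 T2 : ℝ) :
    ∃ e : E 2, ‖e‖ = 1 ∧ (e 0 ^ 2 - e 1 ^ 2) * T1 + 2 * e 0 * e 1 * T2 = √(T1 ^ 2 + T2 ^ 2) := by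
  set z : ℂ := ⟨T1, T2⟩ with hz
  set θ : ℝ := Complex.arg z / 2 with hθ
  have h1 : ‖z‖ * Real.cos (2 * θ) = T1 := by
    rw [hθ, mul_div_cancel₀ _ (two_ne_zero)]
    exact Complex.norm_mul_cos_arg z
  have h2 : ‖z‖ * Real.sin (2 * θ) = T2 := by
    rw [hθ, mul_div_cancel₀ _ (two_ne_zero)]
    exact Complex.norm_mul_sin_arg z
  have h3 : ‖z‖ = √(T1 ^ 2 + T2 ^ 2) := by
    rw [Complex.norm_eq_sqrt_sq_add_sq]
  refine ⟨!₂[Real.cos θ, Real.sin θ], ?_, ?_⟩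
  · rw [EuclideanSpace.norm_eq]
    simp [Fin.sum_univ_two]
  · rw [← h3]
    have h4 : Real.cos (2 * θ) = Real.cos θ ^ 2 - Real.sin θ ^ 2 := Real.cos_two_mul' θ
    have h5 : Real.sin (2 * θ) = 2 * Real.sin θ * Real.cos θ := Real.sin_two_mul θ
    have h6 := Real.sin_sq_add_cos_sq (2 * θ)
    change (Real.cos θ ^ 2 - Real.sin θ ^ 2) * T1 + 2 * Real.cos θ * Real.sin θ * T2 = ‖z‖
    rw [← h4, mul_assoc 2, mul_comm (Real.cos θ), ← mul_assoc 2, ← h5]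
    calc Real.cos (2 * θ) * T1 + Real.sin (2 * θ) * T2
        = Real.cos (2 * θ) * (‖z‖ * Real.cos (2 * θ)) + Real.sin (2 * θ) * (‖z‖ * Real.sin (2 * θ)) := by
          rw [h1, h2]
      _ = ‖z‖ * (Real.sin (2 * θ) ^ 2 + Real.cos (2 * θ) ^ 2) := by ring
      _ = ‖z‖ := by rw [h6, mul_one]

theorem EvA_nsq (x : E 2) : ‖x‖ ^ 2 = x 0 ^ 2 + x 1 ^ 2 := by
  rw [EuclideanSpace.norm_sq_eq]
  simp [Fin.sum_univ_two]

theorem EvA_ce (e : E 2) (he : ‖e‖ = 1) (x : E 2) :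
    ce e x = (e 0 ^ 2 - e 1 ^ 2) * (x 0 ^ 2 - x 1 ^ 2) + 2 * e 0 * e 1 * (2 * x 0 * x 1) := by
  have h1 : e 0 ^ 2 + e 1 ^ 2 = 1 := by
    rw [← EvA_nsq, he, one_pow]
  have h2 : inner ℝ x e = x 0 * e 0 + x 1 * e 1 := by
    rw [PiLp.inner_apply]
    simp [Fin.sum_univ_two, mul_comm]
  unfold ce
  rw [h2, EvA_nsq]
  have h3 : e 1 ^ 2 = 1 - e 0 ^ 2 := by linarith
  linear_combination (x 0 ^ 2 + x 1 ^ 2) * h1

theorem moment_e (u : E 2 → ℝ) (hu : ContDiff ℝ 1 u) (hc : HasCompactSupport u) (e : E 2) (he : ‖e‖ = 1) :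
    ∫ x, u x ^ 2 * (nFp (‖x‖ ^ 2) * ce e x)
      = (e 0 ^ 2 - e 1 ^ 2) * (∫ x : E 2, u x ^ 2 * (nFp (‖x‖ ^ 2) * (x 0 ^ 2 - x 1 ^ 2)))
        + 2 * e 0 * e 1 * ∫ x : E 2, u x ^ 2 * (nFp (‖x‖ ^ 2) * (2 * x 0 * x 1)) := by
  have hF : Continuous nFp := contDiff_nFp.continuous
  have i1 : Integrable (fun x : E 2 => u x ^ 2 * (nFp (‖x‖ ^ 2) * (x 0 ^ 2 - x 1 ^ 2))) :=
    TrE_integrable u hu hc _ (by fun_prop)
  have i2 : Integrable (fun x : E 2 => u x ^ 2 * (nFp (‖x‖ ^ 2) * (2 * x 0 * x 1))) :=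
    TrE_integrable u hu hc _ (by fun_prop)
  rw [← integral_const_mul, ← integral_const_mul, ← integral_add (i1.const_mul _) (i2.const_mul _)]
  refine integral_congr_ae (Filter.Eventually.of_forall fun x => ?_)
  simp only
  rw [EvA_ce e he]
  ring

theorem sum_t (u : E 2 → ℝ) :
    ∑ a : Fin 2, ∑ b : Fin 2, (∫ x, u x ^ 2 * tg nFp a b x) ^ 2
      = 1 / 2 * ((∫ x : E 2, u x ^ 2 * (nFp (‖x‖ ^ 2) * (x 0 ^ 2 - x 1 ^ 2))) ^ 2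
        + (∫ x : E 2, u x ^ 2 * (nFp (‖x‖ ^ 2) * (2 * x 0 * x 1))) ^ 2) := by
  have h00 : ∫ x, u x ^ 2 * tg nFp 0 0 x =
      1 / 2 * ∫ x : E 2, u x ^ 2 * (nFp (‖x‖ ^ 2) * (x 0 ^ 2 - x 1 ^ 2)) := by
    rw [← integral_const_mul]
    refine integral_congr_ae (Filter.Eventually.of_forall fun x => ?_)
    simp only [tg, if_true, Nat.cast_ofNat]
    linear_combination (-u x ^ 2 * nFp (‖x‖ ^ 2) / 2) * EvA_nsq x
  have h11 : ∫ x, u x ^ 2 * tg nFp 1 1 x =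
      -1 / 2 * ∫ x : E 2, u x ^ 2 * (nFp (‖x‖ ^ 2) * (x 0 ^ 2 - x 1 ^ 2)) := by
    rw [← integral_const_mul]
    refine integral_congr_ae (Filter.Eventually.of_forall fun x => ?_)
    simp only [tg, if_true, Nat.cast_ofNat]
    linear_combination (-u x ^ 2 * nFp (‖x‖ ^ 2) / 2) * EvA_nsq x
  have h01 : ∫ x, u x ^ 2 * tg nFp 0 1 x =
      1 / 2 * ∫ x : E 2, u x ^ 2 * (nFp (‖x‖ ^ 2) * (2 * x 0 * x 1)) := by
    rw [← integral_const_mul]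
    refine integral_congr_ae (Filter.Eventually.of_forall fun x => ?_)
    simp only [tg, Fin.zero_eq_one_iff, Nat.succ_ne_self, OfNat.ofNat_ne_one, if_false]
    ring
  have h10 : ∫ x, u x ^ 2 * tg nFp 1 0 x =
      1 / 2 * ∫ x : E 2, u x ^ 2 * (nFp (‖x‖ ^ 2) * (2 * x 0 * x 1)) := by
    rw [← integral_const_mul]
    refine integral_congr_ae (Filter.Eventually.of_forall fun x => ?_)
    simp only [tg, one_ne_zero, if_false]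
    ring
  rw [Fin.sum_univ_two, Fin.sum_univ_two, Fin.sum_univ_two, h00, h01, h10, h11]
  ring

theorem nFp_abs (s : ℝ) (hs : 0 ≤ s) : |nFp s| * s ≤ 1 := by
  have h1 := Pk_le 2 2 le_rfl (by norm_num) s hs
  have h2 : Fp 2 2 1 = F0 2 2 1 := PrF_Fp_le 2 2 1 le_rfl
  have h3 := rho_pos
  unfold Pk at h1
  rw [h2] at h1
  have h4 : (nFp s * s) ^ 2 ≤ 1 := by
    unfold nFp
    rw [div_mul_eq_mul_div, div_pow, div_le_one (by positivity)]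
    linarith
  have h5 : |nFp s * s| ≤ 1 := (sq_le_one_iff_abs_le_one _).1 h4
  rwa [abs_mul, abs_of_nonneg hs] at h5

theorem tg_abs (a b : Fin 2) (x : E 2) : |tg nFp a b x| ≤ 1 := by
  have h1 := nFp_abs (‖x‖ ^ 2) (sq_nonneg _)
  have h2 : |x a * x b - if a = b then ‖x‖ ^ 2 / ((2 : ℕ) : ℝ) else 0| ≤ ‖x‖ ^ 2 := by
    rw [EvA_nsq, abs_le]
    have e0 := sq_nonneg (x 0 - x 1)
    have e1 := sq_nonneg (x 0 + x 1)
    have e2 := sq_nonneg (x 0)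
    have e3 := sq_nonneg (x 1)
    fin_cases a <;> fin_cases b <;> simp <;> constructor <;> nlinarith
  unfold tg
  rw [abs_mul]
  calc |nFp (‖x‖ ^ 2)| * |x a * x b - if a = b then ‖x‖ ^ 2 / ((2 : ℕ) : ℝ) else 0|
      ≤ |nFp (‖x‖ ^ 2)| * ‖x‖ ^ 2 := mul_le_mul_of_nonneg_left h2 (abs_nonneg _)
    _ ≤ 1 := h1

end Pool.Agent.H94.SP
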