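import Pool.Agent.H94.SP.Bern

/-!
# Polynomials enclosing the Bessel quotients, and the positivity facts about them

Generated (exact Bernstein certificates).
-/

set_option autoImplicit false

namespace Pool.Agent.H94.SP

/-- enclosure of the profile `nF` -/
noncomputable def Fb (s : ℝ) : ℝ :=
  1179 / 500 - 871 / 500 * s + 193 / 500 * s ^ 2

/-- enclosure of `nhs s / (1 - s)` -/
noncomputable def kb (s : ℝ) : ℝ :=
  2359 / 1000 - 1177 / 1000 * s + 201 / 1000 * s ^ 2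

/-- enclosure of `(1 - nh s) / (1 - s)^2` -/
noncomputable def Kb (s : ℝ) : ℝ :=
  1 - 357 / 1000 * s + 97 / 2000 * s ^ 2

/-- enclosure of `uh 2` -/
noncomputable def ub (s : ℝ) : ℝ :=
  1 - 891593 / 2000000 * s + 383927 / 5000000 * s ^ 2 - 71643 / 10000000 * s ^ 3 + 527 / 1250000 * s ^ 4 -
  171 / 10000000 * s ^ 5 + 1 / 2000000 * s ^ 6

/-- enclosure of `uh 6` -/
noncomputable def vb (s : ℝ) : ℝ :=
  1 - 11978847 / 10000000 * s + 61362673 / 100000000 * s ^ 2 - 2283399 / 12500000 * s ^ 3 + 1804983 /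
  50000000 * s ^ 4 - 255737 / 50000000 * s ^ 5 + 54679 / 100000000 * s ^ 6 - 143 / 3125000 * s ^ 7 + 77 /
  25000000 * s ^ 8 - 17 / 100000000 * s ^ 9

/-- enclosure of `g s / (1 - s)^3` -/
noncomputable def Gb (s : ℝ) : ℝ :=
  423816783 / 1000000000 - 85325617 / 250000000 * s + 124005917 / 1000000000 * s ^ 2 - 13674389 / 500000000 *
  s ^ 3 + 2073563 / 500000000 * s ^ 4 - 11597 / 25000000 * s ^ 5 + 20037 / 500000000 * s ^ 6 - 2763 /
  1000000000 * s ^ 7 + 39 / 250000000 * s ^ 8 - 7 / 1000000000 * s ^ 9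

/-- derivative of `(1 - s) * ub s` -/
noncomputable def Ud (s : ℝ) : ℝ :=
  -2891593 / 2000000 + 5225819 / 5000000 * s - 2518491 / 10000000 * s ^ 2 + 75859 / 2500000 * s ^ 3 - 4387 /
  2000000 * s ^ 4 + 33 / 312500 * s ^ 5 - 7 / 2000000 * s ^ 6

/-- derivative of `(1 - s) * vb s` -/
noncomputable def Vd (s : ℝ) : ℝ :=
  -21978847 / 10000000 + 181151143 / 50000000 * s - 47777919 / 20000000 * s ^ 2 + 10938579 / 12500000 * s ^ 3
  - 25759 / 125000 * s ^ 4 + 1698459 / 50000000 * s ^ 5 - 82957 / 20000000 * s ^ 6 + 1221 / 3125000 * s ^ 7 -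
  117 / 4000000 * s ^ 8 + 17 / 10000000 * s ^ 9

/-- `-3 Gb + (1 - s) Gb'`, so that `((1-s)^3 Gb)' = (1-s)^2 Gt` -/
noncomputable def Gt (s : ℝ) : ℝ :=
  -1612752817 / 1000000000 + 806610853 / 500000000 * s - 702075919 / 1000000000 * s ^ 2 + 45170293 /
  250000000 * s ^ 3 - 15674641 / 500000000 * s ^ 4 + 987871 / 250000000 * s ^ 5 - 380007 / 1000000000 * s ^ 6
  + 14439 / 500000000 * s ^ 7 - 1779 / 1000000000 * s ^ 8 + 21 / 250000000 * s ^ 9

end Pool.Agent.H94.SP
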