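import Pool.Agent.H94.SP.NB
import Pool.Agent.H94.SP.PolD
import Pool.Agent.H94.SP.Defs

/-!
# ND: enclosure of `uh 6` on `[0,1]`

`V s = bj 6 (bz 6 * s)`, `V' s = PrC_der 6 s = -(bz 6 * bj 8 (bz 6 * s)) / 12` (`PrC_hasDerivAt`).
1. `|PrC_der 6 s - Vd s| ≤ 1e-5` on `[0,1]`: with `m0 = 26374616/1000000`, `|bz 6 - m0| ≤ 6e-6` (NB) and
   `|z bj 8 (z s) - m0 bj 8 (m0 s)| ≤ |z - m0| (1 + z/16)` (`|bj 8| ≤ 1`, `(bj 8)' = - bj 10 / 16`), cost
   `≤ 6e-6 * 2.65 / 12 ≤ 2e-6`; `bj_taylor 8 _ 10` at `m0 s`: error `(m0/12) BjA_c 8 10 m0^10 ≤ 1e-7`; the difference of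
   `-(m0/12) ∑ k<10, BjA_c 8 k (-m0 s)^k` and `Vd s` has coefficients of absolute sum `≤ 6e-7`.
2. `D s = bj 6 (bz 6 * s) - (1 - s) * vb s`: `D 1 = 0`, `D' s = PrC_der 6 s - Vd s`, `D s = (1-s)(uh 6 s - vb s)` (`uh_mul`);
   `|D s| ≤ 1e-5 (1 - s)`; `s = 1` by continuity.
-/

set_option autoImplicit false

open Pool.Agent.H94.ER

namespace Pool.Agent.H94.SP

theorem ND_lip {x y : ℝ} (hx : 0 ≤ x) (hy : 0 ≤ y) : |bj 8 x - bj 8 y| ≤ 1 / 16 * |x - y| := by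
  have h := Convex.norm_image_sub_le_of_norm_hasDerivWithin_le (f := bj 8)
    (f' := fun t => -(bj 10 t) / 16) (s := Set.Ici (0 : ℝ)) (C := 1 / 16)
    (fun t _ => by
      have := hasDerivAt_bj 8 (by norm_num) t
      have e : -(bj (8 + 2) t) / (2 * 8) = -(bj 10 t) / 16 := by norm_num
      rw [e] at this
      exact this.hasDerivWithinAt)
    (fun t ht => by
      have := bj_abs_le_one 10 (by norm_num) t ht
      rw [Real.norm_eq_abs, abs_div, abs_neg, abs_of_pos (by norm_num : (0 : ℝ) < 16)]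
      rw [div_le_div_iff_of_pos_right (by norm_num)]
      exact this)
    (convex_Ici 0) (Set.mem_Ici.2 hy) (Set.mem_Ici.2 hx)
  simpa [Real.norm_eq_abs] using h

theorem ND_tay {s : ℝ} (h0 : 0 ≤ s) (h1 : s ≤ 1) :
    |bj 8 (26374616 / 1000000 * s) - ∑ k ∈ Finset.range 10, BjA_c 8 k *
      (-(26374616 / 1000000 * s)) ^ k| ≤ 1 / 20000000 := by
  have h := bj_taylor 8 (by norm_num) 10 (26374616 / 1000000 * s) (by positivity)
  refine h.trans ?_
  have h2 : (26374616 / 1000000 * s) ^ 10 ≤ (26374616 / 1000000 : ℝ) ^ 10 := by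
    refine pow_le_pow_left₀ (by positivity) ?_ 10
    nlinarith
  refine (mul_le_mul_of_nonneg_left h2 (BjA_c_pos 8 (by norm_num) 10).le).trans ?_
  norm_num [Finset.prod_range_succ, BjA_c, Nat.factorial]

theorem ND_poly {s : ℝ} (h0 : 0 ≤ s) (h1 : s ≤ 1) :
    |-(26374616 / 1000000 * ∑ k ∈ Finset.range 10, BjA_c 8 k *
      (-(26374616 / 1000000 * s)) ^ k) / 12 - Vd s| ≤ 1 / 1000000 := by
  have p2 : s ^ 2 ≤ 1 := pow_le_one₀ h0 h1
  have p3 : s ^ 3 ≤ 1 := pow_le_one₀ h0 h1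
  have p4 : s ^ 4 ≤ 1 := pow_le_one₀ h0 h1
  have p5 : s ^ 5 ≤ 1 := pow_le_one₀ h0 h1
  have p6 : s ^ 6 ≤ 1 := pow_le_one₀ h0 h1
  have p7 : s ^ 7 ≤ 1 := pow_le_one₀ h0 h1
  have p8 : s ^ 8 ≤ 1 := pow_le_one₀ h0 h1
  have p9 : s ^ 9 ≤ 1 := pow_le_one₀ h0 h1
  have q2 : 0 ≤ s ^ 2 := pow_nonneg h0 _
  have q3 : 0 ≤ s ^ 3 := pow_nonneg h0 _
  have q4 : 0 ≤ s ^ 4 := pow_nonneg h0 _
  have q5 : 0 ≤ s ^ 5 := pow_nonneg h0 _
  have q6 : 0 ≤ s ^ 6 := pow_nonneg h0 _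
  have q7 : 0 ≤ s ^ 7 := pow_nonneg h0 _
  have q8 : 0 ≤ s ^ 8 := pow_nonneg h0 _
  have q9 : 0 ≤ s ^ 9 := pow_nonneg h0 _
  unfold Vd
  norm_num [Finset.sum_range_succ, Finset.prod_range_succ, BjA_c, Nat.factorial]
  rw [abs_le]
  constructor
  · linarith
  · linarith

theorem enc_vder (s : ℝ) (h0 : 0 ≤ s) (h1 : s ≤ 1) : |PrC_der 6 s - Vd s| ≤ 1 / 100000 := by
  have hz1 := bz6_lo
  have hz2 := bz6_hi
  obtain ⟨z, hz⟩ : ∃ z, z = bz 6 := ⟨_, rfl⟩
  rw [← hz] at hz1 hz2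
  have e : PrC_der 6 s = -(z * bj 8 (z * s)) / 12 := by
    unfold PrC_der
    rw [← hz]
    norm_num
  have hz0 : 0 ≤ z := by linarith
  have hd : |z - 26374616 / 1000000| ≤ 6 / 1000000 := by
    rw [abs_le]
    constructor <;> linarith
  have a1 : |bj 8 (z * s)| ≤ 1 := bj_abs_le_one 8 (by norm_num) _ (by positivity)
  have a2 : |bj 8 (z * s) - bj 8 (26374616 / 1000000 * s)| ≤ 1 / 16 * (6 / 1000000) := by
    refine (ND_lip (by positivity) (by positivity)).trans ?_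
    rw [← sub_mul, abs_mul, abs_of_nonneg h0]
    have : |z - 26374616 / 1000000| * s ≤ 6 / 1000000 := by
      have := abs_nonneg (z - 26374616 / 1000000)
      nlinarith
    linarith
  have a3 := ND_tay h0 h1
  have a4 := ND_poly h0 h1
  have a5 : |(z - 26374616 / 1000000) * bj 8 (z * s)| ≤ 6 / 1000000 := by
    rw [abs_mul]
    have := abs_nonneg (z - 26374616 / 1000000)
    nlinarith [abs_nonneg (bj 8 (z * s))]
  rw [e]
  obtain ⟨S, hS⟩ : ∃ S, S = ∑ k ∈ Finset.range 10, BjA_c 8 k *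
      (-(26374616 / 1000000 * s)) ^ k := ⟨_, rfl⟩
  rw [← hS] at a3 a4
  rw [abs_le] at a2 a3 a4 a5 ⊢
  constructor <;> linarith [a2.1, a2.2, a3.1, a3.2, a4.1, a4.2, a5.1, a5.2]

theorem ND_vb_deriv (s : ℝ) : HasDerivAt (fun t => (1 - t) * vb t) (Vd s) s := by
  have e : (fun t : ℝ => (1 - t) * vb t) = fun t => (1 - t) * (
    1 - 11978847 / 10000000 * t + 61362673 / 100000000 * t ^ 2 - 2283399 / 12500000 * t ^ 3 + 1804983 /
    50000000 * t ^ 4 - 255737 / 50000000 * t ^ 5 + 54679 / 100000000 * t ^ 6 - 143 / 3125000 * t ^ 7 + 77 /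
    25000000 * t ^ 8 - 17 / 100000000 * t ^ 9) := by
    funext t
    unfold vb
    ring
  rw [e]
  have h1 : HasDerivAt (fun t : ℝ => 1 - t) (-1) s := by
    simpa using (hasDerivAt_id s).const_sub 1
  have hp : ∀ (c : ℝ) (k : ℕ), HasDerivAt (fun t : ℝ => c * t ^ (k + 1)) (c * ((k + 1 : ℕ) * s ^ k)) s := by
    intro c k
    have := (hasDerivAt_pow (k + 1) s).const_mul c
    simpa using this
  have hp1 : HasDerivAt (fun t : ℝ => 11978847 / 10000000 * t) (11978847 / 10000000) s := by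
    simpa using (hasDerivAt_id s).const_mul (11978847 / 10000000 : ℝ)
  have h2 := (((((((((hp1.const_sub 1).add (hp (61362673 / 100000000) 1)).sub
    (hp (2283399 / 12500000) 2)).add (hp (1804983 / 50000000) 3)).sub
    (hp (255737 / 50000000) 4)).add (hp (54679 / 100000000) 5)).sub
    (hp (143 / 3125000) 6)).add (hp (77 / 25000000) 7)).sub (hp (17 / 100000000) 8))
  have h3 := h1.mul h2
  refine HasDerivAt.congr_deriv h3 ?_
  unfold Vd
  simp only [Pi.add_apply, Pi.sub_apply]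
  push_cast
  ring

theorem enc_uh6 (s : ℝ) (h0 : 0 ≤ s) (h1 : s ≤ 1) : |uh 6 s - vb s| ≤ 1 / 100000 := by
  have hD : ∀ t : ℝ, HasDerivAt (fun t => bj 6 (bz 6 * t) - (1 - t) * vb t)
      (PrC_der 6 t - Vd t) t := fun t =>
    (PrC_hasDerivAt 6 (by norm_num) t).sub (ND_vb_deriv t)
  have key : ∀ t ∈ Set.Ico (0 : ℝ) 1, |uh 6 t - vb t| ≤ 1 / 100000 := by
    intro t ht
    have h := Convex.norm_image_sub_le_of_norm_hasDerivWithin_le
      (f := fun t => bj 6 (bz 6 * t) - (1 - t) * vb t)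
      (f' := fun t => PrC_der 6 t - Vd t) (s := Set.Icc (0 : ℝ) 1) (C := 1 / 100000)
      (fun t _ => (hD t).hasDerivWithinAt)
      (fun t ht => by
        rw [Real.norm_eq_abs]
        exact enc_vder t ht.1 ht.2)
      (convex_Icc 0 1) (Set.right_mem_Icc.2 (by norm_num)) ⟨ht.1, ht.2.le⟩
    have e1 : bj 6 (bz 6 * 1) - (1 - 1) * vb 1 = 0 := by
      rw [mul_one, bj_bz 6 (by norm_num)]
      ring
    have e2 : bj 6 (bz 6 * t) - (1 - t) * vb t = (1 - t) * (uh 6 t - vb t) := by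
      rw [uh_mul 6 (by norm_num)]
      ring
    have ht1 : 0 < 1 - t := by linarith [ht.2]
    simp only [e1, e2, sub_zero] at h
    rw [Real.norm_eq_abs, Real.norm_eq_abs, abs_mul, abs_of_pos ht1, abs_sub_comm t 1,
      abs_of_pos ht1, mul_comm (1 / 100000 : ℝ)] at h
    exact le_of_mul_le_mul_left h ht1
  have hc : IsClosed {t : ℝ | |uh 6 t - vb t| ≤ 1 / 100000} := by
    refine isClosed_le ?_ continuous_const
    have c1 : Continuous (uh 6) := (contDiff_uh 6 (by norm_num) 0).continuous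
    have c2 : Continuous vb := by unfold vb; fun_prop
    exact (c1.sub c2).abs
  have h2 : closure (Set.Ico (0 : ℝ) 1) ⊆ {t : ℝ | |uh 6 t - vb t| ≤ 1 / 100000} :=
    hc.closure_subset_iff.2 key
  rw [closure_Ico (by norm_num)] at h2
  exact h2 ⟨h0, h1⟩

end Pool.Agent.H94.SP
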