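import Pool.Agent.H94.SP.NE
import Pool.Agent.H94.SP.PolE

/-!
# NF: enclosures of the profile

From the enclosures of `uh 2`, `uh 6`, `gg` and their derivatives.
-/

set_option autoImplicit false

open Pool.Agent.H94.ER

namespace Pool.Agent.H94.SP

theorem NF_F0 (s : ℝ) : F0 2 2 s = uh 6 s / uh 2 s := by
  unfold F0
  norm_num

theorem NF_u_pos (s : ℝ) (h1 : s ≤ 1) : 0 < uh 2 s := uh_pos 2 le_rfl s h1

theorem NF_rho_pos : 0 < F0 2 2 1 := lt_of_lt_of_le (by norm_num) rho_lo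

/-- upper bound: comparison -/
theorem NF_up {X a b c r u ul : ℝ} (hu : ul ≤ u) (hul : 0 ≤ ul) (hr : 42379 / 100000 ≤ r) (ha : 0 ≤ a)
    (hX : X ≤ c) (h : 0 ≤ (42379 / 100000) * a * ul - c) (hb : b = r * u) : X ≤ a * b := by
  subst hb
  have h1 : (42379 / 100000) * ul ≤ r * u := mul_le_mul hr hu hul (by linarith)
  have h2 := mul_le_mul_of_nonneg_left h1 ha
  nlinarith

/-- lower bound: comparison -/
theorem NF_lo {X a b c r u uu : ℝ} (hu : u ≤ uu) (hu0 : 0 ≤ u) (hr : r ≤ 8477 / 20000) (hr0 : 0 ≤ r) (ha : 0 ≤ a)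
    (hX : c ≤ X) (h : 0 ≤ c - (8477 / 20000) * a * uu) (hb : b = r * u) : a * b ≤ X := by
  subst hb
  have h1 : r * u ≤ (8477 / 20000) * uu := mul_le_mul hr hu hu0 (by norm_num)
  have h2 := mul_le_mul_of_nonneg_left h1 ha
  nlinarith

theorem enc_F (s : ℝ) (h0 : 0 ≤ s) (h1 : s ≤ 1) : |nF s - Fb s| ≤ 3 / 1000 := by
  have hu := abs_le.1 (enc_uh2 s h0 h1)
  have hv := abs_le.1 (enc_uh6 s h0 h1)
  have hup := NF_u_pos s h1
  have hr := NF_rho_pos
  have hr1 := rho_lo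
  have hr2 : F0 2 2 1 ≤ 8477 / 20000 := le_trans rho_hi (by norm_num)
  have hul := pul s h0 h1
  have hFl := pFl s h0 h1
  have hb : 0 < F0 2 2 1 * uh 2 s := mul_pos hr hup
  have e : nF s = uh 6 s / (F0 2 2 1 * uh 2 s) := by
    unfold nF
    rw [NF_F0 s, div_div, mul_comm]
  have a1 : uh 6 s ≤ (Fb s + 3 / 1000) * (F0 2 2 1 * uh 2 s) :=
    NF_up (ul := ub s - 1 / 100000) (by linarith) (by linarith) hr1 (by linarith)
      (c := vb s + 1 / 100000) (by linarith) (pE1u s h0 h1) rfl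
  have a2 : (Fb s - 3 / 1000) * (F0 2 2 1 * uh 2 s) ≤ uh 6 s :=
    NF_lo (uu := ub s + 1 / 100000) (by linarith) hup.le hr2 hr.le (by linarith)
      (c := vb s - 1 / 100000) (by linarith) (pE1l s h0 h1) rfl
  have b1 := (div_le_iff₀ hb).2 a1
  have b2 := (le_div_iff₀ hb).2 a2
  rw [e, abs_le]
  constructor <;> linarith

theorem NF_nF_one : nF 1 = 1 := by
  unfold nF
  exact div_self NF_rho_pos.ne'

theorem NF_gg (s : ℝ) (h1 : s ≤ 1) : gg s = (1 - s) * ((1 - nh s) * (F0 2 2 1 * uh 2 s)) := by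
  have hup := NF_u_pos s h1
  have hr := NF_rho_pos
  unfold gg nh nF
  rw [NF_F0 s, uh_mul 2 le_rfl, uh_mul 6 (by norm_num)]
  field_simp

theorem enc_h (s : ℝ) (h0 : 0 ≤ s) (h1 : s ≤ 1) : |1 - nh s - (1 - s) ^ 2 * Kb s| ≤ (1 - s) ^ 2 / 1000 := by
  rcases h1.lt_or_eq with h2 | h2
  · have hu := abs_le.1 (enc_uh2 s h0 h1)
    have hup := NF_u_pos s h1
    have hr := NF_rho_pos
    have hr1 := rho_lo
    have hr2 : F0 2 2 1 ≤ 8477 / 20000 := le_trans rho_hi (by norm_num)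
    have hul := pul s h0 h1
    have hKl := pKl s h0 h1
    have hb : 0 < F0 2 2 1 * uh 2 s := mul_pos hr hup
    have hg := abs_le.1 (enc_g s h0 h1)
    rw [NF_gg s h1] at hg
    have ht : 0 < 1 - s := by linarith
    have hc : 0 < (1 - s) ^ 2 := by positivity
    obtain ⟨hg1, hg2⟩ := hg
    set X := (1 - nh s) * (F0 2 2 1 * uh 2 s) with hX
    have k1 : X ≤ (1 - s) ^ 2 * (Gb s + 1 / 60000) := by
      refine le_of_mul_le_mul_left ?_ ht
      nlinarith
    have k2 : (1 - s) ^ 2 * (Gb s - 1 / 60000) ≤ X := by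
      refine le_of_mul_le_mul_left ?_ ht
      nlinarith
    have a1 : Gb s + 1 / 60000 ≤ (Kb s + 1 / 1000) * (F0 2 2 1 * uh 2 s) :=
      NF_up (ul := ub s - 1 / 100000) (by linarith) (by linarith) hr1 (by linarith)
        (c := Gb s + 1 / 60000) le_rfl (pE3u s h0 h1) rfl
    have a2 : (Kb s - 1 / 1000) * (F0 2 2 1 * uh 2 s) ≤ Gb s - 1 / 60000 :=
      NF_lo (uu := ub s + 1 / 100000) (by linarith) hup.le hr2 hr.le (by linarith)
        (c := Gb s - 1 / 60000) le_rfl (pE3l s h0 h1) rfl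
    have b1 : 1 - nh s ≤ (1 - s) ^ 2 * (Kb s + 1 / 1000) := by
      refine le_of_mul_le_mul_right ?_ hb
      rw [← hX, mul_assoc]
      exact k1.trans (mul_le_mul_of_nonneg_left a1 hc.le)
    have b2 : (1 - s) ^ 2 * (Kb s - 1 / 1000) ≤ 1 - nh s := by
      refine le_of_mul_le_mul_right ?_ hb
      rw [← hX, mul_assoc]
      exact (mul_le_mul_of_nonneg_left a2 hc.le).trans k2
    rw [abs_le]
    constructor <;> nlinarith
  · subst h2
    unfold nh
    rw [NF_nF_one]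
    norm_num

theorem NF_diff (s : ℝ) (h1 : s ≤ 1) : DifferentiableAt ℝ (F0 2 2) s :=
  (F0_smooth 2 2 le_rfl s h1 1).differentiableAt (by norm_num)

theorem NF_nF_diff (s : ℝ) (h1 : s ≤ 1) : DifferentiableAt ℝ nF s := by
  unfold nF
  exact (NF_diff s h1).div_const _

theorem NF_nh_deriv (s : ℝ) (h1 : s ≤ 1) : HasDerivAt nh (nhs s) s := by
  have h2 := (hasDerivAt_id s).mul (NF_nF_diff s h1).hasDerivAt
  refine h2.congr_deriv ?_
  unfold nhs
  simp

/-- the derivative of the profile -/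
theorem NF_key (s : ℝ) (h1 : s < 1) :
    nhs s * (F0 2 2 1 * bj 2 (bz 2 * s)) = F0 2 2 1 * uder 2 s * (1 - nh s) - deriv gg s := by
  have e1 : ∀ᶠ t in nhds s, gg t = F0 2 2 1 * bj 2 (bz 2 * t) * (1 - nh t) := by
    filter_upwards [gt_mem_nhds h1] with t ht
    rw [NF_gg t (le_of_lt ht), uh_mul 2 le_rfl]
    ring
  have hU : HasDerivAt (fun t => bj 2 (bz 2 * t)) (uder 2 s) s := by
    have := hasDerivAt_U 2 le_rfl s
    simpa using this
  have h3 : HasDerivAt (fun t => F0 2 2 1 * bj 2 (bz 2 * t) * (1 - nh t))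
      (F0 2 2 1 * uder 2 s * (1 - nh s) + F0 2 2 1 * bj 2 (bz 2 * s) * (-nhs s)) s := by
    have h4 := (hU.const_mul (F0 2 2 1)).mul ((NF_nh_deriv s h1.le).const_sub 1)
    exact h4
  have h5 := (h3.congr_of_eventuallyEq e1).deriv
  rw [h5]
  ring

theorem enc_k (s : ℝ) (h0 : 0 ≤ s) (h1 : s ≤ 1) : |nhs s - (1 - s) * kb s| ≤ (1 - s) * (2 / 1000) := by
  rcases h1.lt_or_eq with h2 | h2
  · have hu := abs_le.1 (enc_uh2 s h0 h1)
    have hU := abs_le.1 (enc_uder s h0 h1)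
    have hup := NF_u_pos s h1
    have hr := NF_rho_pos
    have hr1 := rho_lo
    have hr2 : F0 2 2 1 ≤ 8477 / 20000 := le_trans rho_hi (by norm_num)
    have hul := pul s h0 h1
    have hUd := pUd s h0 h1
    have hGt := pGt s h0 h1
    have hGb := pGb s h0 h1
    have hkl := pkl s h0 h1
    have hb : 0 < F0 2 2 1 * uh 2 s ^ 2 := by positivity
    have ht : 0 < 1 - s := by linarith
    have hg := abs_le.1 (enc_g s h0 h1)
    have hg' := abs_le.1 (enc_dg s h0 h1)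
    have key := NF_key s h2
    rw [uh_mul 2 le_rfl] at key
    obtain ⟨G, hG⟩ : ∃ G, gg s = (1 - s) ^ 3 * G := ⟨gg s / (1 - s) ^ 3, by field_simp⟩
    obtain ⟨G', hG'⟩ : ∃ G', deriv gg s = (1 - s) ^ 2 * G' := ⟨deriv gg s / (1 - s) ^ 2, by field_simp⟩
    have t3 : 0 < (1 - s) ^ 3 := by positivity
    have t2 : 0 < (1 - s) ^ 2 := by positivity
    have g1 : Gb s - 1 / 60000 ≤ G := by
      refine le_of_mul_le_mul_left ?_ t3
      rw [← hG]; linarith [hg.1]
    have g2 : G ≤ Gb s + 1 / 60000 := by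
      refine le_of_mul_le_mul_left ?_ t3
      rw [← hG]; linarith [hg.2]
    have g3 : Gt s - 1 / 20000 ≤ G' := by
      refine le_of_mul_le_mul_left ?_ t2
      rw [← hG']; linarith [hg'.1]
    have g4 : G' ≤ Gt s + 1 / 20000 := by
      refine le_of_mul_le_mul_left ?_ t2
      rw [← hG']; linarith [hg'.2]
    have e1 : nhs s * (F0 2 2 1 * uh 2 s ^ 2) = (1 - s) * (G * uder 2 s - G' * uh 2 s) := by
      have e2 := NF_gg s h1
      rw [hG] at e2
      rw [hG'] at key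
      have e3 : (1 - s) ^ 2 * G = (1 - nh s) * (F0 2 2 1 * uh 2 s) := by
        refine mul_left_cancel₀ ht.ne' ?_
        rw [← e2]; ring
      refine mul_left_cancel₀ ht.ne' ?_
      linear_combination (uh 2 s) * key - uder 2 s * e3
    have c1 : G * uder 2 s ≤ (Gb s - 1 / 60000) * (Ud s + 1 / 100000) := by
      nlinarith [mul_nonneg (sub_nonneg.2 g1) (by linarith [hU.2] : (0 : ℝ) ≤ -(uder 2 s)),
        mul_nonneg (by linarith : (0 : ℝ) ≤ Gb s - 1 / 60000)
          (by linarith [hU.2] : (0 : ℝ) ≤ Ud s + 1 / 100000 - uder 2 s)]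
    have c2 : (Gb s + 1 / 60000) * (Ud s - 1 / 100000) ≤ G * uder 2 s := by
      nlinarith [mul_nonneg (sub_nonneg.2 g2) (by linarith [hU.2] : (0 : ℝ) ≤ -(uder 2 s)),
        mul_nonneg (by linarith : (0 : ℝ) ≤ Gb s + 1 / 60000)
          (by linarith [hU.1] : (0 : ℝ) ≤ uder 2 s - (Ud s - 1 / 100000))]
    have c3 : -(G' * uh 2 s) ≤ -((ub s + 1 / 100000) * (Gt s - 1 / 20000)) := by
      nlinarith [mul_nonneg (sub_nonneg.2 g3) hup.le,
        mul_nonneg (by linarith : (0 : ℝ) ≤ -(Gt s - 1 / 20000))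
          (by linarith [hu.2] : (0 : ℝ) ≤ ub s + 1 / 100000 - uh 2 s)]
    have c4 : -((ub s - 1 / 100000) * (Gt s + 1 / 20000)) ≤ -(G' * uh 2 s) := by
      nlinarith [mul_nonneg (sub_nonneg.2 g4) hup.le,
        mul_nonneg (by linarith : (0 : ℝ) ≤ -(Gt s + 1 / 20000))
          (by linarith [hu.1] : (0 : ℝ) ≤ uh 2 s - (ub s - 1 / 100000))]
    have a1 : G * uder 2 s - G' * uh 2 s ≤ (kb s + 1 / 500) * (F0 2 2 1 * uh 2 s ^ 2) := by
      refine NF_up (ul := (ub s - 1 / 100000) ^ 2) ?_ (by positivity) hr1 (by linarith)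
        (c := (Gb s - 1 / 60000) * (Ud s + 1 / 100000) - (ub s + 1 / 100000) * (Gt s - 1 / 20000))
        (by linarith) (pE2u s h0 h1) rfl
      exact pow_le_pow_left₀ (by linarith) (by linarith) 2
    have a2 : (kb s - 1 / 500) * (F0 2 2 1 * uh 2 s ^ 2) ≤ G * uder 2 s - G' * uh 2 s := by
      refine NF_lo (uu := (ub s + 1 / 100000) ^ 2) ?_ (by positivity) hr2 hr.le (by linarith)
        (c := (Gb s + 1 / 60000) * (Ud s - 1 / 100000) - (ub s - 1 / 100000) * (Gt s + 1 / 20000))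
        (by linarith) (pE2l s h0 h1) rfl
      exact pow_le_pow_left₀ hup.le (by linarith) 2
    have b1 : nhs s ≤ (1 - s) * (kb s + 1 / 500) := by
      refine le_of_mul_le_mul_right ?_ hb
      rw [e1, mul_assoc]
      exact mul_le_mul_of_nonneg_left a1 ht.le
    have b2 : (1 - s) * (kb s - 1 / 500) ≤ nhs s := by
      refine le_of_mul_le_mul_right ?_ hb
      rw [e1, mul_assoc]
      exact mul_le_mul_of_nonneg_left a2 ht.le
    rw [abs_le]
    constructor <;> nlinarith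
  · subst h2
    have h3 : deriv nF 1 = -1 := by
      have h4 : deriv nF 1 = deriv (F0 2 2) 1 / F0 2 2 1 := by
        have h5 : nF = fun t => F0 2 2 t / F0 2 2 1 := rfl
        rw [h5, deriv_div_const]
      rw [h4, F0_deriv_one 2 2 le_rfl]
      have := NF_rho_pos.ne'
      field_simp
      norm_num
    unfold nhs
    rw [NF_nF_one, h3]
    norm_num

end Pool.Agent.H94.SP
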