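import Pool.Agent.H94.SP.NB
import Pool.Agent.H94.SP.PolD
import Pool.Agent.H94.SP.Defs

/-!
# NC: enclosure of `uh 2` and of `U'`, `U s = bj 2 (bz 2 * s)`, on `[0,1]`

1. `uder 2 s = -(bz 2 * bj 4 (bz 2 * s)) / 4` (`uder`, casts `((2 : ℕ) : ℝ) = 2`).
   With `l0 = 5783186/1000000`: `|bz 2 - l0| ≤ 1e-6` (NB) and `|z bj 4 (z s) - l0 bj 4 (l0 s)| ≤ |z - l0| (1 + z/8)` for
   `0 ≤ s ≤ 1` (`|bj 4| ≤ 1`; `|bj 4 x - bj 4 y| ≤ |x - y| / 8` for `x, y ≥ 0`, since `(bj 4)' = - bj 6 / 8`), so the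
   replacement of `bz 2` by `l0` costs at most `5e-7`.
   `bj_taylor 4 _ 7` at `l0 s`: error `≤ (l0/4) BjA_c 4 7 l0^7 ≤ 1e-7`. The difference of
   `-(l0/4) ∑ k<7, BjA_c 4 k (-l0 s)^k` and `Ud s` is a polynomial whose coefficients have absolute sum `≤ 6e-7`
   (use `0 ≤ s^k ≤ 1`). Total `≤ 2e-6`.
2. `D s = bj 2 (bz 2 * s) - (1 - s) * ub s`: `D 1 = 0` (`bj_bz`), `D' s = uder 2 s - Ud s` (`Ud` is the derivative of
   `(1 - s) * ub s`: check `HasDerivAt`), so `|D s| ≤ 1e-5 (1 - s)` on `[0,1]`; `D s = (1 - s) (uh 2 s - ub s)` (`uh_mul`);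
   divide for `s < 1`; `s = 1` by continuity of `uh 2` (`contDiff_uh`) and `ub`.
-/

set_option autoImplicit false

open Pool.Agent.H94.ER

namespace Pool.Agent.H94.SP

theorem NC_lip (x y : ℝ) (hx : 0 ≤ x) (hy : 0 ≤ y) : |bj 4 y - bj 4 x| ≤ 1 / 8 * |y - x| := by
  have h := Convex.norm_image_sub_le_of_norm_hasDerivWithin_le (f := bj 4)
    (f' := fun s => -(bj (4 + 2) s) / (2 * 4)) (s := Set.Ici (0 : ℝ)) (C := 1 / 8) (x := x) (y := y)
    (fun s _ => (hasDerivAt_bj 4 (by norm_num) s).hasDerivWithinAt) (fun s hs => by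
      have h1 := bj_abs_le_one (4 + 2) (by norm_num) s hs
      rw [Real.norm_eq_abs, abs_div, abs_neg, abs_of_pos (by norm_num : (0 : ℝ) < 2 * 4)]
      rw [div_le_div_iff₀ (by norm_num) (by norm_num)]
      linarith) (convex_Ici 0) hx hy
  simpa [Real.norm_eq_abs] using h

theorem NC_pol (s : ℝ) (h0 : 0 ≤ s) (h1 : s ≤ 1) :
    |-(5783186 / 1000000 * ∑ k ∈ Finset.range 7, BjA_c 4 k * (-(5783186 / 1000000 * s)) ^ k) / 4 -
      Ud s| ≤ 6 / 10000000 := by
  have p : ∀ k : ℕ, 0 ≤ s ^ k := fun k => pow_nonneg h0 k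
  have q : ∀ k : ℕ, s ^ k ≤ 1 := fun k => pow_le_one₀ h0 h1
  simp only [Finset.sum_range_succ, Finset.sum_range_zero, BjA_c, Nat.factorial, Finset.prod_range_succ,
    Finset.prod_range_zero, Ud]
  have p2 := p 2
  have p3 := p 3
  have p4 := p 4
  have p5 := p 5
  have p6 := p 6
  have q2 := q 2
  have q3 := q 3
  have q4 := q 4
  have q5 := q 5
  have q6 := q 6
  rw [abs_le]
  push_cast
  constructor <;> norm_num [mul_pow] <;> nlinarith

theorem enc_uder (s : ℝ) (h0 : 0 ≤ s) (h1 : s ≤ 1) : |uder 2 s - Ud s| ≤ 1 / 100000 := by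
  have hl := bz2_lo
  have hh := bz2_hi
  set z := bz 2 with hz
  have hzs : 0 ≤ z * s := mul_nonneg (by linarith) h0
  have hls : (0 : ℝ) ≤ 5783186 / 1000000 * s := by positivity
  have e0 : uder 2 s = -(z * bj 4 (z * s)) / 4 := by
    unfold uder
    rw [hz]
    norm_num
  have e1 := NC_lip (z * s) (5783186 / 1000000 * s) hzs hls
  have e2 := bj_abs_le_one 4 (by norm_num) (z * s) hzs
  have e3 := bj_taylor 4 (by norm_num) 7 (5783186 / 1000000 * s) hls
  have e4 : BjA_c 4 7 * (5783186 / 1000000 * s) ^ 7 ≤ 66 / 1000000000 := by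
    have h7 : s ^ 7 ≤ 1 := pow_le_one₀ h0 h1
    have h8 : 0 ≤ s ^ 7 := pow_nonneg h0 7
    rw [mul_pow]
    simp only [BjA_c, Nat.factorial, Finset.prod_range_succ, Finset.prod_range_zero]
    push_cast
    norm_num
    linarith
  have e5 := NC_pol s h0 h1
  have e6 : |5783186 / 1000000 * s - z * s| ≤ 1 / 1000000 := by
    rw [← sub_mul, abs_mul, abs_of_nonneg h0]
    have : |5783186 / 1000000 - z| ≤ 1 / 1000000 := by
      rw [abs_le]; constructor <;> linarith
    calc |5783186 / 1000000 - z| * s ≤ 1 / 1000000 * 1 := by gcongr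
      _ = _ := by norm_num
  rw [e0]
  set P := ∑ k ∈ Finset.range 7, BjA_c 4 k * (-(5783186 / 1000000 * s)) ^ k with hP
  have e7 : -(z * bj 4 (z * s)) / 4 - Ud s =
      (5783186 / 1000000 - z) * bj 4 (z * s) / 4 +
      5783186 / 1000000 / 4 * (bj 4 (5783186 / 1000000 * s) - bj 4 (z * s)) -
      5783186 / 1000000 / 4 * (bj 4 (5783186 / 1000000 * s) - P) +
      (-(5783186 / 1000000 * P) / 4 - Ud s) := by ring
  have f1 : |(5783186 / 1000000 - z) * bj 4 (z * s)| ≤ 1 / 1000000 := by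
    rw [abs_mul]
    have : |5783186 / 1000000 - z| ≤ 1 / 1000000 := by
      rw [abs_le]; constructor <;> linarith
    calc |5783186 / 1000000 - z| * |bj 4 (z * s)| ≤ 1 / 1000000 * 1 := by gcongr
      _ = _ := by norm_num
  have f2 : |bj 4 (5783186 / 1000000 * s) - bj 4 (z * s)| ≤ 1 / 8000000 := by
    refine e1.trans ?_
    linarith
  have f3 : |bj 4 (5783186 / 1000000 * s) - P| ≤ 66 / 1000000000 := e3.trans e4
  rw [abs_le] at *
  constructor <;> rw [e7] <;> linarith [f1.1, f1.2, f2.1, f2.2, f3.1, f3.2, e5.1, e5.2]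

theorem enc_uh2 (s : ℝ) (h0 : 0 ≤ s) (h1 : s ≤ 1) : |uh 2 s - ub s| ≤ 1 / 100000 := by
  have hD : ∀ t : ℝ, HasDerivAt (fun x => bj 2 (bz 2 * x) - (1 - x) * ub x) (uder 2 t - Ud t) t := by
    intro t
    have h2 := PrC_hasDerivAt 2 le_rfl t
    have h3 : HasDerivAt (fun x => (1 - x) * ub x) (Ud t) t := by
      have h4 : (fun x : ℝ => (1 - x) * ub x) = fun x => (1 - x) * (1 - 891593 / 2000000 * x +
        383927 / 5000000 * x ^ 2 - 71643 / 10000000 * x ^ 3 + 527 / 1250000 * x ^ 4 -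
        171 / 10000000 * x ^ 5 + 1 / 2000000 * x ^ 6) := rfl
      rw [h4]
      have hp : ∀ k : ℕ, HasDerivAt (fun x : ℝ => x ^ (k + 1)) (((k + 1 : ℕ) : ℝ) * t ^ k) t :=
        fun k => by simpa using hasDerivAt_pow (k + 1) t
      have h5 : HasDerivAt (fun x : ℝ => (1 - 891593 / 2000000 * x +
        383927 / 5000000 * x ^ 2 - 71643 / 10000000 * x ^ 3 + 527 / 1250000 * x ^ 4 -
        171 / 10000000 * x ^ 5 + 1 / 2000000 * x ^ 6)) _ t :=
        ((((((hasDerivAt_const t (1 : ℝ)).sub ((hasDerivAt_id t).const_mul (891593 / 2000000))).add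
          ((hp 1).const_mul (383927 / 5000000))).sub ((hp 2).const_mul (71643 / 10000000))).add
          ((hp 3).const_mul (527 / 1250000))).sub ((hp 4).const_mul (171 / 10000000))).add
          ((hp 5).const_mul (1 / 2000000))
      refine (((hasDerivAt_const t (1 : ℝ)).sub (hasDerivAt_id t)).mul h5).congr_deriv ?_
      unfold Ud
      simp only [Pi.sub_apply, id]
      push_cast
      ring
    refine (h2.sub h3).congr_deriv ?_
    unfold PrC_der uder
    norm_num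
  have hb : ∀ t : ℝ, 0 ≤ t → t ≤ 1 → (1 - t) * |uh 2 t - ub t| ≤ 1 / 100000 * (1 - t) := by
    intro t ht0 ht1
    have h := Convex.norm_image_sub_le_of_norm_hasDerivWithin_le
      (f := fun x => bj 2 (bz 2 * x) - (1 - x) * ub x)
      (f' := fun x => uder 2 x - Ud x) (s := Set.Icc (0 : ℝ) 1) (C := 1 / 100000) (x := 1) (y := t)
      (fun x _ => (hD x).hasDerivWithinAt) (fun x hx => by
        rw [Real.norm_eq_abs]; exact enc_uder x hx.1 hx.2) (convex_Icc 0 1)
      ⟨zero_le_one, le_rfl⟩ ⟨ht0, ht1⟩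
    simp only [mul_one, sub_self, zero_mul, sub_zero, bj_bz 2 le_rfl, uh_mul 2 le_rfl] at h
    have ht : |1 - t| = 1 - t := abs_of_nonneg (by linarith)
    rw [← mul_sub, Real.norm_eq_abs, Real.norm_eq_abs, abs_mul, abs_sub_comm t 1, ht] at h
    exact h
  have hcl : IsClosed {t : ℝ | |uh 2 t - ub t| ≤ 1 / 100000} := by
    refine isClosed_le ?_ continuous_const
    have h2 := (contDiff_uh 2 le_rfl 0).continuous
    have h3 : Continuous ub := by unfold ub; fun_prop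
    exact (h2.sub h3).abs
  have hsub : Set.Ico (0 : ℝ) 1 ⊆ {t : ℝ | |uh 2 t - ub t| ≤ 1 / 100000} := by
    intro t ht
    have h2 := hb t ht.1 ht.2.le
    have h3 : 0 < 1 - t := by linarith [ht.2]
    rw [mul_comm] at h2
    exact le_of_mul_le_mul_right h2 h3
  have h5 : closure (Set.Ico (0 : ℝ) 1) ⊆ {t : ℝ | |uh 2 t - ub t| ≤ 1 / 100000} :=
    closure_minimal hsub hcl
  rw [closure_Ico zero_ne_one] at h5
  exact h5 ⟨h0, h1⟩

end Pool.Agent.H94.SP
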