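import Mathlib

/-!
# Positivity of integer polynomials on `[0,1]` by Bernstein coefficients

`bern_pos l h s`: if all Bernstein coefficients of the polynomial with coefficient list `l` are `≥ 0` (checked by
`decide +kernel`), the polynomial is `≥ 0` on `[0,1]`. Append zeros to `l` to raise the degree.
-/

set_option autoImplicit false

namespace Pool.Agent.H94.SP

/-- value at `s` of the polynomial with coefficient list `l` -/
noncomputable def pev : List ℤ → ℝ → ℝ
  | [], _ => 0
  | a :: l, s => a + s * pev l s

/-- `∑ b_i s^i t^(n-i)`, `n + 1` the length of the list -/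
noncomputable def hev : List ℤ → ℝ → ℝ → ℝ
  | [], _, _ => 0
  | b :: l, s, t => b * t ^ l.length + s * hev l s t

/-- coefficients of `(s + t)^n` -/
def binL : ℕ → List ℤ
  | 0 => [1]
  | n + 1 => List.zipWith (· + ·) (binL n ++ [0]) (0 :: binL n)

/-- Bernstein coefficients -/
def bernL : List ℤ → List ℤ
  | [] => []
  | a :: l => List.zipWith (· + ·) ((binL l.length).map (a * ·)) (0 :: bernL l)

theorem length_binL (n : ℕ) : (binL n).length = n + 1 := by
  induction n with
  | zero => rfl
  | succ n ih => simp [binL, ih]

theorem length_bernL (l : List ℤ) : (bernL l).length = l.length := by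
  induction l with
  | nil => rfl
  | cons a l ih => simp [bernL, ih, length_binL]

theorem hev_add (b : List ℤ) : ∀ c : List ℤ, b.length = c.length → ∀ s t : ℝ,
    hev (List.zipWith (· + ·) b c) s t = hev b s t + hev c s t := by
  induction b with
  | nil =>
    intro c hc s t
    have : c = [] := List.length_eq_zero_iff.1 (by simpa using hc.symm)
    subst this
    simp [hev]
  | cons b l ih =>
    intro c hc s t
    rcases c with _ | ⟨c, l'⟩
    · simp at hc
    · have hc' : l.length = l'.length := by simpa using hc
      simp only [List.zipWith_cons_cons, hev, ih l' hc' s t, List.length_zipWith, hc', min_self]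
      push_cast
      ring

theorem hev_map (a : ℤ) (b : List ℤ) (s t : ℝ) : hev (b.map (a * ·)) s t = a * hev b s t := by
  induction b with
  | nil => simp [hev]
  | cons b l ih =>
    simp only [List.map_cons, hev, ih, List.length_map]
    push_cast
    ring

theorem hev_append_zero (b : List ℤ) (s t : ℝ) : hev (b ++ [0]) s t = t * hev b s t := by
  induction b with
  | nil => simp [hev]
  | cons b l ih =>
    simp only [List.cons_append, hev, ih, List.length_append, List.length_singleton]
    ring

theorem hev_binL (n : ℕ) (s t : ℝ) : hev (binL n) s t = (s + t) ^ n := by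
  induction n with
  | zero => simp [binL, hev]
  | succ n ih =>
    rw [binL, hev_add _ _ (by simp), hev_append_zero, ih]
    simp only [hev, ih]
    push_cast
    ring

theorem hev_bernL (l : List ℤ) (s t : ℝ) (h : s + t = 1) : hev (bernL l) s t = pev l s := by
  induction l with
  | nil => simp [bernL, hev, pev]
  | cons a l ih =>
    rw [bernL, hev_add _ _ (by simp [length_binL, length_bernL]), hev_map, hev_binL, h]
    simp only [hev, ih, pev]
    push_cast
    ring

theorem hev_nonneg (b : List ℤ) (hb : b.all (fun x => decide (0 ≤ x)) = true) (s t : ℝ) (hs : 0 ≤ s)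
    (ht : 0 ≤ t) : 0 ≤ hev b s t := by
  induction b with
  | nil => simp [hev]
  | cons b l ih =>
    simp only [List.all_cons, Bool.and_eq_true, decide_eq_true_eq] at hb
    have h1 : (0 : ℝ) ≤ (b : ℝ) := by exact_mod_cast hb.1
    have h2 := ih hb.2
    simp only [hev]
    positivity

theorem bern_pos (l : List ℤ) (h : (bernL l).all (fun x => decide (0 ≤ x)) = true) (s : ℝ)
    (h0 : 0 ≤ s) (h1 : s ≤ 1) : 0 ≤ pev l s := by
  rw [← hev_bernL l s (1 - s) (by ring)]
  exact hev_nonneg _ h s _ h0 (by linarith)

end Pool.Agent.H94.SP
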