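import Pool.Agent.H94.SP.EvA
import Pool.Agent.H94.ER.TrE

/-!
# Blk: the quadratic form on the trial space

`κ = gam + δ`, `ψ = psi F1 nFp a b` (`none ↦ 1`, `some none ↦ g = tg nFp a b`, `some (some j) ↦ tf F1 j`), `Q = TrE_Q u κ`.
`TrE_expand`: left side minus `κ ∫ u^2 (∑ ..)^2` is `∑_i ∑_j cc_i cc_j Q(ψ_i, ψ_j)`. `Q(1, tf) = 0` (`TrE_Q_one_tf`), `Q(tf, g) = 0` (`TrE_Q_tf_tg`),
`Q(1,1) = -κ` (`TrE_Q_one_one`), `Q(1, g) = -κ m`, `m = ∫ u^2 g`, `|m| ≤ 1` (`tg_abs`, mass 1), `Q(g,g) = ∫ u^2 |∇g|^2 - κ ∫ u^2 g^2 ≤ -b0 - κ m^2`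
(`hev`). Even part `= -κ (c_0 + c_1 m)^2 + c_1^2 (Q(g,g) + κ m^2) ≤ -κ (c_0 + c_1 m)^2 - b0 c_1^2 ≤ -η (c_0^2 + c_1^2)` for `η ≤ gam/2`, `η ≤ b0/3`
(`c_0^2 ≤ 2 (c_0 + c_1 m)^2 + 2 c_1^2`). Odd part: `∑_j ∑_k c_j c_k Q(tf_j, tf_k) = ∫ u^2 |∇ ∑ c_j tf_j|^2 - κ ∫ u^2 (∑ c_j tf_j)^2 ≤ -1/20 ∑ c_j^2`
(`TrE_expand` for `Fin 2`, `hodd`, `δ ≥ 0`). `contDiff_F1` is passed as the hypothesis `hF1`.
-/

set_option autoImplicit false

open MeasureTheory Pool.Agent.H94.ER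

namespace Pool.Agent.H94.SP

theorem Blk_Q_split (u : E 2 → ℝ) (hu : ContDiff ℝ 1 u) (hc : HasCompactSupport u) (κ : ℝ)
    (g : E 2 → ℝ) (hg : ContDiff ℝ 1 g) :
    TrE_Q u κ g g = (∫ x, u x ^ 2 * dot g g x) - κ * ∫ x, u x ^ 2 * g x ^ 2 := by
  unfold TrE_Q
  rw [← integral_const_mul, ← integral_sub (TrE_integrable u hu hc _ (continuous_dot _ _ hg hg))
    ((TrE_integrable u hu hc (fun x => g x ^ 2) (hg.continuous.pow 2)).const_mul κ)]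
  congr 1
  ext x
  ring

theorem Blk_Q_one (u : E 2 → ℝ) (κ : ℝ) (g : E 2 → ℝ) :
    TrE_Q u κ (fun _ => (1 : ℝ)) g = -κ * ∫ x, u x ^ 2 * g x := by
  unfold TrE_Q
  rw [← integral_const_mul]
  congr 1
  ext x
  rw [TrE_dot_one]
  ring

theorem Blk_m (u : E 2 → ℝ) (hu : ContDiff ℝ 1 u) (hc : HasCompactSupport u) (hm : mass u = 1)
    (g : E 2 → ℝ) (hg : Continuous g) (h1 : ∀ x, |g x| ≤ 1) :
    (∫ x, u x ^ 2 * g x) ^ 2 ≤ 1 := by
  have hI1 : Integrable (fun x => u x ^ 2 * g x) := TrE_integrable u hu hc _ hg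
  have hI2 : Integrable (fun x => u x ^ 2) := by
    have := TrE_integrable u hu hc (fun _ => (1 : ℝ)) continuous_const
    simpa using this
  unfold mass at hm
  have ha : |∫ x, u x ^ 2 * g x| ≤ 1 := by
    calc |∫ x, u x ^ 2 * g x| ≤ ∫ x, |u x ^ 2 * g x| := abs_integral_le_integral_abs
      _ ≤ ∫ x, u x ^ 2 := by
          refine integral_mono hI1.abs hI2 (fun x => ?_)
          show |u x ^ 2 * g x| ≤ u x ^ 2
          rw [abs_mul, abs_of_nonneg (sq_nonneg _)]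
          have := h1 x
          nlinarith [sq_nonneg (u x)]
      _ = 1 := hm
  have h2 := abs_le.1 ha
  nlinarith [h2.1, h2.2]

theorem Blk_alg (κ m q b0 S O c0 c1 gm : ℝ) (hm : m ^ 2 ≤ 1) (hgκ : gm ≤ κ) (hg : 0 < gm) (hb0 : 0 < b0)
    (hq : q + κ * m ^ 2 ≤ -b0) (hO : O ≤ -(1 / 20) * S) (hS : 0 ≤ S) :
    -κ * c0 ^ 2 + 2 * (-κ * m) * (c0 * c1) + q * c1 ^ 2 + O
      ≤ - (min (1 / 20) (min (gm / 2) (b0 / 3)) * (c0 ^ 2 + c1 ^ 2 + S)) := by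
  set η := min (1 / 20 : ℝ) (min (gm / 2) (b0 / 3)) with hη
  have e1 : η ≤ 1 / 20 := min_le_left _ _
  have e2 : η ≤ gm / 2 := (min_le_right _ _).trans (min_le_left _ _)
  have e3 : η ≤ b0 / 3 := (min_le_right _ _).trans (min_le_right _ _)
  have e0 : 0 ≤ η := by
    rw [hη]
    refine le_min (by norm_num) (le_min (by linarith) (by linarith))
  have h1 : η * S ≤ 1 / 20 * S := mul_le_mul_of_nonneg_right e1 hS
  have h2 : c0 ^ 2 ≤ 2 * (c0 + c1 * m) ^ 2 + 2 * c1 ^ 2 := by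
    have h3 : c0 ^ 2 ≤ 2 * (c0 + c1 * m) ^ 2 + 2 * (c1 ^ 2 * m ^ 2) := by
      nlinarith [sq_nonneg (c0 + 2 * (c1 * m))]
    have h4 : c1 ^ 2 * m ^ 2 ≤ c1 ^ 2 * 1 := mul_le_mul_of_nonneg_left hm (sq_nonneg _)
    linarith
  have h5 : η * c0 ^ 2 ≤ η * (2 * (c0 + c1 * m) ^ 2 + 2 * c1 ^ 2) := mul_le_mul_of_nonneg_left h2 e0
  have h6 : η * (2 * (c0 + c1 * m) ^ 2) ≤ κ * (c0 + c1 * m) ^ 2 := by
    have : (2 * η) * (c0 + c1 * m) ^ 2 ≤ κ * (c0 + c1 * m) ^ 2 :=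
      mul_le_mul_of_nonneg_right (by linarith) (sq_nonneg _)
    linarith
  have h7 : η * (3 * c1 ^ 2) ≤ b0 * c1 ^ 2 := by
    have : (3 * η) * c1 ^ 2 ≤ b0 * c1 ^ 2 := mul_le_mul_of_nonneg_right (by linarith) (sq_nonneg _)
    linarith
  have h8 : (q + κ * m ^ 2) * c1 ^ 2 ≤ -b0 * c1 ^ 2 := mul_le_mul_of_nonneg_right hq (sq_nonneg _)
  nlinarith

theorem block2 (hF1 : ContDiff ℝ 1 F1) (u : E 2 → ℝ) (hu : ContDiff ℝ 1 u) (hc : HasCompactSupport u)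
    (hm : mass u = 1) (heven : ∀ x, u (-x) = u x) (δ b0 : ℝ) (hδ : 0 < δ) (hb0 : 0 < b0) (hg : 0 < gam)
    (a b : Fin 2)
    (hev : b0 ≤ (gam + δ) * (∫ x, u x ^ 2 * tg nFp a b x ^ 2)
      - (∫ x, u x ^ 2 * dot (tg nFp a b) (tg nFp a b) x)
      - (gam + δ) * (∫ x, u x ^ 2 * tg nFp a b x) ^ 2)
    (hodd : ∀ c : Fin 2 → ℝ,
      1 / 20 * ∑ j, c j ^ 2 ≤ gam * (∫ x, u x ^ 2 * (∑ j, c j * tf F1 j x) ^ 2)
        - ∫ x, u x ^ 2 * dot (fun y => ∑ j, c j * tf F1 j y) (fun y => ∑ j, c j * tf F1 j y) x)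
    (cc : Option (Option (Fin 2)) → ℝ) :
    ∫ x, u x ^ 2 * dot (fun y => ∑ i, cc i * psi F1 nFp a b i y)
        (fun y => ∑ i, cc i * psi F1 nFp a b i y) x
      ≤ (gam + δ) * (∫ x, u x ^ 2 * (∑ i, cc i * psi F1 nFp a b i x) ^ 2)
        - min (1 / 20) (min (gam / 2) (b0 / 3)) * ∑ i, cc i ^ 2 := by
  set κ : ℝ := gam + δ with hκ
  have hF2 : ContDiff ℝ 1 nFp := contDiff_nFp
  have hgC : ContDiff ℝ 1 (tg nFp a b : E 2 → ℝ) := contDiff_tg nFp hF2 a b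
  have hψ := TrE_contDiff_psi F1 nFp hF1 hF2 a b
  have hexp := TrE_expand u hu hc (psi F1 nFp a b) hψ κ cc
  have hexp2 := TrE_expand u hu hc (fun j : Fin 2 => (tf F1 j : E 2 → ℝ)) (fun j => contDiff_tf F1 hF1 j) κ
    (fun j => cc (some (some j)))
  have hodd' := hodd (fun j => cc (some (some j)))
  set m : ℝ := ∫ x, u x ^ 2 * tg nFp a b x with hmdef
  have hm1 : m ^ 2 ≤ 1 := Blk_m u hu hc hm _ hgC.continuous (tg_abs a b)
  have hQ : ∀ i j : Option (Option (Fin 2)),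
      (∫ x, u x ^ 2 * (dot (psi F1 nFp a b i) (psi F1 nFp a b j) x
        - κ * (psi F1 nFp a b i x * psi F1 nFp a b j x)))
      = TrE_Q u κ (psi F1 nFp a b i) (psi F1 nFp a b j) := fun i j => rfl
  have hQ2 : ∀ i j : Fin 2,
      (∫ x, u x ^ 2 * (dot (tf F1 i) (tf F1 j) x - κ * (tf F1 i x * tf F1 j x)))
      = TrE_Q u κ (tf F1 i) (tf F1 j) := fun i j => rfl
  simp only [hQ] at hexp
  simp only [hQ2] at hexp2
  have q11 : TrE_Q u κ (psi F1 nFp a b none) (psi F1 nFp a b none) = -κ := TrE_Q_one_one u κ hm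
  have q1g : TrE_Q u κ (psi F1 nFp a b none) (psi F1 nFp a b (some none)) = -κ * m :=
    Blk_Q_one u κ (tg nFp a b)
  have qg1 : TrE_Q u κ (psi F1 nFp a b (some none)) (psi F1 nFp a b none) = -κ * m := by
    rw [TrE_Q_comm, q1g]
  have q1t : ∀ j, TrE_Q u κ (psi F1 nFp a b none) (psi F1 nFp a b (some (some j))) = 0 :=
    fun j => TrE_Q_one_tf u κ heven F1 j
  have qt1 : ∀ j, TrE_Q u κ (psi F1 nFp a b (some (some j))) (psi F1 nFp a b none) = 0 := by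
    intro j
    rw [TrE_Q_comm, q1t]
  have qtg : ∀ j, TrE_Q u κ (psi F1 nFp a b (some (some j))) (psi F1 nFp a b (some none)) = 0 :=
    fun j => TrE_Q_tf_tg u κ heven F1 nFp hF1 hF2 j a b
  have qgt : ∀ j, TrE_Q u κ (psi F1 nFp a b (some none)) (psi F1 nFp a b (some (some j))) = 0 := by
    intro j
    rw [TrE_Q_comm, qtg]
  have qgg : TrE_Q u κ (psi F1 nFp a b (some none)) (psi F1 nFp a b (some none))
      = (∫ x, u x ^ 2 * dot (tg nFp a b) (tg nFp a b) x) - κ * ∫ x, u x ^ 2 * tg nFp a b x ^ 2 :=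
    Blk_Q_split u hu hc κ (tg nFp a b) hgC
  have hO : ∑ i : Fin 2, ∑ j : Fin 2, cc (some (some i)) * cc (some (some j)) * TrE_Q u κ (tf F1 i) (tf F1 j)
      ≤ -(1 / 20) * ∑ j : Fin 2, cc (some (some j)) ^ 2 := by
    have h2 := hexp2
    rw [← h2]
    have h3 : 0 ≤ ∫ x, u x ^ 2 * (∑ j : Fin 2, cc (some (some j)) * tf F1 j x) ^ 2 :=
      integral_nonneg fun x => by positivity
    have h4 : 0 ≤ δ * ∫ x, u x ^ 2 * (∑ j : Fin 2, cc (some (some j)) * tf F1 j x) ^ 2 := by positivity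
    have h5 := hodd'
    rw [hκ]
    linarith
  have hS : 0 ≤ ∑ j : Fin 2, cc (some (some j)) ^ 2 := Finset.sum_nonneg fun j _ => sq_nonneg _
  have hq : ((∫ x, u x ^ 2 * dot (tg nFp a b) (tg nFp a b) x) - κ * ∫ x, u x ^ 2 * tg nFp a b x ^ 2)
      + κ * m ^ 2 ≤ -b0 := by linarith
  have halg := Blk_alg κ m _ b0 _ _ (cc none) (cc (some none)) gam hm1 (by rw [hκ]; linarith) hg hb0 hq hO hS
  have hsum : ∑ i, ∑ j, cc i * cc j * TrE_Q u κ (psi F1 nFp a b i) (psi F1 nFp a b j)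
      = -κ * cc none ^ 2 + 2 * (-κ * m) * (cc none * cc (some none))
        + ((∫ x, u x ^ 2 * dot (tg nFp a b) (tg nFp a b) x) - κ * ∫ x, u x ^ 2 * tg nFp a b x ^ 2)
          * cc (some none) ^ 2
        + ∑ i : Fin 2, ∑ j : Fin 2, cc (some (some i)) * cc (some (some j)) * TrE_Q u κ (tf F1 i) (tf F1 j) := by
    simp only [Fintype.sum_option, q11, q1g, qg1, q1t, qt1, qtg, qgt, qgg]
    have hpt : ∀ i j : Fin 2, TrE_Q u κ (psi F1 nFp a b (some (some i))) (psi F1 nFp a b (some (some j)))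
      = TrE_Q u κ (tf F1 i) (tf F1 j) := fun i j => rfl
    simp only [hpt, mul_zero, Finset.sum_const_zero, add_zero, zero_add]
    ring
  have hss : ∑ i, cc i ^ 2 = cc none ^ 2 + cc (some none) ^ 2 + ∑ j : Fin 2, cc (some (some j)) ^ 2 := by
    rw [Fintype.sum_option, Fintype.sum_option]
    ring
  rw [hss]
  rw [hsum] at hexp
  linarith

end Pool.Agent.H94.SP
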