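import Pool.Agent.H94.ER.PrH

/-!
# Cert3: the certificate inequality with a vector field

Notation: `s = ‖x‖^2`, `H x = Hk N k s`, `p0 x = (2 U'/U) x` for `‖x‖ < 1`, `0` otherwise (`U'/U = uder N s / bj N (bz N * s)`),
`Q x = (bz (N+2k) - bz N) Pk - En - bz N H` (at `s`), `ξ` from `exists_xi`. This is the proof of `J_ineq` (`ER/PrH.lean`) with
`cert` applied to the weight `a H`, the field `X = a • Xf ξ + V` and `p = p0 + (a H)⁻¹ • V` (for `‖x‖ < 1`; `0` otherwise):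
* `X = ½ ∇(aH) + a H p` a.e. (for `‖x‖ < 1`, `H > 0` by `hH`, `a Xf ξ = ½ ∇(aH) + a H p0`).
* `Θ = div X + a H |p|^2`; for `0 < ‖x‖ < 1`, `div (Xf ξ) + H |p0|^2 = Q` (`xi_identity`, as in `J_ineq`), so
  `Θ = a Q + div V + 2 p0·V + |V|^2/(a H)`, `2 p0·V = 4 (U'/U) (x·V)`; `Θ = 0` for `‖x‖ > 1` (there `V = 0` in a neighbourhood).
* `X` is Lipschitz (`Xf_lipschitz`, `hV`) with compact support; `u^2 Θ` is integrable: `Θ` is a.e. equal to a measurable
  bounded function: `Q` is bounded on the ball, `|pd i V_i| ≤ K`, `|U'/U| (1-s) ≤ C` on `[0,1)` (`uh_mul`, `uh_pos`, continuity)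
  and `‖V‖ ≤ M (1-s)`, `|V|^2/(a H) ≤ M^2/(a c)`.
* `cert`: `-∫ u^2 Θ ≤ ∫ dot u (a H u)`. For a.e. `x`: `Θ ≤ q - a bz N H` if `‖x‖ < 1` (`hin`), and `0 ≤ q`, `H = 0` if `‖x‖ > 1`
  (`hout`, `PrH_Hk_out`). So `∫ u^2 Θ ≤ ∫ u^2 q - a bz N ∫ H u^2`, and `-∫ u^2 q ≤ a (∫ dot u (H u) - bz N ∫ H u^2) ≤ a τ`.
-/

set_option autoImplicit false

open MeasureTheory

namespace Pool.Agent.H94.SP

open Pool.Agent.H94.ER

variable {N : ℕ}

theorem Cert3_meas (hN : 2 ≤ N) :
    Measurable (fun s : ℝ => uder N s / bj N (bz N * s)) := by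
  have hN2 : (2 : ℝ) ≤ N := by exact_mod_cast hN
  have h1 : Continuous (bj (N : ℝ)) := (contDiff_bj (N : ℝ) (by linarith) 1).continuous
  have h2 : Continuous (bj ((N : ℝ) + 2)) := (contDiff_bj ((N : ℝ) + 2) (by linarith) 1).continuous
  have h3 : Continuous (uder N) := by unfold uder; fun_prop
  have h4 : Continuous (fun s : ℝ => bj N (bz N * s)) := by fun_prop
  exact h3.measurable.div h4.measurable

theorem Cert3_bound (hN : 2 ≤ N) :
    ∃ C : ℝ, 0 ≤ C ∧ ∀ s, 0 ≤ s → s < 1 → |uder N s / bj N (bz N * s)| * (1 - s) ≤ C := by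
  have hN2 : (2 : ℝ) ≤ N := by exact_mod_cast hN
  have h2 : Continuous (bj ((N : ℝ) + 2)) := (contDiff_bj ((N : ℝ) + 2) (by linarith) 1).continuous
  have h3 : Continuous (uder N) := by unfold uder; fun_prop
  have h4 : Continuous (uh (N : ℝ)) := (contDiff_uh (N : ℝ) hN2 1).continuous
  have h5 : ContinuousOn (fun s => uder N s / uh N s) (Set.Icc (0 : ℝ) 1) :=
    h3.continuousOn.div h4.continuousOn fun s hs => (uh_pos N hN2 s hs.2).ne'
  obtain ⟨C, hC⟩ := isCompact_Icc.exists_bound_of_continuousOn h5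
  refine ⟨C, (norm_nonneg _).trans (hC 0 ⟨le_rfl, zero_le_one⟩), fun s h0 h1 => ?_⟩
  have h6 := hC s ⟨h0, h1.le⟩
  rw [Real.norm_eq_abs] at h6
  have h7 : 0 < 1 - s := by linarith
  have h8 := uh_pos N hN2 s h1.le
  have h9 : |uder N s / bj N (bz N * s)| * (1 - s) = |uder N s / uh N s| := by
    rw [uh_mul N hN2 s, abs_div, abs_div, abs_mul, abs_of_pos h7]
    have h10 : |uh (N : ℝ) s| ≠ 0 := (abs_pos.2 h8.ne').ne'
    field_simp
  rw [h9]
  exact h6

theorem Cert3_pd_meas (f : E N → ℝ) (i : Fin N) : Measurable (pd i f) :=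
  measurable_fderiv_apply_const ℝ f _

theorem Cert3_pd_bound (f : E N → ℝ) (K : NNReal) (hf : LipschitzWith K f) (i : Fin N) (x : E N) :
    |pd i f x| ≤ K := by
  have h1 : ‖fderiv ℝ f x‖ ≤ K := norm_fderiv_le_of_lipschitz ℝ hf
  have h2 := (fderiv ℝ f x).le_opNorm (EuclideanSpace.single i (1 : ℝ) : E N)
  have h3 : ‖(EuclideanSpace.single i (1 : ℝ) : E N)‖ = 1 := by simp
  rw [h3, mul_one] at h2
  exact h2.trans h1

theorem Cert3_lip (V : E N → E N) (K : NNReal) (hV : LipschitzWith K V) :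
    ∃ K' : NNReal, ∀ i, LipschitzWith K' (fun y => V y i) := by
  classical
  have h : ∀ i : Fin N, LipschitzWith (‖(EuclideanSpace.proj i : E N →L[ℝ] ℝ)‖₊ * K)
      (fun y => V y i) := fun i =>
    (EuclideanSpace.proj i : E N →L[ℝ] ℝ).lipschitz.comp hV
  refine ⟨∑ i, ‖(EuclideanSpace.proj i : E N →L[ℝ] ℝ)‖₊ * K, fun i => (h i).weaken ?_⟩
  exact Finset.single_le_sum
    (f := fun i : Fin N => ‖(EuclideanSpace.proj i : E N →L[ℝ] ℝ)‖₊ * K)
    (fun j _ => zero_le) (Finset.mem_univ i)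

theorem Cert3_pd_out (V : E N → E N) (hV0 : ∀ x, 1 ≤ ‖x‖ → V x = 0) (x : E N) (h1 : 1 < ‖x‖)
    (i : Fin N) : pd i (fun y => V y i) x = 0 := by
  have h3 : (fun y : E N => V y i) =ᶠ[nhds x] fun _ => (0 : ℝ) := by
    have h4 : ∀ᶠ y : E N in nhds x, 1 < ‖y‖ :=
      continuous_norm.continuousAt.eventually (lt_mem_nhds h1)
    filter_upwards [h4] with y hy
    rw [hV0 y hy.le]
    rfl
  unfold pd
  rw [h3.fderiv_eq]
  simp

/-- squared norm of `p` -/
theorem Cert3_norm (t r : ℝ) (x v : E N) :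
    ‖t • x + r • v‖ ^ 2 = t ^ 2 * ‖x‖ ^ 2 + 2 * (t * r * inner ℝ x v) + r ^ 2 * ‖v‖ ^ 2 := by
  rw [norm_add_sq_real, norm_smul, norm_smul, real_inner_smul_left, real_inner_smul_right,
    mul_pow, mul_pow, Real.norm_eq_abs, Real.norm_eq_abs, sq_abs, sq_abs]
  ring

theorem Cert3_alg (a h w x i v : ℝ) (h0 : a * h ≠ 0) :
    (a * h) * ((2 * w) ^ 2 * x ^ 2 + 2 * ((2 * w) * (a * h)⁻¹ * i) + ((a * h)⁻¹) ^ 2 * v ^ 2)
      = a * (4 * x ^ 2 * h * w ^ 2) + 4 * w * i + v ^ 2 / (a * h) := by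
  have ha : a ≠ 0 := left_ne_zero_of_mul h0
  have hh : h ≠ 0 := right_ne_zero_of_mul h0
  field_simp
  ring

theorem cert3 (k : ℕ) (hN : 2 ≤ N) (hk : 1 ≤ k) (a τ : ℝ) (ha : 0 < a) (V : E N → E N) (K : NNReal)
    (hV : LipschitzWith K V) (M c : ℝ) (hc : 0 < c) (hVb : ∀ x, ‖x‖ < 1 → ‖V x‖ ≤ M * (1 - ‖x‖ ^ 2))
    (hV0 : ∀ x, 1 ≤ ‖x‖ → V x = 0) (hH : ∀ s, 0 ≤ s → s < 1 → c * (1 - s) ^ 2 ≤ Hk N k s)
    (q : E N → ℝ) (hq : Continuous q)
    (hin : ∀ x, x ≠ 0 → ‖x‖ < 1 →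
      a * ((bz (N + 2 * k) - bz N) * Pk k (Fp N k) (‖x‖ ^ 2) - En N k (Fp N k) (‖x‖ ^ 2))
        + (∑ i, pd i (fun y => V y i) x)
        + 4 * (uder N (‖x‖ ^ 2) / bj N (bz N * ‖x‖ ^ 2)) * inner ℝ x (V x)
        + ‖V x‖ ^ 2 / (a * Hk N k (‖x‖ ^ 2)) ≤ q x)
    (hout : ∀ x, 1 < ‖x‖ → 0 ≤ q x) (u : E N → ℝ) (hu : ContDiff ℝ 1 u) (huc : HasCompactSupport u)
    (hτ : (∫ x, dot u (fun y => Hk N k (‖y‖ ^ 2) * u y) x)
      - bz N * (∫ x, Hk N k (‖x‖ ^ 2) * u x ^ 2) ≤ τ) :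
    -(a * τ) ≤ ∫ x, u x ^ 2 * q x := by
  have hN2 : (2 : ℝ) ≤ N := by exact_mod_cast hN
  obtain ⟨ξ, hξ, hξ1, hξe⟩ := exists_xi N k hN hk
  set γ : ℝ := bz (N + 2 * k) - bz N with hγ
  obtain ⟨K₁, hK₁⟩ := Xf_lipschitz (N := N) ξ hξ hξ1
  set H : E N → ℝ := fun x => Hk N k (‖x‖ ^ 2) with hHd
  set D : E N → ℝ := fun x => ∑ i, pd i (fun y => V y i) x with hD
  set w : E N → ℝ := fun x => uder N (‖x‖ ^ 2) / bj N (bz N * ‖x‖ ^ 2) with hw
  set p : E N → E N := fun x =>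
    if ‖x‖ < 1 then (2 * w x) • x + (a * H x)⁻¹ • V x else 0 with hp
  set Q : E N → ℝ := fun x => γ * Pk k (Fp N k) (‖x‖ ^ 2) - En N k (Fp N k) (‖x‖ ^ 2)
      - bz N * Hk N k (‖x‖ ^ 2) with hQ
  set R : E N → ℝ := fun x => a * Q x + D x + 4 * w x * inner ℝ x (V x)
      + ‖V x‖ ^ 2 / (a * H x) with hR
  set Θ : E N → ℝ := fun x => if ‖x‖ < 1 then R x else 0 with hΘ
  have hQc : Continuous Q := PrH_cont k hN γ (bz N)
  have hHC : ContDiff ℝ 1 H := contDiff_Ht k hN hk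
  have hu2 : HasCompactSupport (fun x => u x ^ 2) :=
    huc.comp_left (g := fun t : ℝ => t ^ 2) (by norm_num)
  have hu2c : Continuous (fun x => u x ^ 2) := by
    have := hu.continuous
    fun_prop
  have hlt : ∀ x : E N, ‖x‖ < 1 → ‖x‖ ^ 2 < 1 := fun x hx => by nlinarith [norm_nonneg x]
  have hgt : ∀ x : E N, 1 < ‖x‖ → 1 < ‖x‖ ^ 2 := fun x hx => by nlinarith [norm_nonneg x]
  have hHpos : ∀ x : E N, ‖x‖ < 1 → 0 < H x := fun x hx => by
    have h1 := hH (‖x‖ ^ 2) (by positivity) (hlt x hx)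
    have h2 : 0 < 1 - ‖x‖ ^ 2 := by linarith [hlt x hx]
    have h3 : 0 < c * (1 - ‖x‖ ^ 2) ^ 2 := by positivity
    exact lt_of_lt_of_le h3 h1
  have hVc : Continuous V := hV.continuous
  obtain ⟨K', hK'⟩ := Cert3_lip V K hV
  -- the weight
  have haC : ContDiff ℝ 1 (fun x => a * H x) := contDiff_const.mul hHC
  have hpda : ∀ i x, pd i (fun y => a * H y) x = a * (2 * deriv (Hk N k) (‖x‖ ^ 2) * x i) := by
    intro i x
    rw [pd_const_mul, ← PrH_pd k hN i x]
  -- the field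
  set X : E N → E N := fun x => a • Xf ξ x + V x with hX
  have hXL : LipschitzWith (‖a‖₊ * K₁ + K) X := by
    have h1 : LipschitzWith (‖a‖₊ * K₁) (fun x => a • Xf ξ x) :=
      (lipschitzWith_smul a).comp hK₁
    exact h1.add hV
  have hXS : HasCompactSupport X := by
    refine HasCompactSupport.of_support_subset_isCompact (isCompact_closedBall (0 : E N) 1) ?_
    intro x hx
    rw [mem_closedBall_zero_iff]
    by_contra h
    push Not at h
    refine hx ?_
    have h' : ¬ ‖x‖ < 1 := not_lt.2 h.le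
    simp [hX, Xf, h', hV0 x h.le]
  have hP1 : ∀ᵐ x : E N, ∀ i, X x i = (1 / 2) * pd i (fun y => a * H y) x
      + (a * H x) * p x i := by
    filter_upwards [PrH_ae_sphere hN] with x hx1 i
    rw [hpda i x]
    rcases lt_or_gt_of_ne hx1 with hx | hx
    · have e1 : X x i = a * (ξ (‖x‖ ^ 2) * x i) + V x i := by simp [hX, Xf, hx]
      have e2 : p x i = 2 * w x * x i + (a * H x)⁻¹ * V x i := by
        simp [hp, hx]
      have h0 : a * H x ≠ 0 := (mul_pos ha (hHpos x hx)).ne'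
      have e3 : (a * H x) * ((a * H x)⁻¹ * V x i) = V x i := mul_inv_cancel_left₀ h0 _
      have e4 : ξ (‖x‖ ^ 2) = deriv (Hk N k) (‖x‖ ^ 2) + 2 * H x * w x := hξe _ (hlt x hx)
      rw [e1, e2, mul_add (a * H x), e3, e4]
      ring
    · have hx' : ¬ ‖x‖ < 1 := not_lt.2 hx.le
      have e1 : X x i = 0 := by simp [hX, Xf, hx', hV0 x hx.le]
      have e2 : p x i = 0 := by simp [hp, hx']
      rw [e1, e2, PrH_deriv_out k hN _ (hgt x hx)]
      simp
  have hP2 : ∀ᵐ x : E N, Θ x = (∑ i, pd i (fun y => X y i) x) + (a * H x) * ‖p x‖ ^ 2 := by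
    obtain ⟨K₂, hK₂⟩ := Cert3_lip (Xf (N := N) ξ) K₁ hK₁
    have hdV : ∀ᵐ x : E N, ∀ i, DifferentiableAt ℝ (fun y => V y i) x :=
      ae_all_iff.2 fun i => (hK' i).ae_differentiableAt (μ := volume)
    have hdX : ∀ᵐ x : E N, ∀ i, DifferentiableAt ℝ (fun y => Xf ξ y i) x :=
      ae_all_iff.2 fun i => (hK₂ i).ae_differentiableAt (μ := volume)
    filter_upwards [PrH_ae_sphere hN, PrH_ae_zero hN, hdV, hdX] with x hx1 hx0 hv hxf
    have hsum : ∑ i, pd i (fun y => X y i) x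
        = a * (∑ i, pd i (fun y => Xf ξ y i) x) + D x := by
      rw [hD, Finset.mul_sum, ← Finset.sum_add_distrib]
      refine Finset.sum_congr rfl fun i _ => ?_
      have e : (fun y => X y i) = fun y => (fun z => a * Xf ξ z i) y + (fun z => V z i) y := by
        funext y
        simp [hX]
      rw [e, pd_add i (fun z => a * Xf ξ z i) (fun z => V z i) x ((hxf i).const_mul a) (hv i),
        pd_const_mul]
    rw [hsum]
    rcases lt_or_gt_of_ne hx1 with hx | hx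
    · have hs0 : 0 < ‖x‖ ^ 2 := by
        have := norm_pos_iff.2 hx0
        positivity
      obtain ⟨x2, hd, he⟩ := xi_identity N k hN hk ξ hξe (‖x‖ ^ 2) hs0 (hlt x hx)
      rw [Xf_div ξ hξ x hx, hd.deriv]
      have h0 : a * H x ≠ 0 := (mul_pos ha (hHpos x hx)).ne'
      have e2 : ‖p x‖ ^ 2 = (2 * w x) ^ 2 * ‖x‖ ^ 2
          + 2 * ((2 * w x) * (a * H x)⁻¹ * inner ℝ x (V x)) + ((a * H x)⁻¹) ^ 2 * ‖V x‖ ^ 2 := by
        simp only [hp, hx, if_true]
        exact Cert3_norm _ _ _ _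
      have e3 : (a * H x) * ((2 * w x) ^ 2 * ‖x‖ ^ 2
          + 2 * ((2 * w x) * (a * H x)⁻¹ * inner ℝ x (V x)) + ((a * H x)⁻¹) ^ 2 * ‖V x‖ ^ 2)
          = a * (4 * ‖x‖ ^ 2 * H x * w x ^ 2) + 4 * w x * inner ℝ x (V x)
            + ‖V x‖ ^ 2 / (a * H x) := Cert3_alg a (H x) (w x) ‖x‖ _ _ h0
      rw [e2, e3]
      have e4 : a * Q x = a * (N * ξ (‖x‖ ^ 2) + 2 * ‖x‖ ^ 2 * x2)
          + a * (4 * ‖x‖ ^ 2 * H x * w x ^ 2) := by
        have e5 : Q x = N * ξ (‖x‖ ^ 2) + 2 * ‖x‖ ^ 2 * x2 + 4 * ‖x‖ ^ 2 * H x * w x ^ 2 := by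
          simp only [hQ, hHd, hw]
          linarith
        rw [e5]
        ring
      simp only [hΘ, hx, if_true, hR]
      linarith
    · have hx' : ¬ ‖x‖ < 1 := not_lt.2 hx.le
      rw [Xf_div_out ξ x hx]
      have e : D x = 0 := by
        rw [hD]
        exact Finset.sum_eq_zero fun i _ => Cert3_pd_out V hV0 x hx i
      rw [e]
      simp [hΘ, hp, hx']
  -- measurability and boundedness of `Θ`
  have hwm : Measurable w := (Cert3_meas hN).comp (by fun_prop)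
  have hDm : Measurable D := Finset.measurable_sum _ fun i _ => Cert3_pd_meas _ i
  have hRm : Measurable R := by
    have h1 : Measurable Q := hQc.measurable
    have h2 : Measurable (fun x : E N => inner ℝ x (V x)) :=
      (continuous_id.inner hVc).measurable
    have h3 : Measurable (fun x : E N => ‖V x‖ ^ 2) := by
      have := hVc.measurable
      fun_prop
    have h4 : Measurable (fun x => a * H x) := (haC.continuous).measurable
    exact (((h1.const_mul a).add hDm).add ((hwm.const_mul 4).mul h2)).add (h3.div h4)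
  have hΘm : Measurable Θ :=
    Measurable.ite (measurableSet_lt (by fun_prop) measurable_const) hRm measurable_const
  obtain ⟨C₀, hC₀, hC₀'⟩ := Cert3_bound (N := N) hN
  obtain ⟨C₁, hC₁⟩ := (isCompact_closedBall (0 : E N) 1).exists_bound_of_continuousOn
    (hQc.continuousOn (s := Metric.closedBall (0 : E N) 1))
  have hM : 0 ≤ M := by
    have h1 := hVb 0 (by simp)
    have h2 := norm_nonneg (V 0)
    simp at h1
    linarith
  have hC₁0 : 0 ≤ C₁ := (norm_nonneg _).trans (hC₁ 0 (by simp))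
  have hΘb : ∀ x, |Θ x| ≤ a * C₁ + N * K' + 4 * (C₀ * M) + M ^ 2 / (a * c) := by
    intro x
    have hnn : 0 ≤ a * C₁ + N * K' + 4 * (C₀ * M) + M ^ 2 / (a * c) := by positivity
    by_cases hx : ‖x‖ < 1
    · simp only [hΘ, hx, if_true, hR]
      have hs := hlt x hx
      have hs0 : 0 ≤ ‖x‖ ^ 2 := by positivity
      have b1 : |a * Q x| ≤ a * C₁ := by
        rw [abs_mul, abs_of_pos ha]
        refine mul_le_mul_of_nonneg_left ?_ ha.le
        have := hC₁ x (by rw [mem_closedBall_zero_iff]; exact hx.le)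
        rwa [Real.norm_eq_abs] at this
      have b2 : |D x| ≤ N * K' := by
        rw [hD]
        refine (Finset.abs_sum_le_sum_abs _ _).trans ?_
        refine (Finset.sum_le_sum fun i _ => Cert3_pd_bound _ K' (hK' i) i x).trans ?_
        simp
      have b3 : |4 * w x * inner ℝ x (V x)| ≤ 4 * (C₀ * M) := by
        have c1 : |inner ℝ x (V x)| ≤ ‖x‖ * ‖V x‖ := abs_real_inner_le_norm _ _
        have c2 : ‖x‖ * ‖V x‖ ≤ 1 * (M * (1 - ‖x‖ ^ 2)) :=
          mul_le_mul hx.le (hVb x hx) (norm_nonneg _) zero_le_one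
        have c3 : |w x| * (1 - ‖x‖ ^ 2) ≤ C₀ := hC₀' _ hs0 hs
        rw [abs_mul, abs_mul, abs_of_pos (by norm_num : (0 : ℝ) < 4)]
        calc 4 * |w x| * |inner ℝ x (V x)| ≤ 4 * |w x| * (M * (1 - ‖x‖ ^ 2)) :=
              mul_le_mul_of_nonneg_left (by linarith) (by positivity)
          _ = 4 * ((|w x| * (1 - ‖x‖ ^ 2)) * M) := by ring
          _ ≤ 4 * (C₀ * M) := by
              have := mul_le_mul_of_nonneg_right c3 hM
              linarith
      have b4 : |‖V x‖ ^ 2 / (a * H x)| ≤ M ^ 2 / (a * c) := by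
        have hHx := hHpos x hx
        have d1 : 0 < a * H x := mul_pos ha hHx
        rw [abs_of_nonneg (by positivity), div_le_div_iff₀ d1 (mul_pos ha hc)]
        have d2 : ‖V x‖ ^ 2 ≤ (M * (1 - ‖x‖ ^ 2)) ^ 2 :=
          pow_le_pow_left₀ (norm_nonneg _) (hVb x hx) 2
        have d3 : c * (1 - ‖x‖ ^ 2) ^ 2 ≤ H x := hH _ hs0 hs
        calc ‖V x‖ ^ 2 * (a * c) ≤ (M * (1 - ‖x‖ ^ 2)) ^ 2 * (a * c) :=
              mul_le_mul_of_nonneg_right d2 (by positivity)
          _ = M ^ 2 * (a * (c * (1 - ‖x‖ ^ 2) ^ 2)) := by ring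
          _ ≤ M ^ 2 * (a * H x) := by
              refine mul_le_mul_of_nonneg_left ?_ (by positivity)
              exact mul_le_mul_of_nonneg_left d3 ha.le
      calc |a * Q x + D x + 4 * w x * inner ℝ x (V x) + ‖V x‖ ^ 2 / (a * H x)|
          ≤ |a * Q x + D x + 4 * w x * inner ℝ x (V x)| + |‖V x‖ ^ 2 / (a * H x)| :=
            abs_add_le _ _
        _ ≤ |a * Q x + D x| + |4 * w x * inner ℝ x (V x)| + |‖V x‖ ^ 2 / (a * H x)| := by
            gcongr; exact abs_add_le _ _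
        _ ≤ |a * Q x| + |D x| + |4 * w x * inner ℝ x (V x)| + |‖V x‖ ^ 2 / (a * H x)| := by
            gcongr; exact abs_add_le _ _
        _ ≤ _ := by linarith
    · simp only [hΘ, hx, if_false, abs_zero]
      exact hnn
  have hint : Integrable (fun x => u x ^ 2 * Θ x) :=
    (hu2c.integrable_of_hasCompactSupport hu2).mul_bdd
      (c := a * C₁ + N * K' + 4 * (C₀ * M) + M ^ 2 / (a * c))
      hΘm.aestronglyMeasurable (.of_forall fun x => by
        rw [Real.norm_eq_abs]; exact hΘb x)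
  have hcert := cert (fun x => a * H x) haC
    (fun x => mul_nonneg ha.le (Ht_nonneg k hN hk x)) X _ hXL hXS p hP1 Θ hP2 u hu huc hint
  have hdot : ∫ x, dot u (fun y => a * H y * u y) x
      = a * ∫ x, dot u (fun y => H y * u y) x := by
    rw [← integral_const_mul]
    refine integral_congr_ae (.of_forall fun x => ?_)
    simp only [dot, Finset.mul_sum]
    refine Finset.sum_congr rfl fun i _ => ?_
    have e : (fun y => a * H y * u y) = fun y => a * (fun z => H z * u z) y := by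
      funext y
      ring
    rw [e, pd_const_mul]
    ring
  rw [hdot] at hcert
  have hi1 : Integrable (fun x => H x * u x ^ 2) :=
    (hHC.continuous.mul hu2c).integrable_of_hasCompactSupport hu2.mul_left
  have hi2 : Integrable (fun x => u x ^ 2 * q x) :=
    (hu2c.mul hq).integrable_of_hasCompactSupport hu2.mul_right
  have key : (∫ x, u x ^ 2 * Θ x) + a * bz N * (∫ x, H x * u x ^ 2) ≤ ∫ x, u x ^ 2 * q x := by
    rw [← integral_const_mul, ← integral_add hint (hi1.const_mul _)]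
    refine integral_mono_ae (hint.add (hi1.const_mul _)) hi2 ?_
    filter_upwards [PrH_ae_sphere hN, PrH_ae_zero hN] with x hx1 hx0
    rcases lt_or_gt_of_ne hx1 with hx | hx
    · have h1 := hin x hx0 hx
      have h2 : Θ x + a * bz N * H x ≤ q x := by
        simp only [hΘ, hx, if_true, hR]
        have e : a * Q x + a * bz N * H x = a * (γ * Pk k (Fp N k) (‖x‖ ^ 2)
            - En N k (Fp N k) (‖x‖ ^ 2)) := by
          simp only [hQ, hHd]
          ring
        have h3 : a * (γ * Pk k (Fp N k) (‖x‖ ^ 2) - En N k (Fp N k) (‖x‖ ^ 2)) + D x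
            + 4 * w x * inner ℝ x (V x) + ‖V x‖ ^ 2 / (a * H x) ≤ q x := h1
        linarith
      have h4 := mul_le_mul_of_nonneg_left h2 (sq_nonneg (u x))
      have e : u x ^ 2 * (Θ x + a * bz N * H x)
          = u x ^ 2 * Θ x + a * bz N * (H x * u x ^ 2) := by ring
      rw [e] at h4
      exact h4
    · have hx' : ¬ ‖x‖ < 1 := not_lt.2 hx.le
      have h1 := mul_nonneg (sq_nonneg (u x)) (hout x hx)
      have e : H x = 0 := PrH_Hk_out k hN _ (hgt x hx).le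
      have e2 : Θ x = 0 := by simp [hΘ, hx']
      show u x ^ 2 * Θ x + a * bz N * (H x * u x ^ 2) ≤ u x ^ 2 * q x
      rw [e, e2]
      simpa using h1
  have hfin := mul_le_mul_of_nonneg_left hτ ha.le
  have e : a * ((∫ x, dot u (fun y => Hk N k (‖y‖ ^ 2) * u y) x)
      - bz N * (∫ x, Hk N k (‖x‖ ^ 2) * u x ^ 2))
      = a * (∫ x, dot u (fun y => H y * u y) x) - a * bz N * (∫ x, H x * u x ^ 2) := by
    simp only [hHd]
    ring
  rw [e] at hfin
  linarith

end Pool.Agent.H94.SP
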