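import Pool.Agent.H94.ER.BaC

/-!
# CutA: eigenvalues of disjoint pieces

`Ω₁, Ω₂ ⊆ Ω` disjoint, open and nonempty, `j, k ≥ 1`: `dirEig Ω (j+k) ≤ max (dirEig Ω₁ j) (dirEig Ω₂ k)`.
For `δ > 0` take (infimum over a set that is nonempty by `exists_space`) `V₁` of dimension `j` of test functions on `Ω₁` with
`energy u ≤ c₁ mass u`, `c₁ < dirEig Ω₁ j + δ`, and `V₂` for `Ω₂`. `V₁ ⊓ V₂ = ⊥` (a common element has support in `Ω₁ ∩ Ω₂ = ∅`), so
`V = V₁ ⊔ V₂` has `finrank = j + k` (`Submodule.finrank_sup_add_finrank_inf_eq`; `V₁, V₂` are finite-dimensional as their `finrank` is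
positive). For `u = u₁ + u₂` the supports are disjoint, so `u^2 = u₁^2 + u₂^2` and `dot u u = dot u₁ u₁ + dot u₂ u₂` everywhere
(at each point one of the two functions vanishes in a neighbourhood: `tsupport`), whence
`energy u ≤ max c₁ c₂ * mass u`. Test functions on `Ω₁` are test functions on `Ω`. `dirEig_le`.
-/

set_option autoImplicit false

open MeasureTheory

namespace Pool.Agent.H94.SP

open Pool.Agent.H94.ER

variable {N : ℕ}

theorem CutA_space (hN : 1 ≤ N) (Ω : Set (E N)) (hΩ : IsOpen Ω) (hne : Ω.Nonempty) (k : ℕ)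
    (δ : ℝ) (hδ : 0 < δ) : ∃ (c : ℝ) (V : Submodule ℝ (E N → ℝ)), c < dirEig Ω k + δ ∧
      Module.finrank ℝ V = k ∧ ∀ u ∈ V, IsTest Ω u ∧ energy u ≤ c * mass u := by
  obtain ⟨c0, V0, hV0, h0⟩ := exists_space Ω hN hΩ hne k
  obtain ⟨c, ⟨V, hV, h⟩, hc⟩ := Real.lt_sInf_add_pos
    (s := {c : ℝ | ∃ V : Submodule ℝ (E N → ℝ), Module.finrank ℝ V = k ∧
      ∀ u ∈ V, IsTest Ω u ∧ ∫ x, ‖fderiv ℝ u x‖ ^ 2 ≤ c * ∫ x, u x ^ 2})
    ⟨c0, V0, hV0, fun u hu => ⟨(h0 u hu).1, by rw [← energy_eq]; exact (h0 u hu).2⟩⟩ hδ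
  refine ⟨c, V, hc, hV, fun u hu => ⟨(h u hu).1, ?_⟩⟩
  have h2 := (h u hu).2
  rw [← energy_eq] at h2
  exact h2

theorem CutA_zero {u : E N → ℝ} {x : E N} (hx : x ∉ tsupport u) :
    u x = 0 ∧ ∀ i, pd i u x = 0 := by
  have h1 : u =ᶠ[nhds x] 0 := notMem_tsupport_iff_eventuallyEq.1 hx
  refine ⟨h1.self_of_nhds, fun i => ?_⟩
  unfold pd
  rw [h1.fderiv_eq]
  simp

theorem CutA_sum {Ω₁ Ω₂ : Set (E N)} (hd : Disjoint Ω₁ Ω₂) {u v : E N → ℝ} (hu : IsTest Ω₁ u)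
    (hv : IsTest Ω₂ v) : energy (u + v) = energy u + energy v ∧ mass (u + v) = mass u + mass v := by
  have hx : ∀ x, x ∉ tsupport u ∨ x ∉ tsupport v := by
    intro x
    by_contra hcon
    push Not at hcon
    exact Set.disjoint_left.1 hd (hu.2.2 hcon.1) (hv.2.2 hcon.2)
  have hm : ∀ w : E N → ℝ, ContDiff ℝ 1 w → HasCompactSupport w → Integrable (fun x => w x ^ 2) := by
    intro w hw hc
    have hc1 : Continuous (fun x => w x ^ 2) := hw.continuous.pow 2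
    refine hc1.integrable_of_hasCompactSupport ?_
    have : (fun x => w x ^ 2) = fun x => w x * w x := by
      ext x
      ring
    rw [this]
    exact hc.mul_left
  have he : ∀ w : E N → ℝ, ContDiff ℝ 1 w → HasCompactSupport w →
      Integrable (fun x => dot w w x) := fun w hw hc =>
    (continuous_dot w w hw hw).integrable_of_hasCompactSupport (hasCompactSupport_dot w w hc)
  constructor
  · unfold energy
    rw [← integral_add (he u hu.1 hu.2.1) (he v hv.1 hv.2.1)]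
    congr 1
    ext x
    have hpd : ∀ i, pd i (u + v) x = pd i u x + pd i v x := fun i =>
      pd_add i u v x (hu.1.differentiable one_ne_zero x) (hv.1.differentiable one_ne_zero x)
    unfold dot
    simp only [hpd]
    rw [← Finset.sum_add_distrib]
    refine Finset.sum_congr rfl fun i _ => ?_
    rcases hx x with h | h
    · rw [(CutA_zero h).2 i]; ring
    · rw [(CutA_zero h).2 i]; ring
  · unfold mass
    rw [← integral_add (hm u hu.1 hu.2.1) (hm v hv.1 hv.2.1)]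
    congr 1
    ext x
    change (u x + v x) ^ 2 = u x ^ 2 + v x ^ 2
    rcases hx x with h | h
    · rw [(CutA_zero h).1]; ring
    · rw [(CutA_zero h).1]; ring

theorem dirEig_union (hN : 1 ≤ N) (Ω Ω₁ Ω₂ : Set (E N)) (h1 : Ω₁ ⊆ Ω) (h2 : Ω₂ ⊆ Ω)
    (hd : Disjoint Ω₁ Ω₂) (ho1 : IsOpen Ω₁) (ho2 : IsOpen Ω₂) (hn1 : Ω₁.Nonempty)
    (hn2 : Ω₂.Nonempty) (j k : ℕ) (hj : 1 ≤ j) (hk : 1 ≤ k) :
    dirEig Ω (j + k) ≤ max (dirEig Ω₁ j) (dirEig Ω₂ k) := by
  refine le_of_forall_pos_le_add fun δ hδ => ?_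
  obtain ⟨c₁, V₁, hc₁, hV₁, hu₁⟩ := CutA_space hN Ω₁ ho1 hn1 j δ hδ
  obtain ⟨c₂, V₂, hc₂, hV₂, hu₂⟩ := CutA_space hN Ω₂ ho2 hn2 k δ hδ
  have : Module.Finite ℝ V₁ := Module.finite_of_finrank_pos (by omega)
  have : Module.Finite ℝ V₂ := Module.finite_of_finrank_pos (by omega)
  have hinf : V₁ ⊓ V₂ = ⊥ := by
    rw [Submodule.eq_bot_iff]
    intro u hu
    have a1 := (hu₁ u hu.1).1.2.2
    have a2 := (hu₂ u hu.2).1.2.2
    rw [← tsupport_eq_empty_iff]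
    rw [Set.eq_empty_iff_forall_notMem]
    intro x hx
    exact Set.disjoint_left.1 hd (a1 hx) (a2 hx)
  have hfin : Module.finrank ℝ (V₁ ⊔ V₂ : Submodule ℝ (E N → ℝ)) = j + k := by
    have h3 := Submodule.finrank_sup_add_finrank_inf_eq V₁ V₂
    rw [hinf, finrank_bot, hV₁, hV₂] at h3
    omega
  have hle : dirEig Ω (j + k) ≤ max c₁ c₂ := by
    refine dirEig_le Ω (j + k) (by omega) (max c₁ c₂) (V₁ ⊔ V₂) hfin ?_
    intro u hu
    obtain ⟨v, hv, w, hw, rfl⟩ := Submodule.mem_sup.1 hu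
    obtain ⟨tv, ev⟩ := hu₁ v hv
    obtain ⟨tw, ew⟩ := hu₂ w hw
    obtain ⟨s1, s2⟩ := CutA_sum hd tv tw
    have tv' : IsTest Ω v := ⟨tv.1, tv.2.1, tv.2.2.trans h1⟩
    have tw' : IsTest Ω w := ⟨tw.1, tw.2.1, tw.2.2.trans h2⟩
    refine ⟨tv'.add tw', ?_⟩
    rw [s1, s2]
    have b1 := mul_le_mul_of_nonneg_right (le_max_left c₁ c₂) (mass_nonneg v)
    have b2 := mul_le_mul_of_nonneg_right (le_max_right c₁ c₂) (mass_nonneg w)
    linarith
  refine hle.trans ?_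
  apply max_le
  · linarith [le_max_left (dirEig Ω₁ j) (dirEig Ω₂ k)]
  · linarith [le_max_right (dirEig Ω₁ j) (dirEig Ω₂ k)]

end Pool.Agent.H94.SP
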