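import Pool.Agent.H94.SP.MainP
import Pool.Agent.H94.SP.Cert3

/-!
# MainI: the main certificate, integrated

`cert3` with `N = k = 2`, `a = (1 - 9/10 t^2)/ρ^2` (`ρ = F0 2 2 1`), `τ' = ρ^2 τ`, `V = Vf (mA t) (mB t) (mD t) e`, `q` the right side of
`main_point` (continuous: `continuous_qG`, `contDiff_nFp`). `hH`: `Hk 2 2 s = ρ^2 (1 - nh s^2)` (`Hk_in`),
`1 - nh^2 = (1-s)^2 K (1 + nh) ≥ (1-s)^2/2` (`enc_pack`, `nh ≥ 0`). `hin`: `main_point` (`a ρ^2 qG = (1 - 9/10 t^2) qG`; `g1` is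
`uder 2 s / bj 2 (bz 2 s)` by definition; casts `bz (2 + 2*2) = bz 6`). `hout`: for `s > 1`, `nFp s = 1/s`, `|ce| ≤ s`, `qG = γ - 4/s ≥ γ - 4`:
`q ≥ γ - 4 - η1 (γ-4) t + (η1 (γ-4) - γ - 1/10) t^2 ≥ 0` for `0 ≤ t ≤ 8/25` (`γ - 4 ≥ 16.59`, `η1 t ≤ .6976`; the last
coefficient is `≥ 15`). Conclusion: `-(1 - 9/10 t^2) τ ≤ ∫ u^2 q = ∫ u^2 qG - η1(γ-4) t^2 + (η1 (γ-4) - γ - 1/10) t^2`
(`hte`, `mass u = 1`), and `(1 - 9/10 t^2) τ ≤ τ`.
-/

set_option autoImplicit false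

open MeasureTheory Pool.Agent.H94.ER

namespace Pool.Agent.H94.SP

/-- lower bound of the weight -/
theorem Hk_lower (s : ℝ) (h0 : 0 ≤ s) (h1 : s < 1) :
    F0 2 2 1 ^ 2 / 2 * (1 - s) ^ 2 ≤ Hk 2 2 s := by
  rw [Hk_in s h1.le]
  have h2 := (enc_pack s h0 h1).2.2.2.2
  have h3 : 0 < (1 - s) ^ 2 := by
    have : 0 < 1 - s := by linarith
    positivity
  rw [le_div_iff₀ h3] at h2
  have h4 : 0 ≤ nh s := mul_nonneg h0 (nF_pos s h1.le).le
  have h6 : 0 ≤ 1 - nh s := by nlinarith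
  have h5 : 1 / 2 * (1 - s) ^ 2 ≤ 1 - nh s ^ 2 := by
    nlinarith [mul_nonneg h6 h4]
  have h7 := mul_le_mul_of_nonneg_left h5 (sq_nonneg (F0 2 2 1))
  linarith

private theorem MainI_int (u φ : E 2 → ℝ) (hu : Continuous u) (hc : HasCompactSupport u)
    (hφ : Continuous φ) : Integrable (fun x => u x ^ 2 * φ x) := by
  have h1 : (fun x => u x ^ 2 * φ x) = u * fun x => u x * φ x := by
    funext x
    simp only [Pi.mul_apply]
    ring
  rw [h1]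
  exact (hu.mul (hu.mul hφ)).integrable_of_hasCompactSupport hc.mul_right

private theorem MainI_ce (e : E 2) : Continuous (fun x : E 2 => ce e x) := by
  unfold ce
  fun_prop

theorem main_ineq (e : E 2) (he : ‖e‖ = 1) (t τ : ℝ) (ht0 : 0 ≤ t) (ht1 : t ≤ 8 / 25) (hτ0 : 0 ≤ τ)
    (u : E 2 → ℝ) (hu : ContDiff ℝ 1 u) (hc : HasCompactSupport u) (hm : mass u = 1)
    (hte : ∫ x, u x ^ 2 * (nFp (‖x‖ ^ 2) * ce e x) = t)
    (hτ : (∫ x, dot u (fun y => Hk 2 2 (‖y‖ ^ 2) * u y) x)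
      - bz 2 * (∫ x, Hk 2 2 (‖x‖ ^ 2) * u x ^ 2) ≤ τ * F0 2 2 1 ^ 2) :
    (gam + 1 / 10) * t ^ 2 - τ ≤ ∫ x, u x ^ 2 * qG x := by
  have hρ : 0 < F0 2 2 1 := rho_pos
  have hρ2 : 0 < F0 2 2 1 ^ 2 := by positivity
  have hg := gam_lo
  have ht2 : t ^ 2 ≤ 64 / 625 := by nlinarith
  have hA : 0 < 1 - 9 / 10 * t ^ 2 := by linarith
  set a : ℝ := (1 - 9 / 10 * t ^ 2) / F0 2 2 1 ^ 2 with ha
  have ha0 : 0 < a := div_pos hA hρ2
  obtain ⟨K, hK⟩ := Vf_lipschitz (mA t) (mB t) (mD t) (mA_smooth t) (mB_smooth t) (mD_smooth t)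
    (mA_one t) (mB_one t) (mD_one t) e
  obtain ⟨M, hM⟩ := Vf_bound (mA t) (mB t) (mD t) (mA_smooth t) (mB_smooth t) (mD_smooth t)
    (mA_one t) (mB_one t) (mD_one t) e he
  set q : E 2 → ℝ := fun x => qG x - 109 / 50 * (gam - 4) * t * (nFp (‖x‖ ^ 2) * ce e x)
        + (109 / 50 * (gam - 4) - gam - 1 / 10) * t ^ 2 with hq
  have hcn : Continuous (fun x : E 2 => nFp (‖x‖ ^ 2) * ce e x) :=
    (contDiff_nFp.continuous.comp (continuous_norm.pow 2)).mul (MainI_ce e)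
  have hqc : Continuous q :=
    (continuous_qG.sub (continuous_const.mul hcn)).add continuous_const
  have hbz : bz (((2 : ℕ) : ℝ) + 2 * ((2 : ℕ) : ℝ)) = bz 6 := by norm_num
  have hbz2 : bz ((2 : ℕ) : ℝ) = bz 2 := by norm_num
  have key := cert3 (N := 2) 2 le_rfl (by norm_num) a (τ * F0 2 2 1 ^ 2) ha0
    (Vf (mA t) (mB t) (mD t) e) K hK M (F0 2 2 1 ^ 2 / 2) (by positivity) hM
    (fun x hx => Vf_out _ _ _ e x hx) Hk_lower q hqc
    (fun x hx0 hx => by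
      have h1 := main_point e x he hx0 hx t ht0 ht1
      have h2 : a * Hk 2 2 (‖x‖ ^ 2) = (1 - 9 / 10 * t ^ 2) * (1 - nh (‖x‖ ^ 2) ^ 2) := by
        rw [Hk_in _ (by nlinarith [norm_nonneg x]), ha]
        field_simp
      have h3 : a * ((bz (((2 : ℕ) : ℝ) + 2 * ((2 : ℕ) : ℝ)) - bz ((2 : ℕ) : ℝ)) *
          Pk 2 (Fp 2 2) (‖x‖ ^ 2) - En 2 2 (Fp 2 2) (‖x‖ ^ 2)) = (1 - 9 / 10 * t ^ 2) * qG x := by
        rw [hbz, hbz2, ha]
        unfold qG
        field_simp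
      have h4 : uder 2 (‖x‖ ^ 2) / bj ((2 : ℕ) : ℝ) (bz ((2 : ℕ) : ℝ) * ‖x‖ ^ 2) =
          g1 (‖x‖ ^ 2) := by
        unfold g1
        norm_num
      rw [h2, h3, h4]
      exact h1)
    (fun x hx => by
      have h0 : 1 < ‖x‖ ^ 2 := by nlinarith [norm_nonneg x]
      have h0' : 0 < ‖x‖ ^ 2 := by linarith
      have h1 := qG_out x hx
      have h2 := nFp_out (‖x‖ ^ 2) h0.le
      have h3 := (abs_le.1 (ce_le e x he)).2
      have h4 : nFp (‖x‖ ^ 2) * ce e x ≤ 1 := by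
        rw [h2, one_div, inv_mul_le_iff₀ h0', mul_one]
        exact h3
      have h5 : 4 / ‖x‖ ^ 2 ≤ 4 := by
        rw [div_le_iff₀ h0']
        linarith
      have h6 : 0 ≤ 109 / 50 * (gam - 4) * t := by
        have : 0 ≤ gam - 4 := by linarith
        positivity
      have h7 := mul_le_mul_of_nonneg_left h4 h6
      have h8 : 0 ≤ (109 / 50 * (gam - 4) - gam - 1 / 10) * t ^ 2 :=
        mul_nonneg (by linarith) (sq_nonneg t)
      have h9 : 0 ≤ (gam - 4) * (1 - 109 / 50 * t) := mul_nonneg (by linarith) (by linarith)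
      show 0 ≤ qG x - 109 / 50 * (gam - 4) * t * (nFp (‖x‖ ^ 2) * ce e x)
        + (109 / 50 * (gam - 4) - gam - 1 / 10) * t ^ 2
      rw [h1]
      linarith) u hu hc (by rw [hbz2]; exact hτ)
  have i1 : Integrable (fun x => u x ^ 2 * qG x) := MainI_int u qG hu.continuous hc continuous_qG
  have i2 : Integrable (fun x => u x ^ 2 * (nFp (‖x‖ ^ 2) * ce e x)) :=
    MainI_int u _ hu.continuous hc hcn
  have i3 : Integrable (fun x => u x ^ 2) := by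
    have := MainI_int u (fun _ => 1) hu.continuous hc continuous_const
    simpa using this
  have e1 : ∫ x, u x ^ 2 * q x = (∫ x, u x ^ 2 * qG x) - 109 / 50 * (gam - 4) * t * t
      + (109 / 50 * (gam - 4) - gam - 1 / 10) * t ^ 2 := by
    have e2 : ∫ x, u x ^ 2 * q x = ∫ x, (u x ^ 2 * qG x
        - 109 / 50 * (gam - 4) * t * (u x ^ 2 * (nFp (‖x‖ ^ 2) * ce e x))
        + (109 / 50 * (gam - 4) - gam - 1 / 10) * t ^ 2 * u x ^ 2) := by
      refine integral_congr_ae (Filter.Eventually.of_forall fun x => ?_)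
      show u x ^ 2 * q x = _
      simp only [hq]
      ring
    have i12 : Integrable (fun x => u x ^ 2 * qG x
        - 109 / 50 * (gam - 4) * t * (u x ^ 2 * (nFp (‖x‖ ^ 2) * ce e x))) :=
      i1.sub (i2.const_mul _)
    have h4 : ∫ x, u x ^ 2 = 1 := hm
    rw [e2, integral_add i12 (i3.const_mul _), integral_sub i1 (i2.const_mul _),
      integral_const_mul, integral_const_mul, hte, h4]
    ring
  have e3 : a * (τ * F0 2 2 1 ^ 2) = (1 - 9 / 10 * t ^ 2) * τ := by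
    rw [ha]
    field_simp
  rw [e1, e3] at key
  have h5 : 0 ≤ 9 / 10 * t ^ 2 * τ := by positivity
  linarith

end Pool.Agent.H94.SP
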