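import Pool.Agent.H94.SP.PolS

/-!
# Star: the algebraic inequalities behind the two certificates

Real numbers `s ∈ [0,1]`, `F, k, K, γ` within the enclosures. Used with `F = nF s`, `k = nhs s/(1-s)`,
`K = (1 - nh s)/(1-s)^2`, `γ = gam`.
-/

set_option autoImplicit false

namespace Pool.Agent.H94.SP

/-- right-hand side of the main certificate -/
noncomputable def S2 (s F k γ : ℝ) : ℝ :=
  (109 / 50 - 1) * γ - 4 * (109 / 50) - 1 / 10 + 12 * (67 / 50) * s * (1 - s) ^ 3 * k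
    - (67 / 50) * (1 - s) ^ 3 * F * (4 - γ * s)
    + 9 / 10 * (s * F ^ 2 * (γ * s - 4) - 4 * s * (1 - s) ^ 2 * k ^ 2)

theorem Star_mulmono {a b c d : ℝ} (ha : 0 ≤ a) (hab : a ≤ b) (hc : 0 ≤ c) (hcd : c ≤ d) :
    a * c ≤ b * d := mul_le_mul hab hcd hc (ha.trans hab)

theorem Star_S2 (s F k γ : ℝ) (h0 : 0 ≤ s) (h1 : s ≤ 1) (hF : |F - Fb s| ≤ 3 / 1000)
    (hk : |k - kb s| ≤ 2 / 1000) (hγ : |γ - 2059143 / 100000| ≤ 1 / 10000) :
    Sl s ≤ S2 s F k γ := by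
  obtain ⟨hF1, hF2⟩ := abs_le.1 hF
  obtain ⟨hk1, hk2⟩ := abs_le.1 hk
  obtain ⟨hg1, hg2⟩ := abs_le.1 hγ
  have pF := pFl s h0 h1
  have pk := pkl s h0 h1
  have hq : 0 ≤ 1 - s := by linarith
  have hq3 : 0 ≤ (1 - s) ^ 3 := by positivity
  have hFl : 0 ≤ Fb s - 3 / 1000 := by linarith
  have hFF : Fb s - 3 / 1000 ≤ F := by linarith
  have hF0 : 0 ≤ F := hFl.trans hFF
  have hFu : F ≤ Fb s + 3 / 1000 := by linarith
  have hkl : 0 ≤ kb s - 1 / 500 := by linarith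
  have hkk : kb s - 1 / 500 ≤ k := by linarith
  have hk0 : 0 ≤ k := hkl.trans hkk
  have hku : k ≤ kb s + 1 / 500 := by linarith
  have hgl : (2059133 / 100000 : ℝ) ≤ γ := by linarith
  have a1 : 0 ≤ s * (1 - s) ^ 3 * (k - (kb s - 1 / 500)) := mul_nonneg (by positivity) (by linarith)
  have a2 : 0 ≤ (1 - s) ^ 3 * (Fb s + 3 / 1000 - F) := mul_nonneg (by positivity) (by linarith)
  have a3 : 0 ≤ (1 - s) ^ 3 * s * (γ * F - 2059133 / 100000 * (Fb s - 3 / 1000)) :=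
    mul_nonneg (by positivity) (sub_nonneg.2 (Star_mulmono (by norm_num) hgl hFl hFF))
  have a4 : 0 ≤ s ^ 2 * (γ * F ^ 2 - 2059133 / 100000 * (Fb s - 3 / 1000) ^ 2) :=
    mul_nonneg (by positivity) (sub_nonneg.2 (Star_mulmono (by norm_num) hgl (by positivity)
      (pow_le_pow_left₀ hFl hFF 2)))
  have a5 : 0 ≤ s * ((Fb s + 3 / 1000) ^ 2 - F ^ 2) :=
    mul_nonneg h0 (sub_nonneg.2 (pow_le_pow_left₀ hF0 hFu 2))
  have a6 : 0 ≤ s * (1 - s) ^ 2 * ((kb s + 1 / 500) ^ 2 - k ^ 2) :=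
    mul_nonneg (by positivity) (sub_nonneg.2 (pow_le_pow_left₀ hk0 hku 2))
  unfold S2 Sl
  linarith [a1, a2, a3, a4, a5, a6, hgl]

theorem star (s F k K γ C t : ℝ) (h0 : 0 ≤ s) (h1 : s ≤ 1) (hF : |F - Fb s| ≤ 3 / 1000)
    (hk : |k - kb s| ≤ 2 / 1000) (hK : |K - Kb s| ≤ 1 / 1000) (hγ : |γ - 2059143 / 100000| ≤ 1 / 10000)
    (hC : |C| ≤ 1) (ht0 : 0 ≤ t) (ht1 : t ≤ 8 / 25) :
    s * ((2 * (51 / 25 + 7 / 50 * s) * k * C + 2 * t * (67 / 50 * (1 - s) ^ 3) * k) ^ 2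
        + (F * (2 * (51 / 25) + 7 / 100 * γ * s) + 2 * (7 / 50) * s * k) ^ 2 * (1 - C ^ 2))
      ≤ S2 s F k γ * (1 - 9 / 10 * t ^ 2) * ((1 + s * F) * K) := by
  have hS := Star_S2 s F k γ h0 h1 hF hk hγ
  have pS' := pS s h0 h1
  obtain ⟨hF1, hF2⟩ := abs_le.1 hF
  obtain ⟨hk1, hk2⟩ := abs_le.1 hk
  obtain ⟨hK1, hK2⟩ := abs_le.1 hK
  obtain ⟨hg1, hg2⟩ := abs_le.1 hγ
  have pF := pFl s h0 h1
  have pk := pkl s h0 h1
  have pK := pKl s h0 h1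
  have hq : 0 ≤ 1 - s := by linarith
  have hFl : 0 ≤ Fb s - 3 / 1000 := by linarith
  have hFF : Fb s - 3 / 1000 ≤ F := by linarith
  have hF0 : 0 ≤ F := hFl.trans hFF
  have hFu : F ≤ Fb s + 3 / 1000 := by linarith
  have hk0 : 0 ≤ k := by linarith
  have hku : k ≤ kb s + 1 / 500 := by linarith
  have hgl : (0 : ℝ) ≤ γ := by linarith
  have hgu : γ ≤ 2059153 / 100000 := by linarith
  have hKl : 0 ≤ Kb s - 1 / 1000 := by linarith
  have hKK : Kb s - 1 / 1000 ≤ K := by linarith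
  have hC1 : C ^ 2 ≤ 1 := by
    have := sq_abs C
    have h2 : |C| ^ 2 ≤ 1 := pow_le_one₀ (abs_nonneg _) hC
    linarith
  have hC2 : 0 ≤ C ^ 2 := sq_nonneg C
  have ht2 : t ^ 2 ≤ (8 / 25) ^ 2 := pow_le_pow_left₀ ht0 ht1 2
  set f : ℝ := 67 / 50 * (1 - s) ^ 3 with hf
  set η : ℝ := 51 / 25 + 7 / 50 * s with hη
  have hf0 : 0 ≤ f := by positivity
  have hη0 : 0 ≤ η := by positivity
  set A : ℝ := F * (2 * (51 / 25) + 7 / 100 * γ * s) + 2 * (7 / 50) * s * k with hA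
  have hA0 : 0 ≤ A := by positivity
  -- the lower bound `L0` of the right side
  have hL : Sl s * (1 - (9 / 10) * (8 / 25) ^ 2) * (1 + s * (Fb s - (3 / 1000))) * (Kb s - (1 / 1000))
      ≤ S2 s F k γ * (1 - 9 / 10 * t ^ 2) * ((1 + s * F) * K) := by
    have b1 : Sl s * (1 - (9 / 10) * (8 / 25) ^ 2) ≤ S2 s F k γ * (1 - 9 / 10 * t ^ 2) :=
      Star_mulmono pS' hS (by norm_num) (by linarith)
    have b0 : 0 ≤ Sl s * (1 - (9 / 10) * (8 / 25) ^ 2) := mul_nonneg pS' (by norm_num)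
    have b2 : (1 + s * (Fb s - 3 / 1000)) * (Kb s - 1 / 1000) ≤ (1 + s * F) * K :=
      Star_mulmono (by positivity) (by nlinarith) hKl hKK
    have b3 : 0 ≤ (1 + s * (Fb s - 3 / 1000)) * (Kb s - 1 / 1000) := by positivity
    have := Star_mulmono b0 b1 b3 b2
    linarith
  -- the two upper bounds
  have hk2' : k ^ 2 ≤ (kb s + 1 / 500) ^ 2 := pow_le_pow_left₀ hk0 hku 2
  have e1 := pI1 s h0 h1
  have e2 := pI2 s h0 h1
  have R1 : 4 * s * k ^ 2 * (η + 8 / 25 * f) ^ 2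
      ≤ 4 * s * (kb s + 1 / 500) ^ 2 * (η + 8 / 25 * f) ^ 2 := by
    have := mul_le_mul_of_nonneg_left hk2' (show 0 ≤ 4 * s * (η + 8 / 25 * f) ^ 2 by positivity)
    linarith
  have hAu : A ≤ (Fb s + 3 / 1000) * (2 * (51 / 25) + 7 / 100 * (2059153 / 100000) * s)
      + 2 * (7 / 50) * s * (kb s + 1 / 500) := by
    have c1 : F * (2 * (51 / 25) + 7 / 100 * γ * s)
        ≤ (Fb s + 3 / 1000) * (2 * (51 / 25) + 7 / 100 * (2059153 / 100000) * s) := by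
      refine Star_mulmono hF0 hFu (by positivity) ?_
      have := mul_le_mul_of_nonneg_right hgu h0
      linarith
    have c2 : s * k ≤ s * (kb s + 1 / 500) := mul_le_mul_of_nonneg_left hku h0
    rw [hA]
    linarith
  have hA2 : A ^ 2 ≤ ((Fb s + 3 / 1000) * (2 * (51 / 25) + 7 / 100 * (2059153 / 100000) * s)
      + 2 * (7 / 50) * s * (kb s + 1 / 500)) ^ 2 := pow_le_pow_left₀ hA0 hAu 2
  have R2 : s * A ^ 2 + 4 * s * k ^ 2 * ((8 / 25) ^ 2 * f ^ 2 + η * (8 / 25) * f)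
      ≤ s * ((Fb s + 3 / 1000) * (2 * (51 / 25) + 7 / 100 * (2059153 / 100000) * s)
      + 2 * (7 / 50) * s * (kb s + 1 / 500)) ^ 2
        + 4 * s * (kb s + 1 / 500) ^ 2 * ((8 / 25) ^ 2 * f ^ 2 + η * (8 / 25) * f) := by
    have d1 := mul_le_mul_of_nonneg_left hA2 h0
    have d2 := mul_le_mul_of_nonneg_left hk2'
      (show 0 ≤ 4 * s * ((8 / 25) ^ 2 * f ^ 2 + η * (8 / 25) * f) by positivity)
    linarith
  set L0 : ℝ := Sl s * (1 - (9 / 10) * (8 / 25) ^ 2) * (1 + s * (Fb s - (3 / 1000)))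
    * (Kb s - (1 / 1000)) with hL0
  have P1 : 4 * s * k ^ 2 * (η + 8 / 25 * f) ^ 2 ≤ L0 := by
    have : 4 * s * (kb s + 1 / 500) ^ 2 * (η + 8 / 25 * f) ^ 2
        = 4 * s * ((kb s + (1 / 500))) ^ 2 * ((((51 / 25) + (7 / 50) * s)
          + (8 / 25) * (67 / 50) * (1 - s) ^ 3)) ^ 2 := by rw [hη, hf]; ring
    linarith
  have P2 : s * A ^ 2 + 4 * s * k ^ 2 * ((8 / 25) ^ 2 * f ^ 2 + η * (8 / 25) * f) ≤ L0 := by
    have : 4 * s * (kb s + 1 / 500) ^ 2 * ((8 / 25) ^ 2 * f ^ 2 + η * (8 / 25) * f)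
        = 4 * s * ((kb s + (1 / 500))) ^ 2 * ((8 / 25) ^ 2 * ((67 / 50) * (1 - s) ^ 3) ^ 2
          + ((51 / 25) + (7 / 50) * s) * (8 / 25) * (67 / 50) * (1 - s) ^ 3) := by
      rw [hη, hf]; ring
    linarith
  -- the left side
  have key : s * ((2 * η * k * C + 2 * t * f * k) ^ 2 + A ^ 2 * (1 - C ^ 2))
      ≤ C ^ 2 * (4 * s * k ^ 2 * (η + 8 / 25 * f) ^ 2)
        + (1 - C ^ 2) * (s * A ^ 2 + 4 * s * k ^ 2 * ((8 / 25) ^ 2 * f ^ 2 + η * (8 / 25) * f)) := by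
    have m1 : 2 * (t * C) ≤ 8 / 25 * (1 + C ^ 2) := by
      have c1 : t * C ≤ 8 / 25 * |C| := by
        have := le_abs_self C
        have c2 : t * C ≤ t * |C| := mul_le_mul_of_nonneg_left this ht0
        have c3 : t * |C| ≤ 8 / 25 * |C| := mul_le_mul_of_nonneg_right ht1 (abs_nonneg _)
        linarith
      have c4 : 2 * |C| ≤ 1 + C ^ 2 := by
        rw [← sq_abs C]
        nlinarith [sq_nonneg (1 - |C|)]
      linarith
    have m2 : 0 ≤ 4 * s * k ^ 2 * (η * f) := by positivity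
    have m3 : 0 ≤ 4 * s * k ^ 2 * f ^ 2 := by positivity
    have m4 := mul_le_mul_of_nonneg_left m1 m2
    have m5 := mul_le_mul_of_nonneg_left ht2 m3
    linarith
  have fin : C ^ 2 * (4 * s * k ^ 2 * (η + 8 / 25 * f) ^ 2)
        + (1 - C ^ 2) * (s * A ^ 2 + 4 * s * k ^ 2 * ((8 / 25) ^ 2 * f ^ 2 + η * (8 / 25) * f))
      ≤ L0 := by
    have n1 := mul_le_mul_of_nonneg_left P1 hC2
    have n2 := mul_le_mul_of_nonneg_left P2 (show 0 ≤ 1 - C ^ 2 by linarith)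
    linarith
  exact (key.trans fin).trans hL

theorem Star_Tp (s F k K γ : ℝ) (h0 : 0 ≤ s) (h1 : s ≤ 1) (hF : |F - Fb s| ≤ 3 / 1000)
    (hk : |k - kb s| ≤ 2 / 1000) (hK : |K - Kb s| ≤ 1 / 1000) (hγ : |γ - 2059143 / 100000| ≤ 1 / 10000) :
    17 / 1000 * (γ * s ^ 2 * F ^ 2 - 4 * s * F ^ 2 - 4 * s * (1 - s) ^ 2 * k ^ 2)
      + (-6 / 1000) * F * (4 - γ * s) + 2 / 100 * (F * (4 - γ * s) - 4 * (1 - s) * k)
      + 4 * s * k ^ 2 * (14 / 1000) ^ 2 / (17 / 1000 * ((1 + s * F) * K))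
      ≤ 315 / 1000 - (s * F) + 1625 / 1000 * (s - 1 / 10000 - 21713 / 100000) := by
  obtain ⟨hF1, hF2⟩ := abs_le.1 hF
  obtain ⟨hk1, hk2⟩ := abs_le.1 hk
  obtain ⟨hK1, hK2⟩ := abs_le.1 hK
  obtain ⟨hg1, hg2⟩ := abs_le.1 hγ
  have pF := pFl s h0 h1
  have pk := pkl s h0 h1
  have pK := pKl s h0 h1
  have hq : 0 ≤ 1 - s := by linarith
  have hFl : 0 ≤ Fb s - 3 / 1000 := by linarith
  have hFF : Fb s - 3 / 1000 ≤ F := by linarith
  have hF0 : 0 ≤ F := hFl.trans hFF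
  have hFu : F ≤ Fb s + 3 / 1000 := by linarith
  have hkl : 0 ≤ kb s - 1 / 500 := by linarith
  have hkk : kb s - 1 / 500 ≤ k := by linarith
  have hk0 : 0 ≤ k := by linarith
  have hku : k ≤ kb s + 1 / 500 := by linarith
  have hgl : (2059133 / 100000 : ℝ) ≤ γ := by linarith
  have hgu : γ ≤ 2059153 / 100000 := by linarith
  have hKl : 0 < Kb s - 1 / 1000 := by linarith
  have hKK : Kb s - 1 / 1000 ≤ K := by linarith
  have e := pTp s h0 h1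
  -- the lower bound `Tp s`
  have hb : Tp s ≤ 315 / 1000 - (s * F) + 1625 / 1000 * (s - 1 / 10000 - 21713 / 100000)
      - (17 / 1000 * (γ * s ^ 2 * F ^ 2 - 4 * s * F ^ 2 - 4 * s * (1 - s) ^ 2 * k ^ 2)
      + (-6 / 1000) * F * (4 - γ * s) + 2 / 100 * (F * (4 - γ * s) - 4 * (1 - s) * k)) := by
    have a1 : 0 ≤ s * (Fb s + 3 / 1000 - F) := mul_nonneg h0 (by linarith)
    have a2 : 0 ≤ s ^ 2 * (2059153 / 100000 * (Fb s + 3 / 1000) ^ 2 - γ * F ^ 2) :=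
      mul_nonneg (by positivity) (sub_nonneg.2 (Star_mulmono (by linarith) hgu (by positivity)
        (pow_le_pow_left₀ hF0 hFu 2)))
    have a3 : 0 ≤ s * (1 - s) ^ 2 * (k ^ 2 - (kb s - 1 / 500) ^ 2) :=
      mul_nonneg (by positivity) (sub_nonneg.2 (pow_le_pow_left₀ hkl hkk 2))
    have a4 : 0 ≤ s * (F ^ 2 - (Fb s - 3 / 1000) ^ 2) :=
      mul_nonneg h0 (sub_nonneg.2 (pow_le_pow_left₀ hFl hFF 2))
    have a5 : 0 ≤ s * (γ * F - 2059133 / 100000 * (Fb s - 3 / 1000)) :=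
      mul_nonneg h0 (sub_nonneg.2 (Star_mulmono (by norm_num) hgl hFl hFF))
    have a6 : 0 ≤ (1 - s) * (k - (kb s - 1 / 500)) := mul_nonneg hq (by linarith)
    unfold Tp
    linarith
  have hT : 0 ≤ 17 / 1000 * ((1 + s * F) * K) * Tp s - 4 * s * k ^ 2 * (14 / 1000) ^ 2 := by
    have d0 : 0 < (1 + s * (Fb s - 3 / 1000)) * (Kb s - 1 / 1000) := by positivity
    have d1 : (1 + s * (Fb s - 3 / 1000)) * (Kb s - 1 / 1000) ≤ (1 + s * F) * K :=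
      Star_mulmono (by positivity) (by nlinarith) hKl.le hKK
    have d2 : 0 ≤ (7 / 500) ^ 2 * 4 * s * (kb s + 1 / 500) ^ 2 := by positivity
    have d3 : 0 ≤ Tp s := by
      have : 0 ≤ (17 / 1000 * ((1 + s * (Fb s - 3 / 1000)) * (Kb s - 1 / 1000))) * Tp s := by
        linarith
      exact nonneg_of_mul_nonneg_right this (by positivity)
    have d4 := mul_le_mul_of_nonneg_right d1 d3
    have d5 := mul_le_mul_of_nonneg_left (pow_le_pow_left₀ hk0 hku 2)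
      (show 0 ≤ 4 * s * (14 / 1000 : ℝ) ^ 2 by positivity)
    linarith
  have hpos : 0 < 17 / 1000 * ((1 + s * F) * K) := by
    have : 0 < K := by linarith
    positivity
  have hdiv : 4 * s * k ^ 2 * (14 / 1000) ^ 2 / (17 / 1000 * ((1 + s * F) * K)) ≤ Tp s := by
    rw [div_le_iff₀ hpos]
    linarith
  linarith

theorem Star_Tm (s F k K γ : ℝ) (h0 : 0 ≤ s) (h1 : s ≤ 1) (hF : |F - Fb s| ≤ 3 / 1000)
    (hk : |k - kb s| ≤ 2 / 1000) (hK : |K - Kb s| ≤ 1 / 1000) (hγ : |γ - 2059143 / 100000| ≤ 1 / 10000) :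
    17 / 1000 * (γ * s ^ 2 * F ^ 2 - 4 * s * F ^ 2 - 4 * s * (1 - s) ^ 2 * k ^ 2)
      + (-6 / 1000) * F * (4 - γ * s) - 2 / 100 * (F * (4 - γ * s) - 4 * (1 - s) * k)
      + 4 * s * k ^ 2 * (26 / 1000) ^ 2 / (17 / 1000 * ((1 + s * F) * K))
      ≤ 315 / 1000 + (s * F) + 1625 / 1000 * (- 1 / 10000 - 21713 / 100000) := by
  obtain ⟨hF1, hF2⟩ := abs_le.1 hF
  obtain ⟨hk1, hk2⟩ := abs_le.1 hk
  obtain ⟨hK1, hK2⟩ := abs_le.1 hK
  obtain ⟨hg1, hg2⟩ := abs_le.1 hγ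
  have pF := pFl s h0 h1
  have pk := pkl s h0 h1
  have pK := pKl s h0 h1
  have hq : 0 ≤ 1 - s := by linarith
  have hFl : 0 ≤ Fb s - 3 / 1000 := by linarith
  have hFF : Fb s - 3 / 1000 ≤ F := by linarith
  have hF0 : 0 ≤ F := hFl.trans hFF
  have hFu : F ≤ Fb s + 3 / 1000 := by linarith
  have hkl : 0 ≤ kb s - 1 / 500 := by linarith
  have hkk : kb s - 1 / 500 ≤ k := by linarith
  have hk0 : 0 ≤ k := by linarith
  have hku : k ≤ kb s + 1 / 500 := by linarith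
  have hgl : (2059133 / 100000 : ℝ) ≤ γ := by linarith
  have hgu : γ ≤ 2059153 / 100000 := by linarith
  have hKl : 0 < Kb s - 1 / 1000 := by linarith
  have hKK : Kb s - 1 / 1000 ≤ K := by linarith
  have e := pTm s h0 h1
  have hb : Tm s ≤ 315 / 1000 + (s * F) + 1625 / 1000 * (- 1 / 10000 - 21713 / 100000)
      - (17 / 1000 * (γ * s ^ 2 * F ^ 2 - 4 * s * F ^ 2 - 4 * s * (1 - s) ^ 2 * k ^ 2)
      + (-6 / 1000) * F * (4 - γ * s) - 2 / 100 * (F * (4 - γ * s) - 4 * (1 - s) * k)) := by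
    have a1 : 0 ≤ s * (F - (Fb s - 3 / 1000)) := mul_nonneg h0 (by linarith)
    have a2 : 0 ≤ s ^ 2 * (2059153 / 100000 * (Fb s + 3 / 1000) ^ 2 - γ * F ^ 2) :=
      mul_nonneg (by positivity) (sub_nonneg.2 (Star_mulmono (by linarith) hgu (by positivity)
        (pow_le_pow_left₀ hF0 hFu 2)))
    have a3 : 0 ≤ s * (1 - s) ^ 2 * (k ^ 2 - (kb s - 1 / 500) ^ 2) :=
      mul_nonneg (by positivity) (sub_nonneg.2 (pow_le_pow_left₀ hkl hkk 2))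
    have a4 : 0 ≤ s * (F ^ 2 - (Fb s - 3 / 1000) ^ 2) :=
      mul_nonneg h0 (sub_nonneg.2 (pow_le_pow_left₀ hFl hFF 2))
    have a5 : 0 ≤ s * (2059153 / 100000 * (Fb s + 3 / 1000) - γ * F) :=
      mul_nonneg h0 (sub_nonneg.2 (Star_mulmono (by linarith) hgu hF0 hFu))
    have a6 : 0 ≤ (1 - s) * (kb s + 1 / 500 - k) := mul_nonneg hq (by linarith)
    unfold Tm
    linarith
  have hT : 0 ≤ 17 / 1000 * ((1 + s * F) * K) * Tm s - 4 * s * k ^ 2 * (26 / 1000) ^ 2 := by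
    have d0 : 0 < (1 + s * (Fb s - 3 / 1000)) * (Kb s - 1 / 1000) := by positivity
    have d1 : (1 + s * (Fb s - 3 / 1000)) * (Kb s - 1 / 1000) ≤ (1 + s * F) * K :=
      Star_mulmono (by positivity) (by nlinarith) hKl.le hKK
    have d2 : 0 ≤ (13 / 500) ^ 2 * 4 * s * (kb s + 1 / 500) ^ 2 := by positivity
    have d3 : 0 ≤ Tm s := by
      have : 0 ≤ (17 / 1000 * ((1 + s * (Fb s - 3 / 1000)) * (Kb s - 1 / 1000))) * Tm s := by
        linarith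
      exact nonneg_of_mul_nonneg_right this (by positivity)
    have d4 := mul_le_mul_of_nonneg_right d1 d3
    have d5 := mul_le_mul_of_nonneg_left (pow_le_pow_left₀ hk0 hku 2)
      (show 0 ≤ 4 * s * (26 / 1000 : ℝ) ^ 2 by positivity)
    linarith
  have hpos : 0 < 17 / 1000 * ((1 + s * F) * K) := by
    have : 0 < K := by linarith
    positivity
  have hdiv : 4 * s * k ^ 2 * (26 / 1000) ^ 2 / (17 / 1000 * ((1 + s * F) * K)) ≤ Tm s := by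
    rw [div_le_iff₀ hpos]
    linarith
  linarith

theorem starT (s F k K γ C : ℝ) (h0 : 0 ≤ s) (h1 : s ≤ 1) (hF : |F - Fb s| ≤ 3 / 1000)
    (hk : |k - kb s| ≤ 2 / 1000) (hK : |K - Kb s| ≤ 1 / 1000) (hγ : |γ - 2059143 / 100000| ≤ 1 / 10000)
    (hC : |C| ≤ 1) :
    17 / 1000 * (γ * s ^ 2 * F ^ 2 - 4 * s * F ^ 2 - 4 * s * (1 - s) ^ 2 * k ^ 2)
      + (-6 / 1000) * F * (4 - γ * s) + 2 / 100 * C * (F * (4 - γ * s) - 4 * (1 - s) * k)
      + 4 * s * k ^ 2 * ((-6 / 1000) ^ 2 + (2 / 100) ^ 2 + 2 * (-6 / 1000) * (2 / 100) * C)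
          / (17 / 1000 * ((1 + s * F) * K))
      ≤ 315 / 1000 - C * (s * F)
        + 1625 / 1000 * (s * (1 + C) / 2 - 1 / 10000 - 21713 / 100000) := by
  obtain ⟨hC1, hC2⟩ := abs_le.1 hC
  have hp := Star_Tp s F k K γ h0 h1 hF hk hK hγ
  have hm := Star_Tm s F k K γ h0 h1 hF hk hK hγ
  set Y : ℝ := 17 / 1000 * ((1 + s * F) * K) with hY
  have e1 : 4 * s * k ^ 2 * ((-6 / 1000) ^ 2 + (2 / 100) ^ 2 + 2 * (-6 / 1000) * (2 / 100) * C) / Y
      = (1 + C) / 2 * (4 * s * k ^ 2 * (14 / 1000) ^ 2 / Y)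
        + (1 - C) / 2 * (4 * s * k ^ 2 * (26 / 1000) ^ 2 / Y) := by
    ring
  rw [e1]
  have q1 := mul_le_mul_of_nonneg_left hp (show 0 ≤ (1 + C) / 2 by linarith)
  have q2 := mul_le_mul_of_nonneg_left hm (show 0 ≤ (1 - C) / 2 by linarith)
  linarith

end Pool.Agent.H94.SP
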