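import Pool.Agent.H94.SP.Ode
import Pool.Agent.H94.SP.VfA
import Pool.Agent.H94.SP.NF
import Pool.Agent.H94.SP.NG
import Pool.Agent.H94.SP.Star

/-!
# MainP: the main certificate, pointwise
-/

set_option autoImplicit false

open MeasureTheory Pool.Agent.H94.ER

namespace Pool.Agent.H94.SP

noncomputable def mA (t s : ℝ) : ℝ :=
  t * ((1 - s) * nF s * (2 * (51 / 25) + 7 / 100 * gam * s) + 2 * (7 / 50) * s * nhs s)

noncomputable def mB (t s : ℝ) : ℝ :=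
  t * (2 * (51 / 25) * (nF s + deriv nF s) - 7 / 100 * gam * (1 - s) * nF s)

noncomputable def mD (t s : ℝ) : ℝ := 2 * t ^ 2 * (67 / 50) * (1 - s) ^ 3 * nhs s

theorem mA_smooth (t s : ℝ) (hs : s ≤ 1) : ContDiffAt ℝ 1 (mA t) s := by
  have h1 : ContDiffAt ℝ 1 nF s := by simpa using nF_smooth s hs 1
  have h2 : ContDiffAt ℝ 1 nhs s := by simpa using nhs_smooth s hs 1
  have h3 : ContDiffAt ℝ 1 (fun s : ℝ => 1 - s) s := contDiffAt_const.sub contDiffAt_id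
  have h4 : ContDiffAt ℝ 1 (fun s : ℝ => 2 * (51 / 25) + 7 / 100 * gam * s) s :=
    contDiffAt_const.add (contDiffAt_const.mul contDiffAt_id)
  have h5 : ContDiffAt ℝ 1 (fun s : ℝ => 2 * (7 / 50) * s) s := contDiffAt_const.mul contDiffAt_id
  exact contDiffAt_const.mul (((h3.mul h1).mul h4).add (h5.mul h2))

theorem mB_smooth (t s : ℝ) (hs : s ≤ 1) : ContDiffAt ℝ 1 (mB t) s := by
  have h1 : ContDiffAt ℝ 1 nF s := by simpa using nF_smooth s hs 1
  have h2 : ContDiffAt ℝ 1 (deriv nF) s := by simpa using deriv_nF_smooth s hs 1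
  have h3 : ContDiffAt ℝ 1 (fun s : ℝ => 7 / 100 * gam * (1 - s)) s :=
    contDiffAt_const.mul (contDiffAt_const.sub contDiffAt_id)
  exact contDiffAt_const.mul ((contDiffAt_const.mul (h1.add h2)).sub (h3.mul h1))

theorem mD_smooth (t s : ℝ) (hs : s ≤ 1) : ContDiffAt ℝ 1 (mD t) s := by
  have h2 : ContDiffAt ℝ 1 nhs s := by simpa using nhs_smooth s hs 1
  have h3 : ContDiffAt ℝ 1 (fun s : ℝ => 2 * t ^ 2 * (67 / 50) * (1 - s) ^ 3) s :=
    contDiffAt_const.mul ((contDiffAt_const.sub contDiffAt_id).pow 3)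
  exact h3.mul h2

theorem mA_one (t : ℝ) : mA t 1 = 0 := by
  unfold mA
  rw [nhs_one]
  ring

theorem mB_one (t : ℝ) : mB t 1 = 0 := by
  unfold mB
  rw [nF_one, deriv_nF_one]
  ring

theorem mD_one (t : ℝ) : mD t 1 = 0 := by
  unfold mD
  rw [nhs_one]
  ring

/-- the two enclosure hypotheses in the form needed by `star` -/
theorem enc_pack (s : ℝ) (h0 : 0 ≤ s) (h1 : s < 1) :
    |nF s - Fb s| ≤ 3 / 1000 ∧ |nhs s / (1 - s) - kb s| ≤ 2 / 1000
      ∧ |(1 - nh s) / (1 - s) ^ 2 - Kb s| ≤ 1 / 1000 ∧ |gam - 2059143 / 100000| ≤ 1 / 10000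
      ∧ 1 / 2 ≤ (1 - nh s) / (1 - s) ^ 2 := by
  have ht : 0 < 1 - s := by linarith
  have ht2 : 0 < (1 - s) ^ 2 := by positivity
  have hk := enc_k s h0 h1.le
  have hh := enc_h s h0 h1.le
  have h3 : |(1 - nh s) / (1 - s) ^ 2 - Kb s| ≤ 1 / 1000 := by
    have e : (1 - nh s) / (1 - s) ^ 2 - Kb s = (1 - nh s - (1 - s) ^ 2 * Kb s) / (1 - s) ^ 2 := by
      field_simp
    rw [e, abs_div, abs_of_pos ht2, div_le_iff₀ ht2]
    linarith
  refine ⟨enc_F s h0 h1.le, ?_, h3, ?_, ?_⟩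
  · have e : nhs s / (1 - s) - kb s = (nhs s - (1 - s) * kb s) / (1 - s) := by
      field_simp
    rw [e, abs_div, abs_of_pos ht, div_le_iff₀ ht]
    linarith
  · have a1 := gam_lo
    have a2 := gam_hi
    rw [abs_le]
    constructor <;> linarith
  · have a1 := (abs_le.1 h3).1
    have a2 := pKl s h0 h1.le
    linarith

theorem MainP_dA (t s : ℝ) (hs : s ≤ 1) : deriv (mA t) s =
    t * ((-nF s + (1 - s) * deriv nF s) * (2 * (51 / 25) + 7 / 100 * gam * s) +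
      (1 - s) * nF s * (7 / 100 * gam) + 2 * (7 / 50) * (nhs s + s * deriv nhs s)) := by
  have h1 := nF_hasDerivAt s hs
  have h2 : HasDerivAt nhs (deriv nhs s) s := by
    have := (nhs_smooth s hs 1).differentiableAt (by norm_num)
    exact this.hasDerivAt
  have h3 : HasDerivAt (fun s : ℝ => 1 - s) (-1) s := by
    simpa using (hasDerivAt_id s).const_sub 1
  have h4 : HasDerivAt (fun s : ℝ => 2 * (51 / 25) + 7 / 100 * gam * s) (7 / 100 * gam) s := by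
    simpa using ((hasDerivAt_id s).const_mul (7 / 100 * gam)).const_add (2 * (51 / 25))
  have h5 : HasDerivAt (fun s : ℝ => 2 * (7 / 50) * s) (2 * (7 / 50)) s := by
    simpa using (hasDerivAt_id s).const_mul (2 * (7 / 50) : ℝ)
  have h6 := ((((h3.mul h1).mul h4).add (h5.mul h2)).const_mul t).deriv
  have h7 : deriv (mA t) s = _ := h6
  rw [h7]
  simp only [Pi.mul_apply]
  ring

theorem MainP_dB (t s : ℝ) (hs : s ≤ 1) : deriv (mB t) s =
    t * (2 * (51 / 25) * (deriv nF s + deriv (deriv nF) s) + 7 / 100 * gam * nF s -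
      7 / 100 * gam * (1 - s) * deriv nF s) := by
  have h1 := nF_hasDerivAt s hs
  have h2 : HasDerivAt (deriv nF) (deriv (deriv nF) s) s := by
    have := (deriv_nF_smooth s hs 1).differentiableAt (by norm_num)
    exact this.hasDerivAt
  have h3 : HasDerivAt (fun s : ℝ => 7 / 100 * gam * (1 - s)) (7 / 100 * gam * (-1)) s := by
    have h3' : HasDerivAt (fun s : ℝ => 1 - s) (-1) s := by
      simpa using (hasDerivAt_id s).const_sub 1
    exact h3'.const_mul _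
  have h6 := ((((h1.add h2).const_mul (2 * (51 / 25) : ℝ)).sub (h3.mul h1)).const_mul t).deriv
  have h7 : deriv (mB t) s = _ := h6
  rw [h7]
  ring

theorem MainP_dD (t s : ℝ) (hs : s ≤ 1) : deriv (mD t) s =
    2 * t ^ 2 * (67 / 50) * (-(3 * (1 - s) ^ 2) * nhs s + (1 - s) ^ 3 * deriv nhs s) := by
  have h2 : HasDerivAt nhs (deriv nhs s) s := by
    have := (nhs_smooth s hs 1).differentiableAt (by norm_num)
    exact this.hasDerivAt
  have h3 : HasDerivAt (fun s : ℝ => 2 * t ^ 2 * (67 / 50) * (1 - s) ^ 3)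
      (2 * t ^ 2 * (67 / 50) * (((3 : ℕ) : ℝ) * (1 - s) ^ (3 - 1) * (-1))) s := by
    have h3' : HasDerivAt (fun s : ℝ => 1 - s) (-1) s := by
      simpa using (hasDerivAt_id s).const_sub 1
    exact (h3'.pow 3).const_mul _
  have h6 := (h3.mul h2).deriv
  have h7 : deriv (mD t) s = _ := h6
  rw [h7]
  push_cast
  norm_num
  ring

/-- divergence and drift -/
theorem MainP_alg1 (s t F F1 F2 g γ c hs hs' : ℝ) (hhs : hs = F + s * F1)
    (hhs' : hs' = 2 * F1 + s * F2) (hode : 4 * hs' + 8 * g * hs = -(4 * F1) - γ * F) :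
    (2 * (t * ((-F + (1 - s) * F1) * (2 * (51 / 25) + 7 / 100 * γ * s) +
        (1 - s) * F * (7 / 100 * γ) + 2 * (7 / 50) * (hs + s * hs'))) +
      4 * (t * (2 * (51 / 25) * (F + F1) - 7 / 100 * γ * (1 - s) * F)) +
      2 * s * (t * (2 * (51 / 25) * (F1 + F2) + 7 / 100 * γ * F - 7 / 100 * γ * (1 - s) * F1))) * c +
      2 * (2 * t ^ 2 * (67 / 50) * (1 - s) ^ 3 * hs) +
      2 * s * (2 * t ^ 2 * (67 / 50) * (-(3 * (1 - s) ^ 2) * hs + (1 - s) ^ 3 * hs')) +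
      4 * g * (c * (t * ((1 - s) * F * (2 * (51 / 25) + 7 / 100 * γ * s) + 2 * (7 / 50) * s * hs) +
        s * (t * (2 * (51 / 25) * (F + F1) - 7 / 100 * γ * (1 - s) * F))) +
        s * (2 * t ^ 2 * (67 / 50) * (1 - s) ^ 3 * hs)) =
    -(109 / 50 * (γ - 4) * t * (F * c)) + t ^ 2 * (-(12 * (67 / 50) * s * (1 - s) ^ 2 * hs) +
      (67 / 50) * (1 - s) ^ 3 * F * (4 - γ * s)) := by
  subst hhs hhs'
  linear_combination (c * t * (51 / 25 + 7 / 50 * s) + t ^ 2 * (67 / 50) * (1 - s) ^ 3 * s) * hode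

/-- the square of the norm -/
theorem MainP_alg2 (s t F F1 γ C k hs : ℝ) (hhs : hs = F + s * F1) (hk : hs = (1 - s) * k) :
    s * (t * ((1 - s) * F * (2 * (51 / 25) + 7 / 100 * γ * s) + 2 * (7 / 50) * s * hs)) ^ 2 +
      2 * (t * ((1 - s) * F * (2 * (51 / 25) + 7 / 100 * γ * s) + 2 * (7 / 50) * s * hs)) * (s * C) *
        ((t * (2 * (51 / 25) * (F + F1) - 7 / 100 * γ * (1 - s) * F)) * (s * C) +
          2 * t ^ 2 * (67 / 50) * (1 - s) ^ 3 * hs) +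
      s * ((t * (2 * (51 / 25) * (F + F1) - 7 / 100 * γ * (1 - s) * F)) * (s * C) +
          2 * t ^ 2 * (67 / 50) * (1 - s) ^ 3 * hs) ^ 2 =
    t ^ 2 * (1 - s) ^ 2 * (s * ((2 * (51 / 25 + 7 / 50 * s) * k * C +
        2 * t * (67 / 50 * (1 - s) ^ 3) * k) ^ 2
        + (F * (2 * (51 / 25) + 7 / 100 * γ * s) + 2 * (7 / 50) * s * k) ^ 2 * (1 - C ^ 2))) := by
  have e1 : (t * ((1 - s) * F * (2 * (51 / 25) + 7 / 100 * γ * s) + 2 * (7 / 50) * s * hs)) =
      t * (1 - s) * (F * (2 * (51 / 25) + 7 / 100 * γ * s) + 2 * (7 / 50) * s * k) := by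
    rw [hk]; ring
  have e2 : (t * ((1 - s) * F * (2 * (51 / 25) + 7 / 100 * γ * s) + 2 * (7 / 50) * s * hs)) * C +
      ((t * (2 * (51 / 25) * (F + F1) - 7 / 100 * γ * (1 - s) * F)) * (s * C) +
          2 * t ^ 2 * (67 / 50) * (1 - s) ^ 3 * hs) =
      t * (1 - s) * (2 * (51 / 25 + 7 / 50 * s) * k * C + 2 * t * (67 / 50 * (1 - s) ^ 3) * k) := by
    have e3 : (t * ((1 - s) * F * (2 * (51 / 25) + 7 / 100 * γ * s) + 2 * (7 / 50) * s * hs)) * C +
      ((t * (2 * (51 / 25) * (F + F1) - 7 / 100 * γ * (1 - s) * F)) * (s * C) +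
          2 * t ^ 2 * (67 / 50) * (1 - s) ^ 3 * hs) =
        t * (2 * (51 / 25 + 7 / 50 * s) * hs * C + 2 * t * (67 / 50 * (1 - s) ^ 3) * hs) := by
      rw [hhs]; ring
    rw [e3, hk]; ring
  set A := (t * ((1 - s) * F * (2 * (51 / 25) + 7 / 100 * γ * s) + 2 * (7 / 50) * s * hs)) with hA
  set B := ((t * (2 * (51 / 25) * (F + F1) - 7 / 100 * γ * (1 - s) * F)) * (s * C) +
          2 * t ^ 2 * (67 / 50) * (1 - s) ^ 3 * hs) with hB
  have e4 : s * A ^ 2 + 2 * A * (s * C) * B + s * B ^ 2 = s * ((A * C + B) ^ 2 + A ^ 2 * (1 - C ^ 2)) := by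
    ring
  rw [e4, e2, e1]
  ring

theorem main_point (e x : E 2) (he : ‖e‖ = 1) (hx0 : x ≠ 0) (hx : ‖x‖ < 1) (t : ℝ) (ht0 : 0 ≤ t)
    (ht1 : t ≤ 8 / 25) :
    (1 - 9 / 10 * t ^ 2) * qG x + (∑ i, pd i (fun y => Vf (mA t) (mB t) (mD t) e y i) x)
        + 4 * g1 (‖x‖ ^ 2) * inner ℝ x (Vf (mA t) (mB t) (mD t) e x)
        + ‖Vf (mA t) (mB t) (mD t) e x‖ ^ 2 / ((1 - 9 / 10 * t ^ 2) * (1 - nh (‖x‖ ^ 2) ^ 2))
      ≤ qG x - 109 / 50 * (gam - 4) * t * (nFp (‖x‖ ^ 2) * ce e x)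
        + (109 / 50 * (gam - 4) - gam - 1 / 10) * t ^ 2 := by
  have hn0 : 0 < ‖x‖ := norm_pos_iff.2 hx0
  have hs0 : 0 < ‖x‖ ^ 2 := by positivity
  have hs1 : ‖x‖ ^ 2 < 1 := by nlinarith
  have hce := ce_le e x he
  rw [Vf_div (mA t) (mB t) (mD t) (mA_smooth t) (mB_smooth t) (mD_smooth t) e he x hx,
    Vf_inner _ _ _ e x hx, Vf_normSq _ _ _ e he x hx, nFp_in _ hs1.le, qG_in x hx.le]
  generalize hS : ‖x‖ ^ 2 = s at *
  obtain ⟨C, hC⟩ : ∃ C, ce e x = s * C := ⟨ce e x / s, by field_simp⟩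
  rw [hC] at hce ⊢
  have hC1 : |C| ≤ 1 := by
    rw [abs_mul, abs_of_pos hs0] at hce
    by_contra h
    push Not at h
    nlinarith
  obtain ⟨p1, p2, p3, p4, p5⟩ := enc_pack s hs0.le hs1
  have hst := star s (nF s) (nhs s / (1 - s)) ((1 - nh s) / (1 - s) ^ 2) gam C t hs0.le hs1.le p1 p2
    p3 p4 hC1 ht0 ht1
  have ht : 0 < 1 - s := by linarith
  have hk : nhs s = (1 - s) * (nhs s / (1 - s)) := by field_simp
  have hK : 1 - nh s = (1 - s) ^ 2 * ((1 - nh s) / (1 - s) ^ 2) := by field_simp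
  have hhs : nhs s = nF s + s * deriv nF s := rfl
  have hFpos := nF_pos s hs1.le
  have hnh : nh s = s * nF s := rfl
  have a1 := MainP_alg1 s t (nF s) (deriv nF s) (deriv (deriv nF) s) (g1 s) gam (s * C) (nhs s)
    (deriv nhs s) hhs (Ode_deriv_nhs s hs1.le) (ode s hs1)
  have a2 := MainP_alg2 s t (nF s) (deriv nF s) gam C (nhs s / (1 - s)) (nhs s) hhs hk
  rw [MainP_dA t s hs1.le, MainP_dB t s hs1.le, MainP_dD t s hs1.le]
  have b1 : s * mA t s ^ 2 + 2 * mA t s * (s * C) * (mB t s * (s * C) + mD t s) +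
      s * (mB t s * (s * C) + mD t s) ^ 2 = _ := a2
  rw [b1]
  set k := nhs s / (1 - s) with hkd
  set K := (1 - nh s) / (1 - s) ^ 2 with hKd
  set L := s * ((2 * (51 / 25 + 7 / 50 * s) * k * C + 2 * t * (67 / 50 * (1 - s) ^ 3) * k) ^ 2
        + (nF s * (2 * (51 / 25) + 7 / 100 * gam * s) + 2 * (7 / 50) * s * k) ^ 2 * (1 - C ^ 2)) with hL
  have c1 : 0 < 1 - 9 / 10 * t ^ 2 := by nlinarith
  have c2 : 1 - nh s ^ 2 = (1 - s) ^ 2 * ((1 + s * nF s) * K) := by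
    have : 1 - nh s ^ 2 = (1 - nh s) * (1 + nh s) := by ring
    rw [this, hK, hnh]; ring
  have c3 : 0 < (1 + s * nF s) * K := by
    have : 0 < s * nF s := mul_pos hs0 hFpos
    exact mul_pos (by linarith) (by linarith)
  have c4 : t ^ 2 * (1 - s) ^ 2 * L / ((1 - 9 / 10 * t ^ 2) * (1 - nh s ^ 2)) ≤
      t ^ 2 * S2 s (nF s) k gam := by
    rw [c2, div_le_iff₀ (by positivity)]
    have c5 := mul_le_mul_of_nonneg_left hst (by positivity : 0 ≤ t ^ 2 * (1 - s) ^ 2)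
    refine c5.trans (le_of_eq ?_)
    ring
  have a3 : (2 * (t * ((-nF s + (1 - s) * deriv nF s) * (2 * (51 / 25) + 7 / 100 * gam * s) +
        (1 - s) * nF s * (7 / 100 * gam) + 2 * (7 / 50) * (nhs s + s * deriv nhs s))) +
      4 * mB t s +
      2 * s * (t * (2 * (51 / 25) * (deriv nF s + deriv (deriv nF) s) + 7 / 100 * gam * nF s -
        7 / 100 * gam * (1 - s) * deriv nF s))) * (s * C) +
      2 * mD t s +
      2 * s * (2 * t ^ 2 * (67 / 50) * (-(3 * (1 - s) ^ 2) * nhs s + (1 - s) ^ 3 * deriv nhs s)) +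
      4 * g1 s * (s * C * (mA t s + s * mB t s) + s * mD t s) = _ := a1
  have d1 : S2 s (nF s) k gam = (109 / 50 - 1) * gam - 4 * (109 / 50) - 1 / 10 +
      12 * (67 / 50) * s * (1 - s) ^ 2 * nhs s
    - (67 / 50) * (1 - s) ^ 3 * nF s * (4 - gam * s)
    + 9 / 10 * (gam * nh s ^ 2 - 4 * s * nF s ^ 2 - 4 * s * nhs s ^ 2) := by
    rw [hk, hnh]
    unfold S2
    ring
  rw [d1] at c4
  linarith

end Pool.Agent.H94.SP
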