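import Pool.Agent.H94.ER.BjB

/-!
# NA: `|bj d s| ≤ 1` and the Taylor bound of `bj d` (`s ≥ 0`, `d ≥ 1`)

1. `E s = bj d s ^ 2 + s * bj (d+2) s ^ 2 / d ^ 2`: `E 0 = 1` (`bj_at_zero`) and, by `hasDerivAt_bj` for `d` and `d + 2` and
   `bj_contig d` (`s * bj (d+4) s / (d (d+2)) = bj (d+2) s - bj d s`),
   `E' s = - bj d bj(d+2)/d + bj(d+2)^2/d^2 - s bj(d+2) bj(d+4)/(d^2(d+2)) = bj (d+2) s ^ 2 * (1 - d) / d ^ 2 ≤ 0` for `s ≥ 0`.
   So `bj d s ^ 2 ≤ E s ≤ 1`.
2. Taylor: induction on `n` for all `d ≥ 1` at once. `n = 0`: part 1 (`BjA_c d 0 = 1`). Step: put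
   `R s = bj d s - ∑ k < n+1, BjA_c d k (-s)^k`. `R 0 = 0`; using `hasDerivAt_bj` and `BjA_c_succ`
   (`BjA_c d (k+1) (k+1) = BjA_c (d+2) k / (2 d)`), `R' s = - (1/(2d)) (bj (d+2) s - ∑ k < n, BjA_c (d+2) k (-s)^k)`,
   so `|R' s| ≤ BjA_c (d+2) n s^n / (2 d) = (n+1) BjA_c d (n+1) s^n`, the derivative of `BjA_c d (n+1) s^(n+1)`;
   compare (e.g. `image_norm_le_of_norm_deriv_right_le_deriv_boundary`, or monotonicity of `B ± R` on `[0, ∞)`).
-/

set_option autoImplicit false

open Pool.Agent.H94.ER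

namespace Pool.Agent.H94.SP

theorem NA_energy_deriv (d : ℝ) (hd : 1 ≤ d) (s : ℝ) :
    HasDerivAt (fun s => bj d s ^ 2 + s * bj (d + 2) s ^ 2 / d ^ 2)
      (bj (d + 2) s ^ 2 * (1 - d) / d ^ 2) s := by
  have hd0 : 0 < d := by linarith
  have h1 := hasDerivAt_bj d hd0 s
  have h2 := hasDerivAt_bj (d + 2) (by linarith) s
  have h3 := bj_contig d hd0 s
  have h4 := (h1.pow 2).add (((hasDerivAt_id s).mul (h2.pow 2)).div_const (d ^ 2))
  refine h4.congr_deriv ?_
  have e : s * bj (d + 2 + 2) s = d * (d + 2) * (bj (d + 2) s - bj d s) := by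
    rw [show d + 2 + 2 = d + 4 by ring]
    have : bj (d + 2) s - bj d s = s / (d * (d + 2)) * bj (d + 4) s := by rw [h3]; ring
    rw [this]
    have : d + 2 ≠ 0 := by linarith
    field_simp
  have hd2 : d + 2 ≠ 0 := by linarith
  simp only [id_eq, Pi.pow_apply]
  have e2 : s * bj (d + 2 + 2) s * bj (d + 2) s / (d ^ 2 * (d + 2))
      = (bj (d + 2) s - bj d s) * bj (d + 2) s / d := by
    rw [e]; field_simp
  have e3 : (2 : ℕ) * bj d s ^ (2 - 1) * (-bj (d + 2) s / (2 * d))
      + (1 * bj (d + 2) s ^ 2 + s * ((2 : ℕ) * bj (d + 2) s ^ (2 - 1)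
        * (-bj (d + 2 + 2) s / (2 * (d + 2))))) / d ^ 2
      = - (bj d s * bj (d + 2) s / d) + bj (d + 2) s ^ 2 / d ^ 2
        - s * bj (d + 2 + 2) s * bj (d + 2) s / (d ^ 2 * (d + 2)) := by
    push_cast
    field_simp
    ring
  rw [e3, e2]
  field_simp
  ring

theorem bj_abs_le_one (d : ℝ) (hd : 1 ≤ d) (s : ℝ) (hs : 0 ≤ s) : |bj d s| ≤ 1 := by
  have hd0 : 0 < d := by linarith
  set E : ℝ → ℝ := fun s => bj d s ^ 2 + s * bj (d + 2) s ^ 2 / d ^ 2 with hE
  have hder : ∀ s, HasDerivAt E (bj (d + 2) s ^ 2 * (1 - d) / d ^ 2) s := NA_energy_deriv d hd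
  have hanti : AntitoneOn E (Set.Ici 0) := by
    apply antitoneOn_of_deriv_nonpos (convex_Ici 0)
    · exact fun x _ => (hder x).continuousAt.continuousWithinAt
    · exact fun x _ => (hder x).differentiableAt.differentiableWithinAt
    · intro x _
      rw [(hder x).deriv]
      apply div_nonpos_of_nonpos_of_nonneg _ (by positivity)
      exact mul_nonpos_of_nonneg_of_nonpos (by positivity) (by linarith)
  have h1 : E s ≤ E 0 := hanti (Set.mem_Ici.2 le_rfl) (Set.mem_Ici.2 hs) hs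
  have h2 : E 0 = 1 := by simp [hE, bj_at_zero]
  have h3 : bj d s ^ 2 ≤ E s := by
    simp only [hE]
    have : 0 ≤ s * bj (d + 2) s ^ 2 / d ^ 2 := by positivity
    linarith
  have h4 : bj d s ^ 2 ≤ 1 := by linarith
  exact abs_le_one_iff_mul_self_le_one.2 (by nlinarith)

theorem NA_sum_deriv (d : ℝ) (hd : 0 < d) (n : ℕ) (s : ℝ) :
    HasDerivAt (fun s => ∑ k ∈ Finset.range (n + 1), BjA_c d k * (-s) ^ k)
      (-(∑ k ∈ Finset.range n, BjA_c (d + 2) k * (-s) ^ k) / (2 * d)) s := by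
  have hfun : (fun s : ℝ => ∑ k ∈ Finset.range (n + 1), BjA_c d k * (-s) ^ k)
      = fun s => ∑ k ∈ Finset.range n, BjA_c d (k + 1) * (-s) ^ (k + 1) + BjA_c d 0 := by
    funext s
    rw [Finset.sum_range_succ']
    simp
  rw [hfun]
  have h1 : ∀ k ∈ Finset.range n, HasDerivAt (fun s : ℝ => BjA_c d (k + 1) * (-s) ^ (k + 1))
      (-(BjA_c (d + 2) k * (-s) ^ k) / (2 * d)) s := by
    intro k _
    have h2 := (((hasDerivAt_id s).neg).pow (k + 1)).const_mul (BjA_c d (k + 1))
    refine h2.congr_deriv ?_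
    have h3 := BjA_c_succ d hd k
    have h4 : BjA_c (d + 2) k = BjA_c d (k + 1) * (k + 1) * (2 * d) := by
      rw [h3]; field_simp
    rw [h4]
    simp only [id_eq, Pi.neg_apply, Nat.add_sub_cancel]
    push_cast
    field_simp
  have h5 := (HasDerivAt.fun_sum h1).add_const (BjA_c d 0)
  refine h5.congr_deriv ?_
  rw [neg_div, Finset.sum_div, ← Finset.sum_neg_distrib]
  refine Finset.sum_congr rfl fun k _ => ?_
  ring

theorem bj_taylor (d : ℝ) (hd : 1 ≤ d) (n : ℕ) (s : ℝ) (hs : 0 ≤ s) :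
    |bj d s - ∑ k ∈ Finset.range n, BjA_c d k * (-s) ^ k| ≤ BjA_c d n * s ^ n := by
  induction n generalizing d s with
  | zero =>
    have h1 := bj_abs_le_one d hd s hs
    simp only [Finset.range_zero, Finset.sum_empty, sub_zero, pow_zero, mul_one]
    simpa [BjA_c] using h1
  | succ n ih =>
    have hd0 : 0 < d := by linarith
    set R : ℝ → ℝ := fun s => bj d s - ∑ k ∈ Finset.range (n + 1), BjA_c d k * (-s) ^ k with hR
    set B : ℝ → ℝ := fun s => BjA_c d (n + 1) * s ^ (n + 1) with hB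
    set R' : ℝ → ℝ := fun s =>
      -(bj (d + 2) s - ∑ k ∈ Finset.range n, BjA_c (d + 2) k * (-s) ^ k) / (2 * d) with hR'
    set B' : ℝ → ℝ := fun s => BjA_c (d + 2) n * s ^ n / (2 * d) with hB'
    have hRd : ∀ s, HasDerivAt R (R' s) s := by
      intro s
      refine ((hasDerivAt_bj d hd0 s).sub (NA_sum_deriv d hd0 n s)).congr_deriv ?_
      simp only [hR']
      ring
    have hBd : ∀ s, HasDerivAt B (B' s) s := by
      intro s
      refine ((hasDerivAt_pow (n + 1) s).const_mul (BjA_c d (n + 1))).congr_deriv ?_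
      have h3 := BjA_c_succ d hd0 n
      simp only [hB', Nat.add_sub_cancel]
      push_cast
      rw [mul_div_right_comm, ← h3]
      ring
    have hle : ∀ s, 0 ≤ s → |R' s| ≤ B' s := by
      intro s hs
      have h1 := ih (d + 2) (by linarith) s hs
      simp only [hR', hB']
      rw [abs_div, abs_neg, abs_of_pos (by linarith : (0 : ℝ) < 2 * d)]
      exact div_le_div_of_nonneg_right h1 (by linarith)
    have hR0 : R 0 = 0 := by
      simp only [hR, bj_at_zero]
      rw [Finset.sum_range_succ']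
      simp [BjA_c]
    have hB0 : B 0 = 0 := by simp [hB]
    have hm1 : MonotoneOn (fun s => B s - R s) (Set.Ici 0) := by
      apply monotoneOn_of_deriv_nonneg (convex_Ici 0)
      · exact fun x _ => ((hBd x).sub (hRd x)).continuousAt.continuousWithinAt
      · exact fun x _ => ((hBd x).sub (hRd x)).differentiableAt.differentiableWithinAt
      · intro x hx
        rw [interior_Ici] at hx
        rw [((hBd x).fun_sub (hRd x)).deriv]
        have := (abs_le.1 (hle x (le_of_lt hx))).2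
        linarith
    have hm2 : MonotoneOn (fun s => B s + R s) (Set.Ici 0) := by
      apply monotoneOn_of_deriv_nonneg (convex_Ici 0)
      · exact fun x _ => ((hBd x).add (hRd x)).continuousAt.continuousWithinAt
      · exact fun x _ => ((hBd x).add (hRd x)).differentiableAt.differentiableWithinAt
      · intro x hx
        rw [interior_Ici] at hx
        rw [((hBd x).fun_add (hRd x)).deriv]
        have := (abs_le.1 (hle x (le_of_lt hx))).1
        linarith
    have e1 := hm1 (Set.mem_Ici.2 le_rfl) (Set.mem_Ici.2 hs) hs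
    have e2 := hm2 (Set.mem_Ici.2 le_rfl) (Set.mem_Ici.2 hs) hs
    simp only [hR0, hB0, sub_zero, add_zero] at e1 e2
    change |R s| ≤ B s
    rw [abs_le]
    constructor <;> linarith

end Pool.Agent.H94.SP
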