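import Pool.Agent.H94.SP.NA
import Pool.Agent.H94.ER.BjC

/-!
# NB: enclosures of `bz 2`, `bz 4`, `bz 6`

(true values 5.78318596..., 14.68197064..., 26.37461642...)

* lower bounds: if `bj d a > 0` and `a ≤ bz (d+4)` then `a < bz d` (otherwise `bz d = a`, `bj d a = 0` (`bj_bz`), or
  `bz d < a`, `bj d a < 0` (`bj_neg2`)). `a ≤ bz (d+4)`: `bz_le_of_pos`-style lemma: if `bj D s > 0` for all `0 ≤ s ≤ a` then
  `a ≤ bz D` (else `bj D (bz D) = 0`). By `bj_taylor` with `n = 1`: `bj D s ≥ 1 - s/(2D)`, so `bz D ≥ 2 D` (`D = 6: 12 ≥ 5.79`,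
  `D = 8: 16 ≥ 14.69`). For `D = 10` use `n = 3`: `bj 10 s ≥ 1 - s/20 + s^2/960 - s^3/80640 > 0` for `0 ≤ s ≤ 26.4`
  (decreasing, value `.178` at `26.4`).
* upper bounds: if `bj d b < 0`, `0 < b` then `bz d < b` (`bj_pos`, `bj_bz`).
* signs of `bj d` at the six points: `bj_taylor` with `n = 9` (`d = 2`; value about `± 1.1e-7`), `n = 12` (`d = 4`; value about
  `± 2.6e-7`), `n = 14` (`d = 6`; values about `6.4e-8`, `-3.6e-8`); rational arithmetic
  (`norm_num [Finset.sum_range_succ, Finset.prod_range_succ, BjA_c, Nat.factorial]`).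
-/

set_option autoImplicit false

open Pool.Agent.H94.ER

namespace Pool.Agent.H94.SP

theorem NB_low {D a : ℝ} (hD : 2 ≤ D) (h : ∀ s, 0 ≤ s → s ≤ a → 0 < bj D s) : a ≤ bz D := by
  by_contra hc
  push Not at hc
  have h1 := h (bz D) (bz_pos D hD).le hc.le
  rw [bj_bz D hD] at h1
  exact lt_irrefl _ h1

theorem NB_lo {d a : ℝ} (hd : 2 ≤ d) (hp : 0 < bj d a) (ha : a ≤ bz (d + 4)) : a < bz d := by
  by_contra hc
  push Not at hc
  rcases lt_or_eq_of_le hc with h | h
  · have := bj_neg2 d hd a h ha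
    linarith
  · rw [← h, bj_bz d hd] at hp
    exact lt_irrefl _ hp

theorem NB_hi {d b : ℝ} (hd : 2 ≤ d) (hb : bj d b < 0) : bz d < b := by
  by_contra hc
  push Not at hc
  rcases lt_or_eq_of_le hc with h | h
  · have := bj_pos d hd b h
    linarith
  · rw [h, bj_bz d hd] at hb
    exact lt_irrefl _ hb

theorem NB_c1 {D s : ℝ} (hD : 2 ≤ D) (hs : 0 ≤ s) : 1 - s / (2 * D) ≤ bj D s := by
  have h := (abs_le.1 (bj_taylor D (by linarith) 1 s hs)).1
  simp only [Finset.sum_range_succ, Finset.sum_range_zero, BjA_c, Finset.prod_range_succ,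
    Finset.prod_range_zero, Nat.factorial, pow_zero, pow_one] at h
  have e : 1 / (4 * ((0 + 1) * 1 : ℕ) * (1 * (D / 2 + (0 : ℕ)))) * s = s / (2 * D) := by
    push_cast
    have : D ≠ 0 := by linarith
    field_simp
    ring
  rw [e] at h
  norm_num at h
  linarith

theorem NB_six : (5783185 : ℝ) / 1000000 ≤ bz (2 + 4) := by
  refine NB_low (by norm_num) fun s h0 h1 => ?_
  have := NB_c1 (D := 2 + 4) (by norm_num) h0
  norm_num at this h1 ⊢
  linarith

theorem NB_eight : (1468196 : ℝ) / 100000 ≤ bz (4 + 4) := by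
  refine NB_low (by norm_num) fun s h0 h1 => ?_
  have := NB_c1 (D := 4 + 4) (by norm_num) h0
  norm_num at this h1 ⊢
  linarith

theorem NB_ten : (2637461 : ℝ) / 100000 ≤ bz (6 + 4) := by
  refine NB_low (by norm_num) fun s h0 h1 => ?_
  have h := (abs_le.1 (bj_taylor (6 + 4) (by norm_num) 3 s h0)).1
  norm_num [Finset.sum_range_succ, Finset.prod_range_succ, BjA_c, Nat.factorial] at h ⊢
  obtain ⟨t, rfl⟩ : ∃ t, s = 264 / 10 - t := ⟨264 / 10 - s, by ring⟩
  have ht : 0 ≤ t := by linarith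
  nlinarith [pow_nonneg ht 2, pow_nonneg ht 3]

theorem bz2_lo : (5783185 : ℝ) / 1000000 < bz 2 := by
  refine NB_lo le_rfl ?_ NB_six
  have h := (abs_le.1 (bj_taylor 2 (by norm_num) 9 (5783185 / 1000000) (by norm_num))).1
  norm_num [Finset.sum_range_succ, Finset.prod_range_succ, BjA_c, Nat.factorial] at h ⊢
  linarith

theorem bz2_hi : bz 2 < (5783187 : ℝ) / 1000000 := by
  refine NB_hi le_rfl ?_
  have h := (abs_le.1 (bj_taylor 2 (by norm_num) 9 (5783187 / 1000000) (by norm_num))).2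
  norm_num [Finset.sum_range_succ, Finset.prod_range_succ, BjA_c, Nat.factorial] at h ⊢
  linarith

theorem bz4_lo : (1468196 : ℝ) / 100000 < bz 4 := by
  refine NB_lo (by norm_num) ?_ NB_eight
  have h := (abs_le.1 (bj_taylor 4 (by norm_num) 12 (1468196 / 100000) (by norm_num))).1
  norm_num [Finset.sum_range_succ, Finset.prod_range_succ, BjA_c, Nat.factorial] at h ⊢
  linarith

theorem bz4_hi : bz 4 < (1468198 : ℝ) / 100000 := by
  refine NB_hi (by norm_num) ?_
  have h := (abs_le.1 (bj_taylor 4 (by norm_num) 12 (1468198 / 100000) (by norm_num))).2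
  norm_num [Finset.sum_range_succ, Finset.prod_range_succ, BjA_c, Nat.factorial] at h ⊢
  linarith

theorem bz6_lo : (2637461 : ℝ) / 100000 < bz 6 := by
  refine NB_lo (by norm_num) ?_ NB_ten
  have h := (abs_le.1 (bj_taylor 6 (by norm_num) 14 (2637461 / 100000) (by norm_num))).1
  norm_num [Finset.sum_range_succ, Finset.prod_range_succ, BjA_c, Nat.factorial] at h ⊢
  linarith

theorem bz6_hi : bz 6 < (2637462 : ℝ) / 100000 := by
  refine NB_hi (by norm_num) ?_
  have h := (abs_le.1 (bj_taylor 6 (by norm_num) 14 (2637462 / 100000) (by norm_num))).2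
  norm_num [Finset.sum_range_succ, Finset.prod_range_succ, BjA_c, Nat.factorial] at h ⊢
  linarith

end Pool.Agent.H94.SP
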