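import Pool.Agent.H94.SP.NC
import Pool.Agent.H94.SP.ND

/-!
# NE: the constant `ρ = F0 2 2 1` and the function `g = ρ U - s V`

`U s = bj 2 (bz 2 * s)`, `V s = bj 6 (bz 6 * s)`, `l = bz 2`, `m = bz 6`.
1. `F0 2 2 1 = uh 6 1 / uh 2 1` (casts), `enc_uh2`, `enc_uh6` at `s = 1`: `ub 1 = .6242...`, `vb 1 = .26456...`.
2. `g 1 = 0` (`bj_bz`). `g' = ρ U' - V - s V'`, `U' = -(l/4) bj 4 (l s)`, `V' = -(m/12) bj 8 (m s)`; at `1`: `U' 1 = - uh 2 1`,
   `V' 1 = - uh 6 1` (differentiate `uh_mul`, or `uh d 1 = bz d * bj (d+2) (bz d) / (2 d)` by definition), so `g' 1 = 0`.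
   `g'' = ρ U'' - 2 V' - s V''`; `4 s U'' + 4 U' + l U = 0`, `4 s V'' + 12 V' + m V = 0` (`PrC_hasDerivAt2` for `d = 2, 6`), so at `1`
   `U'' = - U'`, `V'' = - 3 V'`, `g'' 1 = - ρ U' 1 + V' 1 = 0`.
   `U'' = (l^2/32) bj 6 (l s)`, `U''' = -(l^3/384) bj 8 (l s)`, `V'' = (m^2/192) bj 10 (m s)`, `V''' = -(m^3/3840) bj 12 (m s)`:
   `g''' = -ρ (l^3/384) bj 8 (l s) - (m^2/64) bj 10 (m s) + s (m^3/3840) bj 12 (m s)`.
3. `|g''' - ((1-s)^3 Gb)'''| ≤ 1e-4` on `[0,1]`: replace `l, m, ρ` by `l0 = 5.783186, m0 = 26.374616, ρ0 = .42382`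
   (cost `≤ 1.6e-5` for `ρ`: `|ρ - ρ0| ≤ 3e-5`, `l^3/384 ≤ .504`; `≤ 1e-6` for `l`; for `m`, `|m - m0| ≤ 6e-6`:
   `m^2/64 bj 10 (m s)` has `m`-derivative `≤ 2m/64 + (m^2/64)/20 ≤ 1.4`, `m^3/3840 bj 12 (m s)` has `m`-derivative
   `≤ 3 m^2/3840 + (m^3/3840)/24 ≤ .75`: cost `≤ 1.3e-5`); `bj_taylor` with `n = 10` for the three functions (total error `≤ 1.5e-7`);
   the remaining polynomial difference has coefficients of absolute sum `≤ 1e-5`.
4. `D = g - (1-s)^3 Gb` has `D 1 = D' 1 = D'' 1 = 0`, `|D'''| ≤ 1e-4`: integrate three times from `1`: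
   `|D''| ≤ 1e-4 (1-s)`, `|D'| ≤ 1e-4 (1-s)^2/2`, `|D| ≤ 1e-4 (1-s)^3/6`. `((1-s)^3 Gb)' = (1-s)^2 Gt`.
-/

set_option autoImplicit false

open Pool.Agent.H94.ER

namespace Pool.Agent.H94.SP

/-- `g = ρ U - s V` -/
noncomputable def gg (s : ℝ) : ℝ := F0 2 2 1 * bj 2 (bz 2 * s) - s * bj 6 (bz 6 * s)

theorem NE_d (c z d d' : ℝ) (hd : 0 < d) (hd' : d' = d + 2) (s : ℝ) :
    HasDerivAt (fun t => c * bj d (z * t)) (-(c * z / (2 * d)) * bj d' (z * s)) s := by
  have h1 := hasDerivAt_bj d hd (z * s)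
  have h2 : HasDerivAt (fun t : ℝ => z * t) z s := by
    simpa using (hasDerivAt_id s).const_mul z
  have h3 := (HasDerivAt.comp s h1 h2).const_mul c
  refine h3.congr_deriv ?_
  rw [hd']
  ring

/-- first derivative of `gg` -/
noncomputable def NE_g1 (r l m s : ℝ) : ℝ :=
  -(r * l / 4) * bj 4 (l * s) - 1 * bj 6 (m * s) + s * (m / 12 * bj 8 (m * s))

/-- second derivative of `gg` -/
noncomputable def NE_g2 (r l m s : ℝ) : ℝ :=
  r * l ^ 2 / 32 * bj 6 (l * s) + m / 6 * bj 8 (m * s) - s * (m ^ 2 / 192 * bj 10 (m * s))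

/-- third derivative of `gg` -/
noncomputable def NE_g3 (r l m s : ℝ) : ℝ :=
  -(r * l ^ 3 / 384 * bj 8 (l * s)) - m ^ 2 / 64 * bj 10 (m * s) + s * (m ^ 3 / 3840 * bj 12 (m * s))

theorem NE_gg1 (s : ℝ) : HasDerivAt gg (NE_g1 (F0 2 2 1) (bz 2) (bz 6) s) s := by
  have h1 := NE_d (F0 2 2 1) (bz 2) 2 4 (by norm_num) (by norm_num) s
  have h2 := NE_d 1 (bz 6) 6 8 (by norm_num) (by norm_num) s
  have h3 := h1.sub ((hasDerivAt_id' s).mul h2)
  have e : gg = fun t => F0 2 2 1 * bj 2 (bz 2 * t) - t * (1 * bj 6 (bz 6 * t)) := by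
    funext t
    unfold gg
    ring
  rw [e]
  refine h3.congr_deriv ?_
  simp only [NE_g1]
  ring

theorem NE_gg2 (r l m s : ℝ) : HasDerivAt (NE_g1 r l m) (NE_g2 r l m s) s := by
  have h1 := NE_d (-(r * l / 4)) l 4 6 (by norm_num) (by norm_num) s
  have h2 := NE_d 1 m 6 8 (by norm_num) (by norm_num) s
  have h3 := NE_d (m / 12) m 8 10 (by norm_num) (by norm_num) s
  have h4 := (h1.sub h2).add ((hasDerivAt_id' s).mul h3)
  refine h4.congr_deriv ?_
  simp only [NE_g2]
  ring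

theorem NE_gg3 (r l m s : ℝ) : HasDerivAt (NE_g2 r l m) (NE_g3 r l m s) s := by
  have h1 := NE_d (r * l ^ 2 / 32) l 6 8 (by norm_num) (by norm_num) s
  have h2 := NE_d (m / 6) m 8 10 (by norm_num) (by norm_num) s
  have h3 := NE_d (m ^ 2 / 192) m 10 12 (by norm_num) (by norm_num) s
  have h4 := (h1.add h2).sub ((hasDerivAt_id' s).mul h3)
  refine h4.congr_deriv ?_
  simp only [NE_g3]
  ring

theorem NE_rho : F0 2 2 1 = uh 6 1 / uh 2 1 := by
  have e : ((2 : ℕ) : ℝ) + 2 * ((2 : ℕ) : ℝ) = 6 := by norm_num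
  have e2 : ((2 : ℕ) : ℝ) = 2 := by norm_num
  unfold F0
  rw [e, e2]

theorem NE_uh2 : uh 2 1 = bz 2 * bj 4 (bz 2) / 4 := by
  have e : (2 : ℝ) + 2 = 4 := by norm_num
  have e2 : (2 : ℝ) * 2 = 4 := by norm_num
  unfold uh
  rw [if_pos rfl, e, e2]

theorem NE_uh6 : uh 6 1 = bz 6 * bj 8 (bz 6) / 12 := by
  have e : (6 : ℝ) + 2 = 8 := by norm_num
  have e2 : (2 : ℝ) * 6 = 12 := by norm_num
  unfold uh
  rw [if_pos rfl, e, e2]

theorem NE_uh2_pos : 0 < uh 2 1 := by
  have h := abs_le.1 (enc_uh2 1 (by norm_num) le_rfl)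
  have e : ub 1 = (780287 / 1250000 : ℝ) := by
    unfold ub
    norm_num
  rw [e] at h
  norm_num at h
  linarith [h.1]

theorem NE_g1_one : NE_g1 (F0 2 2 1) (bz 2) (bz 6) 1 = 0 := by
  have h1 : F0 2 2 1 * uh 2 1 = uh 6 1 := by
    rw [NE_rho]
    exact div_mul_cancel₀ _ NE_uh2_pos.ne'
  rw [NE_uh2, NE_uh6] at h1
  have h2 : bj 6 (bz 6) = 0 := bj_bz 6 (by norm_num)
  simp only [NE_g1, mul_one, h2]
  linear_combination -h1

theorem NE_g2_one : NE_g2 (F0 2 2 1) (bz 2) (bz 6) 1 = 0 := by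
  have h1 : F0 2 2 1 * uh 2 1 = uh 6 1 := by
    rw [NE_rho]
    exact div_mul_cancel₀ _ NE_uh2_pos.ne'
  rw [NE_uh2, NE_uh6] at h1
  have h2 : bj 6 (bz 6) = 0 := bj_bz 6 (by norm_num)
  have h3 : bj 2 (bz 2) = 0 := bj_bz 2 (by norm_num)
  have c2 := bj_contig 2 (by norm_num) (bz 2)
  have c6 := bj_contig 6 (by norm_num) (bz 6)
  norm_num at c2 c6
  rw [h3] at c2
  rw [h2] at c6
  simp only [NE_g2, mul_one]
  linear_combination h1 + F0 2 2 1 * bz 2 / 4 * c2 - bz 6 / 4 * c6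

theorem NE_gg_one : gg 1 = 0 := by
  have h2 : bj 6 (bz 6) = 0 := bj_bz 6 (by norm_num)
  have h3 : bj 2 (bz 2) = 0 := bj_bz 2 (by norm_num)
  simp only [gg, mul_one, h2, h3]
  ring

/-- comparison from `1` -/
theorem NE_int (f f' : ℝ → ℝ) (c : ℝ) (n : ℕ) (hf : ∀ s, HasDerivAt f (f' s) s) (h1 : f 1 = 0)
    (hb : ∀ s, 0 ≤ s → s ≤ 1 → |f' s| ≤ c * (1 - s) ^ n) (s : ℝ) (hs0 : 0 ≤ s) (hs1 : s ≤ 1) :
    |f s| ≤ c / (n + 1) * (1 - s) ^ (n + 1) := by
  have hn : (n : ℝ) + 1 ≠ 0 := by positivity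
  have hp : ∀ t : ℝ, HasDerivAt (fun t => c / (n + 1) * (1 - t) ^ (n + 1)) (-(c * (1 - t) ^ n)) t := by
    intro t
    have a1 : HasDerivAt (fun t : ℝ => 1 - t) (-1) t := by
      simpa using (hasDerivAt_id' t).const_sub 1
    have a2 := (a1.pow (n + 1)).const_mul (c / (n + 1))
    refine a2.congr_deriv ?_
    push_cast
    field_simp
  have key : ∀ g g' : ℝ → ℝ, (∀ s, HasDerivAt g (g' s) s) → g 1 = 0 →
      (∀ s, 0 ≤ s → s ≤ 1 → g' s ≤ c * (1 - s) ^ n) →
      -(c / (n + 1) * (1 - s) ^ (n + 1)) ≤ g s := by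
    intro g g' hg hg1 hgb
    have hd : ∀ t : ℝ, HasDerivAt (fun t => g t + c / (n + 1) * (1 - t) ^ (n + 1))
        (g' t + -(c * (1 - t) ^ n)) t := fun t => (hg t).add (hp t)
    have hanti : AntitoneOn (fun t => g t + c / (n + 1) * (1 - t) ^ (n + 1)) (Set.Icc 0 1) := by
      refine antitoneOn_of_deriv_nonpos (convex_Icc 0 1) ?_ ?_ ?_
      · exact fun t _ => (hd t).continuousAt.continuousWithinAt
      · exact fun t _ => (hd t).differentiableAt.differentiableWithinAt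
      · intro t ht
        rw [interior_Icc] at ht
        rw [(hd t).deriv]
        have := hgb t ht.1.le ht.2.le
        linarith
    have h2 := hanti ⟨hs0, hs1⟩ ⟨zero_le_one, le_rfl⟩ hs1
    have e0 : (1 - (1 : ℝ)) ^ (n + 1) = 0 := by
      rw [sub_self]
      exact zero_pow (Nat.succ_ne_zero n)
    simp only [hg1, e0, mul_zero, add_zero] at h2
    linarith
  rw [abs_le]
  constructor
  · exact key f f' hf h1 fun t ht0 ht1 => (abs_le.1 (hb t ht0 ht1)).2
  · have := key (fun t => -f t) (fun t => -f' t) (fun t => (hf t).neg) (by simp [h1])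
      fun t ht0 ht1 => by linarith [(abs_le.1 (hb t ht0 ht1)).1]
    linarith

theorem NE_lip (d : ℝ) (hd : 1 ≤ d) (x y : ℝ) (hx : 0 ≤ x) (hy : 0 ≤ y) :
    |bj d x - bj d y| ≤ 1 / (2 * d) * |x - y| := by
  have hd0 : 0 < d := by linarith
  have h := (convex_Ici (0 : ℝ)).norm_image_sub_le_of_norm_hasDerivWithin_le (f := bj d)
    (f' := fun s => -(bj (d + 2) s) / (2 * d)) (C := 1 / (2 * d)) (x := y) (y := x)
    (fun t _ => (hasDerivAt_bj d hd0 t).hasDerivWithinAt) (fun t ht => ?_) hy hx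
  · simpa [Real.norm_eq_abs] using h
  · rw [Real.norm_eq_abs, abs_div, abs_neg, abs_of_pos (by linarith : (0 : ℝ) < 2 * d)]
    have := bj_abs_le_one (d + 2) (by linarith) t ht
    exact div_le_div_of_nonneg_right this (by linarith)

/-- replacement of the constants and Taylor polynomial -/
theorem NE_rep (d : ℝ) (hd : 1 ≤ d) (A A0 z z0 s α δ τ : ℝ) (hz : 0 ≤ z) (hz0 : 0 ≤ z0) (hs0 : 0 ≤ s)
    (hs1 : s ≤ 1) (hA : |A - A0| ≤ α) (hδ : |z - z0| ≤ δ) (hA0 : 0 ≤ A0)
    (hτ : A0 * (BjA_c d 10 * z0 ^ 10) ≤ τ) :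
    |A * bj d (z * s) - A0 * ∑ k ∈ Finset.range 10, BjA_c d k * (-(z0 * s)) ^ k|
      ≤ α + A0 * (1 / (2 * d) * δ) + τ := by
  have hd0 : 0 < d := by linarith
  have b1 : |bj d (z * s)| ≤ 1 := bj_abs_le_one d hd _ (mul_nonneg hz hs0)
  have b2 : |bj d (z * s) - bj d (z0 * s)| ≤ 1 / (2 * d) * δ := by
    refine (NE_lip d hd _ _ (mul_nonneg hz hs0) (mul_nonneg hz0 hs0)).trans ?_
    refine mul_le_mul_of_nonneg_left ?_ (by positivity)
    rw [← sub_mul, abs_mul, abs_of_nonneg hs0]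
    calc |z - z0| * s ≤ |z - z0| * 1 := mul_le_mul_of_nonneg_left hs1 (abs_nonneg _)
      _ ≤ δ := by rw [mul_one]; exact hδ
  have b3 := bj_taylor d hd 10 (z0 * s) (mul_nonneg hz0 hs0)
  have b4 : BjA_c d 10 * (z0 * s) ^ 10 ≤ BjA_c d 10 * z0 ^ 10 := by
    refine mul_le_mul_of_nonneg_left ?_ (BjA_c_pos d hd0 10).le
    refine pow_le_pow_left₀ (mul_nonneg hz0 hs0) ?_ 10
    calc z0 * s ≤ z0 * 1 := mul_le_mul_of_nonneg_left hs1 hz0
      _ = z0 := mul_one _
  set T := ∑ k ∈ Finset.range 10, BjA_c d k * (-(z0 * s)) ^ k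
  have c1 : |(A - A0) * bj d (z * s)| ≤ α := by
    rw [abs_mul]
    calc |A - A0| * |bj d (z * s)| ≤ |A - A0| * 1 := mul_le_mul_of_nonneg_left b1 (abs_nonneg _)
      _ ≤ α := by rw [mul_one]; exact hA
  have c2 : |A0 * (bj d (z * s) - bj d (z0 * s))| ≤ A0 * (1 / (2 * d) * δ) := by
    rw [abs_mul, abs_of_nonneg hA0]
    exact mul_le_mul_of_nonneg_left b2 hA0
  have c3 : |A0 * (bj d (z0 * s) - T)| ≤ τ := by
    rw [abs_mul, abs_of_nonneg hA0]
    exact (mul_le_mul_of_nonneg_left (b3.trans b4) hA0).trans hτ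
  have e : A * bj d (z * s) - A0 * T
      = (A - A0) * bj d (z * s) + A0 * (bj d (z * s) - bj d (z0 * s)) + A0 * (bj d (z0 * s) - T) := by
    ring
  rw [e]
  exact (abs_add_le _ _).trans (add_le_add ((abs_add_le _ _).trans (add_le_add c1 c2)) c3)

/-- second derivative of `(1-s)^3 Gb s` -/
noncomputable def NE_P2 (s : ℝ) : ℝ :=
  (241936367 / 50000000) + (-1385318037 / 125000000) * s +
    (2398541037 / 250000000) * s ^ 2 + (-218957509 / 50000000) * s ^ 3 +
    (12366561 / 10000000) * s ^ 4 + (-118896771 / 500000000) * s ^ 5 +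
    (4147829 / 125000000) * s ^ 6 + (-219771 / 62500000) * s ^ 7 +
    (7317 / 25000000) * s ^ 8 + (-1947 / 100000000) * s ^ 9 + (231 / 250000000) * s ^ 10

/-- third derivative of `(1-s)^3 Gb s` -/
noncomputable def NE_P3 (s : ℝ) : ℝ :=
  (-1385318037 / 125000000) + (2398541037 / 125000000) * s +
    (-656872527 / 50000000) * s ^ 2 + (12366561 / 2500000) * s ^ 3 +
    (-118896771 / 100000000) * s ^ 4 + (12443487 / 62500000) * s ^ 5 +
    (-1538397 / 62500000) * s ^ 6 + (7317 / 3125000) * s ^ 7 +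
    (-17523 / 100000000) * s ^ 8 + (231 / 25000000) * s ^ 9

theorem NE_S8 (x : ℝ) : ∑ k ∈ Finset.range 10, BjA_c 8 k * (-x) ^ k =
    (1) + (-1 / 16) * x + (1 / 640) * x ^ 2 + (-1 / 46080) * x ^ 3 + (1 / 5160960) * x ^ 4 +
    (-1 / 825753600) * x ^ 5 + (1 / 178362777600) * x ^ 6 + (-1 / 49941577728000) * x ^ 7 +
    (1 / 17579435360256000) * x ^ 8 + (-1 / 7594316075630592000) * x ^ 9 := by
  simp only [Finset.sum_range_succ, Finset.sum_range_zero, BjA_c, Finset.prod_range_succ,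
    Finset.prod_range_zero, Nat.factorial]
  norm_num
  ring

theorem NE_S10 (x : ℝ) : ∑ k ∈ Finset.range 10, BjA_c 10 k * (-x) ^ k =
    (1) + (-1 / 20) * x + (1 / 960) * x ^ 2 + (-1 / 80640) * x ^ 3 + (1 / 10321920) * x ^ 4 +
    (-1 / 1857945600) * x ^ 5 + (1 / 445906944000) * x ^ 6 +
    (-1 / 137339338752000) * x ^ 7 + (1 / 52738306080768000) * x ^ 8 +
    (-1 / 24681527245799424000) * x ^ 9 := by
  simp only [Finset.sum_range_succ, Finset.sum_range_zero, BjA_c, Finset.prod_range_succ,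
    Finset.prod_range_zero, Nat.factorial]
  norm_num
  ring

theorem NE_S12 (x : ℝ) : ∑ k ∈ Finset.range 10, BjA_c 12 k * (-x) ^ k =
    (1) + (-1 / 24) * x + (1 / 1344) * x ^ 2 + (-1 / 129024) * x ^ 3 +
    (1 / 18579456) * x ^ 4 + (-1 / 3715891200) * x ^ 5 + (1 / 980995276800) * x ^ 6 +
    (-1 / 329614413004800) * x ^ 7 + (1 / 137119595809996800) * x ^ 8 +
    (-1 / 69108276288238387200) * x ^ 9 := by
  simp only [Finset.sum_range_succ, Finset.sum_range_zero, BjA_c, Finset.prod_range_succ,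
    Finset.prod_range_zero, Nat.factorial]
  norm_num
  ring

theorem NE_poly (s : ℝ) (h0 : 0 ≤ s) (h1 : s ≤ 1) :
    |-(42382 / 100000 * (5783186 / 1000000) ^ 3 / 384 *
          ∑ k ∈ Finset.range 10, BjA_c 8 k * (-(5783186 / 1000000 * s)) ^ k)
        - (26374616 / 1000000) ^ 2 / 64 *
          ∑ k ∈ Finset.range 10, BjA_c 10 k * (-(26374616 / 1000000 * s)) ^ k
        + s * ((26374616 / 1000000) ^ 3 / 3840 *
          ∑ k ∈ Finset.range 10, BjA_c 12 k * (-(26374616 / 1000000 * s)) ^ k) - NE_P3 s|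
      ≤ 1 / 100000 := by
  rw [NE_S8, NE_S10, NE_S12]
  have e : -(42382 / 100000 * (5783186 / 1000000) ^ 3 / 384 *
          ((1) + (-1 / 16) * (5783186 / 1000000 * s) + (1 / 640) * (5783186 / 1000000 * s) ^ 2 +
    (-1 / 46080) * (5783186 / 1000000 * s) ^ 3 +
    (1 / 5160960) * (5783186 / 1000000 * s) ^ 4 +
    (-1 / 825753600) * (5783186 / 1000000 * s) ^ 5 +
    (1 / 178362777600) * (5783186 / 1000000 * s) ^ 6 +
    (-1 / 49941577728000) * (5783186 / 1000000 * s) ^ 7 +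
    (1 / 17579435360256000) * (5783186 / 1000000 * s) ^ 8 +
    (-1 / 7594316075630592000) * (5783186 / 1000000 * s) ^ 9))
        - (26374616 / 1000000) ^ 2 / 64 *
          ((1) + (-1 / 20) * (26374616 / 1000000 * s) + (1 / 960) * (26374616 / 1000000 * s) ^ 2 +
    (-1 / 80640) * (26374616 / 1000000 * s) ^ 3 +
    (1 / 10321920) * (26374616 / 1000000 * s) ^ 4 +
    (-1 / 1857945600) * (26374616 / 1000000 * s) ^ 5 +
    (1 / 445906944000) * (26374616 / 1000000 * s) ^ 6 +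
    (-1 / 137339338752000) * (26374616 / 1000000 * s) ^ 7 +
    (1 / 52738306080768000) * (26374616 / 1000000 * s) ^ 8 +
    (-1 / 24681527245799424000) * (26374616 / 1000000 * s) ^ 9)
        + s * ((26374616 / 1000000) ^ 3 / 3840 *
          ((1) + (-1 / 24) * (26374616 / 1000000 * s) + (1 / 1344) * (26374616 / 1000000 * s) ^ 2 +
    (-1 / 129024) * (26374616 / 1000000 * s) ^ 3 +
    (1 / 18579456) * (26374616 / 1000000 * s) ^ 4 +
    (-1 / 3715891200) * (26374616 / 1000000 * s) ^ 5 +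
    (1 / 980995276800) * (26374616 / 1000000 * s) ^ 6 +
    (-1 / 329614413004800) * (26374616 / 1000000 * s) ^ 7 +
    (1 / 137119595809996800) * (26374616 / 1000000 * s) ^ 8 +
    (-1 / 69108276288238387200) * (26374616 / 1000000 * s) ^ 9)) - NE_P3 s =
    (-3055735195029224687 / 2400000000000000000000000) +
    (-2064719511871579699881203 / 6400000000000000000000000000000) * s +
    (821071914166474223703747286837411 / 1152000000000000000000000000000000000000) * s ^ 2 +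
    (-30988180027589370992016169393972116166687 / 96768000000000000000000000000000000000000000000) * s ^ 3 +
    (-2741874240291681381950976647985494414271010781 / 28672000000000000000000000000000000000000000000000000) * s ^ 4 +
    (88985171290416362357718748978399103856643873435175184319 / 557383680000000000000000000000000000000000000000000000000000000) * s ^ 5 +
    (76341430916392115996276754694994129589030155273876081956340791 / 955514880000000000000000000000000000000000000000000000000000000000000) * s ^ 6 +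
    (1782169547096534807627270116111847664102026987009291060326132132353668383 / 3433483468800000000000000000000000000000000000000000000000000000000000000000000) * s ^ 7 +
    (-120801634559140091743241486605650669156931719442440961737789790542004047651758923 / 70631659929600000000000000000000000000000000000000000000000000000000000000000000000000) * s ^ 8 +
    (758107206757670344502629209109323171280587871917955035027426967532469061325509807029508283 / 462778635858739200000000000000000000000000000000000000000000000000000000000000000000000000000000) * s ^ 9 +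
    (-1648746547868602708857102421600962772498536888452556279035850796483160255875921 / 3861725868000000000000000000000000000000000000000000000000000000000000000000000000000) * s ^ 10 := by
    unfold NE_P3
    ring
  rw [e]
  have p : ∀ k : ℕ, 0 ≤ s ^ k ∧ s ^ k ≤ 1 := fun k => ⟨pow_nonneg h0 k, pow_le_one₀ h0 h1⟩
  have p1 := p 1
  rw [pow_one] at p1
  have p2 := p 2
  have p3 := p 3
  have p4 := p 4
  have p5 := p 5
  have p6 := p 6
  have p7 := p 7
  have p8 := p 8
  have p9 := p 9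
  have p10 := p 10
  rw [abs_le]
  constructor
  · linarith [p1.1, p1.2, p2.1, p2.2, p3.1, p3.2, p4.1, p4.2, p5.1, p5.2, p6.1, p6.2, p7.1, p7.2,
      p8.1, p8.2, p9.1, p9.2, p10.1, p10.2]
  · linarith [p1.1, p1.2, p2.1, p2.2, p3.1, p3.2, p4.1, p4.2, p5.1, p5.2, p6.1, p6.2, p7.1, p7.2,
      p8.1, p8.2, p9.1, p9.2, p10.1, p10.2]

theorem rho_lo : 42379 / 100000 ≤ F0 2 2 1 := by
  have hu := abs_le.1 (enc_uh2 1 (by norm_num) le_rfl)
  have hv := abs_le.1 (enc_uh6 1 (by norm_num) le_rfl)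
  have e : ub 1 = (780287 / 1250000 : ℝ) := by
    unfold ub
    norm_num
  have e2 : vb 1 = (26455897 / 100000000 : ℝ) := by
    unfold vb
    norm_num
  rw [e] at hu
  rw [e2] at hv
  rw [NE_rho, le_div_iff₀ NE_uh2_pos]
  linarith [hu.1, hu.2, hv.1, hv.2]

theorem rho_hi : F0 2 2 1 ≤ 42385 / 100000 := by
  have hu := abs_le.1 (enc_uh2 1 (by norm_num) le_rfl)
  have hv := abs_le.1 (enc_uh6 1 (by norm_num) le_rfl)
  have e : ub 1 = (780287 / 1250000 : ℝ) := by
    unfold ub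
    norm_num
  have e2 : vb 1 = (26455897 / 100000000 : ℝ) := by
    unfold vb
    norm_num
  rw [e] at hu
  rw [e2] at hv
  rw [NE_rho, div_le_iff₀ NE_uh2_pos]
  linarith [hu.1, hu.2, hv.1, hv.2]

theorem gg_hasDerivAt (s : ℝ) :
    HasDerivAt gg (F0 2 2 1 * uder 2 s - bj 6 (bz 6 * s) - s * PrC_der 6 s) s := by
  refine (NE_gg1 s).congr_deriv ?_
  have e2 : ((2 : ℕ) : ℝ) = 2 := by norm_num
  have e4 : (2 : ℝ) + 2 = 4 := by norm_num
  have e8 : (6 : ℝ) + 2 = 8 := by norm_num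
  unfold NE_g1 uder PrC_der
  rw [e2, e4, e8]
  ring

/-- derivative of a monomial -/
theorem NE_mono (c : ℝ) (n : ℕ) (t : ℝ) :
    HasDerivAt (fun t : ℝ => c * t ^ (n + 1)) (c * ((n + 1) * t ^ n)) t := by
  refine ((hasDerivAt_pow (n + 1) t).const_mul c).congr_deriv ?_
  push_cast
  simp

theorem NE_g3_bound (s : ℝ) (h0 : 0 ≤ s) (h1 : s ≤ 1) :
    |NE_g3 (F0 2 2 1) (bz 2) (bz 6) s - NE_P3 s| ≤ 1 / 10000 := by
  have l1 := bz2_lo
  have l2 := bz2_hi
  have m1 := bz6_lo
  have m2 := bz6_hi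
  have r1 := rho_lo
  have r2 := rho_hi
  set r := F0 2 2 1
  set l := bz 2
  set m := bz 6
  have hl : 0 ≤ l := by linarith
  have hm : 0 ≤ m := by linarith
  have hr : 0 ≤ r := by linarith
  have t1 := NE_rep 8 (by norm_num) (r * l ^ 3 / 384) (42382 / 100000 * (5783186 / 1000000) ^ 3 / 384)
    l (5783186 / 1000000) s (16 / 1000000) (1 / 1000000) (1 / 10000000) hl (by norm_num) h0 h1
    (by
      have a : r * l ^ 3 / 384 ≤ 42385 / 100000 * (5783187 / 1000000) ^ 3 / 384 := by gcongr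
      have b : 42379 / 100000 * (5783185 / 1000000) ^ 3 / 384 ≤ r * l ^ 3 / 384 := by gcongr
      rw [abs_le]
      constructor <;> norm_num at a b ⊢ <;> linarith)
    (by rw [abs_le]; constructor <;> linarith) (by norm_num)
    (by
      simp only [BjA_c, Finset.prod_range_succ, Finset.prod_range_zero, Nat.factorial]
      norm_num)
  have t2 := NE_rep 10 (by norm_num) (m ^ 2 / 64) ((26374616 / 1000000) ^ 2 / 64)
    m (26374616 / 1000000) s (6 / 1000000) (6 / 1000000) (2 / 10000000) hm (by norm_num) h0 h1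
    (by
      have a : m ^ 2 / 64 ≤ (2637462 / 100000) ^ 2 / 64 := by gcongr
      have b : (2637461 / 100000) ^ 2 / 64 ≤ m ^ 2 / 64 := by gcongr
      rw [abs_le]
      constructor <;> norm_num at a b ⊢ <;> linarith)
    (by rw [abs_le]; constructor <;> linarith) (by norm_num)
    (by
      simp only [BjA_c, Finset.prod_range_succ, Finset.prod_range_zero, Nat.factorial]
      norm_num)
  have t3 := NE_rep 12 (by norm_num) (m ^ 3 / 3840) ((26374616 / 1000000) ^ 3 / 3840)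
    m (26374616 / 1000000) s (6 / 1000000) (6 / 1000000) (2 / 10000000) hm (by norm_num) h0 h1
    (by
      have a : m ^ 3 / 3840 ≤ (2637462 / 100000) ^ 3 / 3840 := by gcongr
      have b : (2637461 / 100000) ^ 3 / 3840 ≤ m ^ 3 / 3840 := by gcongr
      rw [abs_le]
      constructor <;> norm_num at a b ⊢ <;> linarith)
    (by rw [abs_le]; constructor <;> linarith) (by norm_num)
    (by
      simp only [BjA_c, Finset.prod_range_succ, Finset.prod_range_zero, Nat.factorial]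
      norm_num)
  have t4 := NE_poly s h0 h1
  unfold NE_g3
  set T1 := ∑ k ∈ Finset.range 10, BjA_c 8 k * (-(5783186 / 1000000 * s)) ^ k
  set T2 := ∑ k ∈ Finset.range 10, BjA_c 10 k * (-(26374616 / 1000000 * s)) ^ k
  set T3 := ∑ k ∈ Finset.range 10, BjA_c 12 k * (-(26374616 / 1000000 * s)) ^ k
  have t3' : |s * (m ^ 3 / 3840 * bj 12 (m * s)) - s * ((26374616 / 1000000) ^ 3 / 3840 * T3)|
      ≤ 6 / 1000000 + (26374616 / 1000000) ^ 3 / 3840 * (1 / (2 * 12) * (6 / 1000000)) + 2 / 10000000 := by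
    rw [← mul_sub, abs_mul, abs_of_nonneg h0]
    exact (mul_le_of_le_one_left (abs_nonneg _) h1).trans t3
  rw [abs_le] at t1 t2 t3' t4 ⊢
  norm_num at t1 t2 t3' t4 ⊢
  constructor <;> linarith [t1.1, t1.2, t2.1, t2.2, t3'.1, t3'.2, t4.1, t4.2]

theorem NE_D2 (s : ℝ) (h0 : 0 ≤ s) (h1 : s ≤ 1) :
    |NE_g2 (F0 2 2 1) (bz 2) (bz 6) s - NE_P2 s| ≤ 1 / 10000 * (1 - s) := by
  have hd : ∀ t, HasDerivAt (fun t => NE_g2 (F0 2 2 1) (bz 2) (bz 6) t - NE_P2 t)
      (NE_g3 (F0 2 2 1) (bz 2) (bz 6) t - NE_P3 t) t := by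
    intro t
    refine (NE_gg3 _ _ _ t).sub ?_
    have h : HasDerivAt NE_P2 (NE_P3 t) t := by
      have e : NE_P2 = fun t => (241936367 / 50000000) + (-1385318037 / 125000000) * t ^ 1 + (2398541037 /
          250000000) * t ^ 2 + (-218957509 / 50000000) * t ^ 3 + (12366561 / 10000000) * t ^ 4
          + (-118896771 / 500000000) * t ^ 5 + (4147829 / 125000000) * t ^ 6 + (-219771 /
          62500000) * t ^ 7 + (7317 / 25000000) * t ^ 8 + (-1947 / 100000000) * t ^ 9 + (231 /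
          250000000) * t ^ 10 := by
        funext t
        unfold NE_P2
        ring
      rw [e]
      have := (((((((((((hasDerivAt_const t ((241936367 / 50000000) : ℝ)).add (NE_mono (-1385318037
        / 125000000) 0 t)).add (NE_mono (2398541037 / 250000000) 1 t)).add (NE_mono
        (-218957509 / 50000000) 2 t)).add (NE_mono (12366561 / 10000000) 3 t)).add (NE_mono
        (-118896771 / 500000000) 4 t)).add (NE_mono (4147829 / 125000000) 5 t)).add (NE_mono
        (-219771 / 62500000) 6 t)).add (NE_mono (7317 / 25000000) 7 t)).add (NE_mono (-1947 /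
        100000000) 8 t)).add (NE_mono (231 / 250000000) 9 t))
      refine this.congr_deriv ?_
      unfold NE_P3
      ring
    exact h
  have h := NE_int _ _ (1 / 10000) 0 hd ?_ (fun t ht0 ht1 => by simpa using NE_g3_bound t ht0 ht1) s h0 h1
  · simpa using h
  · rw [NE_g2_one]
    unfold NE_P2
    norm_num

theorem NE_D1 (s : ℝ) (h0 : 0 ≤ s) (h1 : s ≤ 1) :
    |NE_g1 (F0 2 2 1) (bz 2) (bz 6) s - (1 - s) ^ 2 * Gt s| ≤ 1 / 20000 * (1 - s) ^ 2 := by
  have hd : ∀ t, HasDerivAt (fun t => NE_g1 (F0 2 2 1) (bz 2) (bz 6) t - (1 - t) ^ 2 * Gt t)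
      (NE_g2 (F0 2 2 1) (bz 2) (bz 6) t - NE_P2 t) t := by
    intro t
    refine (NE_gg2 _ _ _ t).sub ?_
    have e : (fun t => (1 - t) ^ 2 * Gt t) = fun t => (-1612752817 / 1000000000) + (241936367 / 50000000) * t ^ 1 + (-1385318037 /
        250000000) * t ^ 2 + (799513679 / 250000000) * t ^ 3 + (-218957509 / 200000000) * t ^
        4 + (12366561 / 50000000) * t ^ 5 + (-39632257 / 1000000000) * t ^ 6 + (592547 /
        125000000) * t ^ 7 + (-219771 / 500000000) * t ^ 8 + (813 / 25000000) * t ^ 9 + (-1947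
        / 1000000000) * t ^ 10 + (21 / 250000000) * t ^ 11 := by
      funext t
      unfold Gt
      ring
    rw [e]
    have := ((((((((((((hasDerivAt_const t ((-1612752817 / 1000000000) : ℝ)).add (NE_mono (241936367
      / 50000000) 0 t)).add (NE_mono (-1385318037 / 250000000) 1 t)).add (NE_mono (799513679 /
      250000000) 2 t)).add (NE_mono (-218957509 / 200000000) 3 t)).add (NE_mono (12366561 /
      50000000) 4 t)).add (NE_mono (-39632257 / 1000000000) 5 t)).add (NE_mono (592547 /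
      125000000) 6 t)).add (NE_mono (-219771 / 500000000) 7 t)).add (NE_mono (813 / 25000000)
      8 t)).add (NE_mono (-1947 / 1000000000) 9 t)).add (NE_mono (21 / 250000000) 10 t))
    refine this.congr_deriv ?_
    unfold NE_P2
    ring
  have h := NE_int _ _ (1 / 10000) 1 hd ?_ (fun t ht0 ht1 => by simpa using NE_D2 t ht0 ht1) s h0 h1
  · norm_num at h
    convert h using 2
  · rw [NE_g1_one]
    norm_num

theorem enc_g (s : ℝ) (h0 : 0 ≤ s) (h1 : s ≤ 1) : |gg s - (1 - s) ^ 3 * Gb s| ≤ (1 - s) ^ 3 / 60000 := by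
  have hd : ∀ t, HasDerivAt (fun t => gg t - (1 - t) ^ 3 * Gb t)
      (NE_g1 (F0 2 2 1) (bz 2) (bz 6) t - (1 - t) ^ 2 * Gt t) t := by
    intro t
    refine (NE_gg1 t).sub ?_
    have e : (fun t => (1 - t) ^ 3 * Gb t) = fun t => (423816783 / 1000000000) + (-1612752817 / 1000000000) * t ^ 1 + (241936367 /
        100000000) * t ^ 2 + (-461772679 / 250000000) * t ^ 3 + (799513679 / 1000000000) * t ^
        4 + (-218957509 / 1000000000) * t ^ 5 + (4122187 / 100000000) * t ^ 6 + (-5661751 /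
        1000000000) * t ^ 7 + (592547 / 1000000000) * t ^ 8 + (-24419 / 500000000) * t ^ 9 +
        (813 / 250000000) * t ^ 10 + (-177 / 1000000000) * t ^ 11 + (7 / 1000000000) * t ^ 12 := by
      funext t
      unfold Gb
      ring
    rw [e]
    have := (((((((((((((hasDerivAt_const t ((423816783 / 1000000000) : ℝ)).add (NE_mono
      (-1612752817 / 1000000000) 0 t)).add (NE_mono (241936367 / 100000000) 1 t)).add (NE_mono
      (-461772679 / 250000000) 2 t)).add (NE_mono (799513679 / 1000000000) 3 t)).add (NE_mono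
      (-218957509 / 1000000000) 4 t)).add (NE_mono (4122187 / 100000000) 5 t)).add (NE_mono
      (-5661751 / 1000000000) 6 t)).add (NE_mono (592547 / 1000000000) 7 t)).add (NE_mono
      (-24419 / 500000000) 8 t)).add (NE_mono (813 / 250000000) 9 t)).add (NE_mono (-177 /
      1000000000) 10 t)).add (NE_mono (7 / 1000000000) 11 t))
    refine this.congr_deriv ?_
    unfold Gt
    ring
  have h := NE_int _ _ (1 / 20000) 2 hd ?_ (fun t ht0 ht1 => NE_D1 t ht0 ht1) s h0 h1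
  · refine h.trans (le_of_eq ?_)
    norm_num
    ring
  · rw [NE_gg_one]
    norm_num

theorem enc_dg (s : ℝ) (h0 : 0 ≤ s) (h1 : s ≤ 1) :
    |deriv gg s - (1 - s) ^ 2 * Gt s| ≤ (1 - s) ^ 2 / 20000 := by
  rw [(NE_gg1 s).deriv]
  refine (NE_D1 s h0 h1).trans (le_of_eq ?_)
  ring

end Pool.Agent.H94.SP
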