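import Pool.Agent.H94.SP.Defs

/-!
# OddA: uncertainty inequality in one direction

* `uncert`: integration by parts (`u ∈ C^1_c`, `w ∈ C^1`; e.g. `integral_mul_fderiv_eq_neg_fderiv_mul_of_integrable`, or the proof of `TrB_ibp`):
  `∫ u^2 ∂_e w = - ∫ 2 u (∂_e u) w`, and Cauchy-Schwarz `(∫ (u w)(∂_e u))^2 ≤ ∫ (u w)^2 ∫ (∂_e u)^2`
  (e.g. from `0 ≤ ∫ (a ∂_e u + b u w)^2` for all `a, b`).
* `energy_split`: `|∇u|^2 = (∂_e u)^2 + (∂_{e'} u)^2` for the orthonormal basis `e, e' = rot e`, `rot e = (-e_1, e_0)`: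
  `fderiv u x e = e_0 pd 0 u x + e_1 pd 1 u x` (`fderiv_eq_sum`), `e_0^2 + e_1^2 = 1`.
-/

set_option autoImplicit false

open MeasureTheory Pool.Agent.H94.ER

namespace Pool.Agent.H94.SP

/-- rotation by a quarter turn -/
noncomputable def rot (e : E 2) : E 2 := !₂[-(e 1), e 0]

theorem OddA_rot0 (e : E 2) : rot e 0 = -(e 1) := by
  simp [rot]

theorem OddA_rot1 (e : E 2) : rot e 1 = e 0 := by
  simp [rot]

theorem rot_norm (e : E 2) (he : ‖e‖ = 1) : ‖rot e‖ = 1 := by
  have h1 := sum_coord_sq e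
  have h2 := sum_coord_sq (rot e)
  rw [Fin.sum_univ_two, he] at h1
  rw [Fin.sum_univ_two, OddA_rot0, OddA_rot1] at h2
  have h3 : ‖rot e‖ ^ 2 = 1 := by
    rw [← h2]
    linarith
  have h4 : 0 ≤ ‖rot e‖ := norm_nonneg _
  nlinarith

theorem OddA_cont (u : E 2 → ℝ) (hu : ContDiff ℝ 1 u) (e : E 2) :
    Continuous fun x => fderiv ℝ u x e :=
  (hu.continuous_fderiv (by norm_num)).clm_apply continuous_const

theorem OddA_cs (u : E 2 → ℝ) (hc : HasCompactSupport u) (e : E 2) :
    HasCompactSupport fun x => fderiv ℝ u x e :=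
  (hc.fderiv (𝕜 := ℝ)).comp_left (g := fun L : E 2 →L[ℝ] ℝ => L e) rfl

theorem uncert (u w : E 2 → ℝ) (hu : ContDiff ℝ 1 u) (hc : HasCompactSupport u) (hw : ContDiff ℝ 1 w)
    (e : E 2) :
    (∫ x, u x ^ 2 * fderiv ℝ w x e) ^ 2
      ≤ 4 * (∫ x, u x ^ 2 * w x ^ 2) * ∫ x, (fderiv ℝ u x e) ^ 2 := by
  have hD := OddA_cont u hu e
  have hDc := OddA_cs u hc e
  have hsq : ContDiff ℝ 1 (fun x => u x ^ 2) := hu.pow 2
  have hcs : HasCompactSupport (fun x => u x ^ 2) :=
    hc.comp_left (g := fun t : ℝ => t ^ 2) (by norm_num)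
  have e1 : ∀ x, fderiv ℝ (fun x => u x ^ 2) x e = 2 * (u x * fderiv ℝ u x e) := by
    intro x
    have hd : HasFDerivAt u (fderiv ℝ u x) x := (hu.differentiable (by norm_num) x).hasFDerivAt
    have h5 : (fun x => u x ^ 2) = fun x => u x * u x := by
      funext y; ring
    have h6 := (hd.mul hd).fderiv
    have h7 : fderiv ℝ (fun x => u x * u x) x = u x • fderiv ℝ u x + u x • fderiv ℝ u x := h6
    rw [h5, h7]
    simp
    ring
  have i1 : Integrable (fun x => fderiv ℝ (fun x => u x ^ 2) x e * w x) :=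
    ((OddA_cont _ hsq e).mul hw.continuous).integrable_of_hasCompactSupport
      (OddA_cs _ hcs e).mul_right
  have i2 : Integrable (fun x => u x ^ 2 * fderiv ℝ w x e) :=
    (hsq.continuous.mul (OddA_cont _ hw e)).integrable_of_hasCompactSupport hcs.mul_right
  have i3 : Integrable (fun x => u x ^ 2 * w x) :=
    (hsq.continuous.mul hw.continuous).integrable_of_hasCompactSupport hcs.mul_right
  have key := integral_mul_fderiv_eq_neg_fderiv_mul_of_integrable (μ := (volume : Measure (E 2)))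
    (f := fun x => u x ^ 2) (g := w) (v := e) i1 i2 i3
    (fun x _ => hsq.differentiable (by norm_num) x) (fun x _ => hw.differentiable (by norm_num) x)
  have key2 : ∫ x, u x ^ 2 * fderiv ℝ w x e = -(2 * ∫ x, (u x * w x) * fderiv ℝ u x e) := by
    rw [← integral_const_mul]
    refine key.trans ?_
    congr 1
    refine integral_congr_ae (Filter.Eventually.of_forall fun x => ?_)
    show fderiv ℝ (fun x => u x ^ 2) x e * w x = 2 * ((u x * w x) * fderiv ℝ u x e)
    rw [e1]
    ring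
  have j1 : Integrable (fun x => u x ^ 2 * w x ^ 2) :=
    (hsq.continuous.mul (hw.continuous.pow 2)).integrable_of_hasCompactSupport hcs.mul_right
  have j2 : Integrable (fun x => (u x * w x) * fderiv ℝ u x e) :=
    ((hu.continuous.mul hw.continuous).mul hD).integrable_of_hasCompactSupport hDc.mul_left
  have j3 : Integrable (fun x => (fderiv ℝ u x e) ^ 2) := by
    have : HasCompactSupport (fun x => (fderiv ℝ u x e) ^ 2) :=
      hDc.comp_left (g := fun t : ℝ => t ^ 2) (by norm_num)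
    exact (hD.pow 2).integrable_of_hasCompactSupport this
  have hquad : ∀ t : ℝ, 0 ≤ (∫ x, u x ^ 2 * w x ^ 2) * (t * t) +
      (2 * ∫ x, (u x * w x) * fderiv ℝ u x e) * t + ∫ x, (fderiv ℝ u x e) ^ 2 := by
    intro t
    have h1 : 0 ≤ ∫ x, (t * (u x * w x) + fderiv ℝ u x e) ^ 2 := integral_nonneg fun x => sq_nonneg _
    have h2 : ∫ x, (t * (u x * w x) + fderiv ℝ u x e) ^ 2 =
        (∫ x, u x ^ 2 * w x ^ 2) * (t * t) + (2 * ∫ x, (u x * w x) * fderiv ℝ u x e) * t +
          ∫ x, (fderiv ℝ u x e) ^ 2 := by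
      have h3 : ∀ x, (t * (u x * w x) + fderiv ℝ u x e) ^ 2 =
          (t * t) * (u x ^ 2 * w x ^ 2) + (2 * t) * ((u x * w x) * fderiv ℝ u x e) +
            (fderiv ℝ u x e) ^ 2 := fun x => by ring
      simp only [h3]
      have a1 := (j1.const_mul (t * t))
      have a2 := (j2.const_mul (2 * t))
      have h4 := integral_add (a1.add a2) j3
      have h5 := integral_add a1 a2
      have h6 : ∫ x, ((t * t) * (u x ^ 2 * w x ^ 2) + (2 * t) * ((u x * w x) * fderiv ℝ u x e) +
            (fderiv ℝ u x e) ^ 2) = (∫ x, ((t * t) * (u x ^ 2 * w x ^ 2) +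
            (2 * t) * ((u x * w x) * fderiv ℝ u x e))) + ∫ x, (fderiv ℝ u x e) ^ 2 := h4
      rw [h6, h5, integral_const_mul, integral_const_mul]
      ring
    rw [← h2]
    exact h1
  have hdisc := discrim_le_zero (fun x => hquad x)
  unfold discrim at hdisc
  rw [key2]
  nlinarith

theorem energy_split (u : E 2 → ℝ) (hu : ContDiff ℝ 1 u) (hc : HasCompactSupport u) (e : E 2)
    (he : ‖e‖ = 1) :
    (∫ x, (fderiv ℝ u x e) ^ 2) + (∫ x, (fderiv ℝ u x (rot e)) ^ 2) = energy u := by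
  have hj : ∀ v : E 2, Integrable (fun x => (fderiv ℝ u x v) ^ 2) := by
    intro v
    have h1 := OddA_cont u hu v
    have : HasCompactSupport (fun x => (fderiv ℝ u x v) ^ 2) :=
      (OddA_cs u hc v).comp_left (g := fun t : ℝ => t ^ 2) (by norm_num)
    exact (h1.pow 2).integrable_of_hasCompactSupport this
  rw [← integral_add (hj e) (hj (rot e))]
  unfold energy
  refine integral_congr_ae (Filter.Eventually.of_forall fun x => ?_)
  have h1 := sum_coord_sq e
  rw [Fin.sum_univ_two, he] at h1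
  show (fderiv ℝ u x e) ^ 2 + (fderiv ℝ u x (rot e)) ^ 2 = dot u u x
  unfold dot
  rw [fderiv_eq_sum, fderiv_eq_sum, Fin.sum_univ_two, Fin.sum_univ_two, Fin.sum_univ_two,
    OddA_rot0, OddA_rot1]
  have h2 : e 0 ^ 2 + e 1 ^ 2 = 1 := by rw [h1]; norm_num
  linear_combination (pd 0 u x ^ 2 + pd 1 u x ^ 2) * h2

end Pool.Agent.H94.SP
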