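import Pool.Agent.H94.ER.BaC

/-!
# PpA: translation invariance of `dirEig`

For `a : E N`, `Ω_a = {x | x + a ∈ Ω}` and `u_a x = u (x + a)`: `IsTest Ω u → IsTest Ω_a u_a`, same mass and energy
(`integral_add_right_eq_self`, `pd i u_a x = pd i u (x + a)`), `u ↦ u_a` is a linear bijection of the test functions, so the two
sets of admissible `c` in the definition of `dirEig` coincide.
-/

set_option autoImplicit false

open MeasureTheory

namespace Pool.Agent.H94.SP

open Pool.Agent.H94.ER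

variable {N : ℕ}

/-- translated set -/
def trS (a : E N) (Ω : Set (E N)) : Set (E N) := {x | x + a ∈ Ω}

theorem trS_open (a : E N) (Ω : Set (E N)) (hΩ : IsOpen Ω) : IsOpen (trS a Ω) := by
  exact hΩ.preimage (continuous_add_const a)

theorem isTest_tr (a : E N) (Ω : Set (E N)) (u : E N → ℝ) (hu : IsTest Ω u) :
    IsTest (trS a Ω) (fun x => u (x + a)) := by
  obtain ⟨h1, h2, h3⟩ := hu
  have hcomp : (fun x => u (x + a)) = u ∘ (Homeomorph.addRight a) := rfl
  refine ⟨h1.comp (contDiff_id.add contDiff_const), ?_, ?_⟩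
  · rw [hcomp]
    exact h2.comp_homeomorph _
  · rw [hcomp, tsupport_comp_eq_preimage]
    intro x hx
    exact h3 hx

theorem mass_tr (a : E N) (u : E N → ℝ) : mass (fun x => u (x + a)) = mass u := by
  unfold mass
  exact integral_add_right_eq_self (fun x => u x ^ 2) a

theorem PpA_fderiv (a : E N) (u : E N → ℝ) (x : E N) :
    fderiv ℝ (fun x => u (x + a)) x = fderiv ℝ u (x + a) := fderiv_comp_add_right a

theorem energy_tr (a : E N) (u : E N → ℝ) : energy (fun x => u (x + a)) = energy u := by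
  unfold energy
  have h1 : (fun x => dot (fun x => u (x + a)) (fun x => u (x + a)) x) =
      fun x => dot u u (x + a) := by
    funext x
    unfold dot pd
    rw [PpA_fderiv]
  rw [h1]
  exact integral_add_right_eq_self (fun x => dot u u x) a

theorem PpA_sub (a : E N) (Ω : Set (E N)) (k : ℕ) (c : ℝ)
    (h : ∃ V : Submodule ℝ (E N → ℝ), Module.finrank ℝ V = k ∧
      ∀ u ∈ V, IsTest Ω u ∧ ∫ x, ‖fderiv ℝ u x‖ ^ 2 ≤ c * ∫ x, u x ^ 2) :
    ∃ V : Submodule ℝ (E N → ℝ), Module.finrank ℝ V = k ∧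
      ∀ u ∈ V, IsTest (trS a Ω) u ∧ ∫ x, ‖fderiv ℝ u x‖ ^ 2 ≤ c * ∫ x, u x ^ 2 := by
  obtain ⟨V, hV, hu⟩ := h
  refine ⟨V.map (LinearEquiv.funCongrLeft ℝ ℝ (Equiv.addRight a)).toLinearMap, ?_, ?_⟩
  · rw [← hV]
    exact LinearEquiv.finrank_map_eq _ V
  · rintro _ ⟨u, huV, rfl⟩
    obtain ⟨h1, h2⟩ := hu u huV
    have h3 : (LinearEquiv.funCongrLeft ℝ ℝ (Equiv.addRight a)).toLinearMap u =
        fun x => u (x + a) := rfl
    rw [h3]
    refine ⟨isTest_tr a Ω u h1, ?_⟩
    have h4 : ∫ x, ‖fderiv ℝ (fun x => u (x + a)) x‖ ^ 2 = ∫ x, ‖fderiv ℝ u x‖ ^ 2 := by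
      simp only [PpA_fderiv]
      exact integral_add_right_eq_self (fun x => ‖fderiv ℝ u x‖ ^ 2) a
    have h5 : ∫ x, u (x + a) ^ 2 = ∫ x, u x ^ 2 :=
      integral_add_right_eq_self (fun x => u x ^ 2) a
    rw [h4, h5]
    exact h2

theorem PpA_inv (a : E N) (Ω : Set (E N)) : trS (-a) (trS a Ω) = Ω := by
  ext x
  simp [trS]

theorem dirEig_tr (a : E N) (Ω : Set (E N)) (k : ℕ) : dirEig (trS a Ω) k = dirEig Ω k := by
  unfold dirEig
  congr 1
  ext c
  constructor
  · intro h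
    have := PpA_sub (-a) (trS a Ω) k c h
    rwa [PpA_inv] at this
  · intro h
    exact PpA_sub a Ω k c h

end Pool.Agent.H94.SP
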